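import Mathlib

/-!
# SG DuvZ: a bounded function with the sub-mean property which tends to zero at both ends of the strip direction

If `ψ ≥ 0` is continuous and bounded on `ℂ`, is at most its mean over every circle about `z₀`, and `ψ z → 0` as `|re z| → ∞`, uniformly, then `ψ z₀ = 0`.
-/

set_option autoImplicit false

open Topology Filter Metric MeasureTheory

namespace Pool.Agent.SG

/-- for all `θ` outside a countable set the circle points go to infinity in the real direction -/
private theorem dz_ae_cos : ∀ᵐ θ : ℝ, Real.cos θ ≠ 0 := by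
  have h : {θ : ℝ | Real.cos θ = 0} ⊆ Set.range fun k : ℤ => (2 * (k : ℝ) + 1) * Real.pi / 2 := by
    intro θ hθ
    obtain ⟨k, hk⟩ := Real.cos_eq_zero_iff.1 hθ
    exact ⟨k, hk.symm⟩
  have h2 : (volume : Measure ℝ) {θ : ℝ | Real.cos θ = 0} = 0 :=
    ((Set.countable_range _).mono h).measure_zero _
  rw [ae_iff]
  simpa using h2

/-- MODULE DuvZ. -/
theorem duv_zero {ψ : ℂ → ℝ} (hc : Continuous ψ) (h0 : ∀ z, 0 ≤ ψ z) {B : ℝ} (hB : ∀ z, ψ z ≤ B) {z₀ : ℂ}
    (hsub : ∀ r : ℝ, 0 < r → ψ z₀ ≤ Real.circleAverage ψ z₀ r) (hlim : ∀ ε : ℝ, 0 < ε → ∃ L : ℝ, ∀ z : ℂ, L ≤ |z.re| → ψ z ≤ ε) :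
    ψ z₀ = 0 := by
  have key : Tendsto (fun n : ℕ => ∫ θ in (0 : ℝ)..2 * Real.pi, ψ (circleMap z₀ n θ)) atTop (𝓝 (∫ _ in (0 : ℝ)..2 * Real.pi, (0 : ℝ))) := by
    refine intervalIntegral.tendsto_integral_filter_of_dominated_convergence (fun _ => B) ?_ ?_ ?_ ?_
    · exact Eventually.of_forall fun n => (hc.comp (continuous_circleMap z₀ n)).aestronglyMeasurable
    · refine Eventually.of_forall fun n => Eventually.of_forall fun θ _ => ?_
      rw [Real.norm_of_nonneg (h0 _)]
      exact hB _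
    · exact intervalIntegrable_const
    · filter_upwards [dz_ae_cos] with θ hθ _
      rw [Metric.tendsto_atTop]
      intro ε hε
      obtain ⟨L, hL⟩ := hlim (ε / 2) (by linarith)
      obtain ⟨N, hN⟩ := exists_nat_gt ((L + |z₀.re|) / |Real.cos θ|)
      refine ⟨N, fun n hn => ?_⟩
      have hcos : 0 < |Real.cos θ| := abs_pos.2 hθ
      have h1 : L + |z₀.re| < n * |Real.cos θ| := by
        have h2 : (L + |z₀.re|) / |Real.cos θ| < n := hN.trans_le (by exact_mod_cast hn)
        rwa [div_lt_iff₀ hcos] at h2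
      have h3 : (circleMap z₀ n θ).re = z₀.re + n * Real.cos θ := by
        simp [circleMap, Complex.exp_re]
      have h4 : L ≤ |(circleMap z₀ n θ).re| := by
        rw [h3]
        have h5 : |(n : ℝ) * Real.cos θ| = n * |Real.cos θ| := by
          rw [abs_mul, abs_of_nonneg (Nat.cast_nonneg n)]
        have h6 : |(n : ℝ) * Real.cos θ| - |z₀.re| ≤ |z₀.re + n * Real.cos θ| := by
          have h7 := abs_sub_abs_le_abs_sub ((n : ℝ) * Real.cos θ) (-z₀.re)
          rw [abs_neg] at h7
          have h8 : (n : ℝ) * Real.cos θ - -z₀.re = z₀.re + n * Real.cos θ := by ring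
          rwa [h8] at h7
        rw [h5] at h6
        linarith
      have h9 := hL _ h4
      rw [Real.dist_eq, sub_zero, abs_of_nonneg (h0 _)]
      linarith
  have e0 : (∫ _ in (0 : ℝ)..2 * Real.pi, (0 : ℝ)) = 0 := by simp
  rw [e0] at key
  have key2 : Tendsto (fun n : ℕ => Real.circleAverage ψ z₀ n) atTop (𝓝 0) := by
    have e1 := key.const_mul (2 * Real.pi)⁻¹
    rw [mul_zero] at e1
    exact e1
  have h1 : ∀ᶠ n : ℕ in atTop, ψ z₀ ≤ Real.circleAverage ψ z₀ n := by
    filter_upwards [eventually_gt_atTop 0] with n hn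
    exact hsub n (by exact_mod_cast hn)
  exact le_antisymm (ge_of_tendsto key2 h1) (h0 z₀)

end Pool.Agent.SG
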