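import Pool.Agent.SG.DuvS
import Pool.Agent.SG.DuvZ
import Pool.Agent.H62.EF.Defs

/-!
# SG DuvC: a pseudo-length on a tangent plane with two small directions vanishes
-/

set_option autoImplicit false
set_option linter.unusedVariables false

open Topology Filter Metric MeasureTheory

noncomputable section

namespace Pool.Agent.SG

open Pool.Agent.H17BP (Surface IsChart Pr)
open Pool.Agent.H36.BP (EN)
open Pool.Agent.H14.PP (CurveAt IsCone)
open Pool.Agent.H22.W (PseudoLength tan_curve)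
open Pool.Agent.H62.EF (Charts)

variable {N : ℕ} {X : Set (EN N)}

/-- the sub-mean property of a pseudo-length on one tangent plane -/
theorem duv_fibre (hX : IsCone X) (n : PseudoLength X) {σ : ℂ × ℂ → EN N} {τ : EN N → ℂ × ℂ} (hσ : IsChart X σ τ) {W v : ℂ → ℂ × ℂ}
    (hW : ∀ z, HasDerivAt W (v z) z) (hv : Differentiable ℂ v) (z₀ : ℂ) {r : ℝ} (hr : 0 < r) :
    n.toFun (σ 0) (fderiv ℂ σ 0 (v z₀)) ^ 2 ≤ Real.circleAverage (fun z => n.toFun (σ 0) (fderiv ℂ σ 0 (v z)) ^ 2) z₀ r := by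
  have h1 : Differentiable ℂ W := fun z => (hW z).differentiableAt
  have h2 : deriv W = v := funext fun z => (hW z).deriv
  have h3 := duv_sub n hσ h1 z₀ hr
  rwa [h2] at h3

/-- the function on the tangent plane is continuous -/
private theorem dc_cont (n : PseudoLength X) {σ : ℂ × ℂ → EN N} {τ : EN N → ℂ × ℂ} (hσ : IsChart X σ τ) :
    Continuous fun w : ℂ × ℂ => n.toFun (σ 0) (fderiv ℂ σ 0 w) := by
  have h1 : Continuous fun w : ℂ × ℂ => (σ 0, fderiv ℂ σ 0 w) := continuous_const.prodMk (fderiv ℂ σ 0).continuous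
  exact n.continuous.comp_continuous h1 fun w => (tan_of_chart hσ).self_of_nhds w

/-- the function on the tangent plane vanishes on the combinations with nonzero coefficients -/
private theorem dc_zero (n : PseudoLength X) {σ : ℂ × ℂ → EN N} {τ : EN N → ℂ × ℂ} (hσ : IsChart X σ τ) {e f : ℂ × ℂ}
    (h1 : ∀ ε : ℝ, 0 < ε → ∃ κ : ℝ, 0 < κ ∧ ∀ ξ η : ℂ, ξ ≠ 0 → η ≠ 0 → ‖ξ‖ ≤ κ * ‖η‖ →
      n.toFun (σ 0) (fderiv ℂ σ 0 (ξ • f + η • e)) ^ 2 ≤ ε * (‖ξ‖ * ‖η‖))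
    (h2 : ∀ ε : ℝ, 0 < ε → ∃ κ : ℝ, 0 < κ ∧ ∀ ξ η : ℂ, ξ ≠ 0 → η ≠ 0 → ‖η‖ ≤ κ * ‖ξ‖ →
      n.toFun (σ 0) (fderiv ℂ σ 0 (ξ • f + η • e)) ^ 2 ≤ ε * (‖ξ‖ * ‖η‖)) (z : ℂ) :
    n.toFun (σ 0) (fderiv ℂ σ 0 (Complex.exp (-z / 2) • f + Complex.exp (z / 2) • e)) = 0 := by
  obtain ⟨g, hg⟩ : ∃ g : ℂ × ℂ → ℝ, g = fun w => n.toFun (σ 0) (fderiv ℂ σ 0 w) := ⟨_, rfl⟩
  have hgc : Continuous g := by
    rw [hg]
    exact dc_cont n hσ
  obtain ⟨V, hV⟩ : ∃ V : ℂ → ℂ × ℂ, V = fun z => Complex.exp (-z / 2) • f + Complex.exp (z / 2) • e := ⟨_, rfl⟩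
  obtain ⟨W, hWd⟩ : ∃ W : ℂ → ℂ × ℂ, W = fun z => (-2 * Complex.exp (-z / 2)) • f + (2 * Complex.exp (z / 2)) • e := ⟨_, rfl⟩
  have hm : ∀ z : ℂ, HasDerivAt (fun z : ℂ => Complex.exp (-z / 2)) (Complex.exp (-z / 2) * (-1 / 2)) z := fun z =>
    (((hasDerivAt_id z).neg).div_const 2).cexp
  have hp : ∀ z : ℂ, HasDerivAt (fun z : ℂ => Complex.exp (z / 2)) (Complex.exp (z / 2) * (1 / 2)) z := fun z =>
    ((hasDerivAt_id z).div_const 2).cexp
  have hW : ∀ z, HasDerivAt W (V z) z := by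
    intro z
    rw [hWd, hV]
    have g1 := (((hm z).const_mul (-2)).smul_const f).add (((hp z).const_mul 2).smul_const e)
    refine g1.congr_deriv ?_
    congr 2 <;> ring
  have hVd : Differentiable ℂ V := by
    intro z
    rw [hV]
    exact ((hm z).differentiableAt.smul_const f).add ((hp z).differentiableAt.smul_const e)
  have hVc : Continuous V := hVd.continuous
  have hn1 : ∀ z : ℂ, ‖Complex.exp (-z / 2)‖ = Real.exp (-(z.re / 2)) := by
    intro z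
    rw [Complex.norm_exp]
    congr 1
    simp [neg_div]
  have hn2 : ∀ z : ℂ, ‖Complex.exp (z / 2)‖ = Real.exp (z.re / 2) := by
    intro z
    rw [Complex.norm_exp]
    congr 1
    simp
  have hn3 : ∀ z : ℂ, ‖Complex.exp (-z / 2)‖ * ‖Complex.exp (z / 2)‖ = 1 := by
    intro z
    rw [hn1, hn2, ← Real.exp_add, neg_add_cancel, Real.exp_zero]
  -- the limits at both ends
  have hlim : ∀ ε : ℝ, 0 < ε → ∃ L : ℝ, ∀ z : ℂ, L ≤ |z.re| → g (V z) ^ 2 ≤ ε := by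
    intro ε hε
    obtain ⟨κ₁, hκ₁, hk1⟩ := h1 ε hε
    obtain ⟨κ₂, hκ₂, hk2⟩ := h2 ε hε
    refine ⟨max (-Real.log κ₁) (-Real.log κ₂), fun z hz => ?_⟩
    rcases abs_cases z.re with ⟨ha, -⟩ | ⟨ha, -⟩
    · rw [ha] at hz
      have g1 : -Real.log κ₁ ≤ z.re := (le_max_left _ _).trans hz
      have g2 : ‖Complex.exp (-z / 2)‖ ≤ κ₁ * ‖Complex.exp (z / 2)‖ := by
        rw [hn1, hn2]
        nth_rewrite 1 [← Real.exp_log hκ₁]
        rw [← Real.exp_add]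
        exact Real.exp_le_exp.2 (by linarith)
      have g3 := hk1 _ _ (Complex.exp_ne_zero _) (Complex.exp_ne_zero _) g2
      rw [hn3, mul_one] at g3
      rw [hg, hV]
      exact g3
    · rw [ha] at hz
      have g1 : -Real.log κ₂ ≤ -z.re := (le_max_right _ _).trans hz
      have g2 : ‖Complex.exp (z / 2)‖ ≤ κ₂ * ‖Complex.exp (-z / 2)‖ := by
        rw [hn1, hn2]
        nth_rewrite 1 [← Real.exp_log hκ₂]
        rw [← Real.exp_add]
        exact Real.exp_le_exp.2 (by linarith)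
      have g3 := hk2 _ _ (Complex.exp_ne_zero _) (Complex.exp_ne_zero _) g2
      rw [hn3, mul_one] at g3
      rw [hg, hV]
      exact g3
  -- the function is bounded
  obtain ⟨L, hL⟩ := hlim 1 one_pos
  obtain ⟨B, hB⟩ := (isCompact_closedBall (0 : ℂ × ℂ) (Real.exp (|L| / 2) * ‖f‖ + Real.exp (|L| / 2) * ‖e‖)).exists_bound_of_continuousOn
    (hgc.pow 2).continuousOn
  have hbd : ∀ z, g (V z) ^ 2 ≤ max 1 B := by
    intro z
    by_cases hz : L ≤ |z.re|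
    · exact (hL z hz).trans (le_max_left _ _)
    · push Not at hz
      have hz2 : |z.re| ≤ |L| := hz.le.trans (le_abs_self L)
      refine le_trans ?_ (le_max_right 1 B)
      have g1 : V z ∈ closedBall (0 : ℂ × ℂ) (Real.exp (|L| / 2) * ‖f‖ + Real.exp (|L| / 2) * ‖e‖) := by
        rw [mem_closedBall_zero_iff, hV]
        refine (norm_add_le _ _).trans (add_le_add ?_ ?_)
        · rw [norm_smul, hn1]
          refine mul_le_mul_of_nonneg_right (Real.exp_le_exp.2 ?_) (norm_nonneg _)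
          have := neg_abs_le z.re
          linarith
        · rw [norm_smul, hn2]
          refine mul_le_mul_of_nonneg_right (Real.exp_le_exp.2 ?_) (norm_nonneg _)
          have := le_abs_self z.re
          linarith
      exact (le_abs_self _).trans (hB _ g1)
  have h3 : g (V z) ^ 2 = 0 := by
    refine duv_zero (ψ := fun z => g (V z) ^ 2) ((hgc.comp hVc).pow 2) (fun z => sq_nonneg _) hbd (fun r hr => ?_) hlim
    have g1 := duv_sub n hσ (fun z => (hW z).differentiableAt) z hr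
    have g2 : deriv W = V := funext fun z => (hW z).deriv
    rw [g2] at g1
    rw [hg]
    exact g1
  have h4 := pow_eq_zero_iff (two_ne_zero) |>.1 h3
  rw [hg, hV] at h4
  exact h4

/-- MODULE DuvC. -/
theorem duv_C (hX : IsCone X) (hch : Charts X) (n : PseudoLength X) {σ : ℂ × ℂ → EN N} {τ : EN N → ℂ × ℂ} (hσ : IsChart X σ τ) {e f : ℂ × ℂ}
    (hef : e.1 * f.2 - e.2 * f.1 ≠ 0)
    (h1 : ∀ ε : ℝ, 0 < ε → ∃ κ : ℝ, 0 < κ ∧ ∀ ξ η : ℂ, ξ ≠ 0 → η ≠ 0 → ‖ξ‖ ≤ κ * ‖η‖ →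
      n.toFun (σ 0) (fderiv ℂ σ 0 (ξ • f + η • e)) ^ 2 ≤ ε * (‖ξ‖ * ‖η‖))
    (h2 : ∀ ε : ℝ, 0 < ε → ∃ κ : ℝ, 0 < κ ∧ ∀ ξ η : ℂ, ξ ≠ 0 → η ≠ 0 → ‖η‖ ≤ κ * ‖ξ‖ →
      n.toFun (σ 0) (fderiv ℂ σ 0 (ξ • f + η • e)) ^ 2 ≤ ε * (‖ξ‖ * ‖η‖)) :
    ∀ v : ℂ × ℂ, n.toFun (σ 0) (fderiv ℂ σ 0 v) = 0 := by
  have hgc := dc_cont n hσ
  -- nonzero coefficients
  have hne : ∀ ξ η : ℂ, ξ ≠ 0 → η ≠ 0 → n.toFun (σ 0) (fderiv ℂ σ 0 (ξ • f + η • e)) = 0 := by
    intro ξ η hξ hη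
    obtain ⟨z, hz⟩ : ∃ z : ℂ, Complex.exp z = η / ξ := ⟨Complex.log (η / ξ), Complex.exp_log (div_ne_zero hη hξ)⟩
    have e1 : Complex.exp (z / 2) * Complex.exp (-z / 2) = 1 := by
      rw [← Complex.exp_add, neg_div, add_neg_cancel, Complex.exp_zero]
    have e2 : Complex.exp (z / 2) * Complex.exp (z / 2) = η / ξ := by
      rw [← Complex.exp_add, add_halves, hz]
    have e3 : ξ • f + η • e = (ξ * Complex.exp (z / 2)) • (Complex.exp (-z / 2) • f + Complex.exp (z / 2) • e) := by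
      rw [smul_add, smul_smul, smul_smul, mul_assoc, mul_assoc, e1, e2, mul_one, mul_div_cancel₀ _ hξ]
    rw [e3, map_smul, n.smul _ _ ((tan_of_chart hσ).self_of_nhds _), dc_zero n hσ h1 h2 z, mul_zero]
  -- all coefficients
  have hall : ∀ ξ η : ℂ, n.toFun (σ 0) (fderiv ℂ σ 0 (ξ • f + η • e)) = 0 := by
    intro ξ η
    have c1 : Tendsto (fun δ : ℂ => n.toFun (σ 0) (fderiv ℂ σ 0 ((ξ + δ) • f + (η + δ) • e))) (𝓝[≠] 0)
        (𝓝 (n.toFun (σ 0) (fderiv ℂ σ 0 (ξ • f + η • e)))) := by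
      have c2 : Continuous fun δ : ℂ => n.toFun (σ 0) (fderiv ℂ σ 0 ((ξ + δ) • f + (η + δ) • e)) := hgc.comp (by fun_prop)
      have c3 := c2.tendsto 0
      simp only [add_zero] at c3
      exact c3.mono_left nhdsWithin_le_nhds
    have c4 : ∀ᶠ δ : ℂ in 𝓝[≠] 0, n.toFun (σ 0) (fderiv ℂ σ 0 ((ξ + δ) • f + (η + δ) • e)) = 0 := by
      have d1 : ∀ a : ℂ, ∀ᶠ δ : ℂ in 𝓝[≠] 0, a + δ ≠ 0 := by
        intro a
        by_cases ha : a = 0
        · filter_upwards [self_mem_nhdsWithin] with δ hδ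
          rw [ha, zero_add]
          exact hδ
        · have d2 : ContinuousAt (fun δ : ℂ => a + δ) 0 := by fun_prop
          have d3 : a + (0 : ℂ) ≠ 0 := by rwa [add_zero]
          exact Eventually.filter_mono nhdsWithin_le_nhds (d2.eventually_ne d3)
      filter_upwards [d1 ξ, d1 η] with δ g1 g2
      exact hne _ _ g1 g2
    exact tendsto_nhds_unique c1 (tendsto_const_nhds.congr' (c4.mono fun δ hδ => hδ.symm))
  intro v
  have hv : v = ((e.1 * v.2 - e.2 * v.1) / (e.1 * f.2 - e.2 * f.1)) • f + ((v.1 * f.2 - v.2 * f.1) / (e.1 * f.2 - e.2 * f.1)) • e := by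
    refine Prod.ext ?_ ?_
    · show v.1 = (e.1 * v.2 - e.2 * v.1) / (e.1 * f.2 - e.2 * f.1) * f.1 + (v.1 * f.2 - v.2 * f.1) / (e.1 * f.2 - e.2 * f.1) * e.1
      field_simp
      ring
    · show v.2 = (e.1 * v.2 - e.2 * v.1) / (e.1 * f.2 - e.2 * f.1) * f.2 + (v.1 * f.2 - v.2 * f.1) / (e.1 * f.2 - e.2 * f.1) * e.2
      field_simp
      ring
  rw [hv]
  exact hall _ _

end Pool.Agent.SG
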