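import Pool.Agent.SG.DuvB
import Pool.Agent.SG.DuvC
import Pool.Agent.UC.G1

/-!
# SG DuvE: every pseudo-length vanishes where two smooth rational curves with self-intersection `-2` meet
-/

set_option autoImplicit false

open Topology Filter Metric

noncomputable section

namespace Pool.Agent.SG

open Pool.Agent.H36.BP (EN fs)
open Pool.Agent.H14.PP (IsCone Tan CurveAt)
open Pool.Agent.H17BP (IsChart Pr Surface)
open Pool.Agent.H22.W (PseudoLength tan_curve)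
open Pool.Agent.H62.EF (Charts)

variable {N : ℕ} {X : Set (EN N)}

/-- Lemma B for a direction `(a, b)` which is not tangent to the curve -/
theorem duv_axis' (hX : IsCone X) (hch : Charts X) (n : PseudoLength X) {σ : ℂ × ℂ → EN N} {τ : EN N → ℂ × ℂ} {Φ G : ℂ × ℂ → EN N}
    {d : ℕ} (h : MinusTwo X σ τ Φ G d) {a b : ℂ} (ha : a ≠ 0) {ε : ℝ} (hε : 0 < ε) :
    ∃ κ : ℝ, 0 < κ ∧ ∀ s t : ℂ, s ≠ 0 → t ≠ 0 → ‖s‖ ≤ κ * ‖t‖ → n.toFun (σ 0) (fderiv ℂ σ 0 (s * a, s * b + t)) ^ 2 ≤ ε * (‖s‖ * ‖t‖) := by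
  have han : 0 < ‖a‖ := norm_pos_iff.2 ha
  obtain ⟨κ₁, hκ₁, hax⟩ := duv_axis hX hch n h (ε := ε / (2 * ‖a‖)) (by positivity)
  refine ⟨min (κ₁ / (2 * ‖a‖)) (1 / (2 * (‖b‖ + 1))), lt_min (by positivity) (by positivity), ?_⟩
  intro s t hs ht hst
  have htn : 0 < ‖t‖ := norm_pos_iff.2 ht
  have h1 : ‖s‖ * (2 * ‖a‖) ≤ κ₁ * ‖t‖ := by
    have h2 : ‖s‖ ≤ κ₁ / (2 * ‖a‖) * ‖t‖ := hst.trans (by gcongr; exact min_le_left _ _)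
    calc ‖s‖ * (2 * ‖a‖) ≤ κ₁ / (2 * ‖a‖) * ‖t‖ * (2 * ‖a‖) := by gcongr
      _ = κ₁ * ‖t‖ := by field_simp
  have h2 : ‖s * b‖ ≤ ‖t‖ / 2 := by
    have h3 : ‖s‖ ≤ 1 / (2 * (‖b‖ + 1)) * ‖t‖ := hst.trans (by gcongr; exact min_le_right _ _)
    rw [norm_mul]
    calc ‖s‖ * ‖b‖ ≤ 1 / (2 * (‖b‖ + 1)) * ‖t‖ * (‖b‖ + 1) := by gcongr; linarith
      _ = ‖t‖ / 2 := by field_simp
  have h3 : ‖t‖ / 2 ≤ ‖s * b + t‖ := by
    have h4 := norm_sub_norm_le t (-(s * b))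
    rw [norm_neg, sub_neg_eq_add, add_comm t] at h4
    linarith
  have h4 : ‖s * b + t‖ ≤ 2 * ‖t‖ := (norm_add_le _ _).trans (by linarith)
  have h5 : s * b + t ≠ 0 := by
    rw [← norm_pos_iff]
    linarith
  refine (hax (s * a) (s * b + t) (mul_ne_zero hs ha) h5 ?_).trans ?_
  · rw [norm_mul]
    nlinarith
  · rw [norm_mul]
    calc ε / (2 * ‖a‖) * (‖s‖ * ‖a‖ * ‖s * b + t‖) ≤ ε / (2 * ‖a‖) * (‖s‖ * ‖a‖ * (2 * ‖t‖)) := by gcongr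
      _ = ε * (‖s‖ * ‖t‖) := by field_simp

/-- **The pseudo-length at a node.** -/
theorem null_at_node (hX : IsCone X) (hS : Surface X) (hch : Charts X) {σ₁ : ℂ × ℂ → EN N} {τ₁ : EN N → ℂ × ℂ} {Φ₁ G₁ : ℂ × ℂ → EN N}
    {d₁ : ℕ} (h₁ : MinusTwo X σ₁ τ₁ Φ₁ G₁ d₁) {σ₂ : ℂ × ℂ → EN N} {τ₂ : EN N → ℂ × ℂ} {Φ₂ G₂ : ℂ × ℂ → EN N}
    {d₂ : ℕ} (h₂ : MinusTwo X σ₂ τ₂ Φ₂ G₂ d₂) {x : EN N} (hx₁ : Pr (σ₁ 0) x) (hx₂ : Pr (σ₂ 0) x)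
    (hind : LinearIndependent ℂ ![x, fderiv ℂ σ₁ 0 (0, 1), fderiv ℂ σ₂ 0 (0, 1)]) (n : PseudoLength X) {v : EN N} (hv : Tan X x v) :
    n.toFun x v = 0 := by
  obtain ⟨c₁, hc₁, hc₁x⟩ := hx₁
  obtain ⟨c₂, hc₂, hc₂x⟩ := hx₂
  have hxX : x ∈ X := Pool.Agent.H22.W.tan_mem hv
  have hx0 : x ≠ 0 := hX.ne_zero hxX
  rw [linearIndependent_iff'] at hind
  have hli : ∀ a b c : ℂ, a • x + b • fderiv ℂ σ₁ 0 (0, 1) + c • fderiv ℂ σ₂ 0 (0, 1) = 0 → b = 0 ∧ c = 0 := by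
    intro a b c habc
    have h1 := hind Finset.univ ![a, b, c] (by simpa [Fin.sum_univ_three] using habc)
    exact ⟨by simpa using h1 1 (Finset.mem_univ _), by simpa using h1 2 (Finset.mem_univ _)⟩
  -- the ratio of the two base points
  obtain ⟨c, hc, hc12⟩ : ∃ c : ℂ, c ≠ 0 ∧ σ₂ 0 = c • σ₁ 0 := by
    refine ⟨c₂ / c₁, div_ne_zero hc₂ hc₁, ?_⟩
    rw [hc₁x, hc₂x, smul_smul, div_mul_cancel₀ _ hc₁]
  have htan₁ := (tan_of_chart h₁.chart).self_of_nhds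
  have htan₂ := (tan_of_chart h₂.chart).self_of_nhds
  have hconv : ∀ {y w : EN N}, Tan X y w → w ∈ Pool.Agent.H17BP.Tan X y := fun h => by
    obtain ⟨γ, hγ, h3, h4⟩ := h
    exact ⟨γ, hγ.1, hγ.2, h3, h4⟩
  -- the direction of the second curve in the first chart
  obtain ⟨α, a, b, hg₂⟩ := (Pool.Agent.UC.tan_span hS h₁.chart).self_of_nhds c hc (fderiv ℂ σ₂ 0 (0, 1)) (by
    rw [← hc12]
    exact hconv (htan₂ _))
  have hD₁ : ∀ s t : ℂ, fderiv ℂ σ₁ 0 (s, t) = s • fderiv ℂ σ₁ 0 (1, 0) + t • fderiv ℂ σ₁ 0 (0, 1) := by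
    intro s t
    rw [← map_smul, ← map_smul, ← map_add]
    congr 1
    ext <;> simp
  have hD₂ : ∀ s t : ℂ, fderiv ℂ σ₂ 0 (s, t) = s • fderiv ℂ σ₂ 0 (1, 0) + t • fderiv ℂ σ₂ 0 (0, 1) := by
    intro s t
    rw [← map_smul, ← map_smul, ← map_add]
    congr 1
    ext <;> simp
  have ha : a ≠ 0 := by
    rintro rfl
    have h3 := hli (α * c * c₁) (c * b) (-1) (by
      rw [hg₂, hc₁x]
      simp only [zero_smul, zero_add, smul_smul]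
      module)
    exact one_ne_zero (neg_eq_zero.1 h3.2)
  -- the direction of the first curve in the second chart
  obtain ⟨α', a', b', hg₁⟩ := (Pool.Agent.UC.tan_span hS h₂.chart).self_of_nhds 1 one_ne_zero (c • fderiv ℂ σ₁ 0 (0, 1)) (by
    rw [one_smul, hc12]
    exact hconv (Pool.Agent.H22.W.tan_smul hX (htan₁ _) hc))
  have ha' : a' ≠ 0 := by
    rintro rfl
    have h3 := hli (α' * c₂) (-c) b' (by
      have h4 : c • fderiv ℂ σ₁ 0 (0, 1) = α' • σ₂ 0 + b' • fderiv ℂ σ₂ 0 (0, 1) := by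
        rw [hg₁]
        simp
      rw [neg_smul, h4, hc₂x]
      module)
    exact hc (neg_eq_zero.1 h3.1)
  have key := duv_C hX hch n h₁.chart (e := (0, 1)) (f := (a, b)) (by simpa using ha) (by
    intro ε hε
    obtain ⟨κ, hκ, h3⟩ := duv_axis' hX hch n h₁ (b := b) ha hε
    refine ⟨κ, hκ, fun ξ η hξ hη h4 => ?_⟩
    have h5 := h3 ξ η hξ hη h4
    have h6 : ξ • ((a, b) : ℂ × ℂ) + η • ((0, 1) : ℂ × ℂ) = (ξ * a, ξ * b + η) := by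
      ext <;> simp
    rw [h6]
    exact h5) (by
    intro ε hε
    obtain ⟨κ, hκ, h3⟩ := duv_axis' hX hch n h₂ (b := b') ha' hε
    refine ⟨κ, hκ, fun ξ η hξ hη h4 => ?_⟩
    have h5 := h3 η ξ hη hξ h4
    have h6 : n.toFun (σ₁ 0) (fderiv ℂ σ₁ 0 (ξ • ((a, b) : ℂ × ℂ) + η • ((0, 1) : ℂ × ℂ))) =
        n.toFun (σ₂ 0) (fderiv ℂ σ₂ 0 (η * a', η * b' + ξ)) := by
      have h7 := n.inv hX (htan₁ (ξ • ((a, b) : ℂ × ℂ) + η • ((0, 1) : ℂ × ℂ))) hc (ξ * α * c + η * (-α') * c)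
      rw [← h7, ← hc12]
      have h8 : fderiv ℂ σ₂ 0 (η * a', η * b' + ξ) =
          c • fderiv ℂ σ₁ 0 (ξ • ((a, b) : ℂ × ℂ) + η • ((0, 1) : ℂ × ℂ)) + (ξ * α * c + η * (-α') * c) • σ₁ 0 := by
        have e1 : ξ • ((a, b) : ℂ × ℂ) + η • ((0, 1) : ℂ × ℂ) = (ξ * a, ξ * b + η) := by
          ext <;> simp
        have e2 : a' • fderiv ℂ σ₂ 0 (1, 0) + b' • fderiv ℂ σ₂ 0 (0, 1) = c • fderiv ℂ σ₁ 0 (0, 1) - α' • c • σ₁ 0 := by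
          rw [hg₁, hc12]
          simp
        rw [hD₂, e1, hD₁]
        have e3 : (η * a') • fderiv ℂ σ₂ 0 (1, 0) + (η * b' + ξ) • fderiv ℂ σ₂ 0 (0, 1) =
            η • (a' • fderiv ℂ σ₂ 0 (1, 0) + b' • fderiv ℂ σ₂ 0 (0, 1)) + ξ • fderiv ℂ σ₂ 0 (0, 1) := by module
        rw [e3, e2, hg₂]
        module
      rw [h8]
    rw [h6, mul_comm ‖ξ‖]
    exact h5)
  -- all tangent vectors
  have hxσ : x = c₁⁻¹ • σ₁ 0 := by rw [hc₁x, smul_smul, inv_mul_cancel₀ hc₁, one_smul]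
  obtain ⟨α₃, a₃, b₃, hv₃⟩ := (Pool.Agent.UC.tan_span hS h₁.chart).self_of_nhds c₁⁻¹ (inv_ne_zero hc₁) v (by
    rw [← hxσ]
    exact hconv hv)
  have h3 := n.inv hX (htan₁ (a₃, b₃)) (inv_ne_zero hc₁) (α₃ * c₁⁻¹)
  have h4 : v = c₁⁻¹ • fderiv ℂ σ₁ 0 (a₃, b₃) + (α₃ * c₁⁻¹) • σ₁ 0 := by
    rw [hv₃, hD₁ a₃ b₃]
    module
  rw [h4, hxσ, h3]
  exact key _

end Pool.Agent.SG
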