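import Pool.Agent.H22.W.Def
import Pool.Agent.H17BP.Surf
import Pool.Agent.H17BP.Model

/-!
# SG DuvD: the neighbourhood of a smooth rational curve with self-intersection `-2`

A neighbourhood of such a curve `C` is isomorphic to the neighbourhood of the zero section in the line bundle `O(-2)` on the projective line, that
is, to the quotient of the blow-up of a ball in `ℂ²` by `± 1`.
-/

set_option autoImplicit false

open Topology Filter Metric

namespace Pool.Agent.SG

open Pool.Agent.H36.BP (EN)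
open Pool.Agent.H17BP (IsChart Pr)

variable {N : ℕ}

/-- `x = σ 0` is a point of a smooth rational curve `C` of self-intersection `-2`; in the chart `σ` with the coordinates `(u, v)` the curve `C` is
`{u = 0}`.  `Φ` is the map from the punctured ball in `ℂ²` onto the complement of `C` in a neighbourhood of `C`, near `σ 0` it is given by
`u = a ^ 2`, `v = b / a`; the homogeneous part `G` of lowest degree of `Φ` is the parametrisation of `C` by forms of degree `d` without common zeros,
and (`Φ` is even up to the sign) there is no part of degree `d + 1`. -/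
structure MinusTwo (X : Set (EN N)) (σ : ℂ × ℂ → EN N) (τ : EN N → ℂ × ℂ) (Φ G : ℂ × ℂ → EN N) (d : ℕ) : Prop where
  chart : IsChart X σ τ
  an : AnalyticOnNhd ℂ Φ (ball 0 1)
  mem : ∀ p ∈ ball (0 : ℂ × ℂ) 1, p ≠ 0 → Φ p ∈ X
  G_an : ∀ p, AnalyticAt ℂ G p
  G_smul : ∀ (c : ℂ) (p : ℂ × ℂ), G (c • p) = c ^ d • G p
  G_ne : ∀ p : ℂ × ℂ, p ≠ 0 → G p ≠ 0
  rem : ∃ C : ℝ, ∀ p ∈ ball (0 : ℂ × ℂ) 1, ‖Φ p - G p‖ ≤ C * ‖p‖ ^ (d + 2)
  rel : ∀ᶠ q in 𝓝 (0 : ℂ × ℂ), q.1 ≠ 0 → Pr (Φ (q.1, q.1 * q.2)) (σ (q.1 ^ 2, q.2))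

end Pool.Agent.SG
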