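import Pool.Agent.SG.Sel
import Pool.Agent.H17BP.Model
import Pool.Agent.H17BP.ResS
import Pool.Agent.H17BP.Conv
import Pool.Agent.H22.W.Scale

/-!
# SG Sec: the secant cone of a null curve

`secant`: `T` is a curve on the surface `X`, the pseudo-length vanishes on the curve germs in `T`.  If the first axis of the chart `σ` is not null,
there are no points of `T` in a small cone around the first axis.
-/

set_option autoImplicit false

open Topology Filter Metric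

noncomputable section

namespace Pool.Agent.SG

open Pool.Agent.H17BP (Surface IsChart Eqs ResAt LocalEq ResN Pr exists_resAt)
open Pool.Agent.H36.BP (EN)
open Pool.Agent.H14.PP (CurveAt)
open Pool.Agent.H22.W (PseudoLength tan_curve)

variable {N : ℕ} {X T : Set (EN N)}

/-- the tangent vectors in a chart -/
theorem tan_of_chart {σ : ℂ × ℂ → EN N} {τ : EN N → ℂ × ℂ} (hσ : IsChart X σ τ) :
    ∀ᶠ p in 𝓝 (0 : ℂ × ℂ), ∀ w : ℂ × ℂ, Pool.Agent.H14.PP.Tan X (σ p) (fderiv ℂ σ p w) := by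
  filter_upwards [hσ.σ_an.eventually_analyticAt, hσ.σ_mem.eventually_nhds] with p h1 h2 w
  have h3 : HasDerivAt (fun y : ℂ => p + y • w) w 0 := by
    have := ((hasDerivAt_id (0 : ℂ)).smul_const w).const_add p
    simpa using this
  have h4 : AnalyticAt ℂ (fun y : ℂ => p + y • w) 0 := by fun_prop
  have h0 : p + (0 : ℂ) • w = p := by rw [zero_smul, add_zero]
  have h5 : AnalyticAt ℂ σ (p + (0 : ℂ) • w) := by rw [h0]; exact h1
  refine ⟨fun y => σ (p + y • w), ⟨AnalyticAt.fun_comp (g := σ) (f := fun y : ℂ => p + y • w) h5 h4, ?_⟩, by simp, ?_⟩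
  · have h6 : Tendsto (fun y : ℂ => p + y • w) (𝓝 0) (𝓝 p) := by
      have := h4.continuousAt.tendsto
      rwa [h0] at this
    exact h6.eventually h2
  · have h7 : HasFDerivAt σ (fderiv ℂ σ p) (p + (0 : ℂ) • w) := by
      rw [h0]
      exact h1.differentiableAt.hasFDerivAt
    exact (h7.comp_hasDerivAt (0 : ℂ) h3).deriv

/-- **The secant cone.** -/
theorem secant (hX : Surface X) {κ : Type} {Q : κ → EN N → ℂ} {D : ℕ} (hE : Eqs X T Q D)
    (ht : ∀ σ τ, IsChart X σ τ → ∃ᶠ p in 𝓝 (0 : ℂ × ℂ), σ p ∉ T) (n : PseudoLength X)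
    (hn : ∀ γ : ℂ → EN N, AnalyticAt ℂ γ 0 → (∀ᶠ z in 𝓝 (0 : ℂ), γ z ∈ T) → n.toFun (γ 0) (deriv γ 0) = 0)
    {σ : ℂ × ℂ → EN N} {τ : EN N → ℂ × ℂ} (hσ : IsChart X σ τ) (h1 : n.toFun (σ 0) (fderiv ℂ σ 0 (1, 0)) ≠ 0) :
    ∃ ε : ℝ, 0 < ε ∧ ∀ᶠ p in 𝓝 (0 : ℂ × ℂ), ‖p.2‖ < ε * ‖p.1‖ → σ p ∉ T := by
  by_contra hcon
  push Not at hcon
  -- a sequence of points of `T` tangent to the axis
  have hseq : ∀ k : ℕ, ∃ p : ℂ × ℂ, ‖p‖ < 1 / ((k : ℝ) + 1) ∧ ‖p.2‖ < 1 / ((k : ℝ) + 1) * ‖p.1‖ ∧ σ p ∈ T := by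
    intro k
    have hk : (0 : ℝ) < 1 / ((k : ℝ) + 1) := by positivity
    have h2 : ∀ᶠ p in 𝓝 (0 : ℂ × ℂ), ‖p‖ < 1 / ((k : ℝ) + 1) := by
      filter_upwards [ball_mem_nhds (0 : ℂ × ℂ) hk] with p hp
      rwa [mem_ball_zero_iff] at hp
    obtain ⟨p, ⟨hp1, hp2⟩, hp3⟩ := ((hcon _ hk).and_eventually h2).exists
    exact ⟨p, hp3, hp1, hp2⟩
  choose p hp1 hp2 hp3 using hseq
  set 𝒰 : Ultrafilter ℕ := hyperfilter ℕ with h𝒰
  have hle : (𝒰 : Filter ℕ) ≤ atTop := Nat.hyperfilter_le_atTop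
  have hinv : Tendsto (fun k : ℕ => 1 / ((k : ℝ) + 1)) 𝒰 (𝓝 0) := tendsto_one_div_add_atTop_nhds_zero_nat.mono_left hle
  have hpt : Tendsto p 𝒰 (𝓝 0) := squeeze_zero_norm (fun k => (hp1 k).le) hinv
  have hpf : ∀ k, (p k).1 ≠ 0 := by
    intro k h0
    have h2 := hp2 k
    rw [h0, norm_zero, mul_zero] at h2
    exact absurd h2 (not_lt.2 (norm_nonneg _))
  have hσX : σ 0 ∈ X := hσ.σ_mem.self_of_nhds
  obtain ⟨m, hm⟩ := exists_resAt hX hE ht hσX
  obtain ⟨f, hf, hres⟩ := hm.chart hX.smul (hE.cone hX.smul) hσ ⟨1, one_ne_zero, (one_smul ℂ _).symm⟩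
  obtain ⟨c, v, hc, hc0, hfc, hv, hcv⟩ := exists_germ m f hres 𝒰 p hpt
    (Eventually.of_forall fun k h0 => hpf k (congrArg Prod.fst h0)) (by
      filter_upwards [hpt.eventually hf.2] with k hk
      exact hk.1 (hp3 k))
  have hct : Tendsto c (𝓝 0) (𝓝 0) := by
    have := hc.continuousAt.tendsto
    rwa [hc0] at this
  -- the coordinates
  have ha : AnalyticAt ℂ (fun z => (c z).1) 0 := analyticAt_fst.fun_comp hc
  have hb : AnalyticAt ℂ (fun z => (c z).2) 0 := analyticAt_snd.fun_comp hc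
  have hane : ¬ ∀ᶠ z in 𝓝 (0 : ℂ), (c z).1 = 0 := by
    intro h2
    obtain ⟨k, hk1, hk2⟩ := ((hv.eventually h2).and hcv).exists
    rw [hk2] at hk1
    exact hpf k hk1
  obtain ⟨d, a₁, ha₁, ha₁0, hae⟩ : ∃ (d : ℕ) (a₁ : ℂ → ℂ), AnalyticAt ℂ a₁ 0 ∧ a₁ 0 ≠ 0 ∧ ∀ᶠ z in 𝓝 (0 : ℂ), (c z).1 = z ^ d * a₁ z := by
    obtain ⟨d, a₁, h2, h3, h4⟩ := ha.exists_eventuallyEq_pow_smul_nonzero_iff.2 hane
    refine ⟨d, a₁, h2, h3, h4.mono fun z hz => ?_⟩
    simpa using hz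
  have hd : d ≠ 0 := by
    rintro rfl
    have h2 := hae.self_of_nhds
    rw [hc0, pow_zero, one_mul] at h2
    exact ha₁0 h2.symm
  obtain ⟨e, he, he0, hbe⟩ : ∃ e : ℂ → ℂ, AnalyticAt ℂ e 0 ∧ e 0 = 0 ∧ ∀ᶠ z in 𝓝 (0 : ℂ), (c z).2 = z ^ d * e z := by
    by_cases hbne : ∀ᶠ z in 𝓝 (0 : ℂ), (c z).2 = 0
    · refine ⟨fun _ => 0, analyticAt_const, rfl, hbne.mono fun z hz => ?_⟩
      rw [hz, mul_zero]
    · obtain ⟨q, b₁, h2, h3, h4⟩ := hb.exists_eventuallyEq_pow_smul_nonzero_iff.2 hbne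
      have h5 : d < q := by
        by_contra hqd
        push Not at hqd
        have h6 : ∀ᶠ k in (𝒰 : Filter ℕ), ‖b₁ (v k)‖ ≤ 1 / ((k : ℝ) + 1) * ‖a₁ (v k)‖ := by
          have h8 : ∀ᶠ z in 𝓝 (0 : ℂ), ‖z‖ ≤ 1 := by
            filter_upwards [closedBall_mem_nhds (0 : ℂ) one_pos] with z hz
            rwa [mem_closedBall_zero_iff] at hz
          filter_upwards [hcv, hv.eventually hae, hv.eventually h4, hv.eventually h8] with k g1 g2 g3 g4
          have g5 := hp2 k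
          rw [← g1, g2, g3, sub_zero, smul_eq_mul, norm_mul, norm_mul, norm_pow, norm_pow] at g5
          have g6 : v k ≠ 0 := by
            intro h0
            rw [h0, hc0] at g1
            exact hpf k (by rw [← g1]; rfl)
          have g7 : 0 < ‖v k‖ := norm_pos_iff.2 g6
          have g8 : ‖v k‖ ^ d ≤ ‖v k‖ ^ q := pow_le_pow_of_le_one g7.le g4 hqd
          have g9 : 0 < ‖v k‖ ^ q := pow_pos g7 q
          have g10 : ‖v k‖ ^ q * ‖b₁ (v k)‖ ≤ ‖v k‖ ^ q * (1 / ((k : ℝ) + 1) * ‖a₁ (v k)‖) := by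
            have g11 : 0 ≤ 1 / ((k : ℝ) + 1) * ‖a₁ (v k)‖ := by positivity
            nlinarith [mul_le_mul_of_nonneg_right g8 g11]
          exact le_of_mul_le_mul_left g10 g9
        have h7 : Tendsto (fun k => ‖b₁ (v k)‖) 𝒰 (𝓝 ‖b₁ 0‖) := (h2.continuousAt.tendsto.comp hv).norm
        have h8 : Tendsto (fun k : ℕ => 1 / ((k : ℝ) + 1) * ‖a₁ (v k)‖) 𝒰 (𝓝 (0 * ‖a₁ 0‖)) :=
          hinv.mul (ha₁.continuousAt.tendsto.comp hv).norm
        rw [zero_mul] at h8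
        have h9 := le_of_tendsto_of_tendsto h7 h8 h6
        exact h3 (norm_le_zero_iff.1 h9)
      obtain ⟨q', hq'⟩ : ∃ q', q = d + (q' + 1) := ⟨q - d - 1, by omega⟩
      refine ⟨fun z => z ^ (q' + 1) * b₁ z, ((analyticAt_id.pow _).mul h2), by simp, h4.mono fun z hz => ?_⟩
      rw [hz, hq', sub_zero, smul_eq_mul, pow_add, mul_assoc]
  -- the derivative of the curve
  obtain ⟨w, hw⟩ : ∃ w : ℂ → ℂ × ℂ, w = fun z => ((d : ℂ) * a₁ z + z * deriv a₁ z, (d : ℂ) * e z + z * deriv e z) := ⟨_, rfl⟩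
  have hwc : ContinuousAt w 0 := by
    rw [hw]
    have h2 : ContinuousAt (deriv a₁) 0 := ha₁.deriv.continuousAt
    have h3 : ContinuousAt (deriv e) 0 := he.deriv.continuousAt
    exact ((continuousAt_const.mul ha₁.continuousAt).add (continuousAt_id.mul h2)).prodMk
      ((continuousAt_const.mul he.continuousAt).add (continuousAt_id.mul h3))
  have hw0 : w 0 = ((d : ℂ) * a₁ 0) • ((1 : ℂ), (0 : ℂ)) := by
    rw [hw]
    simp [he0]
  have hpow : ∀ {g : ℂ → ℂ} {z : ℂ}, DifferentiableAt ℂ g z → HasDerivAt (fun y => y ^ d * g y) (z ^ (d - 1) * ((d : ℂ) * g z + z * deriv g z)) z := by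
    intro g z hg
    have h2 := (hasDerivAt_pow d z).mul hg.hasDerivAt
    refine h2.congr_deriv ?_
    obtain ⟨d', rfl⟩ : ∃ d', d = d' + 1 := ⟨d - 1, by omega⟩
    rw [Nat.add_sub_cancel]
    ring
  have hcd : ∀ᶠ z in 𝓝 (0 : ℂ), deriv c z = z ^ (d - 1) • w z := by
    filter_upwards [hae.eventually_nhds, hbe.eventually_nhds, ha₁.eventually_analyticAt, he.eventually_analyticAt] with z g1 g2 g3 g4
    have g5 : HasDerivAt (fun y => (y ^ d * a₁ y, y ^ d * e y)) (z ^ (d - 1) * ((d : ℂ) * a₁ z + z * deriv a₁ z),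
        z ^ (d - 1) * ((d : ℂ) * e z + z * deriv e z)) z := (hpow g3.differentiableAt).prodMk (hpow g4.differentiableAt)
    have g6 : c =ᶠ[𝓝 z] fun y => (y ^ d * a₁ y, y ^ d * e y) := by
      filter_upwards [g1, g2] with y hy1 hy2
      exact Prod.ext hy1 hy2
    rw [g6.deriv_eq, g5.deriv, hw]
    simp [Prod.smul_mk]
  -- the curve is null
  have hnull : ∀ᶠ z in 𝓝[≠] (0 : ℂ), n.toFun (σ (c z)) (fderiv ℂ σ (c z) (w z)) = 0 := by
    rw [eventually_nhdsWithin_iff]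
    have g0 : ∀ᶠ z in 𝓝 (0 : ℂ), σ (c z) ∈ T := by
      filter_upwards [hfc, hct.eventually hf.2] with z g1 g2
      exact g2.2 g1
    filter_upwards [g0.eventually_nhds, hcd, hc.eventually_analyticAt, hct.eventually hσ.σ_an.eventually_analyticAt,
      hct.eventually (tan_of_chart hσ)] with z g1 g2 g3 g4 g5 hz
    have g6 : AnalyticAt ℂ (fun y : ℂ => z + y) 0 := by fun_prop
    have gz : z + (0 : ℂ) = z := add_zero _
    have g7 : AnalyticAt ℂ (fun y => σ (c y)) z := g4.fun_comp g3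
    have g8 : AnalyticAt ℂ (fun y => σ (c (z + y))) 0 := by
      have g9 : AnalyticAt ℂ (fun y => σ (c y)) (z + 0) := by rw [gz]; exact g7
      exact g9.fun_comp g6
    have g10 : Tendsto (fun y : ℂ => z + y) (𝓝 0) (𝓝 z) := by
      have := g6.continuousAt.tendsto
      rwa [gz] at this
    have g11 := hn (fun y => σ (c (z + y))) g8 (g10.eventually g1)
    have g12 : deriv (fun y => σ (c (z + y))) 0 = fderiv ℂ σ (c z) (deriv c z) := by
      have g13 : deriv (fun y => σ (c (z + y))) 0 = deriv (fun y => σ (c y)) (z + 0) :=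
        deriv_comp_const_add (fun y => σ (c y)) z 0
      rw [g13, gz]
      exact (g4.differentiableAt.hasFDerivAt.comp_hasDerivAt z g3.differentiableAt.hasDerivAt).deriv
    rw [g12, g2, map_smul] at g11
    have g14 : n.toFun (σ (c (z + 0))) ((z ^ (d - 1)) • fderiv ℂ σ (c z) (w z)) = 0 := g11
    rw [gz, n.smul _ _ (g5 _)] at g14
    rcases mul_eq_zero.1 g14 with g15 | g15
    · exact absurd (norm_eq_zero.1 g15) (pow_ne_zero _ hz)
    · exact g15
  -- the limit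
  have hlim : Tendsto (fun z => n.toFun (σ (c z)) (fderiv ℂ σ (c z) (w z))) (𝓝[≠] (0 : ℂ)) (𝓝 (n.toFun (σ 0) (fderiv ℂ σ 0 (w 0)))) := by
    have g1 : Tendsto (fun z => σ (c z)) (𝓝 0) (𝓝 (σ 0)) := hσ.σ_an.continuousAt.tendsto.comp hct
    have g2 : ContinuousAt (fderiv ℂ σ) 0 := hσ.σ_an.fderiv.continuousAt
    have g4 : Tendsto (fun z => fderiv ℂ σ (c z)) (𝓝 0) (𝓝 (fderiv ℂ σ 0)) := g2.tendsto.comp hct
    have g3 : Tendsto (fun z => fderiv ℂ σ (c z) (w z)) (𝓝 0) (𝓝 (fderiv ℂ σ 0 (w 0))) :=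
      ((isBoundedBilinearMap_apply (𝕜 := ℂ) (E := ℂ × ℂ) (F := EN N)).continuous.tendsto (fderiv ℂ σ 0, w 0)).comp (g4.prodMk_nhds hwc.tendsto)
    exact n.tendsto (Eventually.filter_mono nhdsWithin_le_nhds ((hct.eventually (tan_of_chart hσ)).mono fun z hz => hz _))
      ((tan_of_chart hσ).self_of_nhds _) (g1.mono_left nhdsWithin_le_nhds) (g3.mono_left nhdsWithin_le_nhds)
  have h2 : n.toFun (σ 0) (fderiv ℂ σ 0 (w 0)) = 0 :=
    tendsto_nhds_unique hlim (tendsto_const_nhds.congr' (hnull.mono fun z hz => hz.symm))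
  rw [hw0, map_smul, n.smul _ _ ((tan_of_chart hσ).self_of_nhds _)] at h2
  rcases mul_eq_zero.1 h2 with h3 | h3
  · rw [norm_eq_zero] at h3
    rcases mul_eq_zero.1 h3 with h4 | h4
    · exact hd (by exact_mod_cast h4)
    · exact ha₁0 h4
  · exact h1 h3

end Pool.Agent.SG
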