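import Pool.Agent.SG.BoxA

/-!
# SG Box: the two-sided bound downstairs, in the sector around a direction at the point which is blown up

`x = q` is blown up, `U (F, z) = down g F z * pn (phi l (F z)) ^ (- θ j / (m D))`.  If `c⁻¹ • F z` is near `q` and `p = τ (c⁻¹ • F z)` satisfies `p.1 ≠ 0`,
`‖p.2‖ < ε ‖p.1‖`, then with `s = p.1`, `t = p.2 / p.1`, up to a factor `B`,
`U = ‖s‖ ^ (1 + (1 - θ) j / (2 m)) * ‖oC Ω σ p‖ ^ (1 / m) * max (‖s'‖, ‖s‖ ^ (1 - k) ‖t'‖) * ‖c‖ ^ (- θ j / m)`.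
-/

set_option autoImplicit false
set_option linter.unusedVariables false

open Topology Filter Metric

noncomputable section

namespace Pool.Agent.SG

open Pool.Agent.H36.BP (EN)
open Pool.Agent.H17BP (Surface IsChart IsForm)
open Pool.Agent.H62.BU (blow total Ker phi om)
open Pool.Agent.SY (Ent IsLiftB down down_eq)
open Pool.Agent.H36.TB (oC sm EnergyB TBAt exists_chart_exc_eq)

/-- a power of a number between `B⁻¹` and `B` -/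
theorem rpow_two_sided {B x : ℝ} (hB : 1 ≤ B) (h1 : B⁻¹ ≤ x) (h2 : x ≤ B) (e : ℝ) : x ^ e ≤ B ^ |e| ∧ 1 ≤ B ^ |e| * x ^ e := by
  have hB0 : 0 < B := lt_of_lt_of_le one_pos hB
  have hx0 : 0 < x := lt_of_lt_of_le (inv_pos.mpr hB0) h1
  have hlog : |Real.log x| ≤ Real.log B := by
    rw [abs_le]
    constructor
    · rw [← Real.log_inv]
      exact Real.log_le_log (inv_pos.mpr hB0) h1
    · exact Real.log_le_log hx0 h2
  have key : |Real.log x * e| ≤ Real.log B * |e| := by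
    rw [abs_mul]
    exact mul_le_mul_of_nonneg_right hlog (abs_nonneg e)
  rw [Real.rpow_def_of_pos hx0, Real.rpow_def_of_pos hB0, ← Real.exp_add]
  constructor
  · exact Real.exp_le_exp.mpr ((le_abs_self _).trans key)
  · rw [← Real.exp_zero]
    refine Real.exp_le_exp.mpr ?_
    have := neg_abs_le (Real.log x * e)
    linarith

variable {V : Type} [NormedAddCommGroup V] [NormedSpace ℂ V] {ι : Type} [Fintype ι] {l : ι → V →L[ℂ] ℂ} {X T : Set V} {q : V}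

theorem box [FiniteDimensional ℂ V] {m j : ℕ} {Ω : V → V → V → ℂ} (hX : Surface X) (hΩ : IsForm X m j Ω) (hm : 1 ≤ m) (hl : Ker l q)
    (hTX : T ⊆ X) (hTs : ∀ x ∈ T, ∀ c : ℂ, c ≠ 0 → c • x ∈ T) (hq : q ∈ T) {N' : ℕ} {L' : (ι → V) ≃L[ℂ] EN N'} {rho : (ι → V) → ℝ}
    {M : ℕ} {c₀ C θ k : ℝ} {g : (ℂ → ι → V) → ℂ → ℝ} {pn : (ι → V) → ℝ} {D₁ : ℕ}
    (E : EnergyB (blow l X) (total l X T) (2 * m) j (om l j Ω) (fun y => ‖L' y‖) rho M c₀ C g pn D₁ θ)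
    (ht : ∀ y ∈ blow l X, TBAt (blow l X) (total l X T) (2 * m) (om l j Ω) g pn k y) {σ : ℂ × ℂ → V} {τ : V → ℂ × ℂ}
    (hσ : IsChart X σ τ) (h0 : σ 0 = q) (hT : ∀ᶠ p in 𝓝 (0 : ℂ × ℂ), p.1 ≠ 0 → σ (p.1, p.1 * p.2) ∉ T) :
    ∃ ε B : ℝ, 0 < ε ∧ 1 ≤ B ∧ ∀ F, Ent X T F → ∀ z c : ℂ, c ≠ 0 → ‖c⁻¹ • F z - q‖ < ε → (τ (c⁻¹ • F z)).1 ≠ 0 →
      ‖(τ (c⁻¹ • F z)).2‖ < ε * ‖(τ (c⁻¹ • F z)).1‖ →
      DifferentiableAt ℂ (fun w => τ (c⁻¹ • F w)) z ∧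
      ‖(τ (c⁻¹ • F z)).1‖ ^ (1 + (1 - θ) * j / (2 * m)) * ‖oC Ω σ (τ (c⁻¹ • F z))‖ ^ (1 / (m : ℝ)) *
        sm k ((τ (c⁻¹ • F z)).1, (τ (c⁻¹ • F z)).2 / (τ (c⁻¹ • F z)).1)
          (deriv (fun w => (τ (c⁻¹ • F w)).1) z, deriv (fun w => (τ (c⁻¹ • F w)).2 / (τ (c⁻¹ • F w)).1) z) * ‖c‖ ^ (-(θ * j / m)) ≤
        B * (down l X T g F z * pn (phi l (F z)) ^ (-(θ * j / (m * (2 * D₁ : ℕ))))) ∧
      down l X T g F z * pn (phi l (F z)) ^ (-(θ * j / (m * (2 * D₁ : ℕ)))) ≤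
        B * (‖(τ (c⁻¹ • F z)).1‖ ^ (1 + (1 - θ) * j / (2 * m)) * ‖oC Ω σ (τ (c⁻¹ • F z))‖ ^ (1 / (m : ℝ)) *
        sm k ((τ (c⁻¹ • F z)).1, (τ (c⁻¹ • F z)).2 / (τ (c⁻¹ • F z)).1)
          (deriv (fun w => (τ (c⁻¹ • F w)).1) z, deriv (fun w => (τ (c⁻¹ • F w)).2 / (τ (c⁻¹ • F w)).1) z) * ‖c‖ ^ (-(θ * j / m))) := by
  have : CompleteSpace V := FiniteDimensional.complete ℂ V
  obtain ⟨σ₁, τ₁, hσ₁, h1, -, h3⟩ := exists_chart_exc_eq hX hl hΩ hσ h0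
  have hTot := box_total hTs hq hσ h0 hσ₁ h1 hT
  obtain ⟨B, hB, hev⟩ := ht (σ₁ 0) hσ₁.σ_mem.self_of_nhds σ₁ τ₁ hσ₁ rfl hTot
  have hev' := hσ₁.σ_an.continuousAt.eventually hev
  obtain ⟨ε, hε, hbox⟩ := box_lift hX hl hTX hTs hq hσ h0 hσ₁ h1 ((hev'.and h3).and hσ₁.left)
  have hB0 : 0 < B := lt_of_lt_of_le one_pos hB
  have hm0 : (m : ℝ) ≠ 0 := by
    have : m ≠ 0 := by omega
    exact_mod_cast this
  have hD0 : (D₁ : ℝ) ≠ 0 := by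
    have h4 := E.one_le
    have : D₁ ≠ 0 := by omega
    exact_mod_cast this
  set e : ℝ := -(θ * j / (m * (2 * D₁ : ℕ))) with he
  have heD : (D₁ : ℝ) * e = -(θ * j / (2 * m)) := by
    rw [he]
    push_cast
    field_simp
  set K : ℝ := 2 ^ |-(θ * j / m)| * B ^ |e| with hK
  have hK1 : 1 ≤ K := by
    rw [hK]
    exact one_le_mul_of_one_le_of_one_le (Real.one_le_rpow one_le_two (abs_nonneg _)) (Real.one_le_rpow hB (abs_nonneg _))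
  refine ⟨ε, B * K, hε, one_le_mul_of_one_le_of_one_le hB hK1, fun F hF z c hc h4 h5 h6 => ?_⟩
  obtain ⟨⟨⟨⟨hp1, hp2, hp3⟩, hp4⟩, hp5⟩, hdiff, Φ, hΦ, hΦz, hev2, d, hd1, hd2, hphi⟩ := hbox F hF z c hc h4 h5 h6
  refine ⟨hdiff, ?_⟩
  set p : ℂ × ℂ := τ (c⁻¹ • F z) with hp
  have hd0 : d ≠ 0 := by
    rintro rfl
    rw [norm_zero] at hd2
    linarith
  have hcn : 0 < ‖c‖ := norm_pos_iff.mpr hc
  have hdn : 0 < ‖d‖ := norm_pos_iff.mpr hd0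
  have hsn : 0 < ‖p.1‖ := norm_pos_iff.mpr h5
  -- the derivative
  have hder : deriv (fun w => τ₁ (Φ w)) z =
      (deriv (fun w => (τ (c⁻¹ • F w)).1) z, deriv (fun w => (τ (c⁻¹ • F w)).2 / (τ (c⁻¹ • F w)).1) z) := by
    rw [Filter.EventuallyEq.deriv_eq hev2]
    have g1 : DifferentiableAt ℂ (fun w => (τ (c⁻¹ • F w)).1) z := differentiableAt_fst.comp z hdiff
    have g2 : DifferentiableAt ℂ (fun w => (τ (c⁻¹ • F w)).2) z := differentiableAt_snd.comp z hdiff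
    exact (g1.hasDerivAt.prodMk (g2.div g1 h5).hasDerivAt).deriv
  have hp3' := hp3 Φ hΦ.1 z hΦz
  rw [hder, hp5] at hp3'
  rw [down_eq hX hl hTX hTs hq E.toEnergy hF hΦ]
  have hsp : ((p.1, p.1 * (p.2 / p.1)) : ℂ × ℂ) = p := by
    rw [mul_div_cancel₀ _ h5]
  have hco : ‖oC (om l j Ω) σ₁ (p.1, p.2 / p.1)‖ ^ (1 / ((2 * m : ℕ) : ℝ)) = ‖p.1‖ ^ (1 + (j : ℝ) / (2 * m)) * ‖oC Ω σ p‖ ^ (1 / (m : ℝ)) := by
    rw [hp4]
    simp only [hsp]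
    rw [norm_mul, norm_pow, norm_pow, Real.mul_rpow (by positivity) (by positivity), ← Real.rpow_natCast, ← Real.rpow_natCast,
      ← Real.rpow_mul (norm_nonneg _), ← Real.rpow_mul (norm_nonneg _)]
    congr 2
    · push_cast
      field_simp
    · push_cast
      field_simp
  rw [hco] at hp3'
  -- the weight
  have hwt : pn (phi l (F z)) ^ e = ‖c‖ ^ (-(θ * j / m)) * ‖p.1‖ ^ (-(θ * j / (2 * m))) * (‖d‖ ^ (-(θ * j / m)) * pn (σ₁ (p.1, p.2 / p.1)) ^ e) := by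
    rw [hphi, E.pn_smul, Real.mul_rpow (by positivity) (E.pn_nonneg _), ← Real.rpow_natCast, ← Real.rpow_mul (norm_nonneg _), heD,
      norm_mul, norm_pow, norm_mul, Real.mul_rpow (by positivity) (norm_nonneg _), ← Real.rpow_natCast, ← Real.rpow_mul (by positivity),
      Real.mul_rpow (norm_nonneg _) (norm_nonneg _)]
    have h7 : ((2 : ℕ) : ℝ) * (-(θ * j / (2 * m))) = -(θ * j / m) := by
      push_cast
      field_simp
    rw [h7]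
    ring
  rw [hwt]
  set A : ℝ := ‖oC Ω σ p‖ ^ (1 / (m : ℝ)) with hA
  set S : ℝ := sm k (p.1, p.2 / p.1) (deriv (fun w => (τ (c⁻¹ • F w)).1) z, deriv (fun w => (τ (c⁻¹ • F w)).2 / (τ (c⁻¹ • F w)).1) z) with hS
  set R : ℝ := ‖d‖ ^ (-(θ * j / m)) * pn (σ₁ (p.1, p.2 / p.1)) ^ e with hR
  have hR0 : 0 ≤ R := mul_nonneg (Real.rpow_nonneg (norm_nonneg _) _) (Real.rpow_nonneg (E.pn_nonneg _) _)
  have hd3 := rpow_two_sided (B := 2) (x := ‖d‖) one_le_two (by linarith) hd1 (-(θ * j / m))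
  have hp6 := rpow_two_sided hB hp1 hp2 e
  have hRK : R ≤ K := by
    rw [hR, hK]
    exact mul_le_mul hd3.1 hp6.1 (Real.rpow_nonneg (E.pn_nonneg _) _) (by positivity)
  have hRK' : 1 ≤ K * R := by
    have h7 : K * R = (2 ^ |-(θ * j / m)| * ‖d‖ ^ (-(θ * j / m))) * (B ^ |e| * pn (σ₁ (p.1, p.2 / p.1)) ^ e) := by
      rw [hR, hK]
      ring
    rw [h7]
    exact one_le_mul_of_one_le_of_one_le hd3.2 hp6.2
  have hg0 : 0 ≤ g Φ z := E.toEnergy.nonneg Φ hΦ.1 z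
  set P : ℝ := ‖c‖ ^ (-(θ * j / m)) * ‖p.1‖ ^ (-(θ * j / (2 * m))) with hP
  have hP0 : 0 ≤ P := by positivity
  have hpow : ‖p.1‖ ^ (1 + (1 - θ) * j / (2 * m)) = ‖p.1‖ ^ (1 + (j : ℝ) / (2 * m)) * ‖p.1‖ ^ (-(θ * j / (2 * m))) := by
    rw [← Real.rpow_add hsn]
    congr 1
    field_simp
    ring
  have hW : ‖p.1‖ ^ (1 + (1 - θ) * j / (2 * m)) * A * S * ‖c‖ ^ (-(θ * j / m)) = (‖p.1‖ ^ (1 + (j : ℝ) / (2 * m)) * A * S) * P := by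
    rw [hpow, hP]
    ring
  rw [hW]
  set Y : ℝ := ‖p.1‖ ^ (1 + (j : ℝ) / (2 * m)) * A * S with hY
  have hY0 : 0 ≤ Y := by
    have : 0 ≤ S := by
      rw [hS]
      exact le_trans (norm_nonneg _) (le_max_left _ _)
    positivity
  constructor
  · calc Y * P ≤ (B * g Φ z) * P := mul_le_mul_of_nonneg_right hp3'.1 hP0
      _ ≤ (B * g Φ z) * P * (K * R) := le_mul_of_one_le_right (mul_nonneg (mul_nonneg hB0.le hg0) hP0) hRK'
      _ = B * K * (g Φ z * (P * R)) := by ring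
  · calc g Φ z * (P * R) ≤ (B * Y) * (P * K) :=
          mul_le_mul hp3'.2 (mul_le_mul_of_nonneg_left hRK hP0) (mul_nonneg hP0 hR0) (mul_nonneg hB0.le hY0)
      _ = B * K * (Y * P) := by ring

end Pool.Agent.SG
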