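import Mathlib

/-!
# SG Alg: the algebra of the rescaled limit
-/

set_option autoImplicit false

open Topology Filter Metric Polynomial

noncomputable section

namespace Pool.Agent.SG

/-- At a root `r` of `P` of order `p` the polynomial `Y` vanishes to order at least `p`, if `|Y/P|^a |(Y/P)'| → 0`. -/
private theorem alg_mult {P Y : Polynomial ℂ} (hP : P ≠ 0) (hY : Y ≠ 0) {a : ℝ} (ha : 0 < a) {r : ℂ}
    (h : Tendsto (fun u : ℂ => ‖Y.eval u / P.eval u‖ ^ a * ‖deriv (fun z => Y.eval z / P.eval z) u‖) (𝓝[≠] r) (𝓝 0)) :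
    P.rootMultiplicity r ≤ Y.rootMultiplicity r := by
  by_contra hlt
  push Not at hlt
  obtain ⟨P₁, hP1, hP1r⟩ := P.exists_eq_pow_rootMultiplicity_mul_and_not_dvd hP r
  obtain ⟨Y₁, hY1, hY1r⟩ := Y.exists_eq_pow_rootMultiplicity_mul_and_not_dvd hY r
  obtain ⟨p, hp⟩ : ∃ p, p = P.rootMultiplicity r := ⟨_, rfl⟩
  obtain ⟨q, hq⟩ : ∃ q, q = Y.rootMultiplicity r := ⟨_, rfl⟩
  rw [← hp] at hP1 hlt
  rw [← hq] at hY1 hlt
  have hP0 : P₁.eval r ≠ 0 := fun h0 => hP1r (dvd_iff_isRoot.2 h0)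
  have hY0 : Y₁.eval r ≠ 0 := fun h0 => hY1r (dvd_iff_isRoot.2 h0)
  obtain ⟨m, hm⟩ : ∃ m, p = q + (m + 1) := ⟨p - q - 1, by omega⟩
  -- near `r` the quotient is `(u - r)^(-(m+1)) g u`
  obtain ⟨g, hg⟩ : ∃ g : ℂ → ℂ, g = fun u => Y₁.eval u / P₁.eval u := ⟨_, rfl⟩
  have hgan : AnalyticAt ℂ g r := by
    rw [hg]
    exact (Y₁.differentiable.analyticAt r).div (P₁.differentiable.analyticAt r) hP0
  have hg0 : g r ≠ 0 := by
    rw [hg]
    exact div_ne_zero hY0 hP0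
  have hPne : ∀ᶠ u in 𝓝 r, P₁.eval u ≠ 0 := P₁.continuous.continuousAt.eventually_ne hP0
  have hquot : ∀ u : ℂ, u ≠ r → Y.eval u / P.eval u = (u - r) ^ (-((m : ℤ) + 1)) * g u := by
    intro u hu
    have hu' : u - r ≠ 0 := sub_ne_zero.2 hu
    rw [hP1, hY1, hm, hg]
    simp only [eval_mul, eval_pow, eval_sub, eval_X, eval_C]
    have e1 : (u - r) ^ ((m : ℤ) + 1) = (u - r) ^ (m + 1) := by
      rw [← zpow_natCast]; push_cast; rfl
    rw [zpow_neg, e1, pow_add, mul_assoc, mul_div_mul_left _ _ (pow_ne_zero _ hu'), ← div_div, div_right_comm, div_eq_inv_mul]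
  -- lower bounds
  have hd : ∀ᶠ u in 𝓝[≠] r, deriv (fun z => Y.eval z / P.eval z) u =
      (u - r) ^ (-((m : ℤ) + 2)) * (-((m : ℂ) + 1) * g u + (u - r) * deriv g u) := by
    filter_upwards [self_mem_nhdsWithin, mem_nhdsWithin_of_mem_nhds hgan.eventually_analyticAt] with u hu hgu
    have hu1 : u ≠ r := hu
    have hu' : u - r ≠ 0 := sub_ne_zero.2 hu1
    have e1 : (fun z => Y.eval z / P.eval z) =ᶠ[𝓝 u] fun z => (z - r) ^ (-((m : ℤ) + 1)) * g z := by
      filter_upwards [isOpen_ne.mem_nhds hu1] with z hz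
      exact hquot z hz
    rw [e1.deriv_eq]
    have e2 : HasDerivAt (fun z : ℂ => (z - r) ^ (-((m : ℤ) + 1))) (((-((m : ℤ) + 1) : ℤ) : ℂ) * (u - r) ^ (-((m : ℤ) + 1) - 1) * 1) u := by
      have e3 := (hasDerivAt_zpow (-((m : ℤ) + 1)) (u - r) (Or.inl hu')).comp u ((hasDerivAt_id u).sub_const r)
      exact e3
    have e4 : HasDerivAt g (deriv g u) u := hgu.differentiableAt.hasDerivAt
    have e7 : HasDerivAt (fun z : ℂ => (z - r) ^ (-((m : ℤ) + 1)) * g z)
        ((((-((m : ℤ) + 1) : ℤ) : ℂ) * (u - r) ^ (-((m : ℤ) + 1) - 1) * 1) * g u + (u - r) ^ (-((m : ℤ) + 1)) * deriv g u) u := e2.mul e4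
    rw [e7.deriv]
    have e5 : (-((m : ℤ) + 1) - 1) = -((m : ℤ) + 2) := by ring
    have e6 : (u - r) ^ (-((m : ℤ) + 1)) = (u - r) ^ (-((m : ℤ) + 2)) * (u - r) := by
      rw [← zpow_add_one₀ hu']
      congr 1
    rw [e5, e6]
    push_cast
    ring
  -- the product stays away from zero
  have hlow : ∃ c : ℝ, 0 < c ∧ ∀ᶠ u in 𝓝[≠] r, c ≤ ‖Y.eval u / P.eval u‖ ^ a * ‖deriv (fun z => Y.eval z / P.eval z) u‖ := by
    have hgn : 0 < ‖g r‖ := norm_pos_iff.2 hg0
    have f1 : ∀ᶠ u in 𝓝 r, ‖g r‖ / 2 < ‖g u‖ :=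
      hgan.continuousAt.norm.eventually_const_lt (by linarith)
    have f2 : ∀ᶠ u in 𝓝 r, ‖g r‖ / 2 < ‖-((m : ℂ) + 1) * g u + (u - r) * deriv g u‖ := by
      have f3 : ContinuousAt (fun u => ‖-((m : ℂ) + 1) * g u + (u - r) * deriv g u‖) r :=
        ((continuousAt_const.mul hgan.continuousAt).add
          ((continuousAt_id.sub continuousAt_const).mul hgan.deriv.continuousAt)).norm
      refine f3.eventually_const_lt ?_
      simp only [sub_self, zero_mul, add_zero, norm_mul, norm_neg]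
      have f4 : (1 : ℝ) ≤ ‖(m : ℂ) + 1‖ := by
        have f5 : ((m : ℂ) + 1) = ((m + 1 : ℕ) : ℂ) := by push_cast; ring
        rw [f5, Complex.norm_natCast]
        exact_mod_cast Nat.succ_le_succ (Nat.zero_le m)
      nlinarith
    have f6 : ∀ᶠ u in 𝓝 r, ‖u - r‖ < 1 := by
      have := ball_mem_nhds r one_pos
      filter_upwards [this] with u hu
      rwa [mem_ball, dist_eq_norm] at hu
    refine ⟨(‖g r‖ / 2) ^ a * (‖g r‖ / 2), by positivity, ?_⟩
    filter_upwards [self_mem_nhdsWithin, hd, mem_nhdsWithin_of_mem_nhds f1, mem_nhdsWithin_of_mem_nhds f2,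
      mem_nhdsWithin_of_mem_nhds f6] with u g1 g2 g3 g4 g5
    have g1' : u ≠ r := g1
    have hpos : 0 < ‖u - r‖ := norm_pos_iff.2 (sub_ne_zero.2 g1')
    have hz : ∀ k : ℕ, 1 ≤ ‖(u - r) ^ (-((m : ℤ) + k))‖ := by
      intro k
      rw [norm_zpow, zpow_neg, ← inv_zpow, ← Nat.cast_add, zpow_natCast]
      exact one_le_pow₀ ((one_le_inv₀ hpos).2 g5.le)
    rw [g2, hquot u g1', norm_mul, norm_mul]
    have k1 := hz 1
    have k2 := hz 2
    push_cast at k1 k2
    have k3 : ‖g r‖ / 2 ≤ ‖(u - r) ^ (-((m : ℤ) + 1))‖ * ‖g u‖ := by nlinarith [norm_nonneg (g u)]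
    have k4 : ‖g r‖ / 2 ≤ ‖(u - r) ^ (-((m : ℤ) + 2))‖ * ‖-((m : ℂ) + 1) * g u + (u - r) * deriv g u‖ := by
      nlinarith [norm_nonneg (-((m : ℂ) + 1) * g u + (u - r) * deriv g u)]
    have k5 : (‖g r‖ / 2) ^ a ≤ (‖(u - r) ^ (-((m : ℤ) + 1))‖ * ‖g u‖) ^ a :=
      Real.rpow_le_rpow (by positivity) k3 ha.le
    exact mul_le_mul k5 k4 (by positivity) (by positivity)
  obtain ⟨c, hc, hc2⟩ := hlow
  have h3 := h.eventually_lt_const hc
  obtain ⟨u, hu1, hu2⟩ := (hc2.and h3).exists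
  linarith

/-- MODULE Alg. -/
theorem alg {M : ℕ} {P Y : Polynomial ℂ} (hP : P.Monic) (hPd : P.natDegree = M) (hY : Y.Monic)
    (hYd : Y.natDegree = M + 1) (hP0 : P.eval 0 = 0) {a b : ℝ} (ha : 0 < a) (hb : 0 < b)
    (h : ∀ R : ℝ, ∃ C : ℝ, ∀ u : ℂ, ‖u‖ < R → P.eval u ≠ 0 → Y.eval u ≠ 0 →
      ‖Y.eval u / P.eval u‖ ^ a * ‖deriv (fun z => Y.eval z / P.eval z) u‖ ≤ C * ‖P.eval u‖ ^ b) :
    P = X ^ M ∧ Y = X ^ (M + 1) := by
  have hPn : P ≠ 0 := hP.ne_zero
  have hYn : Y ≠ 0 := hY.ne_zero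
  -- the punctured limit at a root
  have hlim : ∀ r : ℂ, P.eval r = 0 →
      Tendsto (fun u : ℂ => ‖Y.eval u / P.eval u‖ ^ a * ‖deriv (fun z => Y.eval z / P.eval z) u‖) (𝓝[≠] r) (𝓝 0) := by
    intro r hr
    obtain ⟨C, hC⟩ := h (‖r‖ + 1)
    have e1 : ∀ᶠ u in 𝓝 r, ‖u‖ < ‖r‖ + 1 := continuous_norm.continuousAt.eventually_lt_const (by linarith)
    have e2 : ∀ A : Polynomial ℂ, A ≠ 0 → ∀ᶠ u in 𝓝[≠] r, A.eval u ≠ 0 := by
      intro A hA
      have e3 : ((A.roots.toFinset.erase r : Finset ℂ) : Set ℂ)ᶜ ∈ 𝓝 r :=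
        (Finset.isClosed _).isOpen_compl.mem_nhds (by simp)
      filter_upwards [self_mem_nhdsWithin, mem_nhdsWithin_of_mem_nhds e3] with y hy1 hy2 hy3
      refine hy2 ?_
      rw [Finset.mem_coe, Finset.mem_erase, Multiset.mem_toFinset]
      exact ⟨hy1, (mem_roots hA).2 hy3⟩
    have e4 : Tendsto (fun u : ℂ => C * ‖P.eval u‖ ^ b) (𝓝[≠] r) (𝓝 0) := by
      have e5 : ContinuousAt (fun u : ℂ => C * ‖P.eval u‖ ^ b) r :=
        continuousAt_const.mul (P.continuous.continuousAt.norm.rpow_const (Or.inr hb.le))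
      have e6 := e5.tendsto
      simp only [hr, norm_zero] at e6
      rw [Real.zero_rpow hb.ne', mul_zero] at e6
      exact e6.mono_left nhdsWithin_le_nhds
    refine tendsto_of_tendsto_of_tendsto_of_le_of_le' tendsto_const_nhds e4 ?_ ?_
    · exact Eventually.of_forall fun u => by positivity
    · filter_upwards [mem_nhdsWithin_of_mem_nhds e1, e2 P hPn, e2 Y hYn] with u g1 g2 g3
      exact hC u g1 g2 g3
  -- `P` divides `Y`
  have hdvd : P ∣ Y := by
    classical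
    rw [IsAlgClosed.dvd_iff_roots_le_roots hPn hYn, Multiset.le_iff_count]
    intro r
    rw [count_roots, count_roots]
    by_cases hr : P.eval r = 0
    · exact alg_mult hPn hYn ha (hlim r hr)
    · rw [rootMultiplicity_eq_zero hr]
      exact Nat.zero_le _
  obtain ⟨S, hS⟩ := hdvd
  have hSm : S.Monic := by
    have := hY
    rw [hS] at this
    exact hP.of_mul_monic_left this
  have hSd : S.natDegree = 1 := by
    have e1 := hP.natDegree_mul hSm
    rw [← hS, hYd, hPd] at e1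
    omega
  obtain ⟨c, hc⟩ : ∃ c : ℂ, S = X + C c := ⟨S.coeff 0, hSm.eq_X_add_C hSd⟩
  -- the roots of `P` are `-c`
  have hroot : ∀ r : ℂ, P.eval r = 0 → r = -c := by
    intro r hr
    by_contra hne
    have hrc : r + c ≠ 0 := fun h0 => hne (eq_neg_of_add_eq_zero_left h0)
    have e1 : (fun u : ℂ => ‖Y.eval u / P.eval u‖ ^ a * ‖deriv (fun z => Y.eval z / P.eval z) u‖) =ᶠ[𝓝[≠] r]
        fun u => ‖u + c‖ ^ a := by
      have e2 : ∀ᶠ u in 𝓝[≠] r, P.eval u ≠ 0 := by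
        have e3 : ((P.roots.toFinset.erase r : Finset ℂ) : Set ℂ)ᶜ ∈ 𝓝 r :=
          (Finset.isClosed _).isOpen_compl.mem_nhds (by simp)
        filter_upwards [self_mem_nhdsWithin, mem_nhdsWithin_of_mem_nhds e3] with y hy1 hy2 hy3
        refine hy2 ?_
        rw [Finset.mem_coe, Finset.mem_erase, Multiset.mem_toFinset]
        exact ⟨hy1, (mem_roots hPn).2 hy3⟩
      filter_upwards [e2] with u hu
      have e4 : ∀ z : ℂ, P.eval z ≠ 0 → Y.eval z / P.eval z = z + c := by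
        intro z hz
        rw [hS, hc, eval_mul, mul_div_cancel_left₀ _ hz]
        simp
      have e5 : (fun z => Y.eval z / P.eval z) =ᶠ[𝓝 u] fun z => z + c := by
        filter_upwards [P.continuous.continuousAt.eventually_ne hu] with z hz
        exact e4 z hz
      rw [e5.deriv_eq, e4 u hu]
      simp
    have e6 : Tendsto (fun u : ℂ => ‖u + c‖ ^ a) (𝓝[≠] r) (𝓝 (‖r + c‖ ^ a)) := by
      have e7 : ContinuousAt (fun u : ℂ => ‖u + c‖ ^ a) r :=
        (continuousAt_id.add continuousAt_const).norm.rpow_const (Or.inr ha.le)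
      exact e7.tendsto.mono_left nhdsWithin_le_nhds
    have e8 := tendsto_nhds_unique ((hlim r hr).congr' e1) e6
    have e9 : 0 < ‖r + c‖ ^ a := Real.rpow_pos_of_pos (norm_pos_iff.2 hrc) _
    linarith
  have hc0 : c = 0 := by
    have := hroot 0 hP0
    exact neg_eq_zero.1 this.symm
  have hPX : P = X ^ M := by
    have e1 : P.roots = Multiset.replicate M 0 := by
      rw [Multiset.eq_replicate]
      refine ⟨?_, ?_⟩
      · rw [← hPd]
        exact (IsAlgClosed.splits P).natDegree_eq_card_roots.symm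
      · intro r hr
        rw [hroot r ((mem_roots hPn).1 hr), hc0, neg_zero]
    have e2 := (IsAlgClosed.splits P).eq_prod_roots_of_monic hP
    rw [e1] at e2
    rw [e2]
    simp
  refine ⟨hPX, ?_⟩
  rw [hS, hc, hc0, hPX]
  simp [pow_succ]

end Pool.Agent.SG
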