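import Mathlib

/-!
# SG Ann: the derivative of a holomorphic function on an annulus

`ann_cauchy`: Cauchy's formula on an annulus.  `ann_bound`: for `t` holomorphic on `ρ < |h| < d₁` (so that the circle means of `h t'` vanish) the derivative on the circle
of radius `K r` is bounded by its maximum on the circle of radius `d` and by `1 / (K (K - 1))` times its maximum on the circle of radius `r`.
-/

set_option autoImplicit false

open Topology Filter Metric

namespace Pool.Agent.SG

/-- Cauchy's formula on an annulus -/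
theorem ann_cauchy {f : ℂ → ℂ} {r d : ℝ} (hr : 0 < r) {V : Set ℂ} (hV : IsOpen V)
    (hsub : closedBall 0 d \ ball 0 r ⊆ V) (hf : DifferentiableOn ℂ f V) {h : ℂ} (h1 : r < ‖h‖) (h2 : ‖h‖ < d) :
    (∮ z in C(0, d), f z / (z - h)) - (∮ z in C(0, r), f z / (z - h)) = 2 * Real.pi * Complex.I * f h := by
  have hrd : r < d := h1.trans h2
  have hhV : h ∈ V := hsub ⟨by simpa using h2.le, by simpa using h1.le⟩
  have hg : DifferentiableOn ℂ (dslope f h) V := (Complex.differentiableOn_dslope (hV.mem_nhds hhV)).2 hf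
  have hrr : ∀ z ∈ sphere (0 : ℂ) r, z ∈ V ∧ z - h ≠ 0 := by
    intro z hz
    have hzn : ‖z‖ = r := by simpa using hz
    refine ⟨hsub ⟨by simpa [hzn] using hrd.le, by simp [hzn]⟩, fun h0 => ?_⟩
    rw [sub_eq_zero] at h0
    rw [h0] at hzn
    linarith
  have hdd : ∀ z ∈ sphere (0 : ℂ) d, z ∈ V ∧ z - h ≠ 0 := by
    intro z hz
    have hzn : ‖z‖ = d := by simpa using hz
    refine ⟨hsub ⟨by simp [hzn], by simpa [hzn] using hrd.le⟩, fun h0 => ?_⟩
    rw [sub_eq_zero] at h0
    rw [h0] at hzn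
    linarith
  have hsplit : ∀ R : ℝ, 0 ≤ R → (∀ z ∈ sphere (0 : ℂ) R, z ∈ V ∧ z - h ≠ 0) →
      (∮ z in C(0, R), dslope f h z) = (∮ z in C(0, R), f z / (z - h)) - f h * ∮ z in C(0, R), (z - h)⁻¹ := by
    intro R hR0 hR
    have e1 : (∮ z in C(0, R), dslope f h z) = ∮ z in C(0, R), (f z / (z - h) - f h * (z - h)⁻¹) := by
      refine circleIntegral.integral_congr hR0 fun z hz => ?_
      have h3 : z ≠ h := sub_ne_zero.1 (hR z hz).2
      rw [dslope_of_ne _ h3, slope_def_field]
      field_simp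
    rw [e1, circleIntegral.integral_sub, circleIntegral.integral_const_mul]
    · refine ContinuousOn.circleIntegrable hR0 ?_
      refine (hf.continuousOn.mono fun z hz => (hR z hz).1).div (by fun_prop) fun z hz => (hR z hz).2
    · refine ContinuousOn.circleIntegrable hR0 ?_
      refine continuousOn_const.mul (ContinuousOn.inv₀ (by fun_prop) fun z hz => (hR z hz).2)
  have key : (∮ z in C(0, d), dslope f h z) = ∮ z in C(0, r), dslope f h z := by
    refine Complex.circleIntegral_eq_of_differentiable_on_annulus_off_countable hr hrd.le Set.countable_empty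
      (hg.continuousOn.mono hsub) fun z hz => hg.differentiableAt (hV.mem_nhds (hsub ?_))
    exact ⟨ball_subset_closedBall hz.1.1, fun h0 => hz.1.2 (ball_subset_closedBall h0)⟩
  have hin : (∮ z in C(0, d), (z - h)⁻¹) = 2 * Real.pi * Complex.I :=
    circleIntegral.integral_sub_inv_of_mem_ball (by simpa using h2)
  have hout : (∮ z in C(0, r), (z - h)⁻¹) = 0 := by
    have hne : ∀ z ∈ closedBall (0 : ℂ) r, z - h ≠ 0 := by
      intro z hz h0
      have hzn : ‖z‖ ≤ r := by simpa using hz
      rw [sub_eq_zero] at h0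
      rw [h0] at hzn
      linarith
    refine Complex.circleIntegral_eq_zero_of_differentiable_on_off_countable hr.le Set.countable_empty
      (ContinuousOn.inv₀ (by fun_prop) hne) fun z hz => ?_
    exact DifferentiableAt.inv (by fun_prop) (hne z (ball_subset_closedBall hz.1))
  rw [hsplit d (hr.le.trans hrd.le) hdd, hsplit r hr.le hrr, hin, hout, mul_zero, sub_zero] at key
  linear_combination key

/-- **the derivative on an annulus** -/
theorem ann_bound {t : ℂ → ℂ} {ρ r d d₁ K M₁ M₂ : ℝ} (hρ : 0 ≤ ρ) (hr : ρ < r) (hK : 1 < K) (hd : K * r < d) (hd₁ : d < d₁)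
    (ht : DifferentiableOn ℂ t {h | ρ < ‖h‖ ∧ ‖h‖ < d₁}) (h1 : ∀ z : ℂ, ‖z‖ = d → ‖deriv t z‖ ≤ M₁) (h2 : ∀ z : ℂ, ‖z‖ = r → ‖deriv t z‖ ≤ M₂)
    {h : ℂ} (hh : ‖h‖ = K * r) : ‖deriv t h‖ ≤ M₁ * (d / (d - K * r)) + M₂ / (K * (K - 1)) := by
  have hr0 : 0 < r := hρ.trans_lt hr
  have hrK : r < K * r := by nlinarith
  have hd0 : 0 < d := by linarith
  set V : Set ℂ := {h | ρ < ‖h‖ ∧ ‖h‖ < d₁} with hVdef
  have hV : IsOpen V := (isOpen_lt continuous_const continuous_norm).inter (isOpen_lt continuous_norm continuous_const)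
  have hf : DifferentiableOn ℂ (deriv t) V := ht.deriv hV
  have hsub : closedBall (0 : ℂ) d \ ball 0 r ⊆ V := by
    intro z hz
    have h3 : ‖z‖ ≤ d := by simpa using hz.1
    have h4 : r ≤ ‖z‖ := by simpa using hz.2
    exact ⟨hr.trans_le h4, h3.trans_lt hd₁⟩
  have key := ann_cauchy hr0 hV hsub hf (h := h) (by rw [hh]; exact hrK) (by rw [hh]; exact hd)
  have hh0 : h ≠ 0 := by
    rintro rfl
    rw [norm_zero] at hh
    linarith
  have hzr : ∀ z ∈ sphere (0 : ℂ) r, ‖z‖ = r ∧ z ∈ V ∧ K * r - r ≤ ‖z - h‖ := by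
    intro z hz
    have hzn : ‖z‖ = r := by simpa using hz
    refine ⟨hzn, hsub ⟨by simpa [hzn] using (hrK.trans hd).le, by simp [hzn]⟩, ?_⟩
    have h3 := norm_sub_norm_le h z
    rw [← norm_neg (h - z), neg_sub] at h3
    linarith
  have hzd : ∀ z ∈ sphere (0 : ℂ) d, ‖z‖ = d ∧ z ∈ V ∧ d - K * r ≤ ‖z - h‖ := by
    intro z hz
    have hzn : ‖z‖ = d := by simpa using hz
    refine ⟨hzn, hsub ⟨by simp [hzn], by simpa [hzn] using (hrK.trans hd).le⟩, ?_⟩
    have h3 := norm_sub_norm_le z h
    linarith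
  have hneR : ∀ z ∈ sphere (0 : ℂ) r, z - h ≠ 0 := by
    intro z hz h0
    have h3 := (hzr z hz).2.2
    rw [h0, norm_zero] at h3
    linarith
  -- the circle integral of the derivative vanishes
  have hzero : (∮ z in C(0, r), deriv t z) = 0 := by
    refine circleIntegral.integral_eq_zero_of_hasDerivWithinAt (f := t) hr0.le fun z hz => ?_
    exact (ht.differentiableAt (hV.mem_nhds (hzr z hz).2.1)).hasDerivAt.hasDerivWithinAt
  have hinner : (∮ z in C(0, r), deriv t z / (z - h)) = ∮ z in C(0, r), deriv t z * (z / (h * (z - h))) := by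
    have e1 : (∮ z in C(0, r), deriv t z * (z / (h * (z - h)))) = ∮ z in C(0, r), (deriv t z / (z - h) + h⁻¹ * deriv t z) := by
      refine circleIntegral.integral_congr hr0.le fun z hz => ?_
      have h3 := hneR z hz
      show deriv t z * (z / (h * (z - h))) = deriv t z / (z - h) + h⁻¹ * deriv t z
      field_simp
      ring
    rw [e1, circleIntegral.integral_add, circleIntegral.integral_const_mul, hzero, mul_zero, add_zero]
    · refine ContinuousOn.circleIntegrable hr0.le ?_
      refine (hf.continuousOn.mono fun z hz => (hzr z hz).2.1).div (by fun_prop) fun z hz => hneR z hz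
    · refine ContinuousOn.circleIntegrable hr0.le ?_
      exact continuousOn_const.mul (hf.continuousOn.mono fun z hz => (hzr z hz).2.1)
  rw [hinner] at key
  have hpi : (2 * Real.pi * Complex.I : ℂ) ≠ 0 := Complex.two_pi_I_ne_zero
  have hval : deriv t h = (2 * Real.pi * Complex.I : ℂ)⁻¹ • (∮ z in C(0, d), deriv t z / (z - h)) -
      (2 * Real.pi * Complex.I : ℂ)⁻¹ • ∮ z in C(0, r), deriv t z * (z / (h * (z - h))) := by
    rw [← smul_sub, key, smul_eq_mul, inv_mul_cancel_left₀ hpi]
  have b1 : ‖(2 * Real.pi * Complex.I : ℂ)⁻¹ • (∮ z in C(0, d), deriv t z / (z - h))‖ ≤ d * (M₁ / (d - K * r)) := by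
    refine circleIntegral.norm_two_pi_i_inv_smul_integral_le_of_norm_le_const hd0.le fun z hz => ?_
    obtain ⟨h3, -, h4⟩ := hzd z hz
    have h5 := h1 z h3
    have h6 : 0 < d - K * r := by linarith
    have h7 : 0 ≤ M₁ := (norm_nonneg _).trans h5
    rw [norm_div]
    exact div_le_div₀ h7 h5 h6 h4
  have b2 : ‖(2 * Real.pi * Complex.I : ℂ)⁻¹ • ∮ z in C(0, r), deriv t z * (z / (h * (z - h)))‖ ≤ r * (M₂ * (r / (K * r * (K * r - r)))) := by
    refine circleIntegral.norm_two_pi_i_inv_smul_integral_le_of_norm_le_const hr0.le fun z hz => ?_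
    obtain ⟨h3, -, h4⟩ := hzr z hz
    have h5 := h2 z h3
    have h6 : 0 < K * r - r := by linarith
    have h7 : 0 ≤ M₂ := (norm_nonneg _).trans h5
    have h8 : 0 < K * r := by linarith
    rw [norm_mul, norm_div, norm_mul, h3, hh]
    refine mul_le_mul h5 ?_ (by positivity) h7
    exact div_le_div_of_nonneg_left hr0.le (mul_pos h8 h6) (mul_le_mul_of_nonneg_left h4 h8.le)
  have e1 : d * (M₁ / (d - K * r)) = M₁ * (d / (d - K * r)) := by ring
  have e2 : r * (M₂ * (r / (K * r * (K * r - r)))) = M₂ / (K * (K - 1)) := by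
    have h6 : K - 1 ≠ 0 := by linarith
    have h7 : K ≠ 0 := by linarith
    have h8 : K * r - r = (K - 1) * r := by ring
    rw [h8]
    field_simp
  rw [hval]
  refine (norm_sub_le _ _).trans ?_
  rw [e1] at b1
  rw [e2] at b2
  exact add_le_add b1 b2

end Pool.Agent.SG
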