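import Pool.Agent.H36.TB.EnX
import Pool.Agent.SY.EiD

/-!
# SG BoxA: the lift of a curve near a point of the exceptional curve

`σ₁` is the chart of the blow-up with `phi l (σ (s, s t)) = s • σ₁ (s, t)`.  A curve `F` near the centre `q` in the sector `‖p.2‖ < ε ‖p.1‖` has a lift
`Φ` with the coordinates `s = p.1`, `t = p.2 / p.1`.
-/

set_option autoImplicit false
set_option linter.unusedVariables false

open Topology Filter Metric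

noncomputable section

namespace Pool.Agent.SG

open Pool.Agent.H17BP (Surface IsChart)
open Pool.Agent.H62.BU (blow total Ker phi phi_smul)
open Pool.Agent.SY (Ent IsLiftB)
open Pool.Agent.H36.TB (cancel_fst)

variable {V : Type} [NormedAddCommGroup V] [NormedSpace ℂ V] {ι : Type} [Fintype ι] {l : ι → V →L[ℂ] ℂ} {X T : Set V} {q : V}

/-- the total transform of `T` near a point of the exceptional curve -/
theorem box_total [CompleteSpace V] (hTs : ∀ x ∈ T, ∀ c : ℂ, c ≠ 0 → c • x ∈ T) (hq : q ∈ T) {σ : ℂ × ℂ → V} {τ : V → ℂ × ℂ}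
    (hσ : IsChart X σ τ) (h0 : σ 0 = q) {σ₁ : ℂ × ℂ → ι → V} {τ₁ : (ι → V) → ℂ × ℂ} (hσ₁ : IsChart (blow l X) σ₁ τ₁)
    (h1 : ∀ᶠ p in 𝓝 (0 : ℂ × ℂ), phi l (σ (p.1, p.1 * p.2)) = p.1 • σ₁ p)
    (hT : ∀ᶠ p in 𝓝 (0 : ℂ × ℂ), p.1 ≠ 0 → σ (p.1, p.1 * p.2) ∉ T) :
    ∀ᶠ p in 𝓝 (0 : ℂ × ℂ), (σ₁ p ∈ total l X T ↔ p.1 = 0) := by
  have hq0 : q ≠ 0 := h0 ▸ hσ.ne
  obtain ⟨Λ, -, hΛ'⟩ := exists_dual_vector ℂ q (norm_ne_zero_iff.mpr hq0)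
  have hΛ : Λ q ≠ 0 := by
    rw [hΛ']
    exact Complex.ofReal_ne_zero.mpr (norm_ne_zero_iff.mpr hq0)
  set mm : ℂ × ℂ → ℂ × ℂ := fun p => (p.1, p.1 * p.2) with hmm
  have hm_an : AnalyticAt ℂ mm 0 := analyticAt_fst.prod (analyticAt_fst.mul analyticAt_snd)
  have hm0 : mm 0 = 0 := by simp [hmm]
  have hσm : AnalyticAt ℂ (fun p => σ (mm p)) 0 := AnalyticAt.comp (by rw [hm0]; exact hσ.σ_an) hm_an
  have hΛσ : AnalyticAt ℂ (fun p => Λ (σ (mm p))) 0 := (Λ.analyticAt _).comp hσm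
  have hΛσ0 : Λ (σ (mm 0)) ≠ 0 := by rw [hm0, h0]; exact hΛ
  have key : ∀ᶠ p in 𝓝 (0 : ℂ × ℂ), ∀ b, Λ (σ (mm p)) • σ₁ p b = Λ (σ₁ p b) • σ (mm p) := by
    rw [eventually_all]
    intro b
    have hσb : AnalyticAt ℂ (fun p => σ₁ p b) 0 :=
      AnalyticAt.comp (g := fun y : ι → V => y b) ((ContinuousLinearMap.proj (R := ℂ) (φ := fun _ : ι => V) b).analyticAt _) hσ₁.σ_an
    refine cancel_fst (hΛσ.smul hσb) (((Λ.analyticAt _).comp hσb).smul hσm) ?_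
    filter_upwards [h1] with p hp
    have h2 : p.1 • σ₁ p b = l b (σ (mm p)) • σ (mm p) := (congrFun hp b).symm
    have h3 : p.1 * Λ (σ₁ p b) = l b (σ (mm p)) * Λ (σ (mm p)) := by
      rw [← smul_eq_mul, ← map_smul, h2, map_smul, smul_eq_mul]
    calc p.1 • (Λ (σ (mm p)) • σ₁ p b) = Λ (σ (mm p)) • (p.1 • σ₁ p b) := by rw [smul_comm]
      _ = (l b (σ (mm p)) * Λ (σ (mm p))) • σ (mm p) := by rw [h2, smul_smul, mul_comm]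
      _ = p.1 • (Λ (σ₁ p b) • σ (mm p)) := by rw [← h3, mul_smul]
  filter_upwards [key, hσ₁.σ_mem, hT, hΛσ.continuousAt.eventually_ne hΛσ0] with p h2 h3 h4 h5
  have h6 : ∀ b, σ₁ p b = (Λ (σ₁ p b) / Λ (σ (mm p))) • σ (mm p) := by
    intro b
    rw [div_eq_inv_mul, mul_smul, ← h2 b, smul_smul, inv_mul_cancel₀ h5, one_smul]
  constructor
  · intro h7
    by_contra h8
    obtain ⟨b, hb⟩ : ∃ b, σ₁ p b ≠ 0 := by
      by_contra hcon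
      push Not at hcon
      exact h3.2 (funext hcon)
    have h9 : σ₁ p b ∈ T := h7.2 b hb
    obtain ⟨k, hk⟩ : ∃ k : ℂ, k = Λ (σ₁ p b) / Λ (σ (mm p)) := ⟨_, rfl⟩
    have h6b : σ₁ p b = k • σ (mm p) := by
      rw [hk]
      exact h6 b
    have h10 : k ≠ 0 := by
      intro h
      apply hb
      rw [h6b, h, zero_smul]
    refine h4 h8 ?_
    have h11 := hTs _ h9 k⁻¹ (inv_ne_zero h10)
    rw [h6b, smul_smul, inv_mul_cancel₀ h10, one_smul] at h11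
    exact h11
  · intro h7
    have h8 : σ (mm p) = q := by
      have : mm p = 0 := by simp [hmm, h7]
      rw [this, h0]
    refine ⟨h3, fun b hb => ?_⟩
    rw [h6 b, h8]
    refine hTs q hq _ ?_
    intro h
    apply hb
    rw [h6 b, h8, h, zero_smul]

/-- the lift near a point of the exceptional curve -/
theorem box_lift (hX : Surface X) (hl : Ker l q) (hTX : T ⊆ X) (hTs : ∀ x ∈ T, ∀ c : ℂ, c ≠ 0 → c • x ∈ T) (hq : q ∈ T)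
    {σ : ℂ × ℂ → V} {τ : V → ℂ × ℂ} (hσ : IsChart X σ τ) (h0 : σ 0 = q) {σ₁ : ℂ × ℂ → ι → V} {τ₁ : (ι → V) → ℂ × ℂ}
    (hσ₁ : IsChart (blow l X) σ₁ τ₁) (h1 : ∀ᶠ p in 𝓝 (0 : ℂ × ℂ), phi l (σ (p.1, p.1 * p.2)) = p.1 • σ₁ p) {S : Set (ℂ × ℂ)} (hS : S ∈ 𝓝 0) :
    ∃ ε : ℝ, 0 < ε ∧ ∀ F, Ent X T F → ∀ z c : ℂ, c ≠ 0 → ‖c⁻¹ • F z - q‖ < ε → (τ (c⁻¹ • F z)).1 ≠ 0 →
      ‖(τ (c⁻¹ • F z)).2‖ < ε * ‖(τ (c⁻¹ • F z)).1‖ →
      ((τ (c⁻¹ • F z)).1, (τ (c⁻¹ • F z)).2 / (τ (c⁻¹ • F z)).1) ∈ S ∧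
      DifferentiableAt ℂ (fun w => τ (c⁻¹ • F w)) z ∧
      ∃ Φ, IsLiftB l X T F Φ ∧ Φ z = σ₁ ((τ (c⁻¹ • F z)).1, (τ (c⁻¹ • F z)).2 / (τ (c⁻¹ • F z)).1) ∧
        (∀ᶠ w in 𝓝 z, τ₁ (Φ w) = ((τ (c⁻¹ • F w)).1, (τ (c⁻¹ • F w)).2 / (τ (c⁻¹ • F w)).1)) ∧
        ∃ d : ℂ, ‖d‖ ≤ 2 ∧ 1 ≤ 2 * ‖d‖ ∧ phi l (F z) =
          ((c * d) ^ 2 * (τ (c⁻¹ • F z)).1) • σ₁ ((τ (c⁻¹ • F z)).1, (τ (c⁻¹ • F z)).2 / (τ (c⁻¹ • F z)).1) := by
  have hq0 : q ≠ 0 := h0 ▸ hσ.ne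
  have hτ0 : τ q = 0 := by
    have := hσ.left.self_of_nhds
    rwa [h0] at this
  have hτc : Tendsto τ (𝓝 q) (𝓝 0) := by
    have := hσ.τ_an.continuousAt.tendsto
    rwa [h0, hτ0] at this
  -- the good ball upstairs
  have hinv : ∀ᶠ p in 𝓝 (0 : ℂ × ℂ), ∀ᶠ x in 𝓝 (σ₁ p, (1 : ℂ)), τ₁ (x.2 • x.1) = τ₁ x.1 := by
    have h2 : Tendsto (fun p => (σ₁ p, (1 : ℂ))) (𝓝 0) (𝓝 (σ₁ 0, (1 : ℂ))) := hσ₁.σ_an.continuousAt.prodMk continuousAt_const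
    exact h2.eventually hσ₁.inv.eventually_nhds
  obtain ⟨δ, hδ, hball⟩ := Metric.eventually_nhds_iff_ball.mp
    ((((h1.and hσ₁.σ_an.eventually_continuousAt).and (hσ₁.σ_mem.and hσ₁.left)).and hinv).and hS)
  -- the good ball downstairs
  have hn1 : ∀ᶠ y in 𝓝 q, ‖y‖ ≤ 2 * ‖σ (τ y)‖ ∧ ‖σ (τ y)‖ ≤ 2 * ‖y‖ := by
    have h2 : Tendsto (fun y => ‖σ (τ y)‖) (𝓝 q) (𝓝 ‖q‖) := by
      have h3 : Tendsto σ (𝓝 0) (𝓝 q) := by
        have := hσ.σ_an.continuousAt.tendsto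
        rwa [h0] at this
      exact (h3.comp hτc).norm
    have h4 : Tendsto (fun y : V => ‖y‖) (𝓝 q) (𝓝 ‖q‖) := continuous_norm.tendsto q
    have hpos : 0 < ‖q‖ := norm_pos_iff.mpr hq0
    have h5 : ∀ᶠ y in 𝓝 q, ‖y‖ < (3 / 2) * ‖q‖ := h4.eventually (gt_mem_nhds (by linarith))
    have h6 : ∀ᶠ y in 𝓝 q, (3 / 4) * ‖q‖ < ‖y‖ := h4.eventually (lt_mem_nhds (by linarith))
    have h7 : ∀ᶠ y in 𝓝 q, ‖σ (τ y)‖ < (3 / 2) * ‖q‖ := h2.eventually (gt_mem_nhds (by linarith))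
    have h8 : ∀ᶠ y in 𝓝 q, (3 / 4) * ‖q‖ < ‖σ (τ y)‖ := h2.eventually (lt_mem_nhds (by linarith))
    filter_upwards [h5, h6, h7, h8] with y g1 g2 g3 g4
    exact ⟨by linarith, by linarith⟩
  have hright : ∀ᶠ y in 𝓝 q, y ∈ X → ∃ c : ℂ, c ≠ 0 ∧ y = c • σ (τ y) := by
    have := hσ.right
    rwa [h0] at this
  have hτan : ∀ᶠ y in 𝓝 q, AnalyticAt ℂ τ y := by
    have := hσ.τ_an.eventually_analyticAt
    rwa [h0] at this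
  obtain ⟨ε₁, hε₁, hball₁⟩ := Metric.eventually_nhds_iff_ball.mp
    (((hn1.and hright).and hτan).and (hτc.eventually (Metric.ball_mem_nhds (0 : ℂ × ℂ) hδ)))
  refine ⟨min ε₁ δ, lt_min hε₁ hδ, fun F hF z c hc hz hs ht => ?_⟩
  -- the coordinates at a parameter `w` which satisfies the conditions
  have hgood : ∀ w, ‖c⁻¹ • F w - q‖ < min ε₁ δ → (τ (c⁻¹ • F w)).1 ≠ 0 →
      ‖(τ (c⁻¹ • F w)).2‖ < min ε₁ δ * ‖(τ (c⁻¹ • F w)).1‖ →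
      ((τ (c⁻¹ • F w)).1, (τ (c⁻¹ • F w)).2 / (τ (c⁻¹ • F w)).1) ∈ ball (0 : ℂ × ℂ) δ ∧
      ∃ d : ℂ, d ≠ 0 ∧ ‖d‖ ≤ 2 ∧ 1 ≤ 2 * ‖d‖ ∧ phi l (F w) =
        ((c * d) ^ 2 * (τ (c⁻¹ • F w)).1) • σ₁ ((τ (c⁻¹ • F w)).1, (τ (c⁻¹ • F w)).2 / (τ (c⁻¹ • F w)).1) := by
    intro w hw1 hw2 hw3
    have hy : c⁻¹ • F w ∈ ball q ε₁ := by
      rw [mem_ball, dist_eq_norm]
      exact hw1.trans_le (min_le_left _ _)
    obtain ⟨⟨⟨⟨g1, g2⟩, g3⟩, g4⟩, g5⟩ := hball₁ _ hy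
    have hyX : c⁻¹ • F w ∈ X := hX.smul _ (hF.mem w) _ (inv_ne_zero hc)
    obtain ⟨d, hd0, hd⟩ := g3 hyX
    have hp1 : ‖(τ (c⁻¹ • F w)).1‖ < δ := (norm_fst_le _).trans_lt (by simpa using g5)
    have hp2 : ‖(τ (c⁻¹ • F w)).2 / (τ (c⁻¹ • F w)).1‖ < δ := by
      rw [norm_div, div_lt_iff₀ (norm_pos_iff.mpr hw2)]
      exact hw3.trans_le (mul_le_mul_of_nonneg_right (min_le_right _ _) (norm_nonneg _))
    have hpb : ((τ (c⁻¹ • F w)).1, (τ (c⁻¹ • F w)).2 / (τ (c⁻¹ • F w)).1) ∈ ball (0 : ℂ × ℂ) δ := by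
      rw [mem_ball, dist_zero_right, Prod.norm_def]
      exact max_lt hp1 hp2
    refine ⟨hpb, d, hd0, ?_, ?_, ?_⟩
    · -- ‖d‖ ≤ 2
      have h2 : ‖c⁻¹ • F w‖ = ‖d‖ * ‖σ (τ (c⁻¹ • F w))‖ := by
        conv_lhs => rw [hd]
        rw [norm_smul]
      have h3 : 0 < ‖σ (τ (c⁻¹ • F w))‖ := by
        rw [norm_pos_iff]
        intro h
        rw [h, smul_zero] at hd
        exact hX.zero (hd ▸ hyX)
      rw [h2] at g1
      exact le_of_mul_le_mul_right g1 h3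
    · have h2 : ‖c⁻¹ • F w‖ = ‖d‖ * ‖σ (τ (c⁻¹ • F w))‖ := by
        conv_lhs => rw [hd]
        rw [norm_smul]
      have h3 : 0 < ‖σ (τ (c⁻¹ • F w))‖ := by
        rw [norm_pos_iff]
        intro h
        rw [h, smul_zero] at hd
        exact hX.zero (hd ▸ hyX)
      rw [h2] at g2
      refine le_of_mul_le_mul_right ?_ h3
      linarith
    · have h2 : F w = (c * d) • σ (τ (c⁻¹ • F w)) := by
        rw [mul_smul, ← hd, smul_smul, mul_inv_cancel₀ hc, one_smul]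
      have h3 : ((τ (c⁻¹ • F w)).1, (τ (c⁻¹ • F w)).1 * ((τ (c⁻¹ • F w)).2 / (τ (c⁻¹ • F w)).1)) = τ (c⁻¹ • F w) := by
        rw [mul_div_cancel₀ _ hw2]
      have h4 := (hball _ hpb).1.1.1.1
      simp only at h4
      rw [h3] at h4
      conv_lhs => rw [h2]
      rw [phi_smul, h4, smul_smul]
  obtain ⟨hpz, d, hd0, hd1, hd2, hphi⟩ := hgood z hz hs ht
  have hyb : c⁻¹ • F z ∈ ball q ε₁ := by
    rw [mem_ball, dist_eq_norm]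
    exact hz.trans_le (min_le_left _ _)
  have hdiffP : DifferentiableAt ℂ (fun w => τ (c⁻¹ • F w)) z := by
    have g1 := (hball₁ _ hyb).1.2
    exact g1.differentiableAt.comp z ((hF.diff z).const_smul c⁻¹)
  have hcP : ContinuousAt (fun w => τ (c⁻¹ • F w)) z := hdiffP.continuousAt
  set P : ℂ → ℂ × ℂ := fun w => ((τ (c⁻¹ • F w)).1, (τ (c⁻¹ • F w)).2 / (τ (c⁻¹ • F w)).1) with hP
  have hPc : ContinuousAt P z := by
    have h2 : ContinuousAt (fun w => (τ (c⁻¹ • F w)).1) z := continuous_fst.continuousAt.comp hcP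
    have h3 : ContinuousAt (fun w => (τ (c⁻¹ • F w)).2) z := continuous_snd.continuousAt.comp hcP
    exact h2.prodMk (h3.div h2 hs)
  -- the conditions hold near `z`
  have hev : ∀ᶠ w in 𝓝 z, ∃ k : ℂ, k ≠ 0 ∧ phi l (F w) = k • σ₁ (P w) := by
    have e1 : ∀ᶠ w in 𝓝 z, ‖c⁻¹ • F w - q‖ < min ε₁ δ := by
      have : ContinuousAt (fun w => ‖c⁻¹ • F w - q‖) z := (((hF.diff z).continuousAt.const_smul c⁻¹).sub continuousAt_const).norm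
      exact this.eventually (gt_mem_nhds hz)
    have e2 : ∀ᶠ w in 𝓝 z, (τ (c⁻¹ • F w)).1 ≠ 0 := by
      have h2 : ContinuousAt (fun w => (τ (c⁻¹ • F w)).1) z := continuous_fst.continuousAt.comp hcP
      exact h2.eventually_ne hs
    have e3 : ∀ᶠ w in 𝓝 z, ‖(τ (c⁻¹ • F w)).2‖ < min ε₁ δ * ‖(τ (c⁻¹ • F w)).1‖ := by
      have h2 : ContinuousAt (fun w => min ε₁ δ * ‖(τ (c⁻¹ • F w)).1‖ - ‖(τ (c⁻¹ • F w)).2‖) z :=
        (continuousAt_const.mul (continuous_fst.continuousAt.comp hcP).norm).sub (continuous_snd.continuousAt.comp hcP).norm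
      filter_upwards [h2.eventually (lt_mem_nhds (sub_pos.mpr ht))] with w hw
      exact sub_pos.mp hw
    filter_upwards [e1, e2, e3] with w w1 w2 w3
    obtain ⟨-, d', hd', -, -, h2⟩ := hgood w w1 w2 w3
    exact ⟨_, mul_ne_zero (pow_ne_zero _ (mul_ne_zero hc hd')) w2, h2⟩
  have hσne : σ₁ (P z) ≠ 0 := (hball _ hpz).1.1.2.1.2
  -- the lift
  obtain ⟨Φ₀, hΦ₀, h, hh, hhΦ⟩ := Pool.Agent.SY.exists_liftB hX hl hTX hTs hq hF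
  set k₀ : ℂ := (c * d) ^ 2 * (τ (c⁻¹ • F z)).1 with hk₀
  have hk₀0 : k₀ ≠ 0 := mul_ne_zero (pow_ne_zero _ (mul_ne_zero hc hd0)) hs
  have hhz : h z ≠ 0 := by
    intro h2
    have h3 := hhΦ z
    rw [h2, zero_smul, hphi] at h3
    exact smul_ne_zero hk₀0 hσne h3
  have hΦz : Φ₀ z = ((h z)⁻¹ * k₀) • σ₁ (P z) := by
    have h3 := hhΦ z
    rw [hphi] at h3
    rw [mul_smul, h3, smul_smul, inv_mul_cancel₀ hhz, one_smul]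
  set μ : ℂ := (h z)⁻¹ * k₀ with hμ
  have hμ0 : μ ≠ 0 := mul_ne_zero (inv_ne_zero hhz) hk₀0
  have hμs : ∀ y ∈ blow l X, ∀ a : ℂ, a ≠ 0 → a • y ∈ blow l X := fun y hy a ha => Pool.Agent.H62.BU.blow_smul y hy a ha
  have hlift : IsLiftB l X T F (fun w => μ⁻¹ • Φ₀ w) := by
    refine ⟨⟨hΦ₀.diff.const_smul μ⁻¹, fun w => hμs _ (hΦ₀.mem w) _ (inv_ne_zero hμ0), ?_⟩, fun w => h w * μ, hh.mul_const μ, fun w => ?_⟩
    · obtain ⟨w, hw⟩ := hΦ₀.out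
      refine ⟨w, fun hcon => hw ⟨hΦ₀.mem w, fun b hb => ?_⟩⟩
      have h2 : (μ⁻¹ • Φ₀ w) b ≠ 0 := smul_ne_zero (inv_ne_zero hμ0) hb
      have h3 := hTs _ (hcon.2 b h2) μ hμ0
      rwa [Pi.smul_apply, smul_smul, mul_inv_cancel₀ hμ0, one_smul] at h3
    · rw [hhΦ w, smul_smul, mul_assoc, mul_inv_cancel₀ hμ0, mul_one]
  refine ⟨(hball _ hpz).2, hdiffP, fun w => μ⁻¹ • Φ₀ w, hlift, ?_, ?_, d, hd1, hd2, hphi⟩
  · show μ⁻¹ • Φ₀ z = σ₁ (P z)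
    rw [hΦz, smul_smul, inv_mul_cancel₀ hμ0, one_smul]
  · -- the coordinates of the lift
    obtain ⟨Λ, -, hΛ'⟩ := exists_dual_vector ℂ (σ₁ (P z)) (norm_ne_zero_iff.mpr hσne)
    have hΛ : Λ (σ₁ (P z)) ≠ 0 := by
      rw [hΛ']
      exact Complex.ofReal_ne_zero.mpr (norm_ne_zero_iff.mpr hσne)
    have hσP : ContinuousAt (fun w => σ₁ (P w)) z :=
      ContinuousAt.comp (g := σ₁) (hball _ hpz).1.1.1.2 hPc
    have hΛP : ContinuousAt (fun w => Λ (σ₁ (P w))) z := Λ.continuous.continuousAt.comp hσP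
    have hΦc : ContinuousAt (fun w => μ⁻¹ • Φ₀ w) z := (hΦ₀.diff z).continuousAt.const_smul μ⁻¹
    have hφc : ContinuousAt (fun w => Λ (μ⁻¹ • Φ₀ w) / Λ (σ₁ (P w))) z := (Λ.continuous.continuousAt.comp hΦc).div hΛP hΛ
    have hφ1 : Λ (μ⁻¹ • Φ₀ z) / Λ (σ₁ (P z)) = 1 := by
      rw [hΦz, smul_smul, inv_mul_cancel₀ hμ0, one_smul, div_self hΛ]
    have hpair : Tendsto (fun w => (σ₁ (P w), Λ (μ⁻¹ • Φ₀ w) / Λ (σ₁ (P w)))) (𝓝 z) (𝓝 (σ₁ (P z), (1 : ℂ))) := by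
      have h2 : ContinuousAt (fun w => (σ₁ (P w), Λ (μ⁻¹ • Φ₀ w) / Λ (σ₁ (P w)))) z := hσP.prodMk hφc
      have h3 := h2.tendsto
      simp only [hφ1] at h3
      exact h3
    have hinvz := (hball _ hpz).1.2
    have hhne : ∀ᶠ w in 𝓝 z, h w ≠ 0 := (hh z).continuousAt.eventually_ne hhz
    have hPball : ∀ᶠ w in 𝓝 z, P w ∈ ball (0 : ℂ × ℂ) δ := hPc.eventually (isOpen_ball.mem_nhds hpz)
    filter_upwards [hpair.eventually hinvz, hev, hhne, hPball, hΛP.eventually_ne hΛ] with w g1 g2 g3 g4 g5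
    obtain ⟨k, hk, hkw⟩ := g2
    have h2 : μ⁻¹ • Φ₀ w = (μ⁻¹ * ((h w)⁻¹ * k)) • σ₁ (P w) := by
      rw [mul_smul, mul_smul, ← hkw, hhΦ w, smul_smul (h w)⁻¹, inv_mul_cancel₀ g3, one_smul]
    have h3 : Λ (μ⁻¹ • Φ₀ w) / Λ (σ₁ (P w)) = μ⁻¹ * ((h w)⁻¹ * k) := by
      rw [h2, map_smul, smul_eq_mul, mul_div_assoc, div_self g5, mul_one]
    have h4 : μ⁻¹ • Φ₀ w = (Λ (μ⁻¹ • Φ₀ w) / Λ (σ₁ (P w))) • σ₁ (P w) := by
      rw [h3, h2]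
    show τ₁ (μ⁻¹ • Φ₀ w) = P w
    rw [h4]
    rw [g1]
    exact (hball _ g4).1.1.2.2

end Pool.Agent.SG
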