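import Pool.Agent.H62.BU.SurfB
import Pool.Agent.H62.BU.Main
import Pool.Agent.H22.W.Zal

/-!
# SG BuC: a chart whose first axis is the direction of a curve of positive length
-/

set_option autoImplicit false

open Topology Filter Metric

noncomputable section

namespace Pool.Agent.SG

open Pool.Agent.H36.BP (EN)
open Pool.Agent.H14.PP (IsCone CurveAt)
open Pool.Agent.H17BP (Surface IsChart)
open Pool.Agent.H22.W (PseudoLength)

variable {N : ℕ} {X : Set (EN N)}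

/-- the curve in the chart -/
theorem curve_chart {σ : ℂ × ℂ → EN N} {τ : EN N → ℂ × ℂ} (hσ : IsChart X σ τ) {H : ℂ → EN N} (hH : CurveAt X H 0) (h0 : H 0 = σ 0) :
    AnalyticAt ℂ (fun z => τ (H z)) 0 ∧ τ (H 0) = 0 ∧ (∀ᶠ z in 𝓝 (0 : ℂ), ∃ c : ℂ, c ≠ 0 ∧ H z = c • σ (τ (H z))) ∧
      CurveAt X (fun z => σ (τ (H z))) 0 := by
  have h1 : τ (H 0) = 0 := by
    rw [h0]
    exact hσ.left.self_of_nhds
  have h2 : AnalyticAt ℂ (fun z => τ (H z)) 0 := by
    have h3 : AnalyticAt ℂ τ (H 0) := by rw [h0]; exact hσ.τ_an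
    exact h3.comp hH.1
  have h3 : Tendsto (fun z => τ (H z)) (𝓝 (0 : ℂ)) (𝓝 0) := by
    have := h2.continuousAt.tendsto
    rwa [h1] at this
  have h4 : Tendsto H (𝓝 (0 : ℂ)) (𝓝 (σ 0)) := by
    have := hH.1.continuousAt.tendsto
    rwa [h0] at this
  refine ⟨h2, h1, ?_, ?_, ?_⟩
  · filter_upwards [h4.eventually hσ.right, hH.2] with z hz hzX
    exact hz hzX
  · have h5 : AnalyticAt ℂ σ (τ (H 0)) := by rw [h1]; exact hσ.σ_an
    exact AnalyticAt.comp (g := σ) (f := fun z => τ (H z)) h5 h2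
  · exact h3.eventually hσ.σ_mem

theorem deriv_chart {σ : ℂ × ℂ → EN N} {τ : EN N → ℂ × ℂ} (hσ : IsChart X σ τ) {H : ℂ → EN N} (hH : CurveAt X H 0) (h0 : H 0 = σ 0) :
    deriv (fun z => σ (τ (H z))) 0 = fderiv ℂ σ 0 (deriv (fun z => τ (H z)) 0) := by
  obtain ⟨h1, h2, -, -⟩ := curve_chart hσ hH h0
  have h3 : HasDerivAt (fun z => τ (H z)) (deriv (fun z => τ (H z)) 0) 0 := h1.differentiableAt.hasDerivAt
  have h4 : HasFDerivAt σ (fderiv ℂ σ 0) (τ (H 0)) := by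
    rw [h2]
    exact hσ.σ_an.differentiableAt.hasFDerivAt
  exact (h4.comp_hasDerivAt 0 h3).deriv

/-- the length in the chart -/
theorem length_chart (hX : IsCone X) (n : PseudoLength X) {σ : ℂ × ℂ → EN N} {τ : EN N → ℂ × ℂ} (hσ : IsChart X σ τ) {H : ℂ → EN N}
    (hH : CurveAt X H 0) (h0 : H 0 = σ 0) :
    n.toFun (H 0) (deriv H 0) = n.toFun (σ 0) (fderiv ℂ σ 0 (deriv (fun z => τ (H z)) 0)) := by
  obtain ⟨h1, h2, h3, h4⟩ := curve_chart hσ hH h0
  rw [n.lift_eq hX hH h4 h3, deriv_chart hσ hH h0, h2]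

/-- **A chart whose first axis is the direction of the curve.** -/
theorem exists_chart_dir (hX : Surface X) (hc : IsCone X) (n : PseudoLength X) {H : ℂ → EN N} (hH : CurveAt X H 0)
    (hn : n.toFun (H 0) (deriv H 0) ≠ 0) :
    ∃ (σ : ℂ × ℂ → EN N) (τ : EN N → ℂ × ℂ), IsChart X σ τ ∧ σ 0 = H 0 ∧ deriv (fun z => τ (H z)) 0 = (1, 0) ∧
      n.toFun (σ 0) (fderiv ℂ σ 0 (1, 0)) = n.toFun (H 0) (deriv H 0) := by
  obtain ⟨σ, τ, hσ, h0⟩ := hX.chart (H 0) hH.2.self_of_nhds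
  obtain ⟨w, hw⟩ : ∃ w, w = deriv (fun z => τ (H z)) 0 := ⟨_, rfl⟩
  have h1 := length_chart hc n hσ hH h0.symm
  have hw0 : w ≠ 0 := by
    rintro rfl
    rw [← hw, map_zero] at h1
    have h2 : n.toFun (σ 0) 0 = 0 := by
      obtain ⟨a1, a2, a3, a4⟩ := curve_chart hσ hH h0.symm
      have h3 := n.smul _ _ (Pool.Agent.H22.W.tan_curve a4) 0
      rw [zero_smul, norm_zero, zero_mul, a2] at h3
      exact h3
    rw [h2] at h1
    exact hn h1
  obtain ⟨e, he⟩ := Pool.Agent.H62.BU.exists_equiv hw0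
  have hσ' : IsChart X (fun p => σ (e p)) (fun y => e.symm (τ y)) :=
    Pool.Agent.H62.BU.ofChart ((Pool.Agent.H62.BU.toChart hσ).comp_linear e)
  have h0' : H 0 = (fun p => σ (e p)) 0 := by
    simp only [map_zero]
    exact h0.symm
  obtain ⟨b1, b2, -, -⟩ := curve_chart hσ hH h0.symm
  have hd : deriv (fun z => e.symm (τ (H z))) 0 = (1, 0) := by
    have h3 : HasDerivAt (fun z => τ (H z)) w 0 := by
      rw [hw]
      exact b1.differentiableAt.hasDerivAt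
    have h4 := (e.symm : (ℂ × ℂ) →L[ℂ] (ℂ × ℂ)).hasFDerivAt.comp_hasDerivAt (0 : ℂ) h3
    have h5 : (e.symm : (ℂ × ℂ) →L[ℂ] (ℂ × ℂ)) w = (1, 0) := by
      rw [← he]
      simp
    rw [h5] at h4
    exact h4.deriv
  refine ⟨_, _, hσ', h0'.symm, hd, ?_⟩
  have h6 := length_chart hc n hσ' hH h0'
  rw [hd] at h6
  exact h6.symm

end Pool.Agent.SG
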