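import Pool.Agent.H36.TB.EnM

/-!
# SG BuM: the maximum principle for the weighted energy, with a local bound of the energy
-/

set_option autoImplicit false

open Topology Filter Metric

noncomputable section

namespace Pool.Agent.SG

open Pool.Agent.H36.TB (EnergyB oC weighted_usc)
open Pool.Agent.H36.BP (EN fs wd Sub Sub.mul Sub.anti Sub.exp_sq max_principle)
open Pool.Agent.H17BP (Pr Surface IsForm NoZeros NodalAt Eqs IsChart ResAt)
open Pool.Agent.SY (Ent Energy ModelS)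

variable {V : Type} [NormedAddCommGroup V] [NormedSpace ℂ V] {X T : Set V}

/-- The maximum principle for the weighted energy.  `A` is a bound of the energy on the disc. -/
theorem maxP_loc {nu rho : V → ℝ} {m j : ℕ} {Ω : V → V → V → ℂ} {M : ℕ} {c₀ C θ : ℝ} {g : (ℂ → V) → ℂ → ℝ} {pn : V → ℝ} {D₁ : ℕ}
    (hX : Surface X) (hΩ : IsForm X m j Ω) (hm : 1 ≤ m) (hj : 1 ≤ j) (hθ : 0 < θ) (hθ1 : θ < 1)
    (E : EnergyB X T m j Ω nu rho M c₀ C g pn D₁ θ) {A : ℝ} {F : ℂ → V} (hF : Ent X T F) {w : ℂ} {R : ℝ}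
    (hA : ∀ z ∈ ball w R, g F z ≤ A) (hR : 0 < R)
    {z : ℂ} (hz : z ∈ ball w R) :
    ∃ y ∈ sphere w R, g F z * pn (F z) ^ (-(θ * j / (m * D₁))) * Real.exp (C * A ^ 2 * ‖z - w‖ ^ 2) ≤
      g F y * pn (F y) ^ (-(θ * j / (m * D₁))) * Real.exp (C * A ^ 2 * R ^ 2) := by
  have husc := weighted_usc hX hΩ hm hj hθ hθ1 E hF
  have hsub := E.subP F hF
  obtain ⟨v, hv⟩ : ∃ v : ℂ → ℝ, v = fun z => g F z * pn (F z) ^ (-(θ * j / (m * D₁))) := ⟨_, rfl⟩
  have hv' : ∀ z, g F z * pn (F z) ^ (-(θ * j / (m * D₁))) = v z := fun z => by rw [hv]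
  rw [← hv] at husc hsub
  simp only [hv']
  have hv0 : ∀ z, 0 ≤ v z := fun z => by
    rw [hv]
    exact mul_nonneg (E.nonneg F hF z) (Real.rpow_nonneg (E.pn_nonneg _) _)
  have hC := E.C_pos
  have hA0 : 0 ≤ A := (E.nonneg F hF w).trans (hA w (mem_ball_self hR))
  -- the maximum over the circle
  obtain ⟨y, hy, hmax⟩ := UpperSemicontinuousOn.exists_isMaxOn (NormedSpace.sphere_nonempty.2 hR.le) (isCompact_sphere w R)
    (husc.upperSemicontinuousOn (sphere w R))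
  refine ⟨y, hy, ?_⟩
  have key : ∀ ε : ℝ, 0 < ε → v z * Real.exp ((C * A ^ 2 + ε) * ‖z - w‖ ^ 2) ≤ v y * Real.exp ((C * A ^ 2 + ε) * R ^ 2) := by
    intro ε hε
    have hec : Continuous fun z : ℂ => Real.exp ((C * A ^ 2 + ε) * ‖z - w‖ ^ 2) := by fun_prop
    have h1 : UpperSemicontinuousOn (fun z => v z * Real.exp ((C * A ^ 2 + ε) * ‖z - w‖ ^ 2)) (closedBall w R) := by
      intro x _ b hb
      have hb' : v x * Real.exp ((C * A ^ 2 + ε) * ‖x - w‖ ^ 2) < b := hb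
      have hE : 0 < Real.exp ((C * A ^ 2 + ε) * ‖x - w‖ ^ 2) := Real.exp_pos _
      obtain ⟨a, ha1, ha2⟩ : ∃ a, v x < a ∧ a * Real.exp ((C * A ^ 2 + ε) * ‖x - w‖ ^ 2) < b := by
        have h1 : v x < b / Real.exp ((C * A ^ 2 + ε) * ‖x - w‖ ^ 2) := by rwa [lt_div_iff₀ hE]
        obtain ⟨a, h2, h3⟩ := exists_between h1
        exact ⟨a, h2, by rwa [lt_div_iff₀ hE] at h3⟩
      have h2 : ∀ᶠ z in 𝓝 x, a * Real.exp ((C * A ^ 2 + ε) * ‖z - w‖ ^ 2) < b :=
        ((hec.continuousAt.const_mul a).tendsto).eventually (gt_mem_nhds ha2)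
      refine Filter.Eventually.filter_mono nhdsWithin_le_nhds ?_
      filter_upwards [husc x a ha1, h2] with z h3 h4
      exact lt_of_le_of_lt (mul_le_mul_of_nonneg_right (le_of_lt h3) (Real.exp_pos _).le) h4
    refine max_principle (isCompact_closedBall w R) isOpen_ball ball_subset_closedBall h1 (fun x hx hpos => ?_)
      (mul_nonneg (hv0 y) (Real.exp_pos _).le) (fun x hx => ?_) z (ball_subset_closedBall hz)
    · have hvx : 0 < v x := by
        by_contra hcon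
        have h2 : v x = 0 := le_antisymm (not_lt.1 hcon) (hv0 x)
        rw [h2, zero_mul] at hpos
        exact lt_irrefl _ hpos
      have hgx : 0 < g F x := by
        rcases (E.nonneg F hF x).eq_or_lt with h2 | h2
        · exfalso
          rw [hv] at hvx
          simp only [← h2, zero_mul] at hvx
          exact lt_irrefl _ hvx
        · exact h2
      refine ⟨ε, hε, ?_⟩
      have h2 := (hsub x hgx).mul (Sub.exp_sq (t := fun z : ℂ => z - w) (z₀ := x) (by fun_prop) (C * A ^ 2 + ε))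
      refine h2.anti ?_
      have h3 : deriv (fun z : ℂ => z - w) x = 1 := by simp
      rw [h3, norm_one, one_pow, mul_one]
      have h4 : g F x ^ 2 ≤ A ^ 2 := pow_le_pow_left₀ hgx.le (hA x hx) 2
      nlinarith
    · have h2 : x ∈ sphere w R := by
        rw [mem_sphere]
        refine le_antisymm (mem_closedBall.1 hx.1) (not_lt.1 fun h => hx.2 (mem_ball.2 h))
      have h3 : v x ≤ v y := hmax h2
      have h4 : ‖x - w‖ = R := by rw [← dist_eq_norm]; exact mem_sphere.1 h2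
      rw [h4]
      exact mul_le_mul_of_nonneg_right h3 (Real.exp_pos _).le
  -- the limit
  have hl1 : Tendsto (fun ε : ℝ => v z * Real.exp ((C * A ^ 2 + ε) * ‖z - w‖ ^ 2)) (𝓝[>] 0) (𝓝 (v z * Real.exp (C * A ^ 2 * ‖z - w‖ ^ 2))) := by
    have h1 : Continuous fun ε : ℝ => v z * Real.exp ((C * A ^ 2 + ε) * ‖z - w‖ ^ 2) := by fun_prop
    have h2 := h1.tendsto 0
    rw [add_zero] at h2
    exact h2.mono_left nhdsWithin_le_nhds
  have hl2 : Tendsto (fun ε : ℝ => v y * Real.exp ((C * A ^ 2 + ε) * R ^ 2)) (𝓝[>] 0) (𝓝 (v y * Real.exp (C * A ^ 2 * R ^ 2))) := by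
    have h1 : Continuous fun ε : ℝ => v y * Real.exp ((C * A ^ 2 + ε) * R ^ 2) := by fun_prop
    have h2 := h1.tendsto 0
    rw [add_zero] at h2
    exact h2.mono_left nhdsWithin_le_nhds
  exact le_of_tendsto_of_tendsto hl1 hl2 (eventually_nhdsWithin_of_forall fun ε hε => key ε hε)

/-- The maximum principle for the weighted energy `U`, with a constant: `U z ≤ K * U y` for some point `y` of the circle of radius `r ≤ R`. -/
theorem maxU {nu rho : V → ℝ} {m j : ℕ} {Ω : V → V → V → ℂ} {M : ℕ} {c₀ C θ : ℝ} {g : (ℂ → V) → ℂ → ℝ} {pn : V → ℝ} {D₁ : ℕ}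
    (hX : Surface X) (hΩ : IsForm X m j Ω) (hm : 1 ≤ m) (hj : 1 ≤ j) (hθ : 0 < θ) (hθ1 : θ < 1)
    (E : EnergyB X T m j Ω nu rho M c₀ C g pn D₁ θ) {A : ℝ} {F : ℂ → V} (hF : Ent X T F) {w : ℂ} {R : ℝ}
    (hA : ∀ z ∈ ball w R, g F z ≤ A) {r : ℝ} (hr : 0 < r) (hrR : r ≤ R) {z : ℂ} (hz : z ∈ closedBall w r) :
    ∃ y ∈ sphere w r, g F z * pn (F z) ^ (-(θ * j / (m * D₁))) ≤
      Real.exp (C * A ^ 2 * R ^ 2) * (g F y * pn (F y) ^ (-(θ * j / (m * D₁)))) := by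
  have hU : ∀ x, 0 ≤ g F x * pn (F x) ^ (-(θ * j / (m * D₁))) := fun x =>
    mul_nonneg (E.nonneg F hF x) (Real.rpow_nonneg (E.pn_nonneg _) _)
  have hCA : 0 ≤ C * A ^ 2 := mul_nonneg E.C_pos.le (sq_nonneg _)
  have h1 : (1 : ℝ) ≤ Real.exp (C * A ^ 2 * R ^ 2) := Real.one_le_exp (mul_nonneg hCA (sq_nonneg _))
  rcases (mem_closedBall.1 hz).lt_or_eq with h2 | h2
  · obtain ⟨y, hy, h3⟩ := maxP_loc hX hΩ hm hj hθ hθ1 E hF (fun x hx => hA x (ball_subset_ball hrR hx)) hr (mem_ball.2 h2)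
    refine ⟨y, hy, ?_⟩
    have h4 : (1 : ℝ) ≤ Real.exp (C * A ^ 2 * ‖z - w‖ ^ 2) := Real.one_le_exp (mul_nonneg hCA (sq_nonneg _))
    have h5 : Real.exp (C * A ^ 2 * r ^ 2) ≤ Real.exp (C * A ^ 2 * R ^ 2) :=
      Real.exp_le_exp.2 (mul_le_mul_of_nonneg_left (pow_le_pow_left₀ hr.le hrR 2) hCA)
    calc g F z * pn (F z) ^ (-(θ * j / (m * D₁))) ≤ g F z * pn (F z) ^ (-(θ * j / (m * D₁))) * Real.exp (C * A ^ 2 * ‖z - w‖ ^ 2) :=
          le_mul_of_one_le_right (hU z) h4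
      _ ≤ g F y * pn (F y) ^ (-(θ * j / (m * D₁))) * Real.exp (C * A ^ 2 * r ^ 2) := h3
      _ ≤ g F y * pn (F y) ^ (-(θ * j / (m * D₁))) * Real.exp (C * A ^ 2 * R ^ 2) := mul_le_mul_of_nonneg_left h5 (hU y)
      _ = Real.exp (C * A ^ 2 * R ^ 2) * (g F y * pn (F y) ^ (-(θ * j / (m * D₁)))) := mul_comm _ _
  · refine ⟨z, mem_sphere.2 h2, ?_⟩
    have h3 := mul_le_mul_of_nonneg_right h1 (hU z)
    rwa [one_mul] at h3

end Pool.Agent.SG
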