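import Pool.Agent.H17BP.Surf

/-!
# SG ChN: the chart on the neck

`tau_neck`: if `A` is near `a ^ m • (σ 0 + a • v)`, where `Dτ v = (1, 0)`, then the coordinates of `A` are near `(a, 0)`.
`tau_neck_deriv`: the same for a holomorphic curve, with the derivatives.  `tau_dir`: the direction of the limit.
-/

set_option autoImplicit false

open Topology Filter Metric

namespace Pool.Agent.SG

open Pool.Agent.H17BP (IsChart)

variable {V : Type} [NormedAddCommGroup V] [NormedSpace ℂ V] {X : Set V} {σ : ℂ × ℂ → V} {τ : V → ℂ × ℂ}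

theorem tau_zero (h : IsChart X σ τ) : τ (σ 0) = 0 := h.left.self_of_nhds

/-- the derivative of `τ` is a left inverse of the derivative of `σ` -/
theorem fderiv_tau_comp (h : IsChart X σ τ) (w : ℂ × ℂ) : fderiv ℂ τ (σ 0) (fderiv ℂ σ 0 w) = w := by
  have h1 : HasFDerivAt σ (fderiv ℂ σ 0) 0 := h.σ_an.differentiableAt.hasFDerivAt
  have h2 : HasFDerivAt τ (fderiv ℂ τ (σ 0)) (σ 0) := h.τ_an.differentiableAt.hasFDerivAt
  have h3 := h2.comp 0 h1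
  have h4 : HasFDerivAt (fun p : ℂ × ℂ => p) (ContinuousLinearMap.id ℂ (ℂ × ℂ)) 0 := hasFDerivAt_id 0
  have h5 : (τ ∘ σ) =ᶠ[𝓝 0] fun p => p := h.left
  have h6 := h4.congr_of_eventuallyEq h5
  have h7 := h3.unique h6
  have := DFunLike.congr_fun h7 w
  simpa using this

/-- the derivative of `τ` vanishes on the line of the cone -/
theorem fderiv_tau_self (h : IsChart X σ τ) : fderiv ℂ τ (σ 0) (σ 0) = 0 := by
  have h2 : HasFDerivAt τ (fderiv ℂ τ (σ 0)) ((1 : ℂ) • σ 0) := by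
    rw [one_smul]; exact h.τ_an.differentiableAt.hasFDerivAt
  have h3 : HasDerivAt (fun c : ℂ => c • σ 0) (σ 0) 1 := by
    simpa using (hasDerivAt_id (1 : ℂ)).smul_const (σ 0)
  have h4 := h2.comp_hasDerivAt (1 : ℂ) h3
  have h5 : ∀ᶠ c in 𝓝 (1 : ℂ), τ (c • σ 0) = τ (σ 0) := by
    have h8 : Continuous fun c : ℂ => (σ 0, c) := by fun_prop
    exact (h8.tendsto 1).eventually h.inv
  have h6 : HasDerivAt (τ ∘ fun c : ℂ => c • σ 0) 0 1 := (hasDerivAt_const (1 : ℂ) (τ (σ 0))).congr_of_eventuallyEq h5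
  exact h4.unique h6

/-- the direction of the limit: the projection `v` of `H' 0` along `H 0 = σ 0` has `Dτ v = (τ ∘ H)' 0` -/
theorem tau_dir (h : IsChart X σ τ) {H : ℂ → V} {z₀ : ℂ} (hH : DifferentiableAt ℂ H z₀) (h0 : H z₀ = σ 0) (c : ℂ) :
    fderiv ℂ τ (σ 0) (deriv H z₀ - c • σ 0) = deriv (fun z => τ (H z)) z₀ := by
  have h2 : HasFDerivAt τ (fderiv ℂ τ (σ 0)) (H z₀) := by
    rw [h0]; exact h.τ_an.differentiableAt.hasFDerivAt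
  have h3 := h2.comp_hasDerivAt z₀ hH.hasDerivAt
  have h4 : deriv (fun z => τ (H z)) z₀ = fderiv ℂ τ (σ 0) (deriv H z₀) := h3.deriv
  rw [h4, map_sub, map_smul, fderiv_tau_self h, smul_zero, sub_zero]

private theorem ChN_lin (h : IsChart X σ τ) {ε : ℝ} (hε : 0 < ε) : ∃ ρ : ℝ, 0 < ρ ∧ ∀ w : V, ‖w‖ ≤ ρ →
    DifferentiableAt ℂ τ (σ 0 + w) ∧ ‖τ (σ 0 + w) - fderiv ℂ τ (σ 0) w‖ ≤ ε * ‖w‖ := by
  have h2 : HasFDerivAt τ (fderiv ℂ τ (σ 0)) (σ 0) := h.τ_an.differentiableAt.hasFDerivAt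
  have h3 := (hasFDerivAt_iff_isLittleO_nhds_zero.1 h2).def hε
  have h4 : ∀ᶠ w in 𝓝 (0 : V), DifferentiableAt ℂ τ (σ 0 + w) := by
    have h5 : ContinuousAt (fun w : V => σ 0 + w) 0 := by fun_prop
    have h6 : Tendsto (fun w : V => σ 0 + w) (𝓝 0) (𝓝 (σ 0)) := by
      have := h5.tendsto
      rwa [add_zero] at this
    filter_upwards [h6.eventually h.τ_an.eventually_analyticAt] with w hw
    exact hw.differentiableAt
  obtain ⟨r, hr, hr2⟩ := Metric.eventually_nhds_iff.1 (h3.and h4)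
  refine ⟨r / 2, by positivity, fun w hw => ?_⟩
  obtain ⟨h5, h6⟩ := hr2 (y := w) (by rw [dist_zero_right]; linarith)
  refine ⟨h6, ?_⟩
  rw [tau_zero h, sub_zero] at h5
  exact h5

/-- **The chart on the neck**, pointwise: the coordinates of a vector near `a ^ m • (σ 0 + a • v)`, `Dτ v = (1, 0)`. -/
theorem tau_neck (h : IsChart X σ τ) {L : V →L[ℂ] ℂ} {v : V} (hv : fderiv ℂ τ (σ 0) v = (1, 0)) {e : ℝ} (he : 0 < e) :
    ∃ η : ℝ, 0 < η ∧ η ≤ 1 / 2 ∧ ∀ (m : ℕ) (a : ℂ) (A : V), a ≠ 0 → ‖a‖ ≤ η → ‖L A - a ^ m‖ ≤ η * ‖a‖ ^ m →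
      ‖(A - L A • σ 0) - a ^ (m + 1) • v‖ ≤ η * ‖a‖ ^ (m + 1) →
      L A ≠ 0 ∧ DifferentiableAt ℂ τ ((L A)⁻¹ • A) ∧ ‖(L A)⁻¹ • A - σ 0‖ ≤ e ∧ ‖τ ((L A)⁻¹ • A) - (a, 0)‖ ≤ e * ‖a‖ := by
  set T := fderiv ℂ τ (σ 0) with hT
  have hG : 0 < ‖v‖ + 1 := by positivity
  have hK : 0 < ‖T‖ + 1 := by positivity
  obtain ⟨ρ, hρ, hρ2⟩ := ChN_lin h (ε := e / (2 * (‖v‖ + 1))) (by positivity)
  set η := min (min (1 / 2) (min (1 / (2 * (‖v‖ + 1))) (e / (4 * ((‖T‖ + 1) * (‖v‖ + 1)))))) (min (ρ / (‖v‖ + 1)) (e / (‖v‖ + 1))) with hη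
  have e1 : η ≤ 1 / 2 := (min_le_left _ _).trans (min_le_left _ _)
  have e2 : η ≤ 1 / (2 * (‖v‖ + 1)) := (min_le_left _ _).trans ((min_le_right _ _).trans (min_le_left _ _))
  have e3 : η ≤ e / (4 * ((‖T‖ + 1) * (‖v‖ + 1))) := (min_le_left _ _).trans ((min_le_right _ _).trans (min_le_right _ _))
  have e4 : η ≤ ρ / (‖v‖ + 1) := (min_le_right _ _).trans (min_le_left _ _)
  have e5 : η ≤ e / (‖v‖ + 1) := (min_le_right _ _).trans (min_le_right _ _)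
  have e0 : 0 < η := by positivity
  refine ⟨η, e0, e1, ?_⟩
  clear_value η
  intro m a A ha haδ h1 h2
  have ha0 : 0 < ‖a‖ := norm_pos_iff.2 ha
  have hp : 0 < ‖a‖ ^ m := by positivity
  have h3 : ‖a‖ ^ m / 2 ≤ ‖L A‖ := by
    have : ‖a ^ m‖ ≤ ‖L A‖ + ‖L A - a ^ m‖ := by
      calc ‖a ^ m‖ = ‖L A - (L A - a ^ m)‖ := by congr 1; ring
        _ ≤ _ := norm_sub_le _ _
    rw [norm_pow] at this
    nlinarith
  have h4 : L A ≠ 0 := by
    rw [← norm_pos_iff]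
    linarith
  set w : V := (L A)⁻¹ • (A - L A • σ 0) with hw
  have h5 : (L A)⁻¹ • A = σ 0 + w := by
    rw [hw, smul_sub, smul_smul, inv_mul_cancel₀ h4, one_smul, add_sub_cancel]
  have h6 : ‖w - a • v‖ ≤ 2 * η * (‖v‖ + 1) * ‖a‖ := by
    have h7 : w - a • v = (L A)⁻¹ • ((A - L A • σ 0) - a ^ (m + 1) • v - (a * (L A - a ^ m)) • v) := by
      rw [hw, ← sub_eq_zero, ← smul_right_injective _ h4 |>.eq_iff (b := 0), smul_zero]
      simp only [smul_sub, smul_smul, mul_inv_cancel₀ h4, ← mul_assoc]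
      module
    have h8 : ‖(A - L A • σ 0) - a ^ (m + 1) • v - (a * (L A - a ^ m)) • v‖ ≤ η * (‖v‖ + 1) * ‖a‖ * ‖a‖ ^ m := by
      refine (norm_sub_le _ _).trans ?_
      rw [norm_smul (a * (L A - a ^ m)), norm_mul]
      have : ‖a‖ * ‖L A - a ^ m‖ * ‖v‖ ≤ ‖a‖ * (η * ‖a‖ ^ m) * ‖v‖ := by gcongr
      calc _ ≤ η * ‖a‖ ^ (m + 1) + ‖a‖ * (η * ‖a‖ ^ m) * ‖v‖ := add_le_add h2 this
        _ = _ := by ring
    rw [h7, norm_smul, norm_inv]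
    calc ‖L A‖⁻¹ * _ ≤ (‖a‖ ^ m / 2)⁻¹ * (η * (‖v‖ + 1) * ‖a‖ * ‖a‖ ^ m) := by gcongr
      _ = _ := by field_simp
  have h9 : ‖w‖ ≤ (‖v‖ + 1) * ‖a‖ := by
    have : ‖w‖ ≤ ‖w - a • v‖ + ‖a • v‖ := by
      calc ‖w‖ = ‖(w - a • v) + a • v‖ := by rw [sub_add_cancel]
        _ ≤ _ := norm_add_le _ _
    rw [norm_smul a v] at this
    have h10 : 2 * η * (‖v‖ + 1) ≤ 1 := by
      have := mul_le_mul_of_nonneg_right e2 (a := 2 * (‖v‖ + 1)) (by positivity)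
      rw [one_div, inv_mul_cancel₀ (by positivity)] at this
      linarith
    have h10b := mul_le_mul_of_nonneg_right h10 ha0.le
    linarith
  obtain ⟨h11, h12⟩ := hρ2 w (h9.trans (by
    have := mul_le_mul_of_nonneg_left (haδ.trans e4) hG.le
    rwa [mul_div_cancel₀ _ hG.ne'] at this))
  refine ⟨h4, by rw [h5]; exact h11, ?_, ?_⟩
  · rw [h5, add_sub_cancel_left]
    refine h9.trans ?_
    have := mul_le_mul_of_nonneg_left (haδ.trans e5) hG.le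
    rwa [mul_div_cancel₀ _ hG.ne'] at this
  rw [h5]
  have h13 : τ (σ 0 + w) - (a, 0) = (τ (σ 0 + w) - T w) + T (w - a • v) := by
    rw [map_sub, map_smul T a v, hv]
    simp
  rw [h13]
  refine (norm_add_le _ _).trans ?_
  have h14 : ‖T (w - a • v)‖ ≤ (‖T‖ + 1) * (2 * η * (‖v‖ + 1) * ‖a‖) := by
    refine (T.le_opNorm _).trans ?_
    gcongr
    linarith
  have h15 : (‖T‖ + 1) * (2 * η * (‖v‖ + 1) * ‖a‖) ≤ e / 2 * ‖a‖ := by
    have := mul_le_mul_of_nonneg_right e3 (a := 4 * ((‖T‖ + 1) * (‖v‖ + 1))) (by positivity)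
    rw [div_mul_cancel₀ _ (by positivity)] at this
    nlinarith
  have h16 : e / (2 * (‖v‖ + 1)) * ‖w‖ ≤ e / 2 * ‖a‖ := by
    calc _ ≤ e / (2 * (‖v‖ + 1)) * ((‖v‖ + 1) * ‖a‖) := by gcongr
      _ = _ := by field_simp
  linarith

/-- Cauchy estimate on the disc of radius `‖z₀‖ / 2` -/
private theorem ChN_der {f : ℂ → ℂ × ℂ} {z₀ : ℂ} (hz : z₀ ≠ 0) {e : ℝ}
    (hf : ∀ z, ‖z - z₀‖ ≤ ‖z₀‖ / 2 → DifferentiableAt ℂ f z ∧ ‖f z - (z, 0)‖ ≤ e * ‖z‖) (he : 0 ≤ e) :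
    ‖deriv f z₀ - (1, 0)‖ ≤ 3 * e := by
  have hz0 : 0 < ‖z₀‖ := norm_pos_iff.2 hz
  have h1 : ∀ z ∈ closedBall z₀ (‖z₀‖ / 2), DifferentiableAt ℂ (fun z => f z - (z, (0 : ℂ))) z := by
    intro z hz1
    rw [mem_closedBall, dist_eq_norm] at hz1
    exact (hf z hz1).1.sub (differentiableAt_id.prodMk (differentiableAt_const _))
  have h2 : ∀ z ∈ sphere z₀ (‖z₀‖ / 2), ‖(fun z => f z - (z, (0 : ℂ))) z‖ ≤ e * (3 / 2 * ‖z₀‖) := by
    intro z hz1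
    rw [mem_sphere, dist_eq_norm] at hz1
    refine (hf z hz1.le).2.trans ?_
    have : ‖z‖ ≤ ‖z - z₀‖ + ‖z₀‖ := by simpa using norm_add_le (z - z₀) z₀
    have h3 : ‖z‖ ≤ 3 / 2 * ‖z₀‖ := by linarith
    gcongr
  have h3 : DiffContOnCl ℂ (fun z => f z - (z, (0 : ℂ))) (ball z₀ (‖z₀‖ / 2)) := by
    refine DifferentiableOn.diffContOnCl ?_
    intro z hz1
    exact (h1 z (closure_ball_subset_closedBall hz1)).differentiableWithinAt
  have h4 := Complex.norm_deriv_le_of_forall_mem_sphere_norm_le (half_pos hz0) h3 h2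
  have h5 : deriv (fun z => f z - (z, (0 : ℂ))) z₀ = deriv f z₀ - (1, 0) := by
    have h6 : HasDerivAt (fun z : ℂ => (z, (0 : ℂ))) (1, 0) z₀ := (hasDerivAt_id z₀).prodMk (hasDerivAt_const z₀ (0 : ℂ))
    have h7 : DifferentiableAt ℂ f z₀ := (hf z₀ (by simp; positivity)).1
    exact (h7.hasDerivAt.sub h6).deriv
  rw [h5] at h4
  refine h4.trans (le_of_eq ?_)
  field_simp

/-- the normalisation by the constant `L (A z)` and by the function `L (A w)` give the same coordinates near `z` -/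
theorem tau_scale (h : IsChart X σ τ) (L : V →L[ℂ] ℂ) : ∀ᶠ y in 𝓝 (σ 0), ∀ (A : ℂ → V) (z : ℂ), ContinuousAt A z → L (A z) ≠ 0 →
    (L (A z))⁻¹ • A z = y → ∀ᶠ w in 𝓝 z, τ ((L (A z))⁻¹ • A w) = τ ((L (A w))⁻¹ • A w) := by
  have h1 : Tendsto (fun y : V => (y, (1 : ℂ))) (𝓝 (σ 0)) (𝓝 (σ 0, (1 : ℂ))) := by
    have : Continuous fun y : V => (y, (1 : ℂ)) := by fun_prop
    exact this.tendsto _
  filter_upwards [h1.eventually h.inv.eventually_nhds] with y hy A z hA hL hyA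
  have h2 : ContinuousAt (fun w => L (A w)) z := L.continuous.continuousAt.comp hA
  have h3 : Tendsto (fun w => ((L (A z))⁻¹ • A w, L (A z) * (L (A w))⁻¹)) (𝓝 z) (𝓝 (y, (1 : ℂ))) := by
    have h4 : ContinuousAt (fun w => ((L (A z))⁻¹ • A w, L (A z) * (L (A w))⁻¹)) z :=
      (hA.const_smul _).prodMk (continuousAt_const.mul (h2.inv₀ hL))
    have h5 := h4.tendsto
    rwa [hyA, mul_inv_cancel₀ hL] at h5
  filter_upwards [h3.eventually hy, h2.eventually_ne hL] with w hw hw2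
  rw [← hw, smul_smul]
  congr 2
  field_simp

/-- **The chart on the neck**, with derivatives. -/
theorem tau_neck_deriv (h : IsChart X σ τ) {L : V →L[ℂ] ℂ} {v : V} (hv : fderiv ℂ τ (σ 0) v = (1, 0)) {e : ℝ} (he : 0 < e) :
    ∃ η : ℝ, 0 < η ∧ η ≤ 1 / 2 ∧ ∀ (m : ℕ) (A : ℂ → V) (ρ : ℝ), 0 < ρ →
      (∀ a : ℂ, ρ ≤ ‖a‖ → ‖a‖ ≤ η → DifferentiableAt ℂ A a ∧ ‖L (A a) - a ^ m‖ ≤ η * ‖a‖ ^ m ∧
        ‖(A a - L (A a) • σ 0) - a ^ (m + 1) • v‖ ≤ η * ‖a‖ ^ (m + 1)) →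
      ∀ a : ℂ, 2 * ρ ≤ ‖a‖ → ‖a‖ ≤ η / 2 →
        DifferentiableAt ℂ (fun z => τ ((L (A z))⁻¹ • A z)) a ∧ (τ ((L (A a))⁻¹ • A a)).1 ≠ 0 ∧
        ‖deriv (fun z => (τ ((L (A z))⁻¹ • A z)).1) a - 1‖ ≤ e ∧ ‖deriv (fun z => (τ ((L (A z))⁻¹ • A z)).2) a‖ ≤ e ∧
        ‖(τ ((L (A a))⁻¹ • A a)).2 / (τ ((L (A a))⁻¹ • A a)).1‖ ≤ e ∧
        ‖a‖ * ‖deriv (fun z => (τ ((L (A z))⁻¹ • A z)).2 / (τ ((L (A z))⁻¹ • A z)).1) a‖ ≤ e := by
  have he1 : 0 < min e 1 := lt_min he one_pos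
  obtain ⟨η, hη, hη2, hη3⟩ := tau_neck h (L := L) hv (e := min e 1 / 40) (by positivity)
  refine ⟨η, hη, hη2, ?_⟩
  intro m A ρ hρ hA a ha1 ha2
  set e' := min e 1 / 40 with he'
  have k0 : 0 < e' := by positivity
  have k1 : e' ≤ e / 40 := by rw [he']; gcongr; exact min_le_left _ _
  have k2 : e' ≤ 1 / 40 := by rw [he']; gcongr; exact min_le_right _ _
  have ha0 : 0 < ‖a‖ := by linarith
  have ha : a ≠ 0 := norm_pos_iff.1 ha0
  have hpt : ∀ z, ‖z - a‖ ≤ ‖a‖ / 2 → DifferentiableAt ℂ (fun z => τ ((L (A z))⁻¹ • A z)) z ∧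
      ‖(fun z => τ ((L (A z))⁻¹ • A z)) z - (z, 0)‖ ≤ e' * ‖z‖ := by
    intro z hz
    have z1 : ‖a‖ / 2 ≤ ‖z‖ := by
      have : ‖a‖ ≤ ‖z‖ + ‖z - a‖ := by
        calc ‖a‖ = ‖z - (z - a)‖ := by rw [sub_sub_cancel]
          _ ≤ _ := norm_sub_le _ _
      linarith
    have z2 : ‖z‖ ≤ 3 / 2 * ‖a‖ := by
      have : ‖z‖ ≤ ‖z - a‖ + ‖a‖ := by simpa using norm_add_le (z - a) a
      linarith
    obtain ⟨d1, d2, d3⟩ := hA z (by linarith) (by linarith)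
    have z0 : z ≠ 0 := norm_pos_iff.1 (by linarith)
    obtain ⟨f1, f2, -, f4⟩ := hη3 m z (A z) z0 (by linarith) d2 d3
    refine ⟨?_, f4⟩
    have f5 : DifferentiableAt ℂ (fun z => (L (A z))⁻¹ • A z) z := ((L.differentiableAt.comp z d1).inv f1).smul d1
    exact DifferentiableAt.comp z (g := τ) f2 f5
  obtain ⟨g1, g2⟩ := hpt a (by simp; positivity)
  have g3 := ChN_der ha hpt k0.le
  set f : ℂ → ℂ × ℂ := fun z => τ ((L (A z))⁻¹ • A z) with hf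
  have hfst : HasDerivAt (fun z => (f z).1) (deriv f a).1 a := by
    have := (hasFDerivAt_fst (𝕜 := ℂ) (p := f a)).comp_hasDerivAt a g1.hasDerivAt
    exact this
  have hsnd : HasDerivAt (fun z => (f z).2) (deriv f a).2 a := by
    have := (hasFDerivAt_snd (𝕜 := ℂ) (p := f a)).comp_hasDerivAt a g1.hasDerivAt
    exact this
  have b1 : ‖(deriv f a).1 - 1‖ ≤ 3 * e' := (norm_fst_le (deriv f a - (1, 0))).trans g3
  have b2 : ‖(deriv f a).2‖ ≤ 3 * e' := by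
    have := (norm_snd_le (deriv f a - (1, 0))).trans g3
    simpa using this
  have c1 : ‖(f a).1 - a‖ ≤ e' * ‖a‖ := (norm_fst_le (f a - (a, 0))).trans g2
  have c2 : ‖(f a).2‖ ≤ e' * ‖a‖ := by
    have := (norm_snd_le (f a - (a, 0))).trans g2
    simpa using this
  have c3 : ‖a‖ / 2 ≤ ‖(f a).1‖ := by
    have : ‖a‖ ≤ ‖(f a).1‖ + ‖(f a).1 - a‖ := by
      calc ‖a‖ = ‖(f a).1 - ((f a).1 - a)‖ := by rw [sub_sub_cancel]
        _ ≤ _ := norm_sub_le _ _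
    nlinarith
  have c4 : (f a).1 ≠ 0 := norm_pos_iff.1 (by linarith)
  have c5 : ‖(f a).1‖ ≤ 2 * ‖a‖ := by
    have : ‖(f a).1‖ ≤ ‖(f a).1 - a‖ + ‖a‖ := by simpa using norm_add_le ((f a).1 - a) a
    nlinarith
  have b3 : ‖(deriv f a).1‖ ≤ 2 := by
    have : ‖(deriv f a).1‖ ≤ ‖(deriv f a).1 - 1‖ + ‖(1 : ℂ)‖ := by simpa using norm_add_le ((deriv f a).1 - 1) 1
    rw [norm_one] at this
    linarith
  refine ⟨g1, c4, ?_, ?_, ?_, ?_⟩
  · rw [hfst.deriv]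
    linarith
  · rw [hsnd.deriv]
    linarith
  · rw [norm_div, div_le_iff₀ (by linarith)]
    nlinarith
  · have hq := (hsnd.div hfst c4).deriv
    have hq2 : deriv (fun z => (f z).2 / (f z).1) a = ((deriv f a).2 * (f a).1 - (f a).2 * (deriv f a).1) / (f a).1 ^ 2 := hq
    rw [hq2, norm_div, norm_pow]
    have n1 : ‖(deriv f a).2 * (f a).1 - (f a).2 * (deriv f a).1‖ ≤ 8 * e' * ‖a‖ := by
      refine (norm_sub_le _ _).trans ?_
      rw [norm_mul, norm_mul]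
      have n2 : ‖(deriv f a).2‖ * ‖(f a).1‖ ≤ (3 * e') * (2 * ‖a‖) := by gcongr
      have n3 : ‖(f a).2‖ * ‖(deriv f a).1‖ ≤ (e' * ‖a‖) * 2 := by gcongr
      linarith
    have n4 : (‖a‖ / 2) ^ 2 ≤ ‖(f a).1‖ ^ 2 := by gcongr
    calc ‖a‖ * (‖(deriv f a).2 * (f a).1 - (f a).2 * (deriv f a).1‖ / ‖(f a).1‖ ^ 2)
        ≤ ‖a‖ * ((8 * e' * ‖a‖) / (‖a‖ / 2) ^ 2) := by gcongr
      _ = 32 * e' := by field_simp; ring
      _ ≤ e := by linarith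

end Pool.Agent.SG
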