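import Mathlib

/-!
# SG LimC: two polynomial lemmas
-/

set_option autoImplicit false

open Topology Filter Metric Polynomial

noncomputable section

namespace Pool.Agent.SG

/-- a polynomial `A` of smaller degree with `A' Y = A Y'` is zero -/
theorem nk_wron {A Y : ℂ[X]} (hY : Y.Monic) (hd : A.natDegree < Y.natDegree) (h : derivative A * Y = A * derivative Y) : A = 0 := by
  by_contra hA
  obtain ⟨e, he⟩ : ∃ e, Y.natDegree = e + 1 := ⟨Y.natDegree - 1, by omega⟩
  have hc : A.coeff A.natDegree ≠ 0 := by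
    rw [coeff_natDegree]
    exact leadingCoeff_ne_zero.2 hA
  have hY1 : Y.coeff (e + 1) = 1 := by
    rw [← he]
    exact hY.coeff_natDegree
  have h2 : (A * derivative Y).coeff (A.natDegree + e) = A.coeff A.natDegree * ((e : ℂ) + 1) := by
    rw [coeff_mul_add_eq_of_natDegree_le le_rfl ((natDegree_derivative_le Y).trans (by omega)), coeff_derivative, hY1, one_mul]
  rcases Nat.eq_zero_or_pos A.natDegree with h0 | h0
  · have h3 : derivative A = 0 := by
      rw [eq_C_of_natDegree_eq_zero h0, derivative_C]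
    rw [← h, h3, zero_mul, coeff_zero] at h2
    have h4 : ((e : ℂ) + 1) ≠ 0 := by exact_mod_cast Nat.succ_ne_zero e
    exact (mul_ne_zero hc h4) h2.symm
  · obtain ⟨d, hd'⟩ : ∃ d, A.natDegree = d + 1 := ⟨A.natDegree - 1, by omega⟩
    have h3 : (derivative A * Y).coeff (d + (e + 1)) = (A.coeff (d + 1) * ((d : ℂ) + 1)) * 1 := by
      rw [coeff_mul_add_eq_of_natDegree_le ((natDegree_derivative_le A).trans (by omega)) he.le, coeff_derivative, hY1]
    rw [h, show d + (e + 1) = A.natDegree + e by omega, h2, hd', mul_one] at h3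
    rw [hd'] at hc
    have h4 := mul_left_cancel₀ hc h3
    have h5 : (e : ℂ) = d := add_right_cancel h4
    have h6 : e = d := by exact_mod_cast h5
    omega

/-- two polynomials which agree outside a disc are equal -/
theorem nk_eq {A B : ℂ[X]} {R : ℝ} (h : ∀ u : ℂ, R < ‖u‖ → A.eval u = B.eval u) : A = B := by
  refine Polynomial.eq_of_infinite_eval_eq A B ?_
  have h1 : Set.Infinite {u : ℂ | R < ‖u‖} := by
    have h2 : Set.Infinite (Set.Ioi (max R 0)) := Set.Ioi_infinite _
    refine Set.infinite_of_injOn_mapsTo (f := fun x : ℝ => (x : ℂ)) (Complex.ofReal_injective.injOn) ?_ h2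
    intro x hx
    have hx1 : max R 0 < x := hx
    show R < ‖(x : ℂ)‖
    rw [Complex.norm_real, Real.norm_of_nonneg ((le_max_right R 0).trans hx1.le)]
    exact (le_max_left R 0).trans_lt hx1
  exact h1.mono fun u hu => h u hu

/-- the limit of `t_n` is constant, so zero -/
theorem nk_zero {P A Y : ℂ[X]} (hY : Y.Monic) (hd : A.natDegree < Y.natDegree) {R : ℝ} (hP : ∀ u : ℂ, R < ‖u‖ → P.eval u ≠ 0)
    (h : ∀ u : ℂ, R < ‖u‖ → deriv (fun z => A.eval z / P.eval z) u * (Y.eval u / P.eval u) =
      A.eval u / P.eval u * deriv (fun z => Y.eval z / P.eval z) u) : A = 0 := by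
  refine nk_wron hY hd (nk_eq (R := R) fun u hu => ?_)
  have h1 := hP u hu
  have h2 := h u hu
  have h3 : ∀ B : ℂ[X], deriv (fun z => B.eval z / P.eval z) u =
      ((derivative B).eval u * P.eval u - B.eval u * (derivative P).eval u) / P.eval u ^ 2 := fun B => by
    rw [deriv_fun_div B.differentiableAt P.differentiableAt h1, Polynomial.deriv, Polynomial.deriv]
  rw [h3 A, h3 Y, div_mul_div_comm, div_mul_div_comm, div_eq_div_iff (mul_ne_zero (pow_ne_zero _ h1) h1)
    (mul_ne_zero h1 (pow_ne_zero _ h1))] at h2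
  rw [eval_mul, eval_mul]
  have h4 : P.eval u ^ 4 * ((derivative A).eval u * Y.eval u - A.eval u * (derivative Y).eval u) = 0 := by
    linear_combination h2
  have h5 := (mul_eq_zero.1 h4).resolve_left (pow_ne_zero _ h1)
  exact sub_eq_zero.1 h5

/-- vector coefficients of a polynomial function which vanishes off `0` are zero -/
theorem nk_vec {N m : ℕ} {A : ℕ → EuclideanSpace ℂ (Fin (N + 1))} {w : EuclideanSpace ℂ (Fin (N + 1))}
    (h : ∀ u : ℂ, u ≠ 0 → ∑ j ∈ Finset.range m, u ^ j • A j + u ^ m • w = 0) : ∀ j ∈ Finset.range m, A j = 0 := by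
  intro j hj
  ext i
  set p : ℂ[X] := ∑ j ∈ Finset.range m, C (A j i) * X ^ j + C (w i) * X ^ m with hp
  have h1 : p = 0 := by
    refine nk_eq (R := 0) fun u hu => ?_
    have h2 := h u (norm_pos_iff.1 hu)
    have h3 := congrArg (fun v : EuclideanSpace ℂ (Fin (N + 1)) => v i) h2
    simp only [PiLp.add_apply, PiLp.smul_apply, PiLp.zero_apply, WithLp.ofLp_sum, Finset.sum_apply, smul_eq_mul] at h3
    rw [hp, eval_zero]
    simp only [eval_add, eval_finsetSum, eval_mul, eval_C, eval_pow, eval_X]
    rw [← h3]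
    congr 1
    · exact Finset.sum_congr rfl fun j _ => mul_comm _ _
    · exact mul_comm _ _
  have h2 : p.coeff j = A j i := by
    rw [hp, coeff_add, finsetSum_coeff, coeff_C_mul_X_pow]
    have hjm : j < m := Finset.mem_range.1 hj
    rw [if_neg (by omega), add_zero, Finset.sum_eq_single j]
    · rw [coeff_C_mul_X_pow, if_pos rfl]
    · intro b _ hb
      rw [coeff_C_mul_X_pow, if_neg (Ne.symm hb)]
    · intro h3
      exact absurd hj h3
  rw [← h2, h1, coeff_zero]
  rfl

end Pool.Agent.SG
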