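import Pool.Agent.SG.LimB

/-!
# SG LimN: the estimates on the neck, along the sequence
-/

set_option autoImplicit false

open Topology Filter Metric

noncomputable section

namespace Pool.Agent.SG

open Pool.Agent.H36.TB (sm)
open Pool.Agent.H17BP (IsChart)

variable {E : Type} [NormedAddCommGroup E] [NormedSpace ℂ E] [CompleteSpace E] {𝒰 : Ultrafilter ℕ} {Φ : ℕ → ℂ → E} {ℓ : E →L[ℂ] ℂ}
  {c : ℕ → ℂ} {lam : ℕ → ℝ} {X : Set E} {σ : ℂ × ℂ → E} {τ : E → ℂ × ℂ}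

theorem lim_neck (hσ : IsChart X σ τ) {v : E} (hv : fderiv ℂ τ (σ 0) v = (1, 0)) {M : ℕ} {r r₁ : ℝ} (hr : 0 < r) (hr₁ : 0 < r₁)
    (hol : ∀ᶠ n in (𝒰 : Filter ℕ), DifferentiableOn ℂ (Φ n) (ball 0 r)) (hc : Tendsto c 𝒰 (𝓝 0))
    (hlp : ∀ᶠ n in (𝒰 : Filter ℕ), 0 < lam n)
    (hneck : ∀ ε : ℝ, 0 < ε → ∃ R δ : ℝ, 1 ≤ R ∧ 0 < δ ∧ ∀ᶠ n in (𝒰 : Filter ℕ), ∀ u : ℂ, R * lam n ≤ ‖u‖ → ‖u‖ ≤ δ → c n + u ∈ ball (0 : ℂ) r ∧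
        ‖ℓ (Φ n (c n + u)) - u ^ M‖ ≤ ε * ‖u‖ ^ M ∧
        ‖(Φ n (c n + u) - ℓ (Φ n (c n + u)) • σ 0) - u ^ (M + 1) • v‖ ≤ ε * ‖u‖ ^ (M + 1))
    {a b k ε B C₁ : ℝ} (ha : 0 ≤ a) (hb : 0 ≤ b) (hk1 : k < 1) (hcond : a - 1 - k < b * M) (hε : 0 < ε) {U : ℕ → ℂ → ℝ}
    (hU : ∀ n z, 0 ≤ U n z)
    (hmax : ∀ᶠ n in (𝒰 : Filter ℕ), ∀ (w : ℂ) (ρ : ℝ), 0 < ρ → closedBall w ρ ⊆ ball 0 r₁ → ∀ z ∈ closedBall w ρ, ∃ y ∈ sphere w ρ,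
      U n z ≤ C₁ * U n y)
    (htb : ∀ᶠ n in (𝒰 : Filter ℕ), ∀ z ∈ ball (0 : ℂ) r₁, ∀ c : ℂ, c ≠ 0 → ‖c⁻¹ • Φ n z - σ 0‖ < ε → (τ (c⁻¹ • Φ n z)).1 ≠ 0 →
      ‖(τ (c⁻¹ • Φ n z)).2‖ < ε * ‖(τ (c⁻¹ • Φ n z)).1‖ →
      ‖(τ (c⁻¹ • Φ n z)).1‖ ^ a * sm k ((τ (c⁻¹ • Φ n z)).1, (τ (c⁻¹ • Φ n z)).2 / (τ (c⁻¹ • Φ n z)).1)
        (deriv (fun w => (τ (c⁻¹ • Φ n w)).1) z, deriv (fun w => (τ (c⁻¹ • Φ n w)).2 / (τ (c⁻¹ • Φ n w)).1) z) * ‖c‖ ^ (-b) ≤ B * U n z ∧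
      U n z ≤ B * (‖(τ (c⁻¹ • Φ n z)).1‖ ^ a * sm k ((τ (c⁻¹ • Φ n z)).1, (τ (c⁻¹ • Φ n z)).2 / (τ (c⁻¹ • Φ n z)).1)
        (deriv (fun w => (τ (c⁻¹ • Φ n w)).1) z, deriv (fun w => (τ (c⁻¹ • Φ n w)).2 / (τ (c⁻¹ • Φ n w)).1) z) * ‖c‖ ^ (-b))) :
    ∃ R K δ C₂ B' C₁' ε' : ℝ, 1 ≤ R ∧ 1 < K ∧ 0 < δ ∧ 0 < C₂ ∧ 0 < B' ∧ 0 < C₁' ∧ 0 < ε' ∧ ∀ᶠ n in (𝒰 : Filter ℕ),
      (∀ h : ℂ, ‖h‖ ≤ δ → ℓ (Φ n (c n + h)) ≠ 0 → ‖(ℓ (Φ n (c n + h)))⁻¹ • Φ n (c n + h) - σ 0‖ < ε' → (cS τ ℓ (Φ n) (c n + h)).1 ≠ 0 →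
        ‖(cS τ ℓ (Φ n) (c n + h)).2‖ < ε' * ‖(cS τ ℓ (Φ n) (c n + h)).1‖ → TBz τ ℓ (Φ n) (U n) a b k B' (c n + h)) ∧
      (∀ (h : ℂ) (r : ℝ), 0 < r → ‖h‖ ≤ r → r ≤ δ → ∃ y : ℂ, ‖y‖ = r ∧ U n (c n + h) ≤ C₁' * U n (c n + y)) ∧
      (∀ h : ℂ, 2 * (R * lam n) < ‖h‖ → K * ‖h‖ ≤ δ / 4 →
        ‖h‖ ^ (1 - k) * ‖deriv (cT τ ℓ (Φ n)) (c n + h)‖ ≤ C₂ ∧ U n (c n + h) ≤ C₂ * ‖h‖ ^ (a - b * M)) := by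
  obtain ⟨ε₁, hε₁, hTBof⟩ := TBz_of hσ ℓ a b k (max B 1)
  set ε' := min ε ε₁ with hε'
  have hε'0 : 0 < ε' := lt_min hε hε₁
  have hB' : 0 < max B 1 := lt_max_of_lt_right one_pos
  have hC' : 0 < max C₁ 1 := lt_max_of_lt_right one_pos
  obtain ⟨η, hη, hone⟩ := neck_one (B := max B 1) (C₁ := max C₁ 1) (ε := ε') (ℓ := ℓ) hσ hv ha hb hk1 hB' hC' hε'0 hcond
  obtain ⟨R, δ₀, hR, hδ₀, hn⟩ := hneck η hη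
  set δ := min (min η δ₀) (min (r / 4) (r₁ / 4)) with hδ
  have hδ0 : 0 < δ := by positivity
  have d1 : δ ≤ η := (min_le_left _ _).trans (min_le_left _ _)
  have d2 : δ ≤ δ₀ := (min_le_left _ _).trans (min_le_right _ _)
  have d3 : δ ≤ r / 4 := (min_le_right _ _).trans (min_le_left _ _)
  have d4 : δ ≤ r₁ / 4 := (min_le_right _ _).trans (min_le_right _ _)
  obtain ⟨K, C₂, hK, hC₂, hK2⟩ := hone δ hδ0 d1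
  refine ⟨R, K, δ, C₂, max B 1, max C₁ 1, ε', hR, hK, hδ0, hC₂, hB', hC', hε'0, ?_⟩
  have e1 : ∀ᶠ n in (𝒰 : Filter ℕ), c n ∈ ball (0 : ℂ) (r / 4) := hc.eventually (ball_mem_nhds 0 (by positivity))
  have e2 : ∀ᶠ n in (𝒰 : Filter ℕ), c n ∈ ball (0 : ℂ) (r₁ / 4) := hc.eventually (ball_mem_nhds 0 (by positivity))
  filter_upwards [hn, hmax, htb, hol, hlp, e1, e2] with n n1 n2 n3 n4 n5 n6 n7
  have hball : ∀ h : ℂ, ‖h‖ ≤ δ → c n + h ∈ ball (0 : ℂ) r ∧ c n + h ∈ ball (0 : ℂ) r₁ := by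
    intro h hh
    rw [mem_ball_zero_iff] at n6 n7
    have := norm_add_le (c n) h
    constructor
    · rw [mem_ball_zero_iff]; linarith
    · rw [mem_ball_zero_iff]; linarith
  have hTB : ∀ h : ℂ, ‖h‖ ≤ δ → ℓ (Φ n (c n + h)) ≠ 0 → ‖(ℓ (Φ n (c n + h)))⁻¹ • Φ n (c n + h) - σ 0‖ < ε' → (cS τ ℓ (Φ n) (c n + h)).1 ≠ 0 →
        ‖(cS τ ℓ (Φ n) (c n + h)).2‖ < ε' * ‖(cS τ ℓ (Φ n) (c n + h)).1‖ → TBz τ ℓ (Φ n) (U n) a b k (max B 1) (c n + h) := by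
    intro h h1 h2 h3 h4 h5
    obtain ⟨b1, b2⟩ := hball h h1
    have h6 := n3 (c n + h) b2 _ h2 (h3.trans_le (min_le_left _ _)) h4
      (h5.trans_le (mul_le_mul_of_nonneg_right (min_le_left _ _) (norm_nonneg _)))
    refine hTBof (Φ n) (U n) (c n + h) (n4.continuousOn.continuousAt (isOpen_ball.mem_nhds b1)) h2 (h3.trans_le (min_le_right _ _)) ⟨?_, ?_⟩
    · exact h6.1.trans (mul_le_mul_of_nonneg_right (le_max_left _ _) (hU _ _))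
    · refine h6.2.trans (mul_le_mul_of_nonneg_right (le_max_left _ _) ?_)
      refine mul_nonneg (mul_nonneg (Real.rpow_nonneg (norm_nonneg _) _) ?_) (Real.rpow_nonneg (norm_nonneg _) _)
      rw [sm]
      exact (norm_nonneg _).trans (le_max_left _ _)
  have hMX : ∀ (h : ℂ) (r : ℝ), 0 < r → ‖h‖ ≤ r → r ≤ δ → ∃ y : ℂ, ‖y‖ = r ∧ U n (c n + h) ≤ max C₁ 1 * U n (c n + y) := by
    intro h s h1 h2 h3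
    obtain ⟨y, hy, hy2⟩ := n2 (c n) s h1 (by
      intro z hz
      rw [mem_closedBall, dist_eq_norm] at hz
      have := (hball (z - c n) (hz.trans h3)).2
      rwa [add_sub_cancel] at this) (c n + h) (by
        rw [mem_closedBall, dist_eq_norm, add_sub_cancel_left]
        exact h2)
    rw [mem_sphere, dist_eq_norm] at hy
    refine ⟨y - c n, hy, ?_⟩
    rw [add_sub_cancel]
    exact hy2.trans (mul_le_mul_of_nonneg_right (le_max_left _ _) (hU _ _))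
  refine ⟨hTB, hMX, ?_⟩
  have hRl : 0 ≤ R * lam n := by positivity
  exact hK2 (Φ n) (U n) (c n) (R * lam n) hRl (hU n)
    (fun h h1 h2 h3 => by
      obtain ⟨k1, k2, k3⟩ := n1 h h1 (h3.trans d2)
      exact ⟨n4.analyticAt (isOpen_ball.mem_nhds k1), k2, k3⟩) hTB hMX

end Pool.Agent.SG
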