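import Mathlib

/-!
# SG LimP: monic polynomials given by their coefficients
-/

set_option autoImplicit false

open Topology Filter Metric Polynomial

noncomputable section

namespace Pool.Agent.SG

theorem pl_deg (n : ℕ) (f : ℕ → ℂ) : (∑ j ∈ Finset.range n, C (f j) * X ^ j : ℂ[X]).degree < n := by
  refine mem_degreeLT.1 (Submodule.sum_mem _ fun j hj => mem_degreeLT.2 ?_)
  exact (degree_C_mul_X_pow_le j (f j)).trans_lt (by exact_mod_cast Finset.mem_range.1 hj)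

theorem pl_monic (n : ℕ) (f : ℕ → ℂ) : (∑ j ∈ Finset.range n, C (f j) * X ^ j + X ^ n : ℂ[X]).Monic := by
  rw [add_comm]
  exact monic_X_pow_add (pl_deg n f)

theorem pl_natDegree (n : ℕ) (f : ℕ → ℂ) : (∑ j ∈ Finset.range n, C (f j) * X ^ j + X ^ n : ℂ[X]).natDegree = n := by
  refine natDegree_eq_of_degree_eq_some ?_
  rw [add_comm, degree_add_eq_left_of_degree_lt (by rw [degree_X_pow]; exact pl_deg n f), degree_X_pow]

theorem pl_natDegree_lt {n : ℕ} (hn : n ≠ 0) (f : ℕ → ℂ) : (∑ j ∈ Finset.range n, C (f j) * X ^ j : ℂ[X]).natDegree < n := by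
  rcases eq_or_ne (∑ j ∈ Finset.range n, C (f j) * X ^ j : ℂ[X]) 0 with h | h
  · rw [h, natDegree_zero]
    exact Nat.pos_of_ne_zero hn
  · exact (natDegree_lt_iff_degree_lt h).2 (pl_deg n f)

theorem pl_eval0 (n : ℕ) (f : ℕ → ℂ) (u : ℂ) : (∑ j ∈ Finset.range n, C (f j) * X ^ j : ℂ[X]).eval u = ∑ j ∈ Finset.range n, u ^ j * f j := by
  rw [eval_finsetSum]
  refine Finset.sum_congr rfl fun j _ => ?_
  rw [eval_mul, eval_C, eval_pow, eval_X, mul_comm]

theorem pl_eval (n : ℕ) (f : ℕ → ℂ) (u : ℂ) :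
    (∑ j ∈ Finset.range n, C (f j) * X ^ j + X ^ n : ℂ[X]).eval u = ∑ j ∈ Finset.range n, u ^ j * f j + u ^ n := by
  rw [eval_add, pl_eval0, eval_pow, eval_X]

theorem pl_coeff {n : ℕ} {f : ℕ → ℂ} (h : (∑ j ∈ Finset.range n, C (f j) * X ^ j + X ^ n : ℂ[X]) = X ^ n) : ∀ j ∈ Finset.range n, f j = 0 := by
  intro j hj
  have h1 : (∑ j ∈ Finset.range n, C (f j) * X ^ j : ℂ[X]) = 0 := by
    rwa [add_eq_right] at h
  have h2 : (∑ j ∈ Finset.range n, C (f j) * X ^ j : ℂ[X]).coeff j = f j := by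
    rw [finsetSum_coeff, Finset.sum_eq_single j]
    · rw [coeff_C_mul_X_pow, if_pos rfl]
    · intro b _ hb
      rw [coeff_C_mul_X_pow, if_neg (Ne.symm hb)]
    · intro h3
      exact absurd hj h3
  rw [← h2, h1, coeff_zero]

theorem pl_roots {p : ℂ[X]} (hp : p ≠ 0) : ∃ R : ℝ, ∀ u : ℂ, R < ‖u‖ → p.eval u ≠ 0 := by
  have h1 : Set.Finite {u : ℂ | p.IsRoot u} := finite_setOfPred_isRoot hp
  obtain ⟨R, hR⟩ := h1.isBounded.subset_closedBall (0 : ℂ)
  refine ⟨R, fun u hu h0 => ?_⟩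
  have h2 := hR (show u ∈ {u : ℂ | p.IsRoot u} from h0)
  rw [mem_closedBall_zero_iff] at h2
  linarith

end Pool.Agent.SG
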