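import Pool.Agent.SG51.GC

/-!
# SG LimV: the limit of the projection is determined by the limit of the coordinates
-/

set_option autoImplicit false

open Topology Filter Metric

noncomputable section

namespace Pool.Agent.SG

open Pool.Agent.H17BP (IsChart Surface)
open Pool.Agent.SG51 (Res Yn)

variable {E : Type} [NormedAddCommGroup E] [NormedSpace ℂ E] {𝒰 : Ultrafilter ℕ} {Φ : ℕ → ℂ → E} {ℓ : E →L[ℂ] ℂ} {w : ℂ} {r : ℝ} {m : ℕ}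
  {c : ℕ → ℂ} {lam : ℕ → ℝ} {P : ℂ → ℂ} {N : ℂ → E} {X : Set E} {σ : ℂ × ℂ → E} {τ : E → ℂ × ℂ}

theorem lim_vec [CompleteSpace E] (hX : Surface X) (hσ : IsChart X σ τ) (h : Res 𝒰 Φ ℓ (σ 0) w r m c lam P N)
    (hΦX : ∀ᶠ n in (𝒰 : Filter ℕ), ∀ z ∈ ball w r, Φ n z ∈ X) :
    ∃ L : ℂ × ℂ →L[ℂ] E, ∀ u : ℂ, P u ≠ 0 → (P u)⁻¹ • N u = L (fderiv ℂ τ (σ 0) ((P u)⁻¹ • N u)) := by
  set ψ : ℂ × ℂ → E := fun p => (ℓ (σ p))⁻¹ • σ p with hψ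
  have hτ0 : τ (σ 0) = 0 := hσ.left.self_of_nhds
  have hℓ0 : ℓ (σ 0) ≠ 0 := by
    rw [h.ℓx]
    exact one_ne_zero
  have hψa : AnalyticAt ℂ ψ 0 := (((ℓ.analyticAt _).comp hσ.σ_an).inv hℓ0).smul hσ.σ_an
  have hψ0 : ψ 0 = σ 0 := by rw [hψ]; simp only; rw [h.ℓx, inv_one, one_smul]
  have hψτ : AnalyticAt ℂ (fun e => ψ (τ e)) (σ 0) := by
    refine AnalyticAt.comp (g := ψ) (f := τ) ?_ hσ.τ_an
    rw [hτ0]
    exact hψa
  set q : E → E := fun e => ψ (τ e) - σ 0 with hq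
  have hqa : AnalyticAt ℂ q (σ 0) := hψτ.sub analyticAt_const
  have hq0 : q (σ 0) = 0 := by rw [hq]; simp only; rw [hτ0, hψ0, sub_self]
  have hDq : ∀ v : E, fderiv ℂ q (σ 0) v = fderiv ℂ ψ 0 (fderiv ℂ τ (σ 0) v) := by
    intro v
    have h1 : HasFDerivAt ψ (fderiv ℂ ψ 0) (τ (σ 0)) := by
      rw [hτ0]
      exact hψa.differentiableAt.hasFDerivAt
    have h2 := (h1.comp (σ 0) hσ.τ_an.differentiableAt.hasFDerivAt).sub_const (σ 0)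
    have h3 : HasFDerivAt q ((fderiv ℂ ψ 0).comp (fderiv ℂ τ (σ 0))) (σ 0) := h2
    rw [h3.fderiv]
    rfl
  refine ⟨fderiv ℂ ψ 0, fun u hu => ?_⟩
  rw [← hDq]
  have t1 := h.ccρ u hu (fun _ => u) tendsto_const_nhds
  have t2 := h.ccQ hqa hq0 u hu (fun _ => u) tendsto_const_nhds
  refine tendsto_nhds_unique t1 (t2.congr' ?_)
  have t3 := h.tendsto_point (u := fun _ => u) (u₀ := u) tendsto_const_nhds
  have t4 := h.ccY u hu (fun _ => u) tendsto_const_nhds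
  have t5 : ContinuousAt (fun e => ℓ (σ (τ e))) (σ 0) := by
    refine ℓ.continuous.continuousAt.comp (ContinuousAt.comp (g := σ) (f := τ) ?_ hσ.τ_an.continuousAt)
    rw [hτ0]
    exact hσ.σ_an.continuousAt
  have t6 : ∀ᶠ e in 𝓝 (σ 0), ℓ (σ (τ e)) ≠ 0 := t5.eventually_ne (by rw [hτ0, h.ℓx]; exact one_ne_zero)
  filter_upwards [h.ne_zero hu (u := fun _ => u) tendsto_const_nhds, t3.eventually (ball_mem_nhds w h.r_pos), hΦX, t4.eventually hσ.right,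
    t4.eventually t6] with n h1 h2 h3 h4 h5
  have h6 : Yn ℓ Φ n (c n + lam n * u) ∈ X := hX.smul _ (h3 _ h2) _ (inv_ne_zero h1)
  obtain ⟨c', hc', h7⟩ := h4 h6
  have h8 : ℓ (Yn ℓ Φ n (c n + lam n * u)) = 1 := by
    rw [Yn, map_smul, smul_eq_mul, inv_mul_cancel₀ h1]
  have h9 : c' * ℓ (σ (τ (Yn ℓ Φ n (c n + lam n * u)))) = 1 := by
    rw [← smul_eq_mul, ← map_smul, ← h7, h8]
  have h10 : c' = (ℓ (σ (τ (Yn ℓ Φ n (c n + lam n * u)))))⁻¹ := eq_inv_of_mul_eq_one_left h9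
  congr 1
  rw [hq]
  simp only
  congr 1
  rw [hψ]
  simp only
  rw [← h10, ← h7]

end Pool.Agent.SG
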