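import Pool.Agent.SG.LimW
import Pool.Agent.SG.LimN
import Pool.Agent.SG.LimV
import Pool.Agent.SG.LimP
import Pool.Agent.SG.LimC
import Pool.Agent.SG.Alg
import Pool.Agent.SG.ChN
import Pool.Agent.H23.NE.Lim3

/-!
# SG Lim: the core theorem, no bubble

One rescaling (`H48.GB.scale_neck`), the estimates on the neck (`lim_neck`), the limits (`lim_wr`, `lim_ineq`, `lim_vec`), the algebra (`alg`).
-/

set_option autoImplicit false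

open Topology Filter Metric

noncomputable section

namespace Pool.Agent.SG

open Pool.Agent.H17BP (IsChart Surface)
open Pool.Agent.SG51 (Res Yn)
open Pool.Agent.H36.BP (EN)
open Pool.Agent.H74.NB (Obj)
open Pool.Agent.H36.TB (sm)

section lims

variable {E : Type} [NormedAddCommGroup E] [NormedSpace ℂ E] {𝒰 : Ultrafilter ℕ} {Φ : ℕ → ℂ → E} {ℓ : E →L[ℂ] ℂ} {w : ℂ} {r : ℝ} {m : ℕ}
  {c : ℕ → ℂ} {lam : ℕ → ℝ} {P : ℂ → ℂ} {N : ℂ → E} {X : Set E} {σ : ℂ × ℂ → E} {τ : E → ℂ × ℂ}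

theorem lim_coord (hσ : IsChart X σ τ) (h : Res 𝒰 Φ ℓ (σ 0) w r m c lam P N) (g : ℂ × ℂ →L[ℂ] ℂ) {u : ℂ} (hu : P u ≠ 0) :
    Tendsto (fun n => g (cS τ ℓ (Φ n) (c n + lam n * u)) / lam n) 𝒰 (𝓝 (g (fderiv ℂ τ (σ 0) ((P u)⁻¹ • N u)))) ∧
    Tendsto (fun n => deriv (fun z => g (cS τ ℓ (Φ n) z)) (c n + lam n * u)) 𝒰
      (𝓝 (deriv (fun z => g (fderiv ℂ τ (σ 0) ((P z)⁻¹ • N z))) u)) := by
  have hτ0 : τ (σ 0) = 0 := hσ.left.self_of_nhds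
  have hq : AnalyticAt ℂ (fun e => g (τ e)) (σ 0) := (g.analyticAt _).comp hσ.τ_an
  have hD : ∀ v : E, fderiv ℂ (fun e => g (τ e)) (σ 0) v = g (fderiv ℂ τ (σ 0) v) := by
    intro v
    have h1 : HasFDerivAt (fun e => g (τ e)) (g.comp (fderiv ℂ τ (σ 0))) (σ 0) :=
      g.hasFDerivAt.comp (σ 0) hσ.τ_an.differentiableAt.hasFDerivAt
    rw [h1.fderiv]
    rfl
  have t1 := h.ccQ hq (by simp [hτ0]) u hu (fun _ => u) tendsto_const_nhds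
  have t2 := h.ccQ' hq (by simp [hτ0]) u hu (fun _ => u) tendsto_const_nhds
  simp only [hD] at t1 t2
  refine ⟨t1.congr fun n => ?_, t2⟩
  rw [smul_eq_mul, div_eq_inv_mul]
  rfl

theorem lim_ineq (hσ : IsChart X σ τ) (h : Res 𝒰 Φ ℓ (σ 0) w r m c lam P N) {U : ℕ → ℂ → ℝ} {a b k B ε C : ℝ} (ha : 0 ≤ a) (hB : 0 < B)
    (hε : 0 < ε) {u : ℂ} (hu : P u ≠ 0) (hx : (fderiv ℂ τ (σ 0) ((P u)⁻¹ • N u)).2 = 0) (hy : (fderiv ℂ τ (σ 0) ((P u)⁻¹ • N u)).1 ≠ 0)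
    (hTB : ∀ᶠ n in (𝒰 : Filter ℕ), ℓ (Φ n (c n + lam n * u)) ≠ 0 → ‖(ℓ (Φ n (c n + lam n * u)))⁻¹ • Φ n (c n + lam n * u) - σ 0‖ < ε →
      (cS τ ℓ (Φ n) (c n + lam n * u)).1 ≠ 0 → ‖(cS τ ℓ (Φ n) (c n + lam n * u)).2‖ < ε * ‖(cS τ ℓ (Φ n) (c n + lam n * u)).1‖ →
      TBz τ ℓ (Φ n) (U n) a b k B (c n + lam n * u))
    (hU : ∀ᶠ n in (𝒰 : Filter ℕ), U n (c n + lam n * u) ≤ C * lam n ^ (a - b * m)) :
    B⁻¹ * ‖(fderiv ℂ τ (σ 0) ((P u)⁻¹ • N u)).1‖ ^ a * ‖deriv (fun z => (fderiv ℂ τ (σ 0) ((P z)⁻¹ • N z)).1) u‖ ≤ C * ‖P u‖ ^ b := by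
  obtain ⟨s1, s2⟩ := lim_coord hσ h (ContinuousLinearMap.fst ℂ ℂ ℂ) hu
  obtain ⟨x1, -⟩ := lim_coord hσ h (ContinuousLinearMap.snd ℂ ℂ ℂ) hu
  simp only [ContinuousLinearMap.coe_fst', ContinuousLinearMap.coe_snd'] at s1 s2 x1
  rw [hx] at x1
  have hP := h.ccP u (Set.mem_univ _) (fun _ => u) tendsto_const_nhds
  have hY := h.ccY u hu (fun _ => u) tendsto_const_nhds
  have hg : Tendsto (fun n => ‖ℓ (Φ n (c n + lam n * u))‖ / lam n ^ (m : ℝ)) 𝒰 (𝓝 ‖P u‖) := by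
    refine hP.norm.congr' ?_
    filter_upwards [h.pos] with n hn
    rw [norm_mul, norm_inv, norm_pow, Complex.norm_real, Real.norm_of_nonneg hn.le, Real.rpow_natCast, div_eq_inv_mul]
  refine Pool.Agent.H23.NE.step3 (M := m) h.pos (s := fun n => (cS τ ℓ (Φ n) (c n + lam n * u)).1)
    (s' := fun n => deriv (fun w => (cS τ ℓ (Φ n) w).1) (c n + lam n * u)) (U := fun n => U n (c n + lam n * u)) ha s1 s2 hg
    (norm_pos_iff.2 hu) ?_ hU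
  -- the sector
  have e1 : ∀ᶠ n in (𝒰 : Filter ℕ), (cS τ ℓ (Φ n) (c n + lam n * u)).1 / lam n ≠ 0 := s1.eventually_ne hy
  have e2 : ∀ᶠ n in (𝒰 : Filter ℕ), ‖(cS τ ℓ (Φ n) (c n + lam n * u)).2 / lam n‖ < ε * ‖(cS τ ℓ (Φ n) (c n + lam n * u)).1 / lam n‖ := by
    refine x1.norm.eventually_lt (s1.norm.const_mul ε) ?_
    rw [norm_zero]
    exact mul_pos hε (norm_pos_iff.2 hy)
  have e3 : ∀ᶠ n in (𝒰 : Filter ℕ), ‖(ℓ (Φ n (c n + lam n * u)))⁻¹ • Φ n (c n + lam n * u) - σ 0‖ < ε := by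
    filter_upwards [hY.eventually (ball_mem_nhds (σ 0) hε)] with n hn
    rw [dist_eq_norm] at hn
    exact hn
  filter_upwards [hTB, e1, e2, e3, h.pos, h.ne_zero hu (u := fun _ => u) tendsto_const_nhds] with n h1 h2 h3 h4 h5 h6
  have h7 : (cS τ ℓ (Φ n) (c n + lam n * u)).1 ≠ 0 := fun h0 => h2 (by rw [h0, zero_div])
  have h8 : ‖(cS τ ℓ (Φ n) (c n + lam n * u)).2‖ < ε * ‖(cS τ ℓ (Φ n) (c n + lam n * u)).1‖ := by
    rw [norm_div, norm_div, Complex.norm_real, Real.norm_of_nonneg h5.le, mul_div_assoc', div_lt_div_iff_of_pos_right h5] at h3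
    exact h3
  have h9 := (h1 h6 h4 h7 h8).1
  rw [mul_assoc, mul_assoc, inv_mul_le_iff₀ hB, ← mul_assoc]
  refine le_trans ?_ h9
  gcongr
  exact le_max_left _ _

end lims

/-- **No bubble**: one rescaling. -/
theorem core {N : ℕ} {X : Set (EN N)} (hX : Surface X) {σ : ℂ × ℂ → EN N} {τ : EN N → ℂ × ℂ} (hσ : IsChart X σ τ) {𝒰 : Ultrafilter ℕ}
    {Φ : ℕ → ℂ → EN N} {H : ℂ → EN N} {M : ℕ} {r : ℝ} (hM : 1 ≤ M) (h : Obj 𝒰 Φ 0 M H r) (hΦX : ∀ᶠ n in (𝒰 : Filter ℕ), ∀ z ∈ ball (0 : ℂ) r, Φ n z ∈ X)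
    (hH : H 0 = σ 0) (hd : deriv (fun z => τ (H z)) 0 = (1, 0)) {a b k ε B C₁ r₁ : ℝ} (ha : 0 < a) (hb : 0 < b) (hk : 0 < k) (hk1 : k < 1)
    (hcond : a - 1 - k < b * M) (hε : 0 < ε) (hr₁ : 0 < r₁) {U : ℕ → ℂ → ℝ} (hU : ∀ n z, 0 ≤ U n z)
    (hmax : ∀ᶠ n in (𝒰 : Filter ℕ), ∀ (w : ℂ) (ρ : ℝ), 0 < ρ → closedBall w ρ ⊆ ball 0 r₁ → ∀ z ∈ closedBall w ρ, ∃ y ∈ sphere w ρ,
      U n z ≤ C₁ * U n y)
    (htb : ∀ᶠ n in (𝒰 : Filter ℕ), ∀ z ∈ ball (0 : ℂ) r₁, ∀ c : ℂ, c ≠ 0 → ‖c⁻¹ • Φ n z - σ 0‖ < ε → (τ (c⁻¹ • Φ n z)).1 ≠ 0 →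
      ‖(τ (c⁻¹ • Φ n z)).2‖ < ε * ‖(τ (c⁻¹ • Φ n z)).1‖ →
      ‖(τ (c⁻¹ • Φ n z)).1‖ ^ a * sm k ((τ (c⁻¹ • Φ n z)).1, (τ (c⁻¹ • Φ n z)).2 / (τ (c⁻¹ • Φ n z)).1)
        (deriv (fun w => (τ (c⁻¹ • Φ n w)).1) z, deriv (fun w => (τ (c⁻¹ • Φ n w)).2 / (τ (c⁻¹ • Φ n w)).1) z) * ‖c‖ ^ (-b) ≤ B * U n z ∧
      U n z ≤ B * (‖(τ (c⁻¹ • Φ n z)).1‖ ^ a * sm k ((τ (c⁻¹ • Φ n z)).1, (τ (c⁻¹ • Φ n z)).2 / (τ (c⁻¹ • Φ n z)).1)
        (deriv (fun w => (τ (c⁻¹ • Φ n w)).1) z, deriv (fun w => (τ (c⁻¹ • Φ n w)).2 / (τ (c⁻¹ • Φ n w)).1) z) * ‖c‖ ^ (-b))) : False := by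
  obtain ⟨m, rfl⟩ : ∃ m, M = m + 1 := ⟨M - 1, by omega⟩
  obtain ⟨ℓ, hℓ⟩ : ∃ ℓ : EN N →L[ℂ] ℂ, ℓ (H 0) = 1 := by
    obtain ⟨g, -, hg⟩ := exists_dual_vector ℂ (H 0) (norm_ne_zero_iff.2 h.nzG)
    have h1 : (‖H 0‖ : ℂ) ≠ 0 := by
      rw [Ne, Complex.ofReal_eq_zero, norm_eq_zero]
      exact h.nzG
    refine ⟨(‖H 0‖ : ℂ)⁻¹ • g, ?_⟩
    rw [smul_apply, hg, smul_eq_mul]
    exact inv_mul_cancel₀ h1
  obtain ⟨c, lam, aa, A, hc, hlp, hl0, haa0, hℓA, hccP, hccN, hnz, hcz, hneck⟩ := Pool.Agent.H48.GB.scale_neck h ℓ hℓ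
  have hHd : DifferentiableAt ℂ H 0 := h.holG.differentiableAt (ball_mem_nhds 0 h.pos)
  have hv : fderiv ℂ τ (σ 0) (deriv H 0 - ℓ (deriv H 0) • H 0) = (1, 0) := by
    rw [← hd, ← tau_dir hσ hHd hH (ℓ (deriv H 0)), hH]
  have hℓσ : ℓ (σ 0) = 1 := by rw [← hH]; exact hℓ
  rw [hH] at hv
  simp only [hH] at hccN hneck
  set v : EN N := deriv H 0 - ℓ (deriv H 0) • σ 0 with hvdef
  clear_value v
  set D := fderiv ℂ τ (σ 0) with hD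
  set P : ℂ → ℂ := fun u => ∑ j ∈ Finset.range (m + 1), u ^ j * aa j + u ^ (m + 1) with hP
  set Nn : ℂ → EN N := fun u => ∑ j ∈ Finset.range (m + 2), u ^ j • A j + u ^ (m + 2) • v with hNn
  have hPd : Differentiable ℂ P := by
    rw [hP]
    fun_prop
  have hNd : Differentiable ℂ Nn := by
    rw [hNn]
    fun_prop
  have hres : Res 𝒰 Φ ℓ (σ 0) 0 r (m + 1) c lam P Nn :=
    ⟨h.pos, h.hol, hc, hlp, hl0, hℓσ, hccP, hccN, hPd, hNd⟩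
  -- the polynomials
  set Pp : Polynomial ℂ := ∑ j ∈ Finset.range (m + 1), Polynomial.C (aa j) * Polynomial.X ^ j + Polynomial.X ^ (m + 1) with hPp
  set Yp : Polynomial ℂ := ∑ j ∈ Finset.range (m + 2), Polynomial.C ((D (A j)).1) * Polynomial.X ^ j + Polynomial.X ^ (m + 2) with hYp
  set Xp : Polynomial ℂ := ∑ j ∈ Finset.range (m + 2), Polynomial.C ((D (A j)).2) * Polynomial.X ^ j with hXp
  have hPe : ∀ u, P u = Pp.eval u := fun u => (pl_eval (m + 1) aa u).symm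
  have hDN : ∀ u, D (Nn u) = (Yp.eval u, Xp.eval u) := by
    intro u
    rw [hYp, hXp, pl_eval (m + 2) (fun j => (D (A j)).1) u, pl_eval0 (m + 2) (fun j => (D (A j)).2) u, hNn]
    simp only [map_add, map_sum, map_smul, hv]
    refine Prod.ext ?_ ?_
    · simp [Prod.fst_sum]
    · simp [Prod.snd_sum]
  have hDy : ∀ u, (D ((P u)⁻¹ • Nn u)).1 = Yp.eval u / Pp.eval u := by
    intro u
    rw [map_smul, hDN, hPe, Prod.smul_mk, smul_eq_mul, div_eq_inv_mul]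
  have hDx : ∀ u, (D ((P u)⁻¹ • Nn u)).2 = Xp.eval u / Pp.eval u := by
    intro u
    rw [map_smul, hDN, hPe, Prod.smul_mk, smul_eq_mul, smul_eq_mul, div_eq_inv_mul]
  have hDy' : (fun z => (D ((P z)⁻¹ • Nn z)).1) = fun z => Yp.eval z / Pp.eval z := funext hDy
  have hDx' : (fun z => (D ((P z)⁻¹ • Nn z)).2) = fun z => Xp.eval z / Pp.eval z := funext hDx
  have hPm : Pp.Monic := pl_monic _ _
  have hYm : Yp.Monic := pl_monic _ _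
  have hPn : Pp.natDegree = m + 1 := pl_natDegree _ _
  have hYn : Yp.natDegree = m + 2 := pl_natDegree _ _
  -- the neck
  obtain ⟨R, K, δ, C₂, B', C₁', ε', hR, hK, hδ, hC₂, hB', hC₁', hε', hneck'⟩ := lim_neck (ℓ := ℓ) (M := m + 1) hσ hv h.pos hr₁ h.hol hc hlp hneck ha.le hb.le
    hk1 hcond hε hU hmax htb
  have hR0 : 0 < R := by linarith
  have hK0 : 0 < K := by linarith
  have hsmall : ∀ (x : ℝ) {y : ℝ}, 0 < y → ∀ᶠ n in (𝒰 : Filter ℕ), lam n * x < y := by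
    intro x y hy
    have h1 : Tendsto (fun n => lam n * x) 𝒰 (𝓝 0) := by simpa using hl0.mul_const x
    exact h1.eventually (gt_mem_nhds hy)
  have hnorm : ∀ n, 0 < lam n → ∀ u : ℂ, ‖(lam n : ℂ) * u‖ = lam n * ‖u‖ := by
    intro n hn u
    rw [norm_mul, Complex.norm_real, Real.norm_of_nonneg hn.le]
  -- the second coordinate of the limit vanishes
  have hXp0 : Xp = 0 := by
    obtain ⟨R₁, hR₁⟩ := pl_roots hPm.ne_zero
    obtain ⟨R₂, hR₂⟩ := pl_roots hYm.ne_zero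
    refine nk_zero (R := max (max R₁ R₂) (2 * R)) (P := Pp) hYm (by rw [hYn, hXp]; exact pl_natDegree_lt (by omega) _)
      (fun u hu => hR₁ u (lt_of_le_of_lt ((le_max_left _ _).trans (le_max_left _ _)) hu)) fun u hu => ?_
    have hu1 : Pp.eval u ≠ 0 := hR₁ u (lt_of_le_of_lt ((le_max_left _ _).trans (le_max_left _ _)) hu)
    have hu2 : Yp.eval u ≠ 0 := hR₂ u (lt_of_le_of_lt ((le_max_right _ _).trans (le_max_left _ _)) hu)
    have hu3 : 2 * R < ‖u‖ := lt_of_le_of_lt (le_max_right _ _) hu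
    have hu0 : u ≠ 0 := norm_pos_iff.1 (by linarith)
    have h1 := lim_wr (C := C₂) hσ hres hk (u := u) (by rw [hPe]; exact hu1) hu0 (by rw [hDy]; exact div_ne_zero hu2 hu1) (by
      filter_upwards [hneck', hlp, hsmall (K * ‖u‖) (show 0 < δ / 4 by positivity)] with n n1 n2 n3
      refine (n1.2.2 _ ?_ ?_).1
      · rw [hnorm n n2]
        nlinarith
      · rw [hnorm n n2]
        linarith)
    rw [hDy', hDx', hDx, hDy] at h1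
    exact h1
  have hDx0 : ∀ u, (D ((P u)⁻¹ • Nn u)).2 = 0 := by
    intro u
    rw [hDx, hXp0, Polynomial.eval_zero, zero_div]
  -- the inequality
  have hineq : ∀ R' : ℝ, ∃ C : ℝ, ∀ u : ℂ, ‖u‖ < R' → Pp.eval u ≠ 0 → Yp.eval u ≠ 0 →
      ‖Yp.eval u / Pp.eval u‖ ^ a * ‖deriv (fun z => Yp.eval z / Pp.eval z) u‖ ≤ C * ‖Pp.eval u‖ ^ b := by
    intro R'
    set Rb := max R' (2 * R + 1) with hRb
    have hRb1 : 2 * R + 1 ≤ Rb := le_max_right _ _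
    have hRb0 : 0 < Rb := by linarith
    set C' := C₁' * (C₂ * Rb ^ (a - b * ((m + 1 : ℕ) : ℝ))) with hC'
    refine ⟨B' * C', fun u hu hu1 hu2 => ?_⟩
    have hub : ‖u‖ ≤ Rb := hu.le.trans (le_max_left _ _)
    have h1 := lim_ineq (C := C') (ε := ε') (k := k) (b := b) (U := U) (B := B') hσ hres ha.le hB' hε' (u := u) (by rw [hPe]; exact hu1) (hDx0 u)
      (by rw [hDy]; exact div_ne_zero hu2 hu1)
      (by
        filter_upwards [hneck', hlp, hsmall ‖u‖ hδ] with n n1 n2 n3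
        refine n1.1 _ ?_
        rw [hnorm n n2]
        exact n3.le)
      (by
        filter_upwards [hneck', hlp, hsmall Rb hδ, hsmall (K * Rb) (show 0 < δ / 4 by positivity)] with n n1 n2 n3 n4
        obtain ⟨y, hy, hy2⟩ := n1.2.1 ((lam n : ℂ) * u) (lam n * Rb) (by positivity) (by
          rw [hnorm n n2]
          gcongr) n3.le
        have hy3 := (n1.2.2 y (by
          rw [hy]
          nlinarith) (by
          rw [hy]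
          linarith)).2
        rw [hy, Real.mul_rpow n2.le hRb0.le] at hy3
        calc U n (c n + lam n * u) ≤ C₁' * U n (c n + y) := hy2
          _ ≤ C₁' * (C₂ * (lam n ^ (a - b * ((m + 1 : ℕ) : ℝ)) * Rb ^ (a - b * ((m + 1 : ℕ) : ℝ)))) := by gcongr
          _ = C' * lam n ^ (a - b * ((m + 1 : ℕ) : ℝ)) := by rw [hC']; ring)
    rw [hDy', hDy, mul_assoc, inv_mul_le_iff₀ hB', hPe] at h1
    rw [mul_assoc]
    exact h1
  have hP0 : Pp.eval 0 = 0 := by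
    rw [← hPe, hP]
    simp only
    rw [Finset.sum_range_succ']
    simp [haa0]
  obtain ⟨hPX, hYX⟩ := alg (M := m + 1) hPm hPn hYm hYn hP0 ha hb hineq
  refine hnz ⟨pl_coeff hPX, ?_⟩
  -- the vectors
  obtain ⟨L, hL⟩ := lim_vec hX hσ hres hΦX
  refine nk_vec (w := v - L (1, 0)) fun u hu => ?_
  have hPu : P u = u ^ (m + 1) := by
    rw [hPe, hPX, Polynomial.eval_pow, Polynomial.eval_X]
  have hPu0 : P u ≠ 0 := by
    rw [hPu]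
    exact pow_ne_zero _ hu
  have h1 := hL u hPu0
  have h2 : D ((P u)⁻¹ • Nn u) = u • ((1 : ℂ), (0 : ℂ)) := by
    refine Prod.ext ?_ ?_
    · rw [hDy, hYX, hPX]
      simp only [Polynomial.eval_pow, Polynomial.eval_X, Prod.smul_mk, smul_eq_mul, mul_one]
      rw [pow_succ u (m + 1), mul_div_cancel_left₀]
      exact pow_ne_zero _ hu
    · rw [hDx0]
      simp
  rw [h2, map_smul] at h1
  have h3 : Nn u = u ^ (m + 2) • L (1, 0) := by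
    have h4 : Nn u = P u • ((P u)⁻¹ • Nn u) := by rw [smul_inv_smul₀ hPu0]
    rw [h4, h1, hPu, smul_smul, ← pow_succ]
  rw [smul_sub, add_sub, ← h3, hNn]
  simp

end Pool.Agent.SG
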