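import Pool.Agent.SG.BubC
import Pool.Agent.H90.SG.HasU
import Pool.Agent.SG.Lim

/-!
# SG Bub: no bubble at a point where a suitable curve `T` exists
-/

set_option autoImplicit false

open Topology Filter Metric

noncomputable section

namespace Pool.Agent.SG

open Pool.Agent.H36.BP (EN)
open Pool.Agent.H36.TB (EnergyB oC sm)
open Pool.Agent.H14.PP (IsCone CurveAt)
open Pool.Agent.H17BP (Surface IsChart IsForm Eqs)
open Pool.Agent.H22.W (PseudoLength)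
open Pool.Agent.H74.NB (CC Obj)
open Pool.Agent.UC (RatC)
open Pool.Agent.SY (Ent Energy BubbleAt Cls ModelS)
open Pool.Agent.H90.SG (TBSec exists_energy_sector)

variable {N : ℕ} {X T T₀ : Set (EN N)}

/-- the exponents -/
theorem exponents {m j M μ : ℕ} (hm : 1 ≤ m) (hM : 1 ≤ M) (hμ : μ < j * M) :
    ∃ θ : ℝ, 0 < θ ∧ θ < 1 ∧ ∀ k : ℝ, 0 < k → 1 + (1 - θ) * j / (2 * m) + (μ : ℝ) / m - 1 - k < θ * j / m * M := by
  have hm0 : (0 : ℝ) < m := by exact_mod_cast hm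
  have hM0 : (1 : ℝ) ≤ M := by exact_mod_cast hM
  have hj0 : (0 : ℝ) ≤ j := Nat.cast_nonneg j
  have hjM : (0 : ℝ) ≤ (j : ℝ) * M := by positivity
  have hμ' : (μ : ℝ) + 1 ≤ j * M := by exact_mod_cast hμ
  have hd : (0 : ℝ) < 2 * (j * M) + 2 := by positivity
  refine ⟨1 - 1 / (2 * (j * M) + 2), ?_, ?_, ?_⟩
  · rw [sub_pos, div_lt_one hd]
    linarith
  · have : (0 : ℝ) < 1 / (2 * (j * M) + 2) := by positivity
    linarith
  · intro k hk
    set t : ℝ := 1 / (2 * (j * M) + 2) with ht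
    have ht0 : 0 < t := by rw [ht]; positivity
    have ht1 : t * ((j : ℝ) / 2 + j * M) ≤ 1 := by
      rw [ht, one_div, inv_mul_le_iff₀ hd, mul_one]
      nlinarith
    have e1 : 1 + (1 - (1 - t)) * (j : ℝ) / (2 * m) + (μ : ℝ) / m - 1 - k = (t * (j / 2) + μ - k * m) / m := by
      field_simp
      ring
    have e2 : (1 - t) * (j : ℝ) / m * M = ((1 - t) * (j * M)) / m := by ring
    rw [e1, e2]
    refine div_lt_div_of_pos_right ?_ hm0
    have h3 : 0 < k * m := by positivity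
    nlinarith

/-- **No bubble**, when there is a curve `T` through the point which contains the rational curves, and whose secant cone does not contain the
direction of `H`. -/
theorem bub {κ : Type} [Fintype κ] {Q : κ → EN N → ℂ} {D m j : ℕ} {Ω : EN N → EN N → EN N → ℂ} (hMS : ModelS X T m j Ω Q D) (hc : IsCone X)
    {n : PseudoLength X} {𝒰 : Ultrafilter ℕ} {F : ℕ → ℂ → EN N} {v : ℕ → ℂ → ℂ} {H : ℂ → EN N} {u : ℂ → ℂ} {r : ℝ} {M : ℕ}
    (hb : BubbleAt X T₀ n 𝒰 F v H u r M) (hM : 1 ≤ M) {σ : ℂ × ℂ → EN N} {τ : EN N → ℂ × ℂ} (hσ : IsChart X σ τ) (h0 : σ 0 = H 0)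
    (hd : deriv (fun z => τ (H z)) 0 = (1, 0)) (hq : σ 0 ∈ T) (hT : ∀ᶠ p in 𝓝 (0 : ℂ × ℂ), p.1 ≠ 0 → σ (p.1, p.1 * p.2) ∉ T)
    (hrat : ∀ (d : ℕ) (K K' : ℂ → EN N), 1 ≤ d → d ≤ M → RatC X d K K' → ∀ z, K z ∈ T) {μ : ℕ} (hμ : μ < j * M)
    (hord : ∃ B : ℝ, 1 ≤ B ∧ ∀ᶠ p in 𝓝 (0 : ℂ × ℂ), ‖p.1‖ ^ μ ≤ B * ‖oC Ω σ (p.1, p.1 * p.2)‖ ∧
      ‖oC Ω σ (p.1, p.1 * p.2)‖ ≤ B * ‖p.1‖ ^ μ) : False := by
  have hX := hMS.surf
  obtain ⟨Φ, G, hobj, hΦ, hG0, hGd⟩ := bub_obj hX hMS.eqs hb hσ h0 hd hT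
  have hm0 : (0 : ℝ) < m := by exact_mod_cast hMS.one_m
  have hj0 : (0 : ℝ) < j := by exact_mod_cast hMS.one_j
  obtain ⟨θ, hθ, hθ1, hcond⟩ := exponents (m := m) hMS.one_m hM hμ
  obtain ⟨ME, c₀, C, k, g, pn, D₁, -, hk, -, hk1, E, tb⟩ :=
    exists_energy_sector hMS hσ hq hT hθ hθ1 one_pos (ContinuousLinearEquiv.refl ℂ (EN N))
  obtain ⟨U, r₁, C₁, ε, B, hr₁, -, hC₁, hε, hB, hU, hmax, htb⟩ := bub_data hc hX hMS.form hMS.one_m hMS.one_j (hMS.eqs.cone hX.smul) hθ hθ1 E hσ tb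
    hobj hΦ hrat hord
  refine core hX hσ hM hobj (hΦ.mono fun i hi z _ => hi.mem z) hG0 hGd (a := 1 + (1 - θ) * j / (2 * m) + (μ : ℝ) / m) (b := θ * j / m) (k := k)
    (ε := ε) (B := B) (C₁ := C₁) (r₁ := r₁) (U := fun i z => |U i z|) ?_ ?_ hk (by linarith) (hcond k hk) hε hr₁ (fun i z => abs_nonneg _) ?_ ?_
  · have h1 : 0 ≤ (1 - θ) * (j : ℝ) / (2 * m) := div_nonneg (mul_nonneg (by linarith) hj0.le) (by positivity)
    have h2 : (0 : ℝ) ≤ (μ : ℝ) / m := by positivity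
    linarith
  · positivity
  · filter_upwards [hU, hmax] with i h1 h2
    simp only [abs_of_nonneg (h1 _)]
    exact h2
  · filter_upwards [hU, htb] with i h1 h2 z _ c hc0 g1 g2 g3
    simp only [abs_of_nonneg (h1 _)]
    exact (h2 z c hc0 g1 g2 g3).2

end Pool.Agent.SG
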