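import Pool.Agent.H36.BP.Defs

/-!
# SG RDef: linear forms
-/

set_option autoImplicit false

namespace Pool.Agent.SG

open Pool.Agent.H36.BP (EN)

/-- the linear form with the coefficients `c` -/
noncomputable def lf {N : ℕ} (c : Fin (N + 1) → ℂ) (x : EN N) : ℂ := ∑ i, c i * x i

end Pool.Agent.SG
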