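import Pool.Agent.SY.Plug
import Pool.Agent.SG.RDef
import Pool.Agent.SG.BuC

/-!
# SG BubA: the linear form, the chart and the curve `T` at a bubble

* `exists_lin`, `exists_lf`: a linear form which vanishes at `x` but not at `v`.
* `not_radial`: the derivative of a curve of length one is not a multiple of the position vector.
* `lin_ev`: near a bubble the curves are not in the hyperplane.
* `ent_off`, `ent_union`: entire curves outside a union of two curves.
* `deriv_eq`: the derivative of a curve in a chart, up to multiples of the position vector.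
* `exists_data`: the chart and the linear form at a bubble.
* `bubble_zer`: the curves at a bubble are not in `{R l = 0}`.
-/

set_option autoImplicit false

open Topology Filter Metric MvPolynomial

noncomputable section

namespace Pool.Agent.SG

open Pool.Agent.H36.BP (EN OrdTwo)
open Pool.Agent.H14.PP (Tan IsCone CurveAt)
open Pool.Agent.H17BP (Surface IsChart Eqs)
open Pool.Agent.H22.W (PseudoLength tan_entire)
open Pool.Agent.H17EF (coneE)
open Pool.Agent.SY (Ent Cls BubbleAt zer)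

variable {N : ℕ} {X S T : Set (EN N)}

/-- a linear form which vanishes at `x` but not at `v` -/
theorem exists_lin {x v : EN N} (hv : ∀ a : ℂ, v ≠ a • x) : ∃ l : EN N →L[ℂ] ℂ, l x = 0 ∧ l v ≠ 0 := by
  have h1 : v ∉ Submodule.span ℂ {x} := by
    rw [Submodule.mem_span_singleton]
    rintro ⟨a, ha⟩
    exact hv a ha.symm
  obtain ⟨f, hf, hf2⟩ := Submodule.exists_dual_map_eq_bot_of_notMem h1 inferInstance
  refine ⟨LinearMap.toContinuousLinearMap f, ?_, hf⟩
  have h2 : f x ∈ (Submodule.span ℂ {x}).map f := ⟨x, Submodule.mem_span_singleton_self x, rfl⟩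
  rw [hf2, Submodule.mem_bot] at h2
  exact h2

/-- the linear form with the coefficients `c` as a continuous linear map -/
def lfL (c : Fin (N + 1) → ℂ) : EN N →L[ℂ] ℂ := ∑ i, c i • (EuclideanSpace.proj i : EN N →L[ℂ] ℂ)

theorem lfL_apply (c : Fin (N + 1) → ℂ) (x : EN N) : lfL c x = lf c x := by
  simp [lfL, lf]

/-- every linear form is given by its coefficients -/
theorem lf_coeff (l : EN N →L[ℂ] ℂ) (x : EN N) : lf (fun i => l (EuclideanSpace.single i 1)) x = l x := by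
  have h1 : x = ∑ i, x i • EuclideanSpace.single i (1 : ℂ) := by
    ext j
    simp [Pi.single_apply]
  conv_rhs => rw [h1]
  rw [map_sum]
  unfold lf
  refine Finset.sum_congr rfl fun i _ => ?_
  rw [map_smul, smul_eq_mul, mul_comm]

/-- a linear form, given by its coefficients, which vanishes at `x` but not at `v` -/
theorem exists_lf {x v : EN N} (hv : ∀ a : ℂ, v ≠ a • x) : ∃ c : Fin (N + 1) → ℂ, lf c x = 0 ∧ lf c v ≠ 0 := by
  obtain ⟨l, h1, h2⟩ := exists_lin hv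
  exact ⟨fun i => l (EuclideanSpace.single i 1), by rw [lf_coeff, h1], by rw [lf_coeff]; exact h2⟩

/-- the linear form as a polynomial -/
def lfP (c : Fin (N + 1) → ℂ) : MvPolynomial (Fin (N + 1)) ℂ := ∑ i, C (c i) * MvPolynomial.X i

theorem lfP_hom (c : Fin (N + 1) → ℂ) : (lfP c).IsHomogeneous 1 := by
  refine IsHomogeneous.sum _ _ _ fun i _ => ?_
  have := (isHomogeneous_C (Fin (N + 1)) (c i)).mul (isHomogeneous_X ℂ i)
  simpa using this

theorem eval_lfP (c : Fin (N + 1) → ℂ) (x : EN N) : eval x.ofLp (lfP c) = lf c x := by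
  simp [lfP, lf]

/-- the derivative of a curve of length one is not a multiple of the position vector -/
theorem not_radial (n : PseudoLength X) {x v : EN N} (ht : Tan X x v) (h1 : n.toFun x v ≠ 0) (a : ℂ) : v ≠ a • x := by
  intro h
  have h2 := n.add_smul x v ht (-a)
  have h3 : v + -a • x = (0 : ℂ) • v := by
    rw [zero_smul, neg_smul, ← h, add_neg_cancel]
  rw [h3, n.smul x v ht 0, norm_zero, zero_mul] at h2
  exact h1 h2.symm

theorem Cls.not_radial {n : PseudoLength X} {H : ℂ → EN N} (h : Cls T n H) (z a : ℂ) : deriv H z ≠ a • H z :=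
  SG.not_radial n (tan_entire h.1.diff h.1.mem z) (by rw [h.2 z]; exact one_ne_zero) a

/-- near a bubble the curves are not in the hyperplane `l = 0` -/
theorem lin_ev {n : PseudoLength X} {𝒰 : Ultrafilter ℕ} {F : ℕ → ℂ → EN N} {v : ℕ → ℂ → ℂ} {H : ℂ → EN N} {u : ℂ → ℂ} {r : ℝ} {m : ℕ}
    (hb : BubbleAt X T n 𝒰 F v H u r m) {l : EN N →L[ℂ] ℂ} (h1 : l (deriv H 0) ≠ 0) :
    ∀ᶠ k in (𝒰 : Filter ℕ), ∃ z, l (F k z) ≠ 0 := by
  have hd : HasDerivAt (fun z => l (H z)) (l (deriv H 0)) 0 :=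
    l.hasFDerivAt.comp_hasDerivAt (0 : ℂ) (hb.cls_H.1.diff 0).hasDerivAt
  have h2 : ∀ᶠ z in 𝓝[≠] (0 : ℂ), l (H z) ≠ 0 := hd.eventually_ne h1
  have h3 : ∀ᶠ z in 𝓝[≠] (0 : ℂ), z ∈ ball (0 : ℂ) r :=
    mem_nhdsWithin_of_mem_nhds (ball_mem_nhds _ hb.r_pos)
  obtain ⟨z, ⟨hz1, hz2⟩, hz3⟩ := ((h2.and h3).and self_mem_nhdsWithin).exists
  have h4 := (hb.lim.tendsto_at hz2)
  have h5 := (l.continuous.tendsto _).comp h4
  have h6 : l (z ^ m • (u z • H z)) ≠ 0 := by
    rw [map_smul, map_smul, smul_eq_mul, smul_eq_mul]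
    exact mul_ne_zero (pow_ne_zero _ hz3) (mul_ne_zero (hb.u_ne z hz2) hz1)
  filter_upwards [h5.eventually_ne h6] with k hk
  refine ⟨z, fun h => hk ?_⟩
  simp only [Function.comp_apply]
  rw [map_smul, h, smul_zero]

/-- an entire curve which is not in the curve `S` meets `S` in isolated points -/
theorem ent_off {κ : Type} {Q : κ → EN N → ℂ} {D : ℕ} (hE : Eqs X S Q D) {F : ℂ → EN N} (hF : Ent X S F) (z₀ : ℂ) :
    ∀ᶠ z in 𝓝[≠] z₀, F z ∉ S := by
  obtain ⟨w, hw⟩ := hF.out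
  rw [hE.mem_iff] at hw
  push Not at hw
  obtain ⟨i, hi⟩ := hw (hF.mem w)
  have hd : AnalyticOnNhd ℂ (fun z => Q i (F z)) Set.univ := fun z _ =>
    AnalyticAt.comp (g := Q i) (f := F) (hE.an i (F z)) (hF.diff.analyticAt z)
  rcases (hd z₀ (Set.mem_univ _)).eventually_eq_zero_or_eventually_ne_zero with h | h
  · exact absurd (hd.eqOn_zero_of_preconnected_of_eventuallyEq_zero isPreconnected_univ (Set.mem_univ z₀) h (Set.mem_univ w)) hi
  · filter_upwards [h] with z hz hz2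
    exact hz (((hE.mem_iff _).1 hz2).2 i)

/-- an entire curve which is neither in `S` nor in `{Q = 0}` -/
theorem ent_union {Q : EN N → ℂ} (hQ : ∀ x, AnalyticAt ℂ Q x) {F : ℂ → EN N} (hF : Ent X S F) (hS : ∀ z₀, ∀ᶠ z in 𝓝[≠] z₀, F z ∉ S)
    (h : ∃ z, Q (F z) ≠ 0) : Ent X (S ∪ {y | y ∈ X ∧ Q y = 0}) F := by
  obtain ⟨w, hw⟩ := h
  have h1 : ∀ᶠ z in 𝓝[≠] w, Q (F z) ≠ 0 := by
    have h2 : ContinuousAt (fun z => Q (F z)) w :=
      ContinuousAt.comp (g := Q) (f := F) (hQ (F w)).continuousAt (hF.diff w).continuousAt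
    exact (h2.eventually_ne hw).filter_mono nhdsWithin_le_nhds
  obtain ⟨z, hz1, hz2⟩ := (h1.and (hS w)).exists
  refine ⟨hF.diff, hF.mem, z, ?_⟩
  rintro (h3 | ⟨-, h3⟩)
  · exact hz2 h3
  · exact hz1 h3

/-- the same for two polynomial equations -/
theorem ent_zer {P : Ideal (MvPolynomial (Fin (N + 1)) ℂ)} {R G : MvPolynomial (Fin (N + 1)) ℂ} {F : ℂ → EN N}
    (hF : Ent (coneE P) (zer P R) F) (h : ∃ z, eval (F z).ofLp G ≠ 0) : Ent (coneE P) (zer P (R * G)) F := by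
  have han : ∀ (G : MvPolynomial (Fin (N + 1)) ℂ), Differentiable ℂ fun z => eval (F z).ofLp G := by
    intro G
    have h1 : ∀ i : Fin (N + 1), Differentiable ℂ fun z => (F z).ofLp i := fun i =>
      (EuclideanSpace.proj (𝕜 := ℂ) i).differentiable.comp hF.diff
    induction G using MvPolynomial.induction_on with
    | C a => simp
    | add p q hp hq =>
      simp only [map_add]
      exact hp.add hq
    | mul_X p i hp =>
      simp only [map_mul, eval_X]
      exact hp.mul (h1 i)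
  obtain ⟨w, hw⟩ := h
  obtain ⟨z₁, hz₁⟩ := hF.out
  have hR : eval (F z₁).ofLp R ≠ 0 := fun h => hz₁ ⟨hF.mem z₁, h⟩
  have h1 : ∀ᶠ z in 𝓝[≠] w, eval (F z).ofLp G ≠ 0 :=
    ((han G).continuous.continuousAt.eventually_ne hw).filter_mono nhdsWithin_le_nhds
  have h2 : ∀ᶠ z in 𝓝[≠] w, eval (F z).ofLp R ≠ 0 := by
    have hd : AnalyticOnNhd ℂ (fun z => eval (F z).ofLp R) Set.univ := fun z _ => (han R).analyticAt z
    rcases (hd w (Set.mem_univ _)).eventually_eq_zero_or_eventually_ne_zero with h | h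
    · exact absurd (hd.eqOn_zero_of_preconnected_of_eventuallyEq_zero isPreconnected_univ (Set.mem_univ w) h (Set.mem_univ z₁)) hR
    · exact h
  obtain ⟨z, hz1, hz2⟩ := (h1.and h2).exists
  refine ⟨hF.diff, hF.mem, z, ?_⟩
  rintro ⟨-, h3⟩
  rw [map_mul, mul_eq_zero] at h3
  rcases h3 with h3 | h3
  · exact hz2 h3
  · exact hz1 h3

/-- the derivative of a curve in a chart, up to multiples of the position vector -/
theorem deriv_eq {σ : ℂ × ℂ → EN N} {τ : EN N → ℂ × ℂ} (hσ : IsChart X σ τ) {H : ℂ → EN N} (hH : CurveAt X H 0) (h0 : H 0 = σ 0) :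
    ∃ a : ℂ, deriv H 0 = fderiv ℂ σ 0 (deriv (fun z => τ (H z)) 0) + a • σ 0 := by
  obtain ⟨Λ, hΛ⟩ : ∃ Λ : EN N →L[ℂ] ℂ, Λ (σ 0) ≠ 0 := by
    obtain ⟨Λ, h1⟩ := exists_dual_vector ℂ (σ 0) (norm_ne_zero_iff.mpr hσ.ne)
    refine ⟨Λ, ?_⟩
    rw [h1.2]
    simpa using hσ.ne
  obtain ⟨h1, h2, h3, h4⟩ := curve_chart hσ hH h0
  have d1 : HasDerivAt H (deriv H 0) 0 := hH.1.differentiableAt.hasDerivAt
  have d2 : HasDerivAt (fun z => σ (τ (H z))) (fderiv ℂ σ 0 (deriv (fun z => τ (H z)) 0)) 0 := by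
    rw [← deriv_chart hσ hH h0]
    exact h4.1.differentiableAt.hasDerivAt
  have d3 : HasDerivAt (fun z => Λ (σ (τ (H z)))) _ 0 := Λ.hasFDerivAt.comp_hasDerivAt (0 : ℂ) d2
  have d4 : HasDerivAt (fun z => Λ (H z)) _ 0 := Λ.hasFDerivAt.comp_hasDerivAt (0 : ℂ) d1
  have e2 : σ (τ (H 0)) = σ 0 := by rw [h2]
  have e3 : Λ (σ (τ (H 0))) ≠ 0 := by rw [e2]; exact hΛ
  have d6 := (d4.div d3 e3).smul d2
  have hev : H =ᶠ[𝓝 0] fun z => (Λ (H z) / Λ (σ (τ (H z)))) • σ (τ (H z)) := by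
    filter_upwards [h3, d3.continuousAt.eventually_ne e3] with z hz h6
    obtain ⟨c, hc, h5⟩ := hz
    have h7 : Λ (H z) = c * Λ (σ (τ (H z))) := by
      conv_lhs => rw [h5]
      rw [map_smul, smul_eq_mul]
    have h8 : Λ (H z) / Λ (σ (τ (H z))) = c := by rw [h7, mul_div_assoc, div_self h6, mul_one]
    rw [h8]
    exact h5
  have d7 : HasDerivAt H _ 0 := d6.congr_of_eventuallyEq hev
  have h7 := d1.unique d7
  have e4 : ((fun z => Λ (H z)) / fun z => Λ (σ (τ (H z)))) 0 = 1 := by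
    simp only [Pi.div_apply]
    rw [e2, h0, div_self hΛ]
  rw [e4, one_smul, e2] at h7
  exact ⟨_, h7⟩

/-- **The data at a bubble**: a chart whose first axis is the direction of the curve `H` and a linear form `lf c` which vanishes at `H 0` but not in the
direction of `H`. -/
theorem exists_data (hX : Surface X) (hc : IsCone X) (n : PseudoLength X) {H : ℂ → EN N} (hH : Cls T n H) :
    ∃ (σ : ℂ × ℂ → EN N) (τ : EN N → ℂ × ℂ) (c : Fin (N + 1) → ℂ), IsChart X σ τ ∧ σ 0 = H 0 ∧ deriv (fun z => τ (H z)) 0 = (1, 0) ∧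
      n.toFun (σ 0) (fderiv ℂ σ 0 (1, 0)) = 1 ∧ lf c (H 0) = 0 ∧ lf c (deriv H 0) ≠ 0 ∧ lf c (fderiv ℂ σ 0 (1, 0)) ≠ 0 := by
  have hcur : CurveAt X H 0 := ⟨hH.1.diff.analyticAt 0, Eventually.of_forall hH.1.mem⟩
  obtain ⟨σ, τ, h1, h2, h3, h4⟩ := exists_chart_dir hX hc n hcur (by rw [hH.2 0]; exact one_ne_zero)
  obtain ⟨c, h5, h6⟩ := exists_lf (Cls.not_radial hH 0)
  obtain ⟨a, h7⟩ := deriv_eq h1 hcur h2.symm
  refine ⟨σ, τ, c, h1, h2, h3, by rw [h4, hH.2 0], h5, h6, fun h8 => h6 ?_⟩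
  rw [h3, h2] at h7
  rw [← lfL_apply, h7, map_add, map_smul, lfL_apply, lfL_apply, h8, h5, smul_zero, zero_add]

/-- the curves of length one outside a union of two curves -/
theorem cls_zer {P : Ideal (MvPolynomial (Fin (N + 1)) ℂ)} {n : PseudoLength (coneE P)} {R G : MvPolynomial (Fin (N + 1)) ℂ} {F : ℂ → EN N}
    (hF : Cls (zer P R) n F) (h : ∃ z, eval (F z).ofLp G ≠ 0) : Cls (zer P (R * G)) n F :=
  ⟨ent_zer hF.1 h, hF.2⟩

/-- a curve of length one is not in the curve `{lf c = 0}` when it is transversal to it -/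
theorem out_of_deriv {H : ℂ → EN N} (hH : Differentiable ℂ H) {c : Fin (N + 1) → ℂ} (h : lf c (deriv H 0) ≠ 0) :
    ∃ z, eval (H z).ofLp (lfP c) ≠ 0 := by
  by_contra hcon
  push Not at hcon
  have hd : HasDerivAt (fun z => lfL c (H z)) (lfL c (deriv H 0)) 0 := (lfL c).hasFDerivAt.comp_hasDerivAt (0 : ℂ) (hH 0).hasDerivAt
  have h1 : (fun z => lfL c (H z)) = fun _ => 0 := by
    funext z
    rw [lfL_apply, ← eval_lfP]
    exact hcon z
  rw [h1] at hd
  have h2 := hd.unique (hasDerivAt_const (0 : ℂ) (0 : ℂ))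
  rw [lfL_apply] at h2
  exact h h2

/-- near a bubble the curves are not in `{lf c = 0}` -/
theorem lf_ev {n : PseudoLength X} {𝒰 : Ultrafilter ℕ} {F : ℕ → ℂ → EN N} {v : ℕ → ℂ → ℂ} {H : ℂ → EN N} {u : ℂ → ℂ} {r : ℝ} {m : ℕ}
    (hb : BubbleAt X T n 𝒰 F v H u r m) {c : Fin (N + 1) → ℂ} (h1 : lf c (deriv H 0) ≠ 0) :
    ∀ᶠ k in (𝒰 : Filter ℕ), ∃ z, eval (F k z).ofLp (lfP c) ≠ 0 := by
  filter_upwards [lin_ev hb (l := lfL c) (by rw [lfL_apply]; exact h1)] with k hk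
  obtain ⟨z, hz⟩ := hk
  exact ⟨z, by rw [eval_lfP, ← lfL_apply]; exact hz⟩

/-- **A bubble for the curve `{R = 0}` is one for `{R l = 0}`** (after a change of finitely many, that is, `𝒰`-few, curves) -/
theorem bubble_zer {P : Ideal (MvPolynomial (Fin (N + 1)) ℂ)} {n : PseudoLength (coneE P)} {R : MvPolynomial (Fin (N + 1)) ℂ} {𝒰 : Ultrafilter ℕ}
    {F : ℕ → ℂ → EN N} {v : ℕ → ℂ → ℂ} {H : ℂ → EN N} {u : ℂ → ℂ} {r : ℝ} {m : ℕ} (hb : BubbleAt (coneE P) (zer P R) n 𝒰 F v H u r m)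
    {c : Fin (N + 1) → ℂ} (h1 : lf c (deriv H 0) ≠ 0) :
    Cls (zer P (R * lfP c)) n H ∧ ∀ᶠ k in (𝒰 : Filter ℕ), Cls (zer P (R * lfP c)) n (F k) := by
  refine ⟨cls_zer hb.cls_H (out_of_deriv hb.cls_H.1.diff h1), ?_⟩
  filter_upwards [lf_ev hb h1] with k hk
  exact cls_zer (hb.cls k) hk

end Pool.Agent.SG
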