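import Pool.Agent.SY.BdN
import Pool.Agent.SY.Plug
import Pool.Agent.SG.BuM
import Pool.Agent.H90.SG.DefT

/-!
# SG BubB: the hypotheses of the core theorem at a bubble

`bub_data`: `Φ n → z ^ M • G z` near `0`, entire curves in `X`; `U n z = g (Φ n) z * pn (Φ n z) ^ (-(θ j / (m D₁)))` satisfies the maximum
principle (`maxU`, with the local bound `bound_near` of the energy) and the two-sided bound in the sector, in which the coefficient of the form is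
replaced by `s ^ μ`.
-/

set_option autoImplicit false

open Topology Filter Metric

noncomputable section

namespace Pool.Agent.SG

open Pool.Agent.H36.BP (EN)
open Pool.Agent.H36.TB (EnergyB oC sm)
open Pool.Agent.H14.PP (IsCone)
open Pool.Agent.H17BP (Surface IsChart IsForm)
open Pool.Agent.H74.NB (CC Obj)
open Pool.Agent.UC (RatC)
open Pool.Agent.SY (Ent Energy bound_near_obj)
open Pool.Agent.H90.SG (TBSec)

variable {N : ℕ} {X T : Set (EN N)}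

/-- the coefficient of the form in the sector, with exponents -/
theorem oC_rpow {m μ : ℕ} (hm : 1 ≤ m) {B s o : ℝ} (hs : 0 ≤ s) (ho : 0 ≤ o) (hB : 1 ≤ B) (h1 : s ^ μ ≤ B * o) (h2 : o ≤ B * s ^ μ) :
    s ^ ((μ : ℝ) / m) ≤ B * o ^ (1 / (m : ℝ)) ∧ o ^ (1 / (m : ℝ)) ≤ B * s ^ ((μ : ℝ) / m) := by
  have hm0 : (0 : ℝ) < m := by exact_mod_cast hm
  have hm1 : (1 : ℝ) / m ≤ 1 := by
    rw [div_le_one hm0]
    exact_mod_cast hm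
  have he : 0 ≤ (1 : ℝ) / m := by positivity
  have hB0 : 0 ≤ B := by linarith
  have hBp : B ^ (1 / (m : ℝ)) ≤ B := by
    have h3 := Real.rpow_le_rpow_of_exponent_le hB hm1
    rwa [Real.rpow_one] at h3
  have hsm : s ^ ((μ : ℝ) / m) = (s ^ μ) ^ (1 / (m : ℝ)) := by
    rw [← Real.rpow_natCast, ← Real.rpow_mul hs]
    congr 1
    ring
  rw [hsm]
  constructor
  · refine (Real.rpow_le_rpow (by positivity) h1 he).trans ?_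
    rw [Real.mul_rpow hB0 ho]
    exact mul_le_mul_of_nonneg_right hBp (Real.rpow_nonneg ho _)
  · refine (Real.rpow_le_rpow ho h2 he).trans ?_
    rw [Real.mul_rpow hB0 (by positivity)]
    exact mul_le_mul_of_nonneg_right hBp (Real.rpow_nonneg (by positivity) _)

/-- **The hypotheses of the core theorem.** -/
theorem bub_data {m j : ℕ} {Ω : EN N → EN N → EN N → ℂ} {rho : EN N → ℝ} {ME : ℕ} {c₀ C θ k : ℝ} {g : (ℂ → EN N) → ℂ → ℝ} {pn : EN N → ℝ}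
    {D₁ : ℕ} (hc : IsCone X) (hX : Surface X) (hΩ : IsForm X m j Ω) (hm : 1 ≤ m) (hj : 1 ≤ j) (hTs : ∀ x ∈ T, ∀ c : ℂ, c ≠ 0 → c • x ∈ T)
    (hθ : 0 < θ) (hθ1 : θ < 1)
    (E : EnergyB X T m j Ω (fun x => ‖x‖) rho ME c₀ C g pn D₁ θ) {σ : ℂ × ℂ → EN N} {τ : EN N → ℂ × ℂ}
    (hσ : IsChart X σ τ) (ht : TBSec X T m j Ω θ k σ τ g pn D₁)
    {𝒰 : Ultrafilter ℕ} {Φ : ℕ → ℂ → EN N} {G : ℂ → EN N} {r : ℝ} {M : ℕ} (hobj : Obj 𝒰 Φ 0 M G r)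
    (hΦ : ∀ᶠ n in (𝒰 : Filter ℕ), Ent X T (Φ n)) (hrat : ∀ (d : ℕ) (K K' : ℂ → EN N), 1 ≤ d → d ≤ M → RatC X d K K' → ∀ z, K z ∈ T)
    {μ : ℕ} (hord : ∃ B : ℝ, 1 ≤ B ∧ ∀ᶠ p in 𝓝 (0 : ℂ × ℂ), ‖p.1‖ ^ μ ≤ B * ‖oC Ω σ (p.1, p.1 * p.2)‖ ∧
      ‖oC Ω σ (p.1, p.1 * p.2)‖ ≤ B * ‖p.1‖ ^ μ) :
    ∃ (U : ℕ → ℂ → ℝ) (r₁ C₁ ε B : ℝ), 0 < r₁ ∧ r₁ ≤ r ∧ 0 < C₁ ∧ 0 < ε ∧ 1 ≤ B ∧ (∀ᶠ n in (𝒰 : Filter ℕ), ∀ z, 0 ≤ U n z) ∧
      (∀ᶠ n in (𝒰 : Filter ℕ), ∀ (w : ℂ) (ρ : ℝ), 0 < ρ → closedBall w ρ ⊆ ball 0 r₁ → ∀ z ∈ closedBall w ρ,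
        ∃ y ∈ sphere w ρ, U n z ≤ C₁ * U n y) ∧
      ∀ᶠ n in (𝒰 : Filter ℕ), ∀ (z c : ℂ), c ≠ 0 → ‖c⁻¹ • Φ n z - σ 0‖ < ε → (τ (c⁻¹ • Φ n z)).1 ≠ 0 →
        ‖(τ (c⁻¹ • Φ n z)).2‖ < ε * ‖(τ (c⁻¹ • Φ n z)).1‖ →
        DifferentiableAt ℂ (fun w => τ (c⁻¹ • Φ n w)) z ∧
        ‖(τ (c⁻¹ • Φ n z)).1‖ ^ (1 + (1 - θ) * j / (2 * m) + μ / m) *
          sm k ((τ (c⁻¹ • Φ n z)).1, (τ (c⁻¹ • Φ n z)).2 / (τ (c⁻¹ • Φ n z)).1)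
            (deriv (fun w => (τ (c⁻¹ • Φ n w)).1) z, deriv (fun w => (τ (c⁻¹ • Φ n w)).2 / (τ (c⁻¹ • Φ n w)).1) z) * ‖c‖ ^ (-(θ * j / m)) ≤
          B * U n z ∧
        U n z ≤ B * (‖(τ (c⁻¹ • Φ n z)).1‖ ^ (1 + (1 - θ) * j / (2 * m) + μ / m) *
          sm k ((τ (c⁻¹ • Φ n z)).1, (τ (c⁻¹ • Φ n z)).2 / (τ (c⁻¹ • Φ n z)).1)
            (deriv (fun w => (τ (c⁻¹ • Φ n w)).1) z, deriv (fun w => (τ (c⁻¹ • Φ n w)).2 / (τ (c⁻¹ • Φ n w)).1) z) * ‖c‖ ^ (-(θ * j / m))) := by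
  obtain ⟨r₁, A, hr₁, hr₁r, hA⟩ := bound_near_obj hc hTs E.toEnergy hΦ hobj (hΦ.mono fun n _ z _ => ⟨1, one_ne_zero, (one_smul _ _).symm⟩) hrat
  obtain ⟨ε₀, B₀, hε₀, hB₀, htb⟩ := ht
  obtain ⟨B₁, hB₁, hord⟩ := hord
  -- the neighbourhood of the sector
  obtain ⟨δ, hδ, hδ'⟩ := Metric.eventually_nhds_iff_ball.1 hord
  have hτ0 : τ (σ 0) = 0 := hσ.left.self_of_nhds
  have hτc : ∀ᶠ y in 𝓝 (σ 0), ‖(τ y).1‖ < δ := by
    have h1 : ContinuousAt (fun y => ‖(τ y).1‖) (σ 0) := (hσ.τ_an.continuousAt.fst).norm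
    have h2 : ‖(τ (σ 0)).1‖ < δ := by
      rw [hτ0]
      simpa using hδ
    exact h1.eventually_lt_const h2
  obtain ⟨ε₁, hε₁, hε₁'⟩ := Metric.eventually_nhds_iff_ball.1 hτc
  refine ⟨fun n z => g (Φ n) z * pn (Φ n z) ^ (-(θ * j / (m * D₁))), r₁, Real.exp (C * A ^ 2 * r₁ ^ 2), min ε₀ (min ε₁ δ), B₁ * B₀, hr₁, hr₁r,
    Real.exp_pos _, lt_min hε₀ (lt_min hε₁ hδ), ?_, ?_, ?_, ?_⟩
  · nlinarith
  · filter_upwards [hΦ] with n hn z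
    exact mul_nonneg (E.nonneg _ hn z) (Real.rpow_nonneg (E.pn_nonneg _) _)
  · filter_upwards [hΦ, hA] with n hn hAn w ρ hρ hsub z hz
    have hρr : ρ ≤ r₁ := by
      have h1 : w + ρ ∈ ball (0 : ℂ) r₁ := hsub (by rw [mem_closedBall, dist_eq_norm, add_sub_cancel_left, Complex.norm_real, Real.norm_of_nonneg hρ.le])
      have h2 : w - ρ ∈ ball (0 : ℂ) r₁ := hsub (by
        rw [mem_closedBall, dist_eq_norm, sub_sub_cancel_left, norm_neg, Complex.norm_real, Real.norm_of_nonneg hρ.le])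
      rw [mem_ball_zero_iff] at h1 h2
      have h3 : ‖(w + ρ) - (w - ρ)‖ ≤ ‖w + ρ‖ + ‖w - ρ‖ := norm_sub_le _ _
      have h4 : (w + ρ) - (w - ρ) = ((2 * ρ : ℝ) : ℂ) := by
        push_cast
        ring
      rw [h4, Complex.norm_real, Real.norm_of_nonneg (by positivity)] at h3
      linarith
    obtain ⟨y, hy, h1⟩ := maxU hX hΩ hm hj hθ hθ1 E hn (w := w) (R := ρ) (A := A)
      (fun x hx => hAn x (hsub (ball_subset_closedBall hx))) hρ le_rfl hz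
    refine ⟨y, hy, h1.trans ?_⟩
    refine mul_le_mul_of_nonneg_right (Real.exp_le_exp.2 ?_) (mul_nonneg (E.nonneg _ hn y) (Real.rpow_nonneg (E.pn_nonneg _) _))
    exact mul_le_mul_of_nonneg_left (pow_le_pow_left₀ hρ.le hρr 2) (mul_nonneg E.C_pos.le (sq_nonneg _))
  · filter_upwards [hΦ] with n hn z c hc0 h1 h2 h3
    have h1a : ‖c⁻¹ • Φ n z - σ 0‖ < ε₀ := h1.trans_le (min_le_left _ _)
    have h1b : ‖c⁻¹ • Φ n z - σ 0‖ < ε₁ := h1.trans_le ((min_le_right _ _).trans (min_le_left _ _))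
    have hp0 : 0 < ‖(τ (c⁻¹ • Φ n z)).1‖ := norm_pos_iff.2 h2
    have h3a : ‖(τ (c⁻¹ • Φ n z)).2‖ < ε₀ * ‖(τ (c⁻¹ • Φ n z)).1‖ :=
      h3.trans_le (mul_le_mul_of_nonneg_right (min_le_left _ _) hp0.le)
    have h3b : ‖(τ (c⁻¹ • Φ n z)).2‖ < δ * ‖(τ (c⁻¹ • Φ n z)).1‖ :=
      h3.trans_le (mul_le_mul_of_nonneg_right ((min_le_right _ _).trans (min_le_right _ _)) hp0.le)
    obtain ⟨g1, g2, g3⟩ := htb (Φ n) hn z c hc0 h1a h2 h3a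
    have g4 : ‖(τ (c⁻¹ • Φ n z)).1‖ < δ := hε₁' _ (by rw [mem_ball, dist_eq_norm]; exact h1b)
    generalize hpdef : τ (c⁻¹ • Φ n z) = p at h2 hp0 h3b g2 g3 g4 ⊢
    have g5 := hδ' (p.1, p.2 / p.1) (by
      rw [mem_ball_zero_iff, Prod.norm_def]
      refine max_lt g4 ?_
      rw [norm_div, div_lt_iff₀ hp0]
      exact h3b)
    have g6 : (p.1, p.1 * (p.2 / p.1)) = p := by
      rw [mul_div_cancel₀ _ h2]
    simp only [g6] at g5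
    obtain ⟨g7, g8⟩ := oC_rpow hm (norm_nonneg p.1) (norm_nonneg _) hB₁ g5.1 g5.2
    have e1 : ‖p.1‖ ^ (1 + (1 - θ) * j / (2 * m) + (μ : ℝ) / m) = ‖p.1‖ ^ (1 + (1 - θ) * j / (2 * m)) * ‖p.1‖ ^ ((μ : ℝ) / m) :=
      Real.rpow_add hp0 _ _
    rw [e1]
    have hx0 : 0 ≤ ‖p.1‖ ^ (1 + (1 - θ) * (j : ℝ) / (2 * m)) := Real.rpow_nonneg (norm_nonneg _) _
    have hy0 : 0 ≤ sm k (p.1, p.2 / p.1) (deriv (fun w => (τ (c⁻¹ • Φ n w)).1) z, deriv (fun w => (τ (c⁻¹ • Φ n w)).2 / (τ (c⁻¹ • Φ n w)).1) z) :=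
      le_max_of_le_left (norm_nonneg _)
    have hz0 : 0 ≤ ‖c‖ ^ (-(θ * j / m)) := Real.rpow_nonneg (norm_nonneg _) _
    generalize ‖p.1‖ ^ (1 + (1 - θ) * (j : ℝ) / (2 * m)) = x at hx0 g2 g3 ⊢
    generalize sm k (p.1, p.2 / p.1) (deriv (fun w => (τ (c⁻¹ • Φ n w)).1) z, deriv (fun w => (τ (c⁻¹ • Φ n w)).2 / (τ (c⁻¹ • Φ n w)).1) z) = y
      at hy0 g2 g3 ⊢
    generalize ‖c‖ ^ (-(θ * j / m)) = t at hz0 g2 g3 ⊢
    generalize ‖oC Ω σ p‖ ^ (1 / (m : ℝ)) = o at g7 g8 g2 g3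
    generalize ‖p.1‖ ^ ((μ : ℝ) / m) = q at g7 g8 ⊢
    generalize g (Φ n) z * pn (Φ n z) ^ (-(θ * j / (m * D₁))) = V at g2 g3 ⊢
    refine ⟨g1, ?_, ?_⟩
    · calc x * q * y * t = q * (x * y * t) := by ring
        _ ≤ (B₁ * o) * (x * y * t) := mul_le_mul_of_nonneg_right g7 (by positivity)
        _ = B₁ * (x * o * y * t) := by ring
        _ ≤ B₁ * (B₀ * V) := mul_le_mul_of_nonneg_left g2 (by linarith)
        _ = B₁ * B₀ * V := by ring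
    · calc V ≤ B₀ * (x * o * y * t) := g3
        _ = B₀ * (o * (x * y * t)) := by ring
        _ ≤ B₀ * ((B₁ * q) * (x * y * t)) := by
            refine mul_le_mul_of_nonneg_left (mul_le_mul_of_nonneg_right g8 (by positivity)) (by linarith)
        _ = B₁ * B₀ * (x * q * y * t) := by ring

end Pool.Agent.SG
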