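import Pool.Agent.UC.FinA
import Pool.Agent.SG.BubB
import Pool.Agent.SG.BuC
import Pool.Agent.H17BP.BlowM

/-!
# SG BubC: the normalised curves at a bubble

`bub_obj`: `Φ k z = (exp (v k z) / u 0) • F k z` converges to `z ^ M • G z`, `G z = (u z / u 0) • H z`, `G 0 = H 0 = σ 0`, and the curves `Φ k` are
not contained in the curve `T` whose secant cone does not contain the direction of `H`.
-/

set_option autoImplicit false

open Topology Filter Metric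

noncomputable section

namespace Pool.Agent.SG

open Pool.Agent.H36.BP (EN)
open Pool.Agent.H14.PP (IsCone CurveAt)
open Pool.Agent.H17BP (Surface IsChart IsForm Eqs)
open Pool.Agent.H22.W (PseudoLength)
open Pool.Agent.H74.NB (CC Obj)
open Pool.Agent.SY (Ent Energy BubbleAt Cls)

variable {N : ℕ} {X T T₀ : Set (EN N)}

/-- a curve in the direction of the first axis is not in `T` off the centre -/
theorem off_of_dir (hX : Surface X) (hTs : ∀ x ∈ T, ∀ c : ℂ, c ≠ 0 → c • x ∈ T) {σ : ℂ × ℂ → EN N} {τ : EN N → ℂ × ℂ} (hσ : IsChart X σ τ)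
    (hT : ∀ᶠ p in 𝓝 (0 : ℂ × ℂ), p.1 ≠ 0 → σ (p.1, p.1 * p.2) ∉ T) {H : ℂ → EN N} (hH : CurveAt X H 0) (h0 : H 0 = σ 0)
    (hd : deriv (fun z => τ (H z)) 0 = (1, 0)) : ∀ᶠ z in 𝓝[≠] (0 : ℂ), H z ∉ T := by
  obtain ⟨h1, h2, h3, -⟩ := curve_chart hσ hH h0
  have hder : HasDerivAt (fun z => τ (H z)) (1, 0) 0 := hd ▸ h1.differentiableAt.hasDerivAt
  have d1 : HasDerivAt (fun z => (τ (H z)).1) 1 0 := hder.fst
  have d2 : HasDerivAt (fun z => (τ (H z)).2) 0 0 := hder.snd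
  have e1 : (τ (H 0)).1 = 0 := by rw [h2]; rfl
  have e2 : (τ (H 0)).2 = 0 := by rw [h2]; rfl
  have l1 : Tendsto (fun z => z⁻¹ * (τ (H z)).1) (𝓝[≠] 0) (𝓝 1) := by
    have h4 := d1.tendsto_slope_zero
    simp only [zero_add, e1, sub_zero, smul_eq_mul] at h4
    exact h4
  have l2 : Tendsto (fun z => z⁻¹ * (τ (H z)).2) (𝓝[≠] 0) (𝓝 0) := by
    have h4 := d2.tendsto_slope_zero
    simp only [zero_add, e2, sub_zero, smul_eq_mul] at h4
    exact h4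
  have l3 : Tendsto (fun z => (τ (H z)).2 / (τ (H z)).1) (𝓝[≠] 0) (𝓝 0) := by
    have h4 := l2.div l1 one_ne_zero
    rw [zero_div] at h4
    refine h4.congr' ?_
    filter_upwards [self_mem_nhdsWithin] with z hz
    have hz' : z ≠ 0 := hz
    simp only [Pi.div_apply]
    rw [mul_div_mul_left _ _ (inv_ne_zero hz')]
  have l4 : Tendsto (fun z => (τ (H z)).1) (𝓝[≠] 0) (𝓝 0) := by
    have h4 := d1.continuousAt.tendsto
    rw [e1] at h4
    exact h4.mono_left nhdsWithin_le_nhds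
  have l5 : Tendsto (fun z => (((τ (H z)).1, (τ (H z)).2 / (τ (H z)).1) : ℂ × ℂ)) (𝓝[≠] 0) (𝓝 0) := l4.prodMk_nhds l3
  filter_upwards [l5.eventually hT, l1.eventually_ne one_ne_zero, h3.filter_mono nhdsWithin_le_nhds] with z g1 g2 g3 g4
  have g5 : (τ (H z)).1 ≠ 0 := fun h => g2 (by rw [h, mul_zero])
  have g6 := g1 g5
  rw [mul_div_cancel₀ _ g5] at g6
  obtain ⟨c, hc, g7⟩ := g3
  have g8 : σ (τ (H z)) = c⁻¹ • H z := by
    conv_rhs => rw [g7]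
    rw [smul_smul, inv_mul_cancel₀ hc, one_smul]
  exact g6 (by rw [Prod.mk.eta, g8]; exact hTs _ g4 _ (inv_ne_zero hc))

/-- **The normalised curves at a bubble.** -/
theorem bub_obj {κ : Type} {Q : κ → EN N → ℂ} {D : ℕ} (hX : Surface X) (hQ : Eqs X T Q D) {n : PseudoLength X} {𝒰 : Ultrafilter ℕ} {F : ℕ → ℂ → EN N}
    {v : ℕ → ℂ → ℂ} {H : ℂ → EN N} {u : ℂ → ℂ} {r : ℝ} {M : ℕ} (hb : BubbleAt X T₀ n 𝒰 F v H u r M) {σ : ℂ × ℂ → EN N} {τ : EN N → ℂ × ℂ}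
    (hσ : IsChart X σ τ) (h0 : σ 0 = H 0) (hd : deriv (fun z => τ (H z)) 0 = (1, 0))
    (hT : ∀ᶠ p in 𝓝 (0 : ℂ × ℂ), p.1 ≠ 0 → σ (p.1, p.1 * p.2) ∉ T) :
    ∃ (Φ : ℕ → ℂ → EN N) (G : ℂ → EN N), Obj 𝒰 Φ 0 M G r ∧ (∀ᶠ k in (𝒰 : Filter ℕ), Ent X T (Φ k)) ∧ G 0 = σ 0 ∧
      deriv (fun z => τ (G z)) 0 = (1, 0) := by
  have hTs : ∀ x ∈ T, ∀ c : ℂ, c ≠ 0 → c • x ∈ T := hQ.cone hX.smul
  have hu0 : u 0 ≠ 0 := hb.u_ne 0 (mem_ball_self hb.r_pos)
  obtain ⟨hobj, hXe⟩ := Pool.Agent.UC.obj_of_bubble hX hb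
  have hcur : CurveAt X H 0 := ⟨hb.cls_H.1.diff.analyticAt 0, Eventually.of_forall hb.cls_H.1.mem⟩
  refine ⟨fun k z => (u 0)⁻¹ • (Complex.exp (v k z) • F k z), fun z => (u 0)⁻¹ • (u z • H z), ?_, ?_, ?_, ?_⟩
  · refine ⟨hobj.pos, ?_, ?_, ?_, ?_, ?_⟩
    · filter_upwards [hobj.hol] with k hk
      exact hk.const_smul ((u 0)⁻¹)
    · filter_upwards [hobj.nz] with k hk z hz
      exact smul_ne_zero (inv_ne_zero hu0) (hk z hz)
    · intro z₀ hz₀ z hz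
      have h1 := (hobj.cc z₀ hz₀ z hz).const_smul ((u 0)⁻¹)
      rw [smul_comm] at h1
      exact h1
    · exact hobj.holG.const_smul ((u 0)⁻¹)
    · exact smul_ne_zero (inv_ne_zero hu0) hobj.nzG
  · -- the curves are not in `T`
    have h1 := off_of_dir hX hTs hσ hT hcur h0.symm hd
    have h2 : ∀ᶠ z in 𝓝[≠] (0 : ℂ), z ∈ ball (0 : ℂ) r := mem_nhdsWithin_of_mem_nhds (ball_mem_nhds _ hb.r_pos)
    obtain ⟨z, ⟨hz1, hz2⟩, hz3⟩ := ((h1.and h2).and self_mem_nhdsWithin).exists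
    have hz3' : z ≠ 0 := hz3
    have h4 : ∃ i, Q i (H z) ≠ 0 := by
      by_contra hcon
      push Not at hcon
      exact hz1 ((hQ.mem_iff _).2 ⟨hb.cls_H.1.mem z, hcon⟩)
    obtain ⟨i, hi⟩ := h4
    have h5 := hobj.cc z hz2 (fun _ => z) tendsto_const_nhds
    have h6 : Tendsto (fun k => Q i (Complex.exp (v k z) • F k z)) 𝒰 (𝓝 (Q i ((z - 0) ^ M • (u z • H z)))) :=
      ((hQ.an i _).continuousAt.tendsto).comp h5
    have h7 : Q i ((z - 0) ^ M • (u z • H z)) ≠ 0 := by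
      rw [sub_zero, smul_smul, hQ.smul]
      exact mul_ne_zero (pow_ne_zero _ (mul_ne_zero (pow_ne_zero _ hz3') (hb.u_ne z hz2))) hi
    filter_upwards [h6.eventually_ne h7] with k hk
    refine ⟨?_, fun y => ?_, z, fun h => ?_⟩
    · exact ((hb.diff_v k).cexp.smul (hb.cls k).1.diff).const_smul ((u 0)⁻¹)
    · exact hX.smul _ (hX.smul _ ((hb.cls k).1.mem y) _ (Complex.exp_ne_zero _)) _ (inv_ne_zero hu0)
    · have h8 := ((hQ.mem_iff _).1 h).2 i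
      rw [hQ.smul] at h8
      exact hk ((mul_eq_zero.1 h8).resolve_left (pow_ne_zero _ (inv_ne_zero hu0)))
  · show (u 0)⁻¹ • (u 0 • H 0) = σ 0
    rw [smul_smul, inv_mul_cancel₀ hu0, one_smul, h0]
  · rw [← hd]
    refine Filter.EventuallyEq.deriv_eq ?_
    have huc : ContinuousAt u 0 := hb.diff_u.continuousOn.continuousAt (ball_mem_nhds _ hb.r_pos)
    have h1 : Tendsto (fun z => (H z, (u 0)⁻¹ * u z)) (𝓝 (0 : ℂ)) (𝓝 (σ 0, (1 : ℂ))) := by
      refine Tendsto.prodMk_nhds ?_ ?_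
      · rw [h0]
        exact hcur.1.continuousAt.tendsto
      · have h2 := (huc.const_mul ((u 0)⁻¹)).tendsto
        rwa [inv_mul_cancel₀ hu0] at h2
    filter_upwards [h1.eventually hσ.inv] with z hz
    rw [smul_smul]
    exact hz

end Pool.Agent.SG
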