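import Pool.Agent.SG.Sec
import Pool.Agent.UC.Ch

/-!
# SG RSec: the tangent direction of a null curve
-/

set_option autoImplicit false

open Topology Filter Metric

noncomputable section

namespace Pool.Agent.SG

open Pool.Agent.H17BP (Surface IsChart Pr)
open Pool.Agent.H36.BP (EN)
open Pool.Agent.H14.PP (CurveAt IsCone)
open Pool.Agent.H22.W (PseudoLength tan_curve)
open Pool.Agent.UC (exists_cone)

variable {N : ℕ} {X : Set (EN N)}

theorem isCone_of_surface (hX : Surface X) : IsCone X := by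
  refine ⟨hX.zero, hX.smul, ?_⟩
  rw [← closure_subset_iff_isClosed]
  intro x hx
  by_cases h0 : x = 0
  · exact Or.inl h0
  · refine Or.inr (hX.closed x ?_ h0)
    rw [Set.insert_eq, closure_union, closure_singleton] at hx
    rcases hx with hx | hx
    · exact absurd hx h0
    · exact hx

/-- the coordinates on an open cone, along the chart -/
private theorem rsec_left {σ : ℂ × ℂ → EN N} {τ : EN N → ℂ × ℂ} (hσ : IsChart X σ τ) {W : Set (EN N)} {T : EN N → ℂ × ℂ} {H : EN N → ℂ}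
    (hW : IsOpen W) (h0W : σ 0 ∈ W) (hT0 : T (σ 0) = 0) (hTH : ∀ y ∈ W, AnalyticAt ℂ T y ∧ AnalyticAt ℂ H y)
    (hy : ∀ y ∈ W, y ∈ X → y = H y • σ (T y)) : ∀ᶠ p in 𝓝 (0 : ℂ × ℂ), σ p ∈ W ∧ T (σ p) = p := by
  have hσt : Tendsto σ (𝓝 0) (𝓝 (σ 0)) := hσ.σ_an.continuousAt.tendsto
  have hH0 : H (σ 0) = 1 := by
    have h1 := hy _ h0W hσ.σ_mem.self_of_nhds
    rw [hT0] at h1
    have h2 : (H (σ 0) - 1) • σ 0 = 0 := by rw [sub_smul, one_smul, ← h1, sub_self]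
    rcases smul_eq_zero.1 h2 with h3 | h3
    · exact sub_eq_zero.1 h3
    · exact absurd h3 hσ.ne
  have hTt : Tendsto (fun p => T (σ p)) (𝓝 0) (𝓝 0) := by
    have h1 := (hTH _ h0W).1.continuousAt.tendsto.comp hσt
    rw [hT0] at h1
    exact h1
  have hpair : Tendsto (fun p => (σ (T (σ p)), H (σ p))) (𝓝 0) (𝓝 (σ 0, (1 : ℂ))) := by
    have h1 := (hTH _ h0W).2.continuousAt.tendsto.comp hσt
    rw [hH0] at h1
    exact (hσt.comp hTt).prodMk_nhds h1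
  filter_upwards [hσt.eventually (hW.mem_nhds h0W), hσ.σ_mem, hσ.left, hTt.eventually hσ.left, hpair.eventually hσ.inv] with p g1 g2 g3 g4 g5
  refine ⟨g1, ?_⟩
  have g6 := hy _ g1 g2
  rw [← g6] at g5
  rw [← g4, ← g5, g3]

/-- the tangent direction of a null curve, in the coordinates of a chart -/
theorem null_axis (n : PseudoLength X) {σ : ℂ × ℂ → EN N} {τ : EN N → ℂ × ℂ} (hσ : IsChart X σ τ) {c : ℂ → ℂ × ℂ} (hc : AnalyticAt ℂ c 0)
    (hc0 : c 0 = 0) (hnull : ∀ᶠ z in 𝓝 (0 : ℂ), n.toFun (σ (c z)) (fderiv ℂ σ (c z) (deriv c z)) = 0) {𝒰 : Ultrafilter ℕ} {s t v : ℕ → ℂ}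
    (ht : Tendsto t 𝒰 (𝓝 0)) (hv : Tendsto v 𝒰 (𝓝 0)) (hs0 : ∀ᶠ k in (𝒰 : Filter ℕ), s k ≠ 0)
    (hcv : ∀ᶠ k in (𝒰 : Filter ℕ), c (v k) = (s k, s k * t k)) : n.toFun (σ 0) (fderiv ℂ σ 0 (1, 0)) = 0 := by
  have hct : Tendsto c (𝓝 0) (𝓝 0) := by
    have := hc.continuousAt.tendsto
    rwa [hc0] at this
  -- the coordinates
  have ha : AnalyticAt ℂ (fun z => (c z).1) 0 := analyticAt_fst.fun_comp hc
  have hb : AnalyticAt ℂ (fun z => (c z).2) 0 := analyticAt_snd.fun_comp hc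
  have hane : ¬ ∀ᶠ z in 𝓝 (0 : ℂ), (c z).1 = 0 := by
    intro h2
    obtain ⟨k, hk1, hk2, hk3⟩ := ((hv.eventually h2).and (hcv.and hs0)).exists
    rw [hk2] at hk1
    exact hk3 hk1
  obtain ⟨d, a₁, ha₁, ha₁0, hae⟩ : ∃ (d : ℕ) (a₁ : ℂ → ℂ), AnalyticAt ℂ a₁ 0 ∧ a₁ 0 ≠ 0 ∧ ∀ᶠ z in 𝓝 (0 : ℂ), (c z).1 = z ^ d * a₁ z := by
    obtain ⟨d, a₁, h2, h3, h4⟩ := ha.exists_eventuallyEq_pow_smul_nonzero_iff.2 hane
    refine ⟨d, a₁, h2, h3, h4.mono fun z hz => ?_⟩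
    simpa using hz
  have hd : d ≠ 0 := by
    rintro rfl
    have h2 := hae.self_of_nhds
    rw [hc0, pow_zero, one_mul] at h2
    exact ha₁0 h2.symm
  obtain ⟨e, he, he0, hbe⟩ : ∃ e : ℂ → ℂ, AnalyticAt ℂ e 0 ∧ e 0 = 0 ∧ ∀ᶠ z in 𝓝 (0 : ℂ), (c z).2 = z ^ d * e z := by
    by_cases hbne : ∀ᶠ z in 𝓝 (0 : ℂ), (c z).2 = 0
    · refine ⟨fun _ => 0, analyticAt_const, rfl, hbne.mono fun z hz => ?_⟩
      rw [hz, mul_zero]
    · obtain ⟨q, b₁, h2, h3, h4⟩ := hb.exists_eventuallyEq_pow_smul_nonzero_iff.2 hbne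
      have h5 : d < q := by
        by_contra hqd
        push Not at hqd
        have h6 : ∀ᶠ k in (𝒰 : Filter ℕ), ‖b₁ (v k)‖ ≤ ‖t k‖ * ‖a₁ (v k)‖ := by
          have h8 : ∀ᶠ z in 𝓝 (0 : ℂ), ‖z‖ ≤ 1 := by
            filter_upwards [closedBall_mem_nhds (0 : ℂ) one_pos] with z hz
            rwa [mem_closedBall_zero_iff] at hz
          filter_upwards [hcv, hv.eventually hae, hv.eventually h4, hv.eventually h8, hs0] with k g1 g2 g3 g4 g0
          have g5 : ‖(c (v k)).2‖ = ‖t k‖ * ‖(c (v k)).1‖ := by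
            rw [g1, norm_mul, mul_comm]
          rw [g2, g3, sub_zero, smul_eq_mul, norm_mul, norm_mul, norm_pow, norm_pow] at g5
          have g6 : v k ≠ 0 := by
            intro h0
            rw [h0, hc0] at g1
            exact g0 (congrArg Prod.fst g1).symm
          have g7 : 0 < ‖v k‖ := norm_pos_iff.2 g6
          have g8 : ‖v k‖ ^ d ≤ ‖v k‖ ^ q := pow_le_pow_of_le_one g7.le g4 hqd
          have g9 : 0 < ‖v k‖ ^ q := pow_pos g7 q
          have g10 : ‖v k‖ ^ q * ‖b₁ (v k)‖ ≤ ‖v k‖ ^ q * (‖t k‖ * ‖a₁ (v k)‖) := by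
            have g11 : 0 ≤ ‖t k‖ * ‖a₁ (v k)‖ := by positivity
            nlinarith [mul_le_mul_of_nonneg_right g8 g11]
          exact le_of_mul_le_mul_left g10 g9
        have h7 : Tendsto (fun k => ‖b₁ (v k)‖) 𝒰 (𝓝 ‖b₁ 0‖) := (h2.continuousAt.tendsto.comp hv).norm
        have h8 : Tendsto (fun k : ℕ => ‖t k‖ * ‖a₁ (v k)‖) 𝒰 (𝓝 (‖(0 : ℂ)‖ * ‖a₁ 0‖)) :=
          ht.norm.mul (ha₁.continuousAt.tendsto.comp hv).norm
        rw [norm_zero, zero_mul] at h8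
        have h9 := le_of_tendsto_of_tendsto h7 h8 h6
        exact h3 (norm_le_zero_iff.1 h9)
      obtain ⟨q', hq'⟩ : ∃ q', q = d + (q' + 1) := ⟨q - d - 1, by omega⟩
      refine ⟨fun z => z ^ (q' + 1) * b₁ z, ((analyticAt_id.pow _).mul h2), by simp, h4.mono fun z hz => ?_⟩
      rw [hz, hq', sub_zero, smul_eq_mul, pow_add, mul_assoc]
  -- the derivative of the curve
  obtain ⟨w, hw⟩ : ∃ w : ℂ → ℂ × ℂ, w = fun z => ((d : ℂ) * a₁ z + z * deriv a₁ z, (d : ℂ) * e z + z * deriv e z) := ⟨_, rfl⟩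
  have hwc : ContinuousAt w 0 := by
    rw [hw]
    have h2 : ContinuousAt (deriv a₁) 0 := ha₁.deriv.continuousAt
    have h3 : ContinuousAt (deriv e) 0 := he.deriv.continuousAt
    exact ((continuousAt_const.mul ha₁.continuousAt).add (continuousAt_id.mul h2)).prodMk
      ((continuousAt_const.mul he.continuousAt).add (continuousAt_id.mul h3))
  have hw0 : w 0 = ((d : ℂ) * a₁ 0) • ((1 : ℂ), (0 : ℂ)) := by
    rw [hw]
    simp [he0]
  have hpow : ∀ {g : ℂ → ℂ} {z : ℂ}, DifferentiableAt ℂ g z → HasDerivAt (fun y => y ^ d * g y) (z ^ (d - 1) * ((d : ℂ) * g z + z * deriv g z)) z := by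
    intro g z hg
    have h2 := (hasDerivAt_pow d z).mul hg.hasDerivAt
    refine h2.congr_deriv ?_
    obtain ⟨d', rfl⟩ : ∃ d', d = d' + 1 := ⟨d - 1, by omega⟩
    rw [Nat.add_sub_cancel]
    ring
  have hcd : ∀ᶠ z in 𝓝 (0 : ℂ), deriv c z = z ^ (d - 1) • w z := by
    filter_upwards [hae.eventually_nhds, hbe.eventually_nhds, ha₁.eventually_analyticAt, he.eventually_analyticAt] with z g1 g2 g3 g4
    have g5 : HasDerivAt (fun y => (y ^ d * a₁ y, y ^ d * e y)) (z ^ (d - 1) * ((d : ℂ) * a₁ z + z * deriv a₁ z),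
        z ^ (d - 1) * ((d : ℂ) * e z + z * deriv e z)) z := (hpow g3.differentiableAt).prodMk (hpow g4.differentiableAt)
    have g6 : c =ᶠ[𝓝 z] fun y => (y ^ d * a₁ y, y ^ d * e y) := by
      filter_upwards [g1, g2] with y hy1 hy2
      exact Prod.ext hy1 hy2
    rw [g6.deriv_eq, g5.deriv, hw]
    simp [Prod.smul_mk]
  -- the curve is null
  have hnull' : ∀ᶠ z in 𝓝[≠] (0 : ℂ), n.toFun (σ (c z)) (fderiv ℂ σ (c z) (w z)) = 0 := by
    rw [eventually_nhdsWithin_iff]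
    filter_upwards [hnull, hcd, hct.eventually (tan_of_chart hσ)] with z g1 g2 g5 hz
    rw [g2, map_smul, n.smul _ _ (g5 _)] at g1
    rcases mul_eq_zero.1 g1 with g15 | g15
    · exact absurd (norm_eq_zero.1 g15) (pow_ne_zero _ hz)
    · exact g15
  -- the limit
  have hlim : Tendsto (fun z => n.toFun (σ (c z)) (fderiv ℂ σ (c z) (w z))) (𝓝[≠] (0 : ℂ)) (𝓝 (n.toFun (σ 0) (fderiv ℂ σ 0 (w 0)))) := by
    have g1 : Tendsto (fun z => σ (c z)) (𝓝 0) (𝓝 (σ 0)) := hσ.σ_an.continuousAt.tendsto.comp hct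
    have g2 : ContinuousAt (fderiv ℂ σ) 0 := hσ.σ_an.fderiv.continuousAt
    have g4 : Tendsto (fun z => fderiv ℂ σ (c z)) (𝓝 0) (𝓝 (fderiv ℂ σ 0)) := g2.tendsto.comp hct
    have g3 : Tendsto (fun z => fderiv ℂ σ (c z) (w z)) (𝓝 0) (𝓝 (fderiv ℂ σ 0 (w 0))) :=
      ((isBoundedBilinearMap_apply (𝕜 := ℂ) (E := ℂ × ℂ) (F := EN N)).continuous.tendsto (fderiv ℂ σ 0, w 0)).comp (g4.prodMk_nhds hwc.tendsto)
    exact n.tendsto (Eventually.filter_mono nhdsWithin_le_nhds ((hct.eventually (tan_of_chart hσ)).mono fun z hz => hz _))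
      ((tan_of_chart hσ).self_of_nhds _) (g1.mono_left nhdsWithin_le_nhds) (g3.mono_left nhdsWithin_le_nhds)
  have h2 : n.toFun (σ 0) (fderiv ℂ σ 0 (w 0)) = 0 :=
    tendsto_nhds_unique hlim (tendsto_const_nhds.congr' (hnull'.mono fun z hz => hz.symm))
  rw [hw0, map_smul, n.smul _ _ ((tan_of_chart hσ).self_of_nhds _)] at h2
  rcases mul_eq_zero.1 h2 with h3 | h3
  · rw [norm_eq_zero] at h3
    rcases mul_eq_zero.1 h3 with h4 | h4
    · exact absurd (show d = 0 by exact_mod_cast h4) hd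
    · exact absurd h4 ha₁0
  · exact h3

/-- **The tangent direction of a null curve.** -/
theorem sec_curve (hX : Surface X) (n : PseudoLength X) {γ : ℂ → EN N} (hγ : AnalyticAt ℂ γ 0) (hγX : ∀ᶠ z in 𝓝 (0 : ℂ), γ z ∈ X)
    (hn : ∀ᶠ z in 𝓝 (0 : ℂ), n.toFun (γ z) (deriv γ z) = 0) {σ : ℂ × ℂ → EN N} {τ : EN N → ℂ × ℂ} (hσ : IsChart X σ τ) (h0 : Pr (γ 0) (σ 0))
    (𝒰 : Ultrafilter ℕ) {s t : ℕ → ℂ} {v : ℕ → ℂ} (hs : Tendsto s 𝒰 (𝓝 0)) (ht : Tendsto t 𝒰 (𝓝 0)) (hv : Tendsto v 𝒰 (𝓝 0))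
    (hs0 : ∀ᶠ k in (𝒰 : Filter ℕ), s k ≠ 0) (hp : ∀ᶠ k in (𝒰 : Filter ℕ), Pr (γ (v k)) (σ (s k, s k * t k))) :
    n.toFun (σ 0) (fderiv ℂ σ 0 (1, 0)) = 0 := by
  obtain ⟨W, T, H, hW, h0W, hT0, hcone, han, hy⟩ := exists_cone hX hσ (U := Set.univ) univ_mem
  have hleft := rsec_left hσ hW h0W hT0 (fun y hy => ⟨(han y hy).1, (han y hy).2.1⟩) hy
  have hcX := isCone_of_surface hX
  obtain ⟨a₀, ha₀, hγ0⟩ := h0
  have hγW0 : γ 0 ∈ W := by rw [hγ0]; exact (hcone _ h0W a₀ ha₀).1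
  have hTγ0 : T (γ 0) = 0 := by rw [hγ0, (hcone _ h0W a₀ ha₀).2.1, hT0]
  have hγW : ∀ᶠ z in 𝓝 (0 : ℂ), γ z ∈ W := hγ.continuousAt.tendsto.eventually (hW.mem_nhds hγW0)
  have hc : AnalyticAt ℂ (fun z => T (γ z)) 0 := (han _ hγW0).1.fun_comp hγ
  have hct : Tendsto (fun z => T (γ z)) (𝓝 0) (𝓝 0) := by
    have := hc.continuousAt.tendsto
    rwa [hTγ0] at this
  refine null_axis n hσ hc hTγ0 ?_ ht hv hs0 ?_
  · filter_upwards [hγW.eventually_nhds, hγX.eventually_nhds, hn, hγ.eventually_analyticAt, hct.eventually (tan_of_chart hσ),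
      hct.eventually hσ.σ_an.eventually_analyticAt] with z g1 g2 g3 g4 g5 g6
    have g7 := g1.self_of_nhds
    have g8 : γ =ᶠ[𝓝 z] fun y => H (γ y) • σ (T (γ y)) := by
      filter_upwards [g1, g2] with y k1 k2
      exact hy _ k1 k2
    have g9 : HasDerivAt (fun y => H (γ y)) (deriv (fun y => H (γ y)) z) z :=
      ((han _ g7).2.1.fun_comp g4).differentiableAt.hasDerivAt
    have g10 : HasDerivAt (fun y => T (γ y)) (deriv (fun y => T (γ y)) z) z :=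
      ((han _ g7).1.fun_comp g4).differentiableAt.hasDerivAt
    have g11 : HasDerivAt (fun y => σ (T (γ y))) (fderiv ℂ σ (T (γ z)) (deriv (fun y => T (γ y)) z)) z :=
      g6.differentiableAt.hasFDerivAt.comp_hasDerivAt z g10
    have g12 : deriv γ z = H (γ z) • fderiv ℂ σ (T (γ z)) (deriv (fun y => T (γ y)) z) + deriv (fun y => H (γ y)) z • σ (T (γ z)) := by
      rw [g8.deriv_eq]
      exact (g9.smul g11).deriv
    have g8z : γ z = H (γ z) • σ (T (γ z)) := g8.self_of_nhds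
    rw [g12] at g3
    have g13 := n.inv hcX (g5 (deriv (fun y => T (γ y)) z)) (han _ g7).2.2.1 (deriv (fun y => H (γ y)) z)
    rw [← g13, ← g8z]
    exact g3
  · have h1 : Tendsto (fun k => (s k, s k * t k)) 𝒰 (𝓝 (0 : ℂ × ℂ)) := by
      have h2 := hs.prodMk_nhds (hs.mul ht)
      have h3 : ((0 : ℂ), (0 : ℂ) * 0) = 0 := by simp
      rwa [h3] at h2
    filter_upwards [hp, h1.eventually hleft] with k g1 g2
    obtain ⟨a, ha, hk⟩ := g1
    rw [hk, (hcone _ g2.1 a ha).2.1, g2.2]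

end Pool.Agent.SG
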