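import Pool.Agent.UC.Defs
import Pool.Agent.SG.RDef

/-!
# SG RLoc: the points of the cone over the projected curve near `σ 0` lie on the curve

Compactness of the projective line; the projection is injective near `σ 0`.
-/

set_option autoImplicit false

open Topology Filter Metric

noncomputable section

namespace Pool.Agent.SG

open Pool.Agent.H36.BP (EN)
open Pool.Agent.H17BP (Surface IsChart Pr)
open Pool.Agent.UC (RatC)

variable {N : ℕ} {X : Set (EN N)}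

/-- the linear form as a continuous linear map -/
private def lfL (c : Fin (N + 1) → ℂ) : EN N →L[ℂ] ℂ :=
  LinearMap.toContinuousLinearMap
    { toFun := lf c
      map_add' := fun x y => by
        unfold lf
        rw [← Finset.sum_add_distrib]
        exact Finset.sum_congr rfl fun i _ => mul_add _ _ _
      map_smul' := fun a x => by
        unfold lf
        rw [RingHom.id_apply, smul_eq_mul, Finset.mul_sum]
        refine Finset.sum_congr rfl fun i _ => ?_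
        change c i * (a * x i) = a * (c i * x i)
        ring }

private theorem lfL_apply (c : Fin (N + 1) → ℂ) (x : EN N) : lfL c x = lf c x := rfl

private theorem lf_smul (c : Fin (N + 1) → ℂ) (a : ℂ) (x : EN N) : lf c (a • x) = a * lf c x := by
  rw [← lfL_apply, map_smul]
  rfl

/-- a map of the plane with an invertible derivative is injective near `0` -/
private theorem inj_near {f g : ℂ × ℂ → ℂ} (hf : AnalyticAt ℂ f 0) (hg : AnalyticAt ℂ g 0)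
    (hdet : fderiv ℂ f 0 (1, 0) * fderiv ℂ g 0 (0, 1) - fderiv ℂ f 0 (0, 1) * fderiv ℂ g 0 (1, 0) ≠ 0) :
    ∃ U ∈ 𝓝 (0 : ℂ × ℂ), ∀ p ∈ U, ∀ q ∈ U, f p = f q → g p = g q → p = q := by
  let L : ℂ × ℂ →L[ℂ] ℂ × ℂ := (fderiv ℂ f 0).prod (fderiv ℂ g 0)
  have hstr : HasStrictFDerivAt (fun p => (f p, g p)) L 0 := hf.hasStrictFDerivAt.prodMk hg.hasStrictFDerivAt
  have hinj : Function.Injective (L : ℂ × ℂ →ₗ[ℂ] ℂ × ℂ) := by
    rw [injective_iff_map_eq_zero]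
    rintro ⟨a, b⟩ hv
    have hab : (a, b) = a • ((1 : ℂ), (0 : ℂ)) + b • ((0 : ℂ), (1 : ℂ)) := by
      ext <;> simp
    have h1 : fderiv ℂ f 0 (a, b) = 0 := congrArg Prod.fst hv
    have h2 : fderiv ℂ g 0 (a, b) = 0 := congrArg Prod.snd hv
    rw [hab, map_add, map_smul, map_smul, smul_eq_mul, smul_eq_mul] at h1 h2
    have ha : a * (fderiv ℂ f 0 (1, 0) * fderiv ℂ g 0 (0, 1) - fderiv ℂ f 0 (0, 1) * fderiv ℂ g 0 (1, 0)) = 0 := by
      linear_combination (fderiv ℂ g 0 (0, 1)) * h1 - (fderiv ℂ f 0 (0, 1)) * h2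
    have hb : b * (fderiv ℂ f 0 (1, 0) * fderiv ℂ g 0 (0, 1) - fderiv ℂ f 0 (0, 1) * fderiv ℂ g 0 (1, 0)) = 0 := by
      linear_combination (fderiv ℂ f 0 (1, 0)) * h2 - (fderiv ℂ g 0 (1, 0)) * h1
    have ha' := (mul_eq_zero.1 ha).resolve_right hdet
    have hb' := (mul_eq_zero.1 hb).resolve_right hdet
    rw [ha', hb']
    rfl
  let e : (ℂ × ℂ) ≃L[ℂ] ℂ × ℂ := (LinearEquiv.ofInjectiveEndo _ hinj).toContinuousLinearEquiv
  have he : (e : ℂ × ℂ →L[ℂ] ℂ × ℂ) = L := by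
    apply ContinuousLinearMap.ext
    intro v
    rfl
  rw [← he] at hstr
  let P := hstr.toOpenPartialHomeomorph (fun p => (f p, g p))
  refine ⟨P.source, P.open_source.mem_nhds hstr.mem_toOpenPartialHomeomorph_source, fun p hp q hq h1 h2 => ?_⟩
  exact P.injOn hp hq (Prod.ext h1 h2)

/-- the limit argument -/
private theorem loc_aux (hX : Surface X) {σ : ℂ × ℂ → EN N} {τ : EN N → ℂ × ℂ} (hσ : IsChart X σ τ)
    {l : Fin 3 → Fin (N + 1) → ℂ} (h0 : lf (l 0) (σ 0) = 1) (h1 : lf (l 1) (σ 0) = 0) (h2 : lf (l 2) (σ 0) = 0)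
    (hdet : lf (l 1) (fderiv ℂ σ 0 (1, 0)) * lf (l 2) (fderiv ℂ σ 0 (0, 1)) -
      lf (l 1) (fderiv ℂ σ 0 (0, 1)) * lf (l 2) (fderiv ℂ σ 0 (1, 0)) ≠ 0)
    (𝒰 : Ultrafilter ℕ) {p : ℕ → ℂ × ℂ} (hp : Tendsto p 𝒰 (𝓝 0)) {γ : ℂ → EN N} (hγ : ContinuousAt γ 0)
    (hγX : ∀ z, γ z ∈ X) (hγ0 : lf (l 1) (γ 0) = 0 → lf (l 2) (γ 0) = 0 → Pr (γ 0) (σ 0)) {v : ℕ → ℂ}
    (hv : Tendsto v 𝒰 (𝓝 0))
    (hG : ∀ᶠ k in (𝒰 : Filter ℕ), lf (l 0) (σ (p k)) * lf (l 1) (γ (v k)) = lf (l 1) (σ (p k)) * lf (l 0) (γ (v k)) ∧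
      lf (l 0) (σ (p k)) * lf (l 2) (γ (v k)) = lf (l 2) (σ (p k)) * lf (l 0) (γ (v k))) :
    Pr (γ 0) (σ 0) ∧ ∀ᶠ k in (𝒰 : Filter ℕ), Pr (γ (v k)) (σ (p k)) := by
  have hσc : Tendsto (fun k => σ (p k)) 𝒰 (𝓝 (σ 0)) := hσ.σ_an.continuousAt.tendsto.comp hp
  have hγc : Tendsto (fun k => γ (v k)) 𝒰 (𝓝 (γ 0)) := hγ.tendsto.comp hv
  have hlσ : ∀ i, Tendsto (fun k => lf (l i) (σ (p k))) 𝒰 (𝓝 (lf (l i) (σ 0))) := fun i =>
    ((lfL (l i)).continuous.tendsto _).comp hσc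
  have hlγ : ∀ i, Tendsto (fun k => lf (l i) (γ (v k))) 𝒰 (𝓝 (lf (l i) (γ 0))) := fun i =>
    ((lfL (l i)).continuous.tendsto _).comp hγc
  have hne : (𝒰 : Filter ℕ).NeBot := 𝒰.neBot
  have hPr : Pr (γ 0) (σ 0) := by
    apply hγ0
    · have h3 := tendsto_nhds_unique (((hlσ 0).mul (hlγ 1)).congr' (hG.mono fun k hk => hk.1)) ((hlσ 1).mul (hlγ 0))
      rw [h0, h1, one_mul, zero_mul] at h3
      exact h3
    · have h3 := tendsto_nhds_unique (((hlσ 0).mul (hlγ 2)).congr' (hG.mono fun k hk => hk.2)) ((hlσ 2).mul (hlγ 0))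
      rw [h0, h2, one_mul, zero_mul] at h3
      exact h3
  refine ⟨hPr, ?_⟩
  obtain ⟨c, hc, hγc0⟩ := hPr
  -- `y k = c⁻¹ • γ (v k) → σ 0`
  have hy : Tendsto (fun k => c⁻¹ • γ (v k)) 𝒰 (𝓝 (σ 0)) := by
    have h3 := hγc.const_smul c⁻¹
    rw [hγc0, smul_smul, inv_mul_cancel₀ hc, one_smul] at h3
    exact h3
  have hq : Tendsto (fun k => τ (c⁻¹ • γ (v k))) 𝒰 (𝓝 0) := by
    have h3 := hσ.τ_an.continuousAt.tendsto.comp hy
    have h4 : τ (σ 0) = 0 := hσ.left.self_of_nhds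
    rw [h4] at h3
    exact h3
  -- the affine coordinates
  let F : Fin 3 → ℂ × ℂ → ℂ := fun i q => lf (l i) (σ q) / lf (l 0) (σ q)
  have hlan : ∀ i, AnalyticAt ℂ (fun q => lf (l i) (σ q)) 0 := fun i =>
    ((lfL (l i)).analyticAt _).comp hσ.σ_an
  have hFan : ∀ i, AnalyticAt ℂ (F i) 0 := fun i => (hlan i).div (hlan 0) (by rw [h0]; exact one_ne_zero)
  have hlder : ∀ i, HasFDerivAt (fun q => lf (l i) (σ q)) ((lfL (l i)).comp (fderiv ℂ σ 0)) 0 := fun i =>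
    (lfL (l i)).hasFDerivAt.comp 0 hσ.σ_an.differentiableAt.hasFDerivAt
  have hFder : ∀ i, lf (l i) (σ 0) = 0 → ∀ w, fderiv ℂ (F i) 0 w = lf (l i) (fderiv ℂ σ 0 w) := by
    intro i hi w
    have h5 : AnalyticAt ℂ (fun q => (lf (l 0) (σ q))⁻¹) 0 := (hlan 0).inv (by rw [h0]; exact one_ne_zero)
    have h3 : HasFDerivAt (fun q => lf (l i) (σ q) * (lf (l 0) (σ q))⁻¹) _ 0 :=
      (hlder i).mul h5.differentiableAt.hasFDerivAt
    have h4 : F i = fun q => lf (l i) (σ q) * (lf (l 0) (σ q))⁻¹ := by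
      funext q
      exact div_eq_mul_inv _ _
    rw [h4, h3.fderiv, hi, h0, inv_one]
    change (0 : ℂ) * fderiv ℂ (fun q => (lf (l 0) (σ q))⁻¹) 0 w + 1 * lf (l i) (fderiv ℂ σ 0 w) = _
    rw [zero_mul, one_mul, zero_add]
  obtain ⟨U, hU, hinj⟩ := inj_near (hFan 1) (hFan 2) (by
    rw [hFder 1 h1, hFder 1 h1, hFder 2 h2, hFder 2 h2]
    exact hdet)
  have hne0 : ∀ᶠ q in 𝓝 (0 : ℂ × ℂ), lf (l 0) (σ q) ≠ 0 :=
    (hlan 0).continuousAt.eventually_ne (by rw [h0]; exact one_ne_zero)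
  filter_upwards [hG, hp.eventually hU, hq.eventually hU, hp.eventually hne0, hq.eventually hne0,
    hy.eventually hσ.right] with k hk hpU hqU hp0 hq0 hr
  obtain ⟨c', hc', hr'⟩ := hr (hX.smul _ (hγX _) _ (inv_ne_zero hc))
  set q := τ (c⁻¹ • γ (v k)) with hqdef
  have hγk : γ (v k) = (c * c') • σ q := by
    rw [mul_smul, ← hr', smul_smul, mul_inv_cancel₀ hc, one_smul]
  have hcc : c * c' ≠ 0 := mul_ne_zero hc hc'
  rw [hγk, lf_smul, lf_smul, lf_smul] at hk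
  have key : ∀ i, lf (l 0) (σ (p k)) * (c * c' * lf (l i) (σ q)) = lf (l i) (σ (p k)) * (c * c' * lf (l 0) (σ q)) →
      F i (p k) = F i q := by
    intro i hi
    change lf (l i) (σ (p k)) / lf (l 0) (σ (p k)) = lf (l i) (σ q) / lf (l 0) (σ q)
    rw [div_eq_div_iff hp0 hq0]
    apply mul_left_cancel₀ hcc
    linear_combination -hi
  have hpq : p k = q := hinj _ hpU _ hqU (key 1 hk.1) (key 2 hk.2)
  exact ⟨c * c', hcc, by rw [hγk, hpq]⟩

set_option linter.unusedVariables false in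
/-- The points of the cone over the projected curve near `σ 0` lie on the curve `K`. -/
theorem loc_curve (hX : Surface X) {d : ℕ} (hd : 1 ≤ d) {K K' : ℂ → EN N} (h : RatC X d K K') {σ : ℂ × ℂ → EN N} {τ : EN N → ℂ × ℂ} (hσ : IsChart X σ τ)
    {l : Fin 3 → Fin (N + 1) → ℂ} (h0 : lf (l 0) (σ 0) = 1) (h1 : lf (l 1) (σ 0) = 0) (h2 : lf (l 2) (σ 0) = 0)
    (hdet : lf (l 1) (fderiv ℂ σ 0 (1, 0)) * lf (l 2) (fderiv ℂ σ 0 (0, 1)) - lf (l 1) (fderiv ℂ σ 0 (0, 1)) * lf (l 2) (fderiv ℂ σ 0 (1, 0)) ≠ 0)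
    (hK : ∀ u, lf (l 1) (K u) = 0 → lf (l 2) (K u) = 0 → Pr (K u) (σ 0)) (hK' : lf (l 1) (K' 0) = 0 → lf (l 2) (K' 0) = 0 → Pr (K' 0) (σ 0))
    (𝒰 : Ultrafilter ℕ) {p : ℕ → ℂ × ℂ} (hp : Tendsto p 𝒰 (𝓝 0))
    (hG : ∀ᶠ k in (𝒰 : Filter ℕ), (∃ u : ℂ, lf (l 0) (σ (p k)) * lf (l 1) (K u) = lf (l 1) (σ (p k)) * lf (l 0) (K u) ∧
        lf (l 0) (σ (p k)) * lf (l 2) (K u) = lf (l 2) (σ (p k)) * lf (l 0) (K u)) ∨
      (lf (l 0) (σ (p k)) * lf (l 1) (K' 0) = lf (l 1) (σ (p k)) * lf (l 0) (K' 0) ∧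
        lf (l 0) (σ (p k)) * lf (l 2) (K' 0) = lf (l 2) (σ (p k)) * lf (l 0) (K' 0))) :
    ∃ (γ : ℂ → EN N) (v : ℕ → ℂ), ((∃ u₀ : ℂ, γ = fun z => K (u₀ + z)) ∨ γ = K') ∧ Pr (γ 0) (σ 0) ∧ Tendsto v 𝒰 (𝓝 0) ∧
      ∀ᶠ k in (𝒰 : Filter ℕ), Pr (γ (v k)) (σ (p k)) := by
  classical
  rcases Ultrafilter.eventually_or.1 hG with hA | hB
  · obtain ⟨u, hu⟩ := hA.choice
    by_cases hbd : ∃ R : ℝ, ∀ᶠ k in (𝒰 : Filter ℕ), ‖u k‖ ≤ R
    · obtain ⟨R, hR⟩ := hbd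
      obtain ⟨u₀, -, hu₀⟩ : ∃ u₀ ∈ closedBall (0 : ℂ) R, Tendsto u 𝒰 (𝓝 u₀) := by
        have hcomp := (isCompact_closedBall (0 : ℂ) R).ultrafilter_le_nhds (𝒰.map u) (by
          rw [Ultrafilter.coe_map, le_principal_iff]
          exact hR.mono fun k hk => mem_closedBall_zero_iff.2 hk)
        exact hcomp
      have hv : Tendsto (fun k => u k - u₀) 𝒰 (𝓝 0) := by
        have := hu₀.sub_const u₀
        rwa [sub_self] at this
      have hres := loc_aux hX hσ h0 h1 h2 hdet 𝒰 hp (γ := fun z => K (u₀ + z))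
        ((h.diff.continuous.comp (continuous_const.add continuous_id)).continuousAt) (fun z => h.mem _)
        (fun h3 h4 => hK _ h3 h4) (v := fun k => u k - u₀) hv (hu.mono fun k hk => by
          have : u₀ + (u k - u₀) = u k := by ring
          simp only [this]
          exact hk)
      exact ⟨_, _, Or.inl ⟨u₀, rfl⟩, hres.1, hv, hres.2⟩
    · -- `u → ∞`
      have hinf : ∀ R : ℝ, ∀ᶠ k in (𝒰 : Filter ℕ), R < ‖u k‖ := by
        intro R
        by_contra hcon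
        apply hbd
        refine ⟨R, ?_⟩
        have h3 := Ultrafilter.eventually_not.2 hcon
        exact h3.mono fun k hk => not_lt.1 hk
      have hv : Tendsto (fun k => (u k)⁻¹) 𝒰 (𝓝 0) := by
        apply tendsto_inv₀_cobounded.comp
        rw [← tendsto_norm_atTop_iff_cobounded]
        exact tendsto_atTop.2 fun R => (hinf R).mono fun k hk => hk.le
      have hres := loc_aux hX hσ h0 h1 h2 hdet 𝒰 hp (γ := K') h.diff'.continuous.continuousAt h.mem' hK' hv (by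
        filter_upwards [hu, hinf 0] with k hk hk0
        have hu0 : u k ≠ 0 := norm_pos_iff.1 hk0
        have hpow : (u k) ^ d ≠ 0 := pow_ne_zero _ hu0
        rw [h.rel _ hu0, lf_smul, lf_smul, lf_smul] at hk
        constructor
        · apply mul_left_cancel₀ hpow
          linear_combination hk.1
        · apply mul_left_cancel₀ hpow
          linear_combination hk.2)
      exact ⟨K', _, Or.inr rfl, hres.1, hv, hres.2⟩
  · have hv : Tendsto (fun _ : ℕ => (0 : ℂ)) 𝒰 (𝓝 0) := tendsto_const_nhds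
    have hres := loc_aux hX hσ h0 h1 h2 hdet 𝒰 hp (γ := K') h.diff'.continuous.continuousAt h.mem' hK' hv hB
    exact ⟨K', _, Or.inr rfl, hres.1, hv, hres.2⟩

end Pool.Agent.SG
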