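import Pool.Agent.UC.Defs
import Pool.Agent.SY.NBa
import Pool.Agent.H36.BP.Defs

/-!
# SG RPol: rational curves are given by polynomials
-/

set_option autoImplicit false

open Topology Filter Metric

namespace Pool.Agent.SG

open Pool.Agent.H36.BP (EN)
open Pool.Agent.UC (RatC)

variable {N : ℕ} {X : Set (EN N)}

/-- one coordinate -/
private theorem exists_poly_aux {d : ℕ} {f f' : ℂ → ℂ} (hf : Differentiable ℂ f) (hf' : Differentiable ℂ f')
    (hrel : ∀ z : ℂ, z ≠ 0 → f z = z ^ d * f' z⁻¹) :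
    ∃ p : Polynomial ℂ, p.natDegree ≤ d ∧ (∀ z, f z = p.eval z) ∧ ∀ w, f' w = (p.reflect d).eval w := by
  -- growth
  obtain ⟨B, hB⟩ := (isCompact_closedBall (0 : ℂ) 1).bddAbove_image (f := fun z => ‖f' z‖) hf'.continuous.norm.continuousOn
  obtain ⟨B', hB'⟩ := (isCompact_closedBall (0 : ℂ) 1).bddAbove_image (f := fun z => ‖f z‖) hf.continuous.norm.continuousOn
  have hB1 : ∀ z ∈ closedBall (0 : ℂ) 1, ‖f' z‖ ≤ B := fun z hz => hB ⟨z, hz, rfl⟩
  have hB2 : ∀ z ∈ closedBall (0 : ℂ) 1, ‖f z‖ ≤ B' := fun z hz => hB' ⟨z, hz, rfl⟩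
  have hB0 : 0 ≤ B := (norm_nonneg _).trans (hB1 0 (mem_closedBall_self zero_le_one))
  have hB0' : 0 ≤ B' := (norm_nonneg _).trans (hB2 0 (mem_closedBall_self zero_le_one))
  have hg : ∀ z, ‖f z‖ ≤ (B + B') * (1 + ‖z‖) ^ d := by
    intro z
    have h1 : (1 : ℝ) ≤ (1 + ‖z‖) ^ d := one_le_pow₀ (by linarith [norm_nonneg z])
    rcases le_or_gt ‖z‖ 1 with hz | hz
    · have h2 := hB2 z (mem_closedBall_zero_iff.2 hz)
      nlinarith
    · have hz0 : z ≠ 0 := norm_pos_iff.1 (by linarith)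
      have h2 : ‖f' z⁻¹‖ ≤ B := hB1 _ (by rw [mem_closedBall_zero_iff, norm_inv]; exact inv_le_one_of_one_le₀ hz.le)
      rw [hrel z hz0, norm_mul, norm_pow]
      have h3 : ‖z‖ ^ d ≤ (1 + ‖z‖) ^ d := pow_le_pow_left₀ (norm_nonneg _) (by linarith) d
      have h4 : ‖z‖ ^ d * ‖f' z⁻¹‖ ≤ (1 + ‖z‖) ^ d * B := mul_le_mul h3 h2 (norm_nonneg _) (by positivity)
      nlinarith
  obtain ⟨p, hp⟩ := Pool.Agent.SY.exists_poly_of_growth d f (B + B') hf hg
  -- the degree
  have hdeg : p.natDegree ≤ d := by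
    by_contra hlt
    push Not at hlt
    obtain ⟨m, hm⟩ : ∃ m, p.natDegree = d + (m + 1) := ⟨p.natDegree - d - 1, by omega⟩
    have h1 : ∀ w : ℂ, w ≠ 0 → p.reverse.eval w = w ^ (m + 1) * f' w := by
      intro w hw
      have h2 := hp w⁻¹
      rw [hrel _ (inv_ne_zero hw), inv_inv] at h2
      have h3 : p.reverse.eval w = w ^ p.natDegree * p.eval w⁻¹ := by
        let _ : Invertible w⁻¹ := invertibleOfNonzero (inv_ne_zero hw)
        have h4 := Polynomial.eval₂_reverse_mul_pow (RingHom.id ℂ) w⁻¹ p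
        rw [invOf_eq_inv, inv_inv, Polynomial.eval₂_id, Polynomial.eval₂_id] at h4
        rw [← h4, mul_comm, mul_assoc, ← mul_pow, inv_mul_cancel₀ hw, one_pow, mul_one]
      rw [h3, hm, ← h2, inv_pow, pow_add]
      field_simp
    have h2 : (fun w => p.reverse.eval w) = fun w => w ^ (m + 1) * f' w := by
      have hc1 : Continuous fun w => p.reverse.eval w := p.reverse.continuous
      have hc2 : Continuous fun w : ℂ => w ^ (m + 1) * f' w := (continuous_pow _).mul hf'.continuous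
      refine hc1.ext_on (s := {0}ᶜ) (dense_compl_singleton 0) hc2 fun w hw => h1 w hw
    have h3 := congrFun h2 0
    simp only [pow_succ, mul_zero, zero_mul] at h3
    rw [← Polynomial.coeff_zero_eq_eval_zero, Polynomial.coeff_zero_reverse, Polynomial.leadingCoeff_eq_zero] at h3
    rw [h3, Polynomial.natDegree_zero] at hm
    omega
  refine ⟨p, hdeg, hp, ?_⟩
  have h1 : ∀ w : ℂ, w ≠ 0 → f' w = (p.reflect d).eval w := by
    intro w hw
    have h2 := hp w⁻¹
    rw [hrel _ (inv_ne_zero hw), inv_inv] at h2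
    let _ : Invertible w⁻¹ := invertibleOfNonzero (inv_ne_zero hw)
    have h4 := Polynomial.eval₂_reflect_mul_pow (RingHom.id ℂ) w⁻¹ d p hdeg
    rw [invOf_eq_inv, inv_inv, Polynomial.eval₂_id, Polynomial.eval₂_id] at h4
    rw [← h4, mul_comm] at h2
    exact mul_right_cancel₀ (pow_ne_zero _ (inv_ne_zero hw)) h2
  have hc1 : Continuous fun w => (p.reflect d).eval w := (p.reflect d).continuous
  have h2 : f' = fun w => (p.reflect d).eval w := hf'.continuous.ext_on (s := {0}ᶜ) (dense_compl_singleton 0) hc1 fun w hw => h1 w hw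
  exact fun w => congrFun h2 w

/-- Rational curves are given by polynomials; both lifts. -/
theorem ratC_poly' {d : ℕ} {K K' : ℂ → EN N} (h : RatC X d K K') :
    ∃ p : Fin (N + 1) → Polynomial ℂ, (∀ i, (p i).natDegree ≤ d) ∧ (∀ z i, K z i = (p i).eval z) ∧
      (∀ w i, K' w i = ((p i).reflect d).eval w) ∧ ∀ i, K' 0 i = (p i).coeff d := by
  have h1 : ∀ i : Fin (N + 1), ∃ p : Polynomial ℂ, p.natDegree ≤ d ∧ (∀ z, K z i = p.eval z) ∧
      ∀ w, K' w i = (p.reflect d).eval w := by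
    intro i
    have hd : ∀ {G : ℂ → EN N}, Differentiable ℂ G → Differentiable ℂ fun z => G z i := by
      intro G hG
      exact (EuclideanSpace.proj (𝕜 := ℂ) i).differentiable.comp hG
    refine exists_poly_aux (hd h.diff) (hd h.diff') fun z hz => ?_
    rw [h.rel z hz]
    simp
  choose p hp1 hp2 hp3 using h1
  refine ⟨p, hp1, fun z i => hp2 i z, fun w i => hp3 i w, fun i => ?_⟩
  rw [hp3, ← Polynomial.coeff_zero_eq_eval_zero, Polynomial.coeff_reflect, Polynomial.revAt_zero]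

/-- A rational curve is given by polynomials of degree at most `d`. -/
theorem ratC_poly (_h0 : ∀ x ∈ X, x ≠ 0) {d : ℕ} {K K' : ℂ → EN N} (h : RatC X d K K') :
    ∃ p : Fin (N + 1) → Polynomial ℂ, (∀ i, (p i).natDegree ≤ d) ∧ (∀ z i, K z i = (p i).eval z) ∧ ∀ i, K' 0 i = (p i).coeff d := by
  obtain ⟨p, h1, h2, -, h3⟩ := ratC_poly' h
  exact ⟨p, h1, h2, h3⟩

end Pool.Agent.SG
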