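import Pool.Agent.UC.Defs
import Pool.Agent.SG.RDef

/-!
# SG RPrj: the choice of a projection to the plane

Finitely many proper subspaces of the space of the linear forms which vanish at `x` are avoided.
-/

set_option autoImplicit false

open Topology Filter Metric

noncomputable section

namespace Pool.Agent.SG

open Pool.Agent.H36.BP (EN)
open Pool.Agent.H17BP (Surface IsChart Pr)
open Pool.Agent.UC (RatC)

variable {N : ℕ} {X : Set (EN N)}

/-- every linear form has coefficients -/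
private theorem rprj_lf (φ : EN N →ₗ[ℂ] ℂ) : ∃ c : Fin (N + 1) → ℂ, ∀ x, lf c x = φ x := by
  refine ⟨fun i => φ (EuclideanSpace.single i 1), fun x => ?_⟩
  have h : x = ∑ i, x i • (EuclideanSpace.single i (1 : ℂ) : EN N) := by
    ext j
    simp [Pi.single_apply]
  conv_rhs => rw [h]
  rw [map_sum]
  refine Finset.sum_congr rfl fun i _ => ?_
  rw [map_smul, smul_eq_mul, mul_comm]

/-- a linear form which vanishes at `x` and at none of finitely many vectors which are not multiples of `x` -/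
private theorem rprj_avoid {V : Type} [AddCommGroup V] [Module ℂ V] (x : V) {ι : Type} [Finite ι] (v : ι → V)
    (hv : ∀ i, v i ∉ Submodule.span ℂ {x}) : ∃ φ : V →ₗ[ℂ] ℂ, φ x = 0 ∧ ∀ i, φ (v i) ≠ 0 := by
  obtain ⟨f, hf⟩ := Module.exists_dual_forall_apply_ne_zero (K := ℂ) (fun i => (Submodule.span ℂ {x}).mkQ (v i)) fun i h => hv i (by
    simpa using h)
  refine ⟨f ∘ₗ (Submodule.span ℂ {x}).mkQ, ?_, fun i => hf i⟩
  have : (Submodule.span ℂ {x}).mkQ x = 0 := by simp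
  rw [LinearMap.comp_apply, this, map_zero]

/-- the zeros of an entire function in the unit disc -/
private theorem rprj_zeros {f : ℂ → ℂ} (hf : Differentiable ℂ f) {u : ℂ} (hu : f u ≠ 0) : ({z | f z = 0} ∩ closedBall 0 1).Finite := by
  by_contra hinf
  obtain ⟨x, -, hx⟩ := Set.Infinite.exists_accPt_of_subset_isCompact hinf (isCompact_closedBall (0 : ℂ) 1) Set.inter_subset_right
  have h1 : ∃ᶠ z in 𝓝[≠] x, f z = (fun _ => (0 : ℂ)) z := (accPt_iff_frequently_nhdsNE.1 hx).mono fun z hz => hz.1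
  have h2 := AnalyticOnNhd.eq_of_frequently_eq (fun z _ => hf.analyticAt z) (fun z _ => analyticAt_const) h1
  exact hu (congrFun h2 u)

private theorem rprj_finite {f g : ℂ → ℂ} (hf : Differentiable ℂ f) (hg : Differentiable ℂ g) {d : ℕ}
    (h : ∀ z : ℂ, z ≠ 0 → f z = z ^ d * g z⁻¹) {u : ℂ} (hu : f u ≠ 0) : {z | f z = 0}.Finite := by
  have hg0 : ∃ w, g w ≠ 0 := by
    by_contra! hg0
    have h1 : ∃ᶠ z in 𝓝[≠] (0 : ℂ), f z = (fun _ => (0 : ℂ)) z := by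
      refine Eventually.frequently ?_
      filter_upwards [self_mem_nhdsWithin] with z hz
      rw [h z hz, hg0, mul_zero]
    exact hu (congrFun (AnalyticOnNhd.eq_of_frequently_eq (fun z _ => hf.analyticAt z) (fun z _ => analyticAt_const) h1) u)
  obtain ⟨w, hw⟩ := hg0
  refine ((rprj_zeros hf hu).union ((rprj_zeros hg hw).image fun z => z⁻¹)).subset fun z hz => ?_
  have hz' : f z = 0 := hz
  by_cases h1 : ‖z‖ ≤ 1
  · exact Or.inl ⟨hz, by simpa using h1⟩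
  · refine Or.inr ⟨z⁻¹, ⟨?_, ?_⟩, inv_inv z⟩
    · have h0 : z ≠ 0 := by
        rintro rfl
        simp at h1
      rw [h z h0] at hz'
      exact (mul_eq_zero.1 hz').resolve_left (pow_ne_zero _ h0)
    · rw [mem_closedBall_zero_iff, norm_inv]
      exact inv_le_one_of_one_le₀ (le_of_lt (not_le.1 h1))

/-- the derivative of `τ` is a left inverse of the derivative of `σ` -/
private theorem rprj_left {σ : ℂ × ℂ → EN N} {τ : EN N → ℂ × ℂ} (hσ : IsChart X σ τ) (w : ℂ × ℂ) :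
    fderiv ℂ τ (σ 0) (fderiv ℂ σ 0 w) = w := by
  have h1 : HasFDerivAt (fun p => τ (σ p)) ((fderiv ℂ τ (σ 0)).comp (fderiv ℂ σ 0)) 0 :=
    (hσ.τ_an.differentiableAt.hasFDerivAt).comp 0 hσ.σ_an.differentiableAt.hasFDerivAt
  have h2 : HasFDerivAt (fun p : ℂ × ℂ => p) ((fderiv ℂ τ (σ 0)).comp (fderiv ℂ σ 0)) 0 := h1.congr_of_eventuallyEq (hσ.left.mono fun p hp => hp.symm)
  have h3 := h2.unique (hasFDerivAt_id (𝕜 := ℂ) (0 : ℂ × ℂ))
  exact congrArg (fun L : (ℂ × ℂ) →L[ℂ] ℂ × ℂ => L w) h3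

private theorem rprj_radial {σ : ℂ × ℂ → EN N} {τ : EN N → ℂ × ℂ} (hσ : IsChart X σ τ) : fderiv ℂ τ (σ 0) (σ 0) = 0 := by
  have hc : HasDerivAt (fun c : ℂ => c • σ 0) (σ 0) 1 := by
    simpa using (hasDerivAt_id (1 : ℂ)).smul_const (σ 0)
  have hτ : HasFDerivAt τ (fderiv ℂ τ (σ 0)) ((fun c : ℂ => c • σ 0) 1) := by
    simpa using hσ.τ_an.differentiableAt.hasFDerivAt
  have h1 := hτ.comp_hasDerivAt (1 : ℂ) hc
  have ht : Tendsto (fun c : ℂ => (σ 0, c)) (𝓝 1) (𝓝 (σ 0, 1)) := tendsto_const_nhds.prodMk_nhds tendsto_id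
  have h2 : HasDerivAt (fun _ : ℂ => τ (σ 0)) (fderiv ℂ τ (σ 0) (σ 0)) 1 :=
    h1.congr_of_eventuallyEq ((ht.eventually hσ.inv).mono fun c hc => hc.symm)
  exact h2.unique (hasDerivAt_const _ _)

/-- MODULE RPrj: the choice of the projection to the plane.  Finitely many proper subspaces of the space of the linear forms which vanish at `x` are
avoided. -/
theorem exists_proj (hX : Surface X) {d : ℕ} {K K' : ℂ → EN N} (h : RatC X d K K') {σ : ℂ × ℂ → EN N} {τ : EN N → ℂ × ℂ} (hσ : IsChart X σ τ) :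
    ∃ l : Fin 3 → Fin (N + 1) → ℂ, lf (l 0) (σ 0) = 1 ∧ lf (l 1) (σ 0) = 0 ∧ lf (l 2) (σ 0) = 0 ∧
      lf (l 1) (fderiv ℂ σ 0 (1, 0)) * lf (l 2) (fderiv ℂ σ 0 (0, 1)) - lf (l 1) (fderiv ℂ σ 0 (0, 1)) * lf (l 2) (fderiv ℂ σ 0 (1, 0)) ≠ 0 ∧
      (∀ u, lf (l 1) (K u) = 0 → lf (l 2) (K u) = 0 → Pr (K u) (σ 0)) ∧ (lf (l 1) (K' 0) = 0 → lf (l 2) (K' 0) = 0 → Pr (K' 0) (σ 0)) := by
  classical
  set x := σ 0 with hx
  set v₁ := fderiv ℂ σ 0 (1, 0) with hv₁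
  set v₂ := fderiv ℂ σ 0 (0, 1) with hv₂
  have hpr : ∀ y ∈ X, y ∈ Submodule.span ℂ {x} → Pr y x := by
    intro y hy hy'
    obtain ⟨c, hc⟩ := Submodule.mem_span_singleton.1 hy'
    refine ⟨c, ?_, hc.symm⟩
    rintro rfl
    rw [zero_smul] at hc
    exact hX.zero (hc ▸ hy)
  have hD : ∀ y ∈ Submodule.span ℂ {x}, fderiv ℂ τ x y = 0 := by
    intro y hy
    obtain ⟨c, rfl⟩ := Submodule.mem_span_singleton.1 hy
    rw [map_smul, hx, rprj_radial hσ, smul_zero]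
  have hv₁' : v₁ ∉ Submodule.span ℂ {x} := by
    intro hy
    have h1 := hD _ hy
    rw [hx, hv₁, rprj_left hσ] at h1
    simp at h1
  -- the form `l 0`
  obtain ⟨φ₀, hφ₀⟩ : ∃ φ : EN N →ₗ[ℂ] ℂ, φ x = 1 := by
    obtain ⟨f, hf⟩ := Module.exists_dual_forall_apply_ne_zero (K := ℂ) (fun _ : Unit => x) fun _ => hσ.ne
    exact ⟨(f x)⁻¹ • f, by rw [LinearMap.smul_apply, smul_eq_mul, inv_mul_cancel₀ (hf ())]⟩
  -- the form `l 1`
  obtain ⟨u₀, hu₀⟩ : ∃ u₀ : ℂ, (∃ u, K u ∉ Submodule.span ℂ {x}) → K u₀ ∉ Submodule.span ℂ {x} := by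
    by_cases hu : ∃ u, K u ∉ Submodule.span ℂ {x}
    · obtain ⟨u, hu⟩ := hu
      exact ⟨u, fun _ => hu⟩
    · exact ⟨0, fun h => absurd h hu⟩
  obtain ⟨φ₁, hφ₁, hφ₁'⟩ := rprj_avoid x (fun i : Fin 3 => if i = 0 then v₁ else if i = 1 then (if K' 0 ∈ Submodule.span ℂ {x} then v₁ else K' 0)
      else if K u₀ ∈ Submodule.span ℂ {x} then v₁ else K u₀) (by
    intro i
    split_ifs with h1 h2 h3 h4
    · exact hv₁'
    · exact hv₁'
    · exact h3
    · exact hv₁'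
    · exact h4)
  have hφv : φ₁ v₁ ≠ 0 := by simpa using hφ₁' 0
  have hφK' : K' 0 ∉ Submodule.span ℂ {x} → φ₁ (K' 0) ≠ 0 := fun h1 => by simpa [h1] using hφ₁' 1
  have hφK : K u₀ ∉ Submodule.span ℂ {x} → φ₁ (K u₀) ≠ 0 := fun h1 => by simpa [h1] using hφ₁' 2
  -- the zeros
  have hfin : Finite {u : ℂ // φ₁ (K u) = 0 ∧ K u ∉ Submodule.span ℂ {x}} := by
    refine Set.Finite.to_subtype (s := {u : ℂ | φ₁ (K u) = 0 ∧ K u ∉ Submodule.span ℂ {x}}) ?_
    by_cases hu : ∃ u, K u ∉ Submodule.span ℂ {x}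
    · have hL : ∀ F : ℂ → EN N, Differentiable ℂ F → Differentiable ℂ fun z => φ₁ (F z) := fun F hF =>
        (LinearMap.toContinuousLinearMap φ₁).differentiable.comp hF
      refine (rprj_finite (hL K h.diff) (hL K' h.diff') (d := d) (fun z hz => ?_) (hφK (hu₀ hu))).subset fun u hu => hu.1
      rw [h.rel z hz, map_smul, smul_eq_mul]
    · refine Set.finite_empty.subset fun u hu' => (hu ⟨u, hu'.2⟩).elim
  -- the form `l 2`
  have hw : φ₁ v₁ • v₂ - φ₁ v₂ • v₁ ∉ Submodule.span ℂ {x} := by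
    intro hy
    have h1 := hD _ hy
    rw [map_sub, map_smul, map_smul, hx, hv₁, hv₂, rprj_left hσ, rprj_left hσ] at h1
    have h2 := congrArg Prod.snd h1
    simp only [Prod.snd_sub, Prod.smul_snd, smul_eq_mul, mul_one, mul_zero, sub_zero, Prod.snd_zero] at h2
    exact hφv h2
  obtain ⟨φ₂, hφ₂, hφ₂'⟩ := rprj_avoid x (fun i : Option {u : ℂ // φ₁ (K u) = 0 ∧ K u ∉ Submodule.span ℂ {x}} =>
      i.elim (φ₁ v₁ • v₂ - φ₁ v₂ • v₁) fun u => K u.1) (by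
    rintro (_ | u)
    · exact hw
    · exact u.2.2)
  obtain ⟨l₀, hl₀⟩ := rprj_lf φ₀
  obtain ⟨l₁, hl₁⟩ := rprj_lf φ₁
  obtain ⟨l₂, hl₂⟩ := rprj_lf φ₂
  refine ⟨![l₀, l₁, l₂], ?_, ?_, ?_, ?_, ?_, ?_⟩
  · simpa [hl₀] using hφ₀
  · simpa [hl₁] using hφ₁
  · simpa [hl₂] using hφ₂
  · have h1 : φ₂ (φ₁ v₁ • v₂ - φ₁ v₂ • v₁) ≠ 0 := hφ₂' none
    rw [map_sub, map_smul, map_smul, smul_eq_mul, smul_eq_mul] at h1
    simpa [hl₁, hl₂] using h1
  · intro u h1 h2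
    have h1' : φ₁ (K u) = 0 := by simpa [hl₁] using h1
    have h2' : φ₂ (K u) = 0 := by simpa [hl₂] using h2
    refine hpr _ (h.mem u) ?_
    by_contra h3
    exact hφ₂' (some ⟨u, h1', h3⟩) h2'
  · intro h1 h2
    have h1' : φ₁ (K' 0) = 0 := by simpa [hl₁] using h1
    refine hpr _ (h.mem' 0) ?_
    by_contra h3
    exact hφK' h3 h1'

end Pool.Agent.SG
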