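import Mathlib

/-!
# SG RSyl: the equation of a rational plane curve

The resultant of the polynomials `y₀ a₁ - y₁ a₀` and `y₀ a₂ - y₂ a₀`.
-/

set_option autoImplicit false

open Topology Filter Metric MvPolynomial

noncomputable section

namespace Pool.Agent.SG

/-- the minor -/
private def RSyl_mn (a : Fin 3 → Polynomial ℂ) (i : Fin 3) : Polynomial (MvPolynomial (Fin 3) ℂ) :=
  Polynomial.C (X 0) * (a i).map MvPolynomial.C - Polynomial.C (X i) * (a 0).map MvPolynomial.C

private theorem RSyl_coeff (a : Fin 3 → Polynomial ℂ) (i : Fin 3) (k : ℕ) : ((RSyl_mn a i).coeff k).IsHomogeneous 1 := by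
  unfold RSyl_mn
  rw [Polynomial.coeff_sub, Polynomial.coeff_C_mul, Polynomial.coeff_C_mul, Polynomial.coeff_map, Polynomial.coeff_map]
  refine MvPolynomial.IsHomogeneous.sub (R := ℂ) ?_ ?_
  · have h := (MvPolynomial.isHomogeneous_X ℂ (0 : Fin 3)).mul (MvPolynomial.isHomogeneous_C (Fin 3) ((a i).coeff k))
    rwa [add_zero] at h
  · have h := (MvPolynomial.isHomogeneous_X ℂ i).mul (MvPolynomial.isHomogeneous_C (Fin 3) ((a 0).coeff k))
    rwa [add_zero] at h

/-- the minor at a point -/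
private def RSyl_mnY (a : Fin 3 → Polynomial ℂ) (i : Fin 3) (y : Fin 3 → ℂ) : Polynomial ℂ :=
  Polynomial.C (y 0) * a i - Polynomial.C (y i) * a 0

private theorem RSyl_map (a : Fin 3 → Polynomial ℂ) (i : Fin 3) (y : Fin 3 → ℂ) :
    (RSyl_mn a i).map (MvPolynomial.eval y) = RSyl_mnY a i y := by
  unfold RSyl_mn RSyl_mnY
  have h : ∀ q : Polynomial ℂ, (q.map (MvPolynomial.C : ℂ →+* MvPolynomial (Fin 3) ℂ)).map (MvPolynomial.eval y) = q := by
    intro q
    rw [Polynomial.map_map]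
    have h1 : (MvPolynomial.eval y).comp (MvPolynomial.C : ℂ →+* MvPolynomial (Fin 3) ℂ) = RingHom.id ℂ := by
      ext x
      simp
    rw [h1, Polynomial.map_id]
  rw [Polynomial.map_sub, Polynomial.map_mul, Polynomial.map_mul, h, h, Polynomial.map_C, Polynomial.map_C, eval_X, eval_X]

private theorem RSyl_deg {d : ℕ} {a : Fin 3 → Polynomial ℂ} (ha : ∀ i, (a i).natDegree ≤ d) (i : Fin 3) (y : Fin 3 → ℂ) :
    (RSyl_mnY a i y).natDegree ≤ d := by
  unfold RSyl_mnY
  exact (Polynomial.natDegree_sub_le _ _).trans (max_le ((Polynomial.natDegree_C_mul_le _ _).trans (ha i))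
    ((Polynomial.natDegree_C_mul_le _ _).trans (ha 0)))

private theorem RSyl_eval (a : Fin 3 → Polynomial ℂ) (i : Fin 3) (y : Fin 3 → ℂ) (u : ℂ) :
    (RSyl_mnY a i y).eval u = 0 ↔ y 0 * (a i).eval u = y i * (a 0).eval u := by
  simp only [RSyl_mnY, Polynomial.eval_sub, Polynomial.eval_mul, Polynomial.eval_C, sub_eq_zero]

private theorem RSyl_coeffY (a : Fin 3 → Polynomial ℂ) (i : Fin 3) (y : Fin 3 → ℂ) (k : ℕ) :
    (RSyl_mnY a i y).coeff k = 0 ↔ y 0 * (a i).coeff k = y i * (a 0).coeff k := by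
  simp only [RSyl_mnY, Polynomial.coeff_sub, Polynomial.coeff_C_mul, sub_eq_zero]

/-- the determinant of a matrix of forms of degree one -/
private theorem RSyl_det {n : ℕ} (M : Matrix (Fin n) (Fin n) (MvPolynomial (Fin 3) ℂ)) (h : ∀ i j, (M i j).IsHomogeneous 1) :
    M.det.IsHomogeneous n := by
  rw [Matrix.det_apply]
  refine MvPolynomial.IsHomogeneous.sum _ _ _ fun σ _ => ?_
  have h1 : (∏ i, M (σ i) i).IsHomogeneous (∑ _i : Fin n, 1) := MvPolynomial.IsHomogeneous.prod _ _ _ fun i _ => h _ _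
  rw [Finset.sum_const, Finset.card_univ, Fintype.card_fin, smul_eq_mul, mul_one] at h1
  rcases Int.units_eq_one_or (Equiv.Perm.sign σ) with h2 | h2
  · rw [h2, one_smul]
    exact h1
  · rw [h2, Units.neg_smul, one_smul]
    exact h1.neg

private theorem RSyl_homog {d : ℕ} {f g : Polynomial (MvPolynomial (Fin 3) ℂ)} (hf : ∀ k, (f.coeff k).IsHomogeneous 1)
    (hg : ∀ k, (g.coeff k).IsHomogeneous 1) : (Polynomial.resultant f g d d).IsHomogeneous (2 * d) := by
  rw [two_mul]
  unfold Polynomial.resultant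
  refine RSyl_det _ fun i j => ?_
  induction j using Fin.addCases with
  | left j =>
    simp only [Polynomial.sylvester, Matrix.of_apply, Fin.addCases_left]
    split_ifs
    · exact hg _
    · exact MvPolynomial.isHomogeneous_zero _ _ _
  | right j =>
    simp only [Polynomial.sylvester, Matrix.of_apply, Fin.addCases_right]
    split_ifs
    · exact hf _
    · exact MvPolynomial.isHomogeneous_zero _ _ _

/-- a common root, from the vanishing of the resultant -/
private theorem RSyl_root {d : ℕ} (hd : 1 ≤ d) {f g : Polynomial ℂ} (hf : f.natDegree = d) (hg : g.natDegree ≤ d)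
    (h : Polynomial.resultant f g d d = 0) : ∃ z, f.eval z = 0 ∧ g.eval z = 0 := by
  have h1 := Polynomial.resultant_eq_prod_eval f g d hg (IsAlgClosed.splits f)
  rw [hf, h] at h1
  have hf0 : f ≠ 0 := by
    rintro rfl
    rw [Polynomial.natDegree_zero] at hf
    omega
  have h2 : (f.roots.map fun z => g.eval z).prod = 0 := by
    rcases mul_eq_zero.1 h1.symm with h3 | h3
    · exact absurd h3 (pow_ne_zero _ (Polynomial.leadingCoeff_ne_zero.2 hf0))
    · exact h3
  obtain ⟨z, hz, hz2⟩ := Multiset.mem_map.1 (Multiset.prod_eq_zero_iff.1 h2)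
  exact ⟨z, (Polynomial.mem_roots hf0).1 hz, hz2⟩

/-- **The equation of a rational plane curve.** -/
theorem exists_det {d : ℕ} (hd : 1 ≤ d) (a : Fin 3 → Polynomial ℂ) (ha : ∀ i, (a i).natDegree ≤ d) :
    ∃ G : MvPolynomial (Fin 3) ℂ, G.IsHomogeneous (2 * d) ∧ ∀ y : Fin 3 → ℂ, eval y G = 0 ↔
      (∃ u : ℂ, y 0 * (a 1).eval u = y 1 * (a 0).eval u ∧ y 0 * (a 2).eval u = y 2 * (a 0).eval u) ∨
      (y 0 * (a 1).coeff d = y 1 * (a 0).coeff d ∧ y 0 * (a 2).coeff d = y 2 * (a 0).coeff d) := by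
  refine ⟨Polynomial.resultant (RSyl_mn a 1) (RSyl_mn a 2) d d, RSyl_homog (RSyl_coeff a 1) (RSyl_coeff a 2), fun y => ?_⟩
  have h1 : MvPolynomial.eval y (Polynomial.resultant (RSyl_mn a 1) (RSyl_mn a 2) d d) =
      Polynomial.resultant (RSyl_mnY a 1 y) (RSyl_mnY a 2 y) d d := by
    rw [← Polynomial.resultant_map_map, RSyl_map, RSyl_map]
  rw [h1]
  constructor
  · intro h
    by_cases hb : (RSyl_mnY a 1 y).natDegree = d
    · obtain ⟨z, h2, h3⟩ := RSyl_root hd hb (RSyl_deg ha 2 y) h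
      exact Or.inl ⟨z, (RSyl_eval a 1 y z).1 h2, (RSyl_eval a 2 y z).1 h3⟩
    · by_cases hc : (RSyl_mnY a 2 y).natDegree = d
      · have h4 := h
        rw [Polynomial.resultant_comm] at h4
        have h5 := (mul_eq_zero.1 h4).resolve_left (pow_ne_zero _ (neg_ne_zero.2 one_ne_zero))
        obtain ⟨z, h2, h3⟩ := RSyl_root hd hc (RSyl_deg ha 1 y) h5
        exact Or.inl ⟨z, (RSyl_eval a 1 y z).1 h3, (RSyl_eval a 2 y z).1 h2⟩
      · have h2 := Polynomial.coeff_eq_zero_of_natDegree_lt (lt_of_le_of_ne (RSyl_deg ha 1 y) hb)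
        have h3 := Polynomial.coeff_eq_zero_of_natDegree_lt (lt_of_le_of_ne (RSyl_deg ha 2 y) hc)
        exact Or.inr ⟨(RSyl_coeffY a 1 y d).1 h2, (RSyl_coeffY a 2 y d).1 h3⟩
  · rintro (⟨z, h2, h3⟩ | ⟨h2, h3⟩)
    · obtain ⟨u, v, -, -, huv⟩ := Polynomial.exists_mul_add_mul_eq_C_resultant (RSyl_mnY a 1 y) (RSyl_mnY a 2 y)
        (RSyl_deg ha 1 y) (RSyl_deg ha 2 y) (Or.inl (by omega : d ≠ 0))
      have h4 := congrArg (fun q : Polynomial ℂ => q.eval z) huv
      simp only [Polynomial.eval_add, Polynomial.eval_mul, Polynomial.eval_C] at h4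
      rw [← h4, (RSyl_eval a 1 y z).2 h2, (RSyl_eval a 2 y z).2 h3, zero_mul, zero_mul, add_zero]
    · have hlt : ∀ {f : Polynomial ℂ}, f.natDegree ≤ d → f.coeff d = 0 → f.natDegree < d := by
        intro f hf h0
        refine lt_of_le_of_ne hf fun he => ?_
        have h5 : f.leadingCoeff = 0 := by
          rw [Polynomial.leadingCoeff, he]
          exact h0
        rw [Polynomial.leadingCoeff_eq_zero.1 h5, Polynomial.natDegree_zero] at he
        omega
      exact Polynomial.resultant_eq_zero_of_lt_lt _ _ _ _ (hlt (RSyl_deg ha 1 y) ((RSyl_coeffY a 1 y d).2 h2))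
        (hlt (RSyl_deg ha 2 y) ((RSyl_coeffY a 2 y d).2 h3))

end Pool.Agent.SG
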