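import Pool.Agent.SG.RatF
import Pool.Agent.SG.RPol
import Pool.Agent.SG.RSyl
import Pool.Agent.SG.RPrj
import Pool.Agent.SG.RLoc
import Pool.Agent.SG.RSec
import Pool.Agent.SG.RDef

/-!
# SG RX: the rational curves lie in one curve which has no secants near a non-null direction
-/

set_option autoImplicit false

open Topology Filter Metric MvPolynomial

noncomputable section

namespace Pool.Agent.SG

open Pool.Agent.H36.BP (EN)
open Pool.Agent.H14.PP (IsCone)
open Pool.Agent.H17BP (Surface IsChart Pr)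
open Pool.Agent.H22.W (PseudoLength)
open Pool.Agent.H17EF (coneE)
open Pool.Agent.H17LG.Variety (FunField)
open Pool.Agent.H62.FC (Homog)
open Pool.Agent.UC (RatC)
open Pool.Agent.SY (NullIn)

variable {N : ℕ}

/-- the two ends of a rational curve play the same role -/
theorem ratC_symm {V : Type} [NormedAddCommGroup V] [NormedSpace ℂ V] {X : Set V} {d : ℕ} {K K' : ℂ → V} (h : RatC X d K K') :
    RatC X d K' K := by
  refine ⟨h.diff', h.diff, h.mem', h.mem, fun z hz => ?_⟩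
  rw [h.rel z⁻¹ (inv_ne_zero hz), inv_inv, smul_smul, ← mul_pow, mul_inv_cancel₀ hz, one_pow, one_smul]

/-- the linear form as a polynomial -/
private def linR (c : Fin (N + 1) → ℂ) : MvPolynomial (Fin (N + 1)) ℂ := ∑ i, C (c i) * X i

private theorem linR_homog (c : Fin (N + 1) → ℂ) : (linR c).IsHomogeneous 1 := by
  refine IsHomogeneous.sum _ _ _ fun i _ => ?_
  have := (isHomogeneous_C (Fin (N + 1)) (c i)).mul (isHomogeneous_X ℂ i)
  rwa [zero_add] at this

private theorem eval_linR (c : Fin (N + 1) → ℂ) (x : EN N) : eval x.ofLp (linR c) = lf c x := by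
  unfold linR lf
  rw [map_sum]
  refine Finset.sum_congr rfl fun i _ => ?_
  rw [map_mul, eval_C, eval_X]

/-- one rational curve -/
theorem exists_form_one {P : Ideal (MvPolynomial (Fin (N + 1)) ℂ)} (hX : Surface (coneE P)) (hc : IsCone (coneE P)) (n : PseudoLength (coneE P))
    {d : ℕ} (hd : 1 ≤ d) {K K' : ℂ → EN N} (h : RatC (coneE P) d K K') {σ : ℂ × ℂ → EN N} {τ : EN N → ℂ × ℂ} (hσ : IsChart (coneE P) σ τ)
    (hn : n.toFun (σ 0) (fderiv ℂ σ 0 (1, 0)) ≠ 0) :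
    ∃ (G : MvPolynomial (Fin (N + 1)) ℂ) (e : ℕ), G.IsHomogeneous e ∧ (∀ z, eval (K z).ofLp G = 0) ∧
      ∀ᶠ p in 𝓝 (0 : ℂ × ℂ), eval (σ (p.1, p.1 * p.2)).ofLp G = 0 → p.1 = 0 := by
  obtain ⟨q, hq, hqK, hqK'⟩ := ratC_poly (fun x hx => fun h0 => hc.zero_notMem (h0 ▸ hx)) h
  obtain ⟨l, hl0, hl1, hl2, hdet, hlK, hlK'⟩ := exists_proj hX h hσ
  set a : Fin 3 → Polynomial ℂ := fun i => ∑ j, Polynomial.C (l i j) * q j with ha
  have had : ∀ i, (a i).natDegree ≤ d := by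
    intro i
    refine Polynomial.natDegree_sum_le_of_forall_le _ _ fun j _ => ?_
    exact (Polynomial.natDegree_C_mul_le _ _).trans (hq j)
  have hae : ∀ i u, (a i).eval u = lf (l i) (K u) := by
    intro i u
    rw [ha]
    simp only [Polynomial.eval_finsetSum, Polynomial.eval_mul, Polynomial.eval_C]
    unfold lf
    exact Finset.sum_congr rfl fun j _ => by rw [hqK u j]
  have hac : ∀ i, (a i).coeff d = lf (l i) (K' 0) := by
    intro i
    rw [ha]
    simp only [Polynomial.finsetSum_coeff, Polynomial.coeff_C_mul]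
    unfold lf
    exact Finset.sum_congr rfl fun j _ => by rw [hqK' j]
  obtain ⟨G₃, hG₃, hG₃e⟩ := exists_det hd a had
  set G : MvPolynomial (Fin (N + 1)) ℂ := bind₁ (fun i => linR (l i)) G₃ with hG
  have hGe : ∀ x : EN N, eval x.ofLp G = eval (fun i => lf (l i) x) G₃ := by
    intro x
    rw [hG, ← MvPolynomial.coe_aeval_eq_eval, ← MvPolynomial.coe_aeval_eq_eval]
    simp only [RingHom.coe_coe]
    rw [aeval_bind₁]
    congr 2
    funext i
    have := eval_linR (l i) x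
    rwa [← MvPolynomial.coe_aeval_eq_eval] at this
  refine ⟨G, 2 * d, ?_, ?_, ?_⟩
  · have := hG₃.aeval (fun i => linR (l i)) (fun i => linR_homog (l i))
    rwa [one_mul] at this
  · intro z
    rw [hGe, hG₃e]
    left
    refine ⟨z, ?_, ?_⟩
    · rw [hae, hae]
      ring
    · rw [hae, hae]
      ring
  · by_contra hcon
    have hseq : ∀ k : ℕ, ∃ p : ℂ × ℂ, ‖p‖ < 1 / ((k : ℝ) + 1) ∧ eval (σ (p.1, p.1 * p.2)).ofLp G = 0 ∧ p.1 ≠ 0 := by
      intro k
      have hk : (0 : ℝ) < 1 / ((k : ℝ) + 1) := by positivity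
      have h2 : ∀ᶠ p in 𝓝 (0 : ℂ × ℂ), ‖p‖ < 1 / ((k : ℝ) + 1) := by
        filter_upwards [ball_mem_nhds (0 : ℂ × ℂ) hk] with p hp
        rwa [mem_ball_zero_iff] at hp
      obtain ⟨p, hp1, hp2⟩ := ((Filter.not_eventually.1 hcon).and_eventually h2).exists
      push Not at hp1
      exact ⟨p, hp2, hp1.1, hp1.2⟩
    choose p hp1 hp2 hp3 using hseq
    set 𝒰 : Ultrafilter ℕ := hyperfilter ℕ with h𝒰
    have hle : (𝒰 : Filter ℕ) ≤ atTop := Nat.hyperfilter_le_atTop
    have hinv : Tendsto (fun k : ℕ => 1 / ((k : ℝ) + 1)) 𝒰 (𝓝 0) := tendsto_one_div_add_atTop_nhds_zero_nat.mono_left hle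
    have hpt : Tendsto p 𝒰 (𝓝 0) := squeeze_zero_norm (fun k => (hp1 k).le) hinv
    have hs : Tendsto (fun k => (p k).1) 𝒰 (𝓝 0) := (continuous_fst.tendsto (0 : ℂ × ℂ)).comp hpt
    have ht : Tendsto (fun k => (p k).2) 𝒰 (𝓝 0) := (continuous_snd.tendsto (0 : ℂ × ℂ)).comp hpt
    have hqt : Tendsto (fun k => ((p k).1, (p k).1 * (p k).2)) 𝒰 (𝓝 (0 : ℂ × ℂ)) := by
      have := hs.prodMk_nhds (hs.mul ht)
      rwa [mul_zero] at this
    obtain ⟨γ, v, hγ, hγ0, hv, hγp⟩ := loc_curve hX hd h hσ hl0 hl1 hl2 hdet hlK hlK' 𝒰 hqt (by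
      refine Eventually.of_forall fun k => ?_
      have h3 := hp2 k
      rw [hGe, hG₃e] at h3
      simp only [hae, hac] at h3
      exact h3)
    refine hn (sec_curve hX n (γ := γ) ?_ ?_ ?_ hσ hγ0 𝒰 hs ht hv (Eventually.of_forall hp3) hγp)
    · rcases hγ with ⟨u₀, rfl⟩ | rfl
      · exact (h.diff.comp ((differentiable_const _).add differentiable_id)).analyticAt 0
      · exact h.diff'.analyticAt 0
    · rcases hγ with ⟨u₀, rfl⟩ | rfl
      · exact Eventually.of_forall fun z => h.mem _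
      · exact Eventually.of_forall fun z => h.mem' _
    · rcases hγ with ⟨u₀, rfl⟩ | rfl
      · refine Eventually.of_forall fun z => ?_
        have h4 := rat_null hc n h (u₀ + z)
        rwa [deriv_comp_const_add]
      · exact Eventually.of_forall fun z => rat_null hc n (ratC_symm h) z

/-- The rational curves lie in one curve `{G = 0}`, which has no secants near the direction of the first axis. -/
theorem exists_form {P : Ideal (MvPolynomial (Fin (N + 1)) ℂ)} [P.IsPrime] {z : Fin 2 → FunField P} (hP : Homog P) (hz : IsTranscendenceBasis ℂ z)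
    (hX : Surface (coneE P)) (hc : IsCone (coneE P)) (n : PseudoLength (coneE P)) {R : MvPolynomial (Fin (N + 1)) ℂ} {e : ℕ}
    (hR : R.IsHomogeneous e) (hRP : R ∉ P) (hN : NullIn P n R) {σ : ℂ × ℂ → EN N} {τ : EN N → ℂ × ℂ} (hσ : IsChart (coneE P) σ τ)
    (hn : n.toFun (σ 0) (fderiv ℂ σ 0 (1, 0)) ≠ 0) :
    ∃ (G : MvPolynomial (Fin (N + 1)) ℂ) (a : ℕ), G.IsHomogeneous a ∧
      (∀ (d : ℕ) (K K' : ℂ → EN N), 1 ≤ d → RatC (coneE P) d K K' → ∀ z, eval (K z).ofLp G = 0) ∧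
      ∀ᶠ p in 𝓝 (0 : ℂ × ℂ), eval (σ (p.1, p.1 * p.2)).ofLp G = 0 → p.1 = 0 := by
  obtain ⟨r, d, K, K', hK, hfin⟩ := finite_rat hP hz hc n hR hRP hN
  choose G a hG hGK hGe using fun i => exists_form_one hX hc n (hK i).1 (hK i).2 hσ hn
  refine ⟨∏ i, G i, ∑ i, a i, IsHomogeneous.prod _ _ _ fun i _ => hG i, ?_, ?_⟩
  · intro d₁ K₁ K₁' hd₁ hK₁ w
    obtain ⟨i, hi⟩ := hfin d₁ K₁ K₁' hd₁ hK₁
    rw [map_prod]
    exact Finset.prod_eq_zero (Finset.mem_univ i) ((hi (G i) (a i) (hG i)).1 (hGK i) w)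
  · have h1 : ∀ᶠ p in 𝓝 (0 : ℂ × ℂ), ∀ i, eval (σ (p.1, p.1 * p.2)).ofLp (G i) = 0 → p.1 = 0 := eventually_all.2 hGe
    filter_upwards [h1] with p hp h2
    rw [map_prod, Finset.prod_eq_zero_iff] at h2
    obtain ⟨i, -, hi⟩ := h2
    exact hp i hi

end Pool.Agent.SG
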