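import Pool.Agent.H36.TB.Defs
import Pool.Agent.H17BP.Conv
import Pool.Agent.H17BP.BlowM

/-!
# SG Tot: the total transform near a point of the exceptional curve

`total_exc`: if `T` has no points in a small cone around the first axis of the chart `σ` at `q`, then the total transform of `T` is, near the point of
the exceptional curve which corresponds to the first axis, the exceptional curve `{p.1 = 0}`.
`lin_cone`: the hyperplane `l = 0`.
-/

set_option autoImplicit false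

open Topology Filter Metric

noncomputable section

namespace Pool.Agent.SG

open Pool.Agent.H17BP (Surface IsChart Eqs Pr surface_iff)
open Pool.Agent.H62.BU (blow total Ker phi)

variable {V : Type} [NormedAddCommGroup V] [NormedSpace ℂ V] {X T : Set V}

/-- the blow-up in coordinates tends to the base point -/
private theorem tot_tendsto : Tendsto (fun p : ℂ × ℂ => (p.1, p.1 * p.2)) (𝓝 0) (𝓝 0) := by
  have h : Continuous fun p : ℂ × ℂ => (p.1, p.1 * p.2) := by fun_prop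
  have h1 := h.tendsto 0
  have h2 : (((0 : ℂ × ℂ).1, (0 : ℂ × ℂ).1 * (0 : ℂ × ℂ).2) : ℂ × ℂ) = 0 := by simp
  rwa [h2] at h1

/-- a linear form which is not zero on the axis -/
theorem lin_cone {σ : ℂ × ℂ → V} (hσ : AnalyticAt ℂ σ 0) {l : V →L[ℂ] ℂ} (h0 : l (σ 0) = 0) (h1 : l (fderiv ℂ σ 0 (1, 0)) ≠ 0) :
    ∃ ε : ℝ, 0 < ε ∧ ∀ᶠ p in 𝓝 (0 : ℂ × ℂ), ‖p.2‖ < ε * ‖p.1‖ → l (σ p) ≠ 0 := by
  obtain ⟨A, hA⟩ : ∃ A : ℂ × ℂ →L[ℂ] ℂ, A = l.comp (fderiv ℂ σ 0) := ⟨_, rfl⟩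
  have hd : HasFDerivAt (fun p => l (σ p)) A 0 := by
    rw [hA]
    exact l.hasFDerivAt.comp (0 : ℂ × ℂ) hσ.differentiableAt.hasFDerivAt
  have h1' : 0 < ‖A (1, 0)‖ := by
    rw [hA]
    exact norm_pos_iff.2 h1
  set a : ℝ := ‖A (1, 0)‖ with ha
  have hε : 0 < min 1 (a / (4 * (‖A‖ + 1))) := lt_min one_pos (by positivity)
  refine ⟨min 1 (a / (4 * (‖A‖ + 1))), hε, ?_⟩
  have h2 : ∀ᶠ p in 𝓝 (0 : ℂ × ℂ), ‖l (σ p) - A p‖ ≤ a / 4 * ‖p‖ := by
    have h3 := hd.isLittleO.def (show 0 < a / 4 by positivity)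
    filter_upwards [h3] with p hp
    simpa [h0] using hp
  filter_upwards [h2] with p hp hp2 hp3
  have h4 : ‖p.2‖ < ‖p.1‖ := by
    have h5 : min 1 (a / (4 * (‖A‖ + 1))) * ‖p.1‖ ≤ 1 * ‖p.1‖ := mul_le_mul_of_nonneg_right (min_le_left _ _) (norm_nonneg _)
    linarith
  have h5 : ‖p‖ = ‖p.1‖ := by
    rw [Prod.norm_def]
    exact max_eq_left h4.le
  rw [hp3, zero_sub, norm_neg, h5] at hp
  have h6 : p = p.1 • ((1 : ℂ), (0 : ℂ)) + ((0 : ℂ), p.2) := by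
    ext <;> simp
  have h7 : A p = p.1 • A (1, 0) + A (0, p.2) := by
    conv_lhs => rw [h6]
    rw [map_add, map_smul]
  have h8 : ‖A (0, p.2)‖ ≤ ‖A‖ * ‖p.2‖ := by
    refine (A.le_opNorm _).trans_eq ?_
    rw [Prod.norm_def]
    simp
  have h9 : ‖A‖ * ‖p.2‖ ≤ a / 4 * ‖p.1‖ := by
    have h10 : ‖p.2‖ ≤ a / (4 * (‖A‖ + 1)) * ‖p.1‖ :=
      hp2.le.trans (mul_le_mul_of_nonneg_right (min_le_right _ _) (norm_nonneg _))
    have h11 : 0 ≤ ‖A‖ := norm_nonneg _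
    calc ‖A‖ * ‖p.2‖ ≤ (‖A‖ + 1) * (a / (4 * (‖A‖ + 1)) * ‖p.1‖) := by
          refine mul_le_mul (by linarith) h10 (norm_nonneg _) (by positivity)
      _ = a / 4 * ‖p.1‖ := by
          field_simp
  have h12 : ‖p.1 • A (1, 0)‖ = ‖p.1‖ * a := norm_smul _ _
  have h13 : ‖p.1 • A (1, 0)‖ ≤ ‖A p‖ + ‖A (0, p.2)‖ := by
    have : p.1 • A (1, 0) = A p - A (0, p.2) := by rw [h7, add_sub_cancel_right]
    rw [this]
    exact norm_sub_le _ _
  have h14 : 0 < ‖p.1‖ := (norm_nonneg _).trans_lt h4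
  nlinarith

variable {ι : Type} [Fintype ι] {l : ι → V →L[ℂ] ℂ}

/-- **The total transform near the point of the exceptional curve.** -/
theorem total_exc [FiniteDimensional ℂ V] (hX : Surface X) (hT : ∀ x ∈ T, ∀ c : ℂ, c ≠ 0 → c • x ∈ T) {σ : ℂ × ℂ → V} {τ : V → ℂ × ℂ} (hσ : IsChart X σ τ)
    (hq : σ 0 ∈ T) {σ₁ : ℂ × ℂ → ι → V} {τ₁ : (ι → V) → ℂ × ℂ} (hσ₁ : IsChart (blow l X) σ₁ τ₁)
    (he : ∀ᶠ p in 𝓝 (0 : ℂ × ℂ), phi l (σ (p.1, p.1 * p.2)) = p.1 • σ₁ p) {ε : ℝ} (hε : 0 < ε)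
    (hs : ∀ᶠ p in 𝓝 (0 : ℂ × ℂ), ‖p.2‖ < ε * ‖p.1‖ → σ p ∉ T) :
    ∀ᶠ p in 𝓝 (0 : ℂ × ℂ), (σ₁ p ∈ total l X T ↔ p.1 = 0) := by
  have hX' := surface_iff.2 hX
  have : CompleteSpace V := FiniteDimensional.complete ℂ V
  -- a linear form with value one at the base point
  obtain ⟨f, hf⟩ : ∃ f : V →L[ℂ] ℂ, f (σ 0) ≠ 0 := by
    obtain ⟨g, hg⟩ := SeparatingDual.exists_ne_zero (R := ℂ) hσ.ne
    exact ⟨g, hg⟩
  have hfσ : ∀ᶠ p in 𝓝 (0 : ℂ × ℂ), f (σ (p.1, p.1 * p.2)) ≠ 0 := by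
    have h1 : ContinuousAt (fun p => f (σ p)) 0 := f.continuous.continuousAt.comp hσ.σ_an.continuousAt
    exact tot_tendsto.eventually (h1.eventually_ne hf)
  have hcont : ∀ᶠ p in 𝓝 (0 : ℂ × ℂ), AnalyticAt ℂ σ (p.1, p.1 * p.2) := tot_tendsto.eventually hσ.σ_an.eventually_analyticAt
  have h2 : ∀ᶠ p in 𝓝 (0 : ℂ × ℂ), ‖p.2‖ < ε := by
    have h3 : Tendsto (fun p : ℂ × ℂ => ‖p.2‖) (𝓝 0) (𝓝 0) := by
      have : Continuous fun p : ℂ × ℂ => ‖p.2‖ := by fun_prop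
      simpa using this.tendsto 0
    exact h3.eventually (gt_mem_nhds hε)
  filter_upwards [he.eventually_nhds, hσ₁.σ_mem, hσ₁.σ_an.eventually_analyticAt, hfσ.eventually_nhds, hcont, h2, tot_tendsto.eventually hs] with p g1 g2 g3 g4
    g5 g6 g7
  constructor
  · intro h3
    by_contra hp
    have h4 : 0 < ‖p.1‖ := norm_pos_iff.2 hp
    refine g7 ?_ ?_
    · rw [norm_mul, mul_comm]
      exact mul_lt_mul_of_pos_right g6 h4
    · have h5 := g1.self_of_nhds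
      obtain ⟨b, hb⟩ := Pool.Agent.H62.BU.exists_ne (σ₁ p) g2
      have h6 : l b (σ (p.1, p.1 * p.2)) • σ (p.1, p.1 * p.2) = p.1 • σ₁ p b := congrFun h5 b
      have h7 : σ₁ p b ∈ T := h3.2 b hb
      have h8 : l b (σ (p.1, p.1 * p.2)) ≠ 0 := by
        intro h9
        rw [h9, zero_smul] at h6
        rcases smul_eq_zero.1 h6.symm with h10 | h10
        · exact hp h10
        · exact hb h10
      have h9 : σ (p.1, p.1 * p.2) = ((l b (σ (p.1, p.1 * p.2)))⁻¹ * p.1) • σ₁ p b := by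
        rw [mul_smul, ← h6, smul_smul, inv_mul_cancel₀ h8, one_smul]
      rw [h9]
      exact hT _ h7 _ (mul_ne_zero (inv_ne_zero h8) hp)
  · intro hp
    refine ⟨g2, fun b hb => ?_⟩
    -- the curve s ↦ (p.1 + s, p.2)
    have h3 : Tendsto (fun s : ℂ => (s, p.2)) (𝓝[≠] 0) (𝓝 p) := by
      have h4 : Continuous fun s : ℂ => (s, p.2) := by fun_prop
      have h5 := h4.tendsto 0
      have h6 : ((0 : ℂ), p.2) = p := by rw [← hp]
      rw [h6] at h5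
      exact h5.mono_left nhdsWithin_le_nhds
    have h4 : ∀ᶠ s in 𝓝[≠] (0 : ℂ), σ₁ (s, p.2) b = (f (σ₁ (s, p.2) b) / f (σ (s, s * p.2))) • σ (s, s * p.2) := by
      filter_upwards [h3.eventually g1, h3.eventually g4, self_mem_nhdsWithin] with s k1 k2 k3
      have k4 : l b (σ (s, s * p.2)) • σ (s, s * p.2) = s • σ₁ (s, p.2) b := congrFun k1 b
      have k3' : s ≠ 0 := k3
      have k5 : σ₁ (s, p.2) b = (s⁻¹ * l b (σ (s, s * p.2))) • σ (s, s * p.2) := by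
        rw [mul_smul, k4, smul_smul, inv_mul_cancel₀ k3', one_smul]
      rw [k5, map_smul, smul_eq_mul, mul_div_cancel_right₀ _ k2]
    have h5 : Tendsto (fun s : ℂ => σ₁ (s, p.2) b) (𝓝[≠] 0) (𝓝 (σ₁ p b)) :=
      ((continuous_apply b).tendsto _).comp (g3.continuousAt.tendsto.comp h3)
    have h6 : Tendsto (fun s : ℂ => σ (s, s * p.2)) (𝓝[≠] 0) (𝓝 (σ 0)) := by
      have h7 : Tendsto (fun s : ℂ => (s, s * p.2)) (𝓝[≠] 0) (𝓝 (p.1, p.1 * p.2)) := by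
        have h8 : Continuous fun s : ℂ => (s, s * p.2) := by fun_prop
        have h9 := h8.tendsto 0
        rw [hp]
        exact h9.mono_left nhdsWithin_le_nhds
      have h8 := g5.continuousAt.tendsto.comp h7
      rw [hp, zero_mul] at h8
      exact h8
    have h7 : Tendsto (fun s : ℂ => (f (σ₁ (s, p.2) b) / f (σ (s, s * p.2))) • σ (s, s * p.2)) (𝓝[≠] 0)
        (𝓝 ((f (σ₁ p b) / f (σ 0)) • σ 0)) :=
      (((f.continuous.tendsto _).comp h5).div ((f.continuous.tendsto _).comp h6) hf).smul h6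
    have h8 : σ₁ p b = (f (σ₁ p b) / f (σ 0)) • σ 0 := tendsto_nhds_unique h5 (h7.congr' (h4.mono fun s hs => hs.symm))
    have h9 : f (σ₁ p b) / f (σ 0) ≠ 0 := by
      intro h10
      rw [h10, zero_smul] at h8
      exact hb h8
    rw [h8]
    exact hT _ hq _ h9

end Pool.Agent.SG
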