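import Pool.Agent.H90.SG.Poly
import Pool.Agent.SG.BuC
import Pool.Agent.SG.Tot
import Pool.Agent.SG.RX
import Pool.Agent.SG.RSec

/-!
# SG Can: the choice of the curve `T = {G * l = 0}` at a point of the surface
-/

set_option autoImplicit false

open Topology Filter Metric MvPolynomial

noncomputable section

namespace Pool.Agent.SG

open Pool.Agent.H36.BP (EN fs OrdTwo)
open Pool.Agent.H14.PP (IsCone CurveAt)
open Pool.Agent.H17BP (Surface IsForm NoZeros IsChart Pr)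
open Pool.Agent.H22.W (PseudoLength)
open Pool.Agent.H17EF (coneE)
open Pool.Agent.H17LG.Variety (FunField)
open Pool.Agent.H13.SM (conTan)
open Pool.Agent.H62.FC (Homog)
open Pool.Agent.UC (RatC)
open Pool.Agent.SY (NullIn zer Ent ModelS Cls)
open Pool.Agent.H36.TB (oC)

variable {N : ℕ}

/-- the tangent vectors of a chart at the base point -/
theorem tan_base {V : Type} [NormedAddCommGroup V] [NormedSpace ℂ V] {X : Set V} {σ : ℂ × ℂ → V} {τ : V → ℂ × ℂ} (hσ : IsChart X σ τ) (w : ℂ × ℂ) :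
    fderiv ℂ σ 0 w ∈ Pool.Agent.H17BP.Tan X (σ 0) := by
  have h3 : HasDerivAt (fun y : ℂ => y • w) w 0 := by
    have := (hasDerivAt_id (0 : ℂ)).smul_const w
    simpa using this
  have h4 : AnalyticAt ℂ (fun y : ℂ => y • w) 0 := by fun_prop
  have h0 : (0 : ℂ) • w = 0 := zero_smul _ _
  have h5 : AnalyticAt ℂ σ ((0 : ℂ) • w) := by rw [h0]; exact hσ.σ_an
  refine ⟨fun y => σ (y • w), AnalyticAt.fun_comp (g := σ) (f := fun y : ℂ => y • w) h5 h4, ?_, by simp, ?_⟩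
  · have h6 : Tendsto (fun y : ℂ => y • w) (𝓝 0) (𝓝 0) := by
      have := h4.continuousAt.tendsto
      rwa [h0] at this
    exact h6.eventually hσ.σ_mem
  · have h7 : HasFDerivAt σ (fderiv ℂ σ 0) ((0 : ℂ) • w) := by
      rw [h0]
      exact hσ.σ_an.differentiableAt.hasFDerivAt
    exact (h7.comp_hasDerivAt (0 : ℂ) h3).deriv

/-- a linear form, as a polynomial, which vanishes at the base point of a chart, but not on the first axis -/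
private theorem can_lin {X : Set (EN N)} {σ : ℂ × ℂ → EN N} {τ : EN N → ℂ × ℂ} (hσ : IsChart X σ τ) :
    ∃ (L : MvPolynomial (Fin (N + 1)) ℂ) (l : EN N →L[ℂ] ℂ), L.IsHomogeneous 1 ∧ (∀ x : EN N, eval x.ofLp L = l x) ∧ l (σ 0) = 0 ∧
      l (fderiv ℂ σ 0 (1, 0)) ≠ 0 := by
  have h1 : fderiv ℂ σ 0 (1, 0) ∉ Submodule.span ℂ {σ 0} := by
    intro h
    obtain ⟨a, ha⟩ := Submodule.mem_span_singleton.1 h
    have h2 := (Pool.Agent.H62.BU.toChart hσ).indep ha.symm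
    simp at h2
  obtain ⟨f, hf1, hf2⟩ := Submodule.exists_dual_map_eq_bot_of_notMem h1 inferInstance
  have hf3 : f (σ 0) = 0 := by
    have h2 : f (σ 0) ∈ (Submodule.span ℂ {σ 0}).map f := Submodule.mem_map_of_mem (Submodule.mem_span_singleton_self _)
    rw [hf2] at h2
    exact (Submodule.mem_bot ℂ).1 h2
  obtain ⟨l, hl⟩ : ∃ l : EN N →L[ℂ] ℂ, l = LinearMap.toContinuousLinearMap f := ⟨_, rfl⟩
  have hl' : ∀ x, l x = f x := fun x => by rw [hl]; rfl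
  refine ⟨∑ i, C (l (EuclideanSpace.single i 1)) * MvPolynomial.X i, l, ?_, fun x => ?_, ?_, ?_⟩
  · refine IsHomogeneous.sum _ _ _ fun i _ => ?_
    have := (isHomogeneous_C (Fin (N + 1)) (l (EuclideanSpace.single i 1))).mul (isHomogeneous_X ℂ i)
    simpa using this
  · have h3 : x = ∑ i, x.ofLp i • (EuclideanSpace.single i (1 : ℂ) : EN N) := by
      ext i
      simp [Finset.sum_apply, Pi.single_apply]
    conv_rhs => rw [h3]
    rw [map_sum, map_sum]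
    refine Finset.sum_congr rfl fun i _ => ?_
    rw [map_smul, map_mul, eval_C, eval_X, smul_eq_mul, mul_comm]
  · rw [hl', hf3]
  · rw [hl']
    exact hf1

/-- a form without zeros has a nonzero coefficient in a chart -/
theorem oC_ne_zero {V : Type} [NormedAddCommGroup V] [NormedSpace ℂ V] {X T : Set V} {Ω : V → V → V → ℂ} (hnz : NoZeros X T Ω)
    {σ : ℂ × ℂ → V} {τ : V → ℂ × ℂ} (hσ : IsChart X σ τ) (hq : σ 0 ∉ T) : oC Ω σ 0 ≠ 0 := by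
  refine hnz (σ 0) hσ.σ_mem.self_of_nhds hq _ (tan_base hσ (1, 0)) _ (tan_base hσ (0, 1)) ?_
  rw [Fintype.linearIndependent_iff]
  intro g hg
  rw [Fin.sum_univ_three] at hg
  have h1 : g 0 • σ 0 + g 1 • fderiv ℂ σ 0 (1, 0) + g 2 • fderiv ℂ σ 0 (0, 1) = 0 := hg
  have h2 : fderiv ℂ σ 0 (g 1, g 2) = (-g 0) • σ 0 := by
    have h3 : ((g 1, g 2) : ℂ × ℂ) = g 1 • ((1 : ℂ), (0 : ℂ)) + g 2 • ((0 : ℂ), (1 : ℂ)) := by
      ext <;> simp
    rw [h3, map_add, map_smul, map_smul, neg_smul, eq_neg_iff_add_eq_zero, ← h1]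
    abel
  have h3 : ((g 1, g 2) : ℂ × ℂ) = 0 := (Pool.Agent.H62.BU.toChart hσ).indep h2
  have h4 : g 1 = 0 := congrArg Prod.fst h3
  have h5 : g 2 = 0 := congrArg Prod.snd h3
  have h6 : g 0 = 0 := by
    rw [h4, h5, zero_smul, zero_smul, add_zero, add_zero, smul_eq_zero] at h1
    exact h1.resolve_right hσ.ne
  intro i
  fin_cases i
  · exact h6
  · exact h4
  · exact h5

/-- the order of a form without zeros in a sector is zero -/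
theorem hord_zero {V : Type} [NormedAddCommGroup V] [NormedSpace ℂ V] {X : Set V} {m j : ℕ} {Ω : V → V → V → ℂ} (hΩ : IsForm X m j Ω)
    {T : Set V} (hnz : NoZeros X T Ω) {σ : ℂ × ℂ → V} {τ : V → ℂ × ℂ} (hσ : IsChart X σ τ) (hq : σ 0 ∉ T) :
    ∃ B : ℝ, 1 ≤ B ∧ ∀ᶠ p in 𝓝 (0 : ℂ × ℂ), ‖p.1‖ ^ 0 ≤ B * ‖oC Ω σ (p.1, p.1 * p.2)‖ ∧ ‖oC Ω σ (p.1, p.1 * p.2)‖ ≤ B * ‖p.1‖ ^ 0 := by
  have h1 : AnalyticAt ℂ (oC Ω σ) 0 := hΩ.analytic σ 0 hσ.σ_an hσ.σ_mem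
  have h2 : ‖oC Ω σ 0‖ > 0 := norm_pos_iff.2 (oC_ne_zero hnz hσ hq)
  have ht : Tendsto (fun p : ℂ × ℂ => (p.1, p.1 * p.2)) (𝓝 0) (𝓝 0) := by
    have h : Continuous fun p : ℂ × ℂ => (p.1, p.1 * p.2) := by fun_prop
    have h1 := h.tendsto 0
    have h2 : (((0 : ℂ × ℂ).1, (0 : ℂ × ℂ).1 * (0 : ℂ × ℂ).2) : ℂ × ℂ) = 0 := by simp
    rwa [h2] at h1
  have h3 : Tendsto (fun p : ℂ × ℂ => ‖oC Ω σ (p.1, p.1 * p.2)‖) (𝓝 0) (𝓝 ‖oC Ω σ 0‖) := (h1.continuousAt.tendsto.comp ht).norm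
  obtain ⟨B, hB⟩ : ∃ B, B = 2 * (‖oC Ω σ 0‖ + 1 + ‖oC Ω σ 0‖⁻¹) := ⟨_, rfl⟩
  have h4 : 0 < ‖oC Ω σ 0‖⁻¹ := inv_pos.2 h2
  refine ⟨B, by linarith, ?_⟩
  filter_upwards [h3.eventually (lt_mem_nhds (half_lt_self h2)), h3.eventually (gt_mem_nhds (show ‖oC Ω σ 0‖ < 2 * ‖oC Ω σ 0‖ by linarith))] with p hp1 hp2
  rw [pow_zero]
  constructor
  · have h5 : 2 * ‖oC Ω σ 0‖⁻¹ ≤ B := by linarith
    calc (1 : ℝ) = 2 * ‖oC Ω σ 0‖⁻¹ * (‖oC Ω σ 0‖ / 2) := by field_simp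
      _ ≤ B * ‖oC Ω σ (p.1, p.1 * p.2)‖ := mul_le_mul h5 hp1.le (by positivity) (by linarith)
  · linarith

variable {P : Ideal (MvPolynomial (Fin (N + 1)) ℂ)}

/-- a point outside the curve `zer P Q` near the base point of a chart: the form is not in the ideal -/
theorem notMem_of_cone {σ : ℂ × ℂ → EN N} {τ : EN N → ℂ × ℂ} (hσ : IsChart (coneE P) σ τ) {Q : MvPolynomial (Fin (N + 1)) ℂ}
    (h : ∀ᶠ p in 𝓝 (0 : ℂ × ℂ), eval (σ (p.1, p.1 * p.2)).ofLp Q = 0 → p.1 = 0) : Q ∉ P := by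
  intro hQ
  have h1 : Tendsto (fun p : ℂ × ℂ => (p.1, p.1 * p.2)) (𝓝 0) (𝓝 0) := by
    have h : Continuous fun p : ℂ × ℂ => (p.1, p.1 * p.2) := by fun_prop
    have h1 := h.tendsto 0
    have h2 : (((0 : ℂ × ℂ).1, (0 : ℂ × ℂ).1 * (0 : ℂ × ℂ).2) : ℂ × ℂ) = 0 := by simp
    rwa [h2] at h1
  have h2 : ∀ᶠ p in 𝓝 (0 : ℂ × ℂ), p.1 = 0 := by
    filter_upwards [h, h1.eventually hσ.σ_mem] with p hp hp2
    exact hp (hp2.2 Q hQ)
  have h3 : Tendsto (fun c : ℂ => (c, (0 : ℂ))) (𝓝[≠] 0) (𝓝 (0 : ℂ × ℂ)) := by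
    have : Continuous fun c : ℂ => (c, (0 : ℂ)) := by fun_prop
    exact (this.tendsto 0).mono_left nhdsWithin_le_nhds
  obtain ⟨c, hc1, hc2⟩ := ((h3.eventually h2).and self_mem_nhdsWithin).exists
  exact hc2 hc1

/-- **The curve `T` at the base point of a chart.**  `Q₁ = 0` is a curve without points in a small sector around the first axis, outside which `Ω` has no
zeros.  The curve `T = zer P Q` contains it and all the rational curves, passes through the base point `σ 0` and has no points in the sector. -/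
theorem exists_curve_of [P.IsPrime] (hP : Homog P) {z : Fin 2 → FunField P} (hz : IsTranscendenceBasis ℂ z)
    (hX : Surface (coneE P)) (n : PseudoLength (coneE P)) {R : MvPolynomial (Fin (N + 1)) ℂ} {e : ℕ} (hR : R.IsHomogeneous e) (hRP : R ∉ P)
    (hN : NullIn P n R) {Ω : EN N → EN N → EN N → ℂ} {Q₁ : MvPolynomial (Fin (N + 1)) ℂ} {D₁ : ℕ} (hQ₁ : Q₁.IsHomogeneous D₁)
    (hnz : NoZeros (coneE P) (zer P Q₁) Ω) {σ : ℂ × ℂ → EN N} {τ : EN N → ℂ × ℂ} (hσ : IsChart (coneE P) σ τ)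
    (hn : n.toFun (σ 0) (fderiv ℂ σ 0 (1, 0)) ≠ 0) (hT₁ : ∀ᶠ p in 𝓝 (0 : ℂ × ℂ), p.1 ≠ 0 → σ (p.1, p.1 * p.2) ∉ zer P Q₁) :
    ∃ (Q : MvPolynomial (Fin (N + 1)) ℂ) (D : ℕ), 1 ≤ D ∧ Q.IsHomogeneous D ∧ Q ∉ P ∧ NoZeros (coneE P) (zer P Q) Ω ∧ zer P Q₁ ⊆ zer P Q ∧
      σ 0 ∈ zer P Q ∧ (∀ᶠ p in 𝓝 (0 : ℂ × ℂ), p.1 ≠ 0 → σ (p.1, p.1 * p.2) ∉ zer P Q) ∧
      ∀ (d : ℕ) (K K' : ℂ → EN N), 1 ≤ d → RatC (coneE P) d K K' → ∀ z, K z ∈ zer P Q := by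
  obtain ⟨G, a, hG, hG1, hG2⟩ := exists_form hP hz hX (isCone_of_surface hX) n hR hRP hN hσ hn
  obtain ⟨L, l, hL, hl, hl0, hl1⟩ := can_lin hσ
  obtain ⟨ε, hε, hcone⟩ := lin_cone hσ.σ_an hl0 hl1
  have ht : Tendsto (fun p : ℂ × ℂ => (p.1, p.1 * p.2)) (𝓝 0) (𝓝 0) := by
    have h : Continuous fun p : ℂ × ℂ => (p.1, p.1 * p.2) := by fun_prop
    have h1 := h.tendsto 0
    have h2 : (((0 : ℂ × ℂ).1, (0 : ℂ × ℂ).1 * (0 : ℂ × ℂ).2) : ℂ × ℂ) = 0 := by simp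
    rwa [h2] at h1
  have hsmall : ∀ᶠ p : ℂ × ℂ in 𝓝 0, ‖p.2‖ < ε := by
    have h1 : Continuous fun p : ℂ × ℂ => ‖p.2‖ := by fun_prop
    have h2 := h1.tendsto 0
    simp only [Prod.snd_zero, norm_zero] at h2
    exact h2.eventually (gt_mem_nhds hε)
  have hmem : ∀ᶠ p in 𝓝 (0 : ℂ × ℂ), σ (p.1, p.1 * p.2) ∈ coneE P := ht.eventually hσ.σ_mem
  have hL2 : ∀ᶠ p in 𝓝 (0 : ℂ × ℂ), eval (σ (p.1, p.1 * p.2)).ofLp L = 0 → p.1 = 0 := by
    filter_upwards [ht.eventually hcone, hsmall] with p hp hp2 hp3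
    by_contra h0
    refine hp ?_ ?_
    · show ‖p.1 * p.2‖ < ε * ‖p.1‖
      rw [norm_mul, mul_comm]
      exact mul_lt_mul_of_pos_right hp2 (norm_pos_iff.2 h0)
    · rw [← hl]
      exact hp3
  have hall : ∀ᶠ p in 𝓝 (0 : ℂ × ℂ), eval (σ (p.1, p.1 * p.2)).ofLp (Q₁ * G * L) = 0 → p.1 = 0 := by
    filter_upwards [hG2, hL2, hT₁, hmem] with p h1 h2 h3 h4 h5
    by_contra h0
    rw [map_mul, map_mul, mul_eq_zero, mul_eq_zero] at h5
    rcases h5 with (h5 | h5) | h5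
    · exact h3 h0 ⟨h4, h5⟩
    · exact h0 (h1 h5)
    · exact h0 (h2 h5)
  have hsub : zer P Q₁ ⊆ zer P (Q₁ * G * L) := fun x hx => ⟨hx.1, by rw [map_mul, map_mul, hx.2, zero_mul, zero_mul]⟩
  refine ⟨Q₁ * G * L, D₁ + a + 1, by omega, (hQ₁.mul hG).mul hL, notMem_of_cone hσ hall,
    fun x hx hx2 => hnz x hx fun h => hx2 (hsub h), hsub, ⟨hσ.σ_mem.self_of_nhds, ?_⟩, ?_, ?_⟩
  · rw [map_mul, hl, hl0, mul_zero]
  · filter_upwards [hall] with p h1 h3 h4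
    exact h3 (h1 h4.2)
  · intro d K K' hd hK w
    refine ⟨hK.mem w, ?_⟩
    rw [map_mul, map_mul, hG1 d K K' hd hK w, mul_zero, zero_mul]

/-- **The curve `T` at the base point of a chart.**  `T = zer P Q` is a curve through the base point `σ 0`, without points in a small sector around the
first axis, if the first axis has positive length for `n`; it contains all the rational curves, and the form `Ω` without zeros gives a model. -/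
theorem exists_curve [P.IsPrime] (hP : Homog P) {z : Fin 2 → FunField P} (hz : IsTranscendenceBasis ℂ z)
    (hsm : ∀ y : Fin (N + 1) → ℂ, y ≠ 0 → (∀ Q ∈ P, eval y Q = 0) → Module.finrank ℂ (conTan P y) ≤ 3)
    (n : PseudoLength (coneE P)) {R : MvPolynomial (Fin (N + 1)) ℂ} {e : ℕ} (hR : R.IsHomogeneous e) (hRP : R ∉ P) (hN : NullIn P n R)
    {m j : ℕ} (hm : 1 ≤ m) (hj : 1 ≤ j) {Ω : EN N → EN N → EN N → ℂ} (hΩ : IsForm (coneE P) m j Ω) (hnz : NoZeros (coneE P) ∅ Ω)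
    {σ : ℂ × ℂ → EN N} {τ : EN N → ℂ × ℂ} (hσ : IsChart (coneE P) σ τ) (hn : n.toFun (σ 0) (fderiv ℂ σ 0 (1, 0)) ≠ 0) :
    ∃ (Q : MvPolynomial (Fin (N + 1)) ℂ) (D : ℕ), 1 ≤ D ∧ Q.IsHomogeneous D ∧ Q ∉ P ∧ NoZeros (coneE P) (zer P Q) Ω ∧
      ModelS (coneE P) (zer P Q) m j Ω (fun (_ : Unit) (x : EN N) => eval x.ofLp Q) D ∧ σ 0 ∈ zer P Q ∧
      (∀ᶠ p in 𝓝 (0 : ℂ × ℂ), p.1 ≠ 0 → σ (p.1, p.1 * p.2) ∉ zer P Q) ∧
      ∀ (d : ℕ) (K K' : ℂ → EN N), 1 ≤ d → RatC (coneE P) d K K' → ∀ z, K z ∈ zer P Q := by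
  have h1 : zer P (1 : MvPolynomial (Fin (N + 1)) ℂ) = ∅ := by
    ext x
    simp [zer]
  obtain ⟨Q, D, hD, hQ, hQP, h2, -, h3, h4, h5⟩ := exists_curve_of hP hz (Pool.Agent.H90.SG.surface_coneE hP hz hsm) n hR hRP hN
    (isHomogeneous_one (Fin (N + 1)) ℂ) (by rw [h1]; exact hnz) hσ hn (by
      refine Eventually.of_forall fun p _ h => ?_
      rw [h1] at h
      exact h)
  exact ⟨Q, D, hD, hQ, hQP, h2, Pool.Agent.H90.SG.modelS_coneE hP hz hsm hD hQ hQP hm hj hΩ h2, h3, h4, h5⟩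

/-- a curve tangent to the first axis of the chart leaves `T` -/
theorem out_of_cone {X T : Set (EN N)} (hTs : ∀ x ∈ T, ∀ c : ℂ, c ≠ 0 → c • x ∈ T) {σ : ℂ × ℂ → EN N} {τ : EN N → ℂ × ℂ} (hσ : IsChart X σ τ)
    (hT : ∀ᶠ p in 𝓝 (0 : ℂ × ℂ), p.1 ≠ 0 → σ (p.1, p.1 * p.2) ∉ T) {H : ℂ → EN N} (hH : CurveAt X H 0) (h0 : H 0 = σ 0)
    (h1 : deriv (fun z => τ (H z)) 0 = (1, 0)) : ∀ᶠ z in 𝓝[≠] (0 : ℂ), H z ∉ T := by
  obtain ⟨a1, a2, a3, a4⟩ := curve_chart hσ hH h0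
  have hd : HasDerivAt (fun z => τ (H z)) (1, 0) 0 := by
    have := a1.differentiableAt.hasDerivAt
    rwa [h1] at this
  -- the coordinates `s = z (1 + o(1))`, `t → 0`
  have hs : Tendsto (fun z => z⁻¹ • τ (H z)) (𝓝[≠] (0 : ℂ)) (𝓝 ((1 : ℂ), (0 : ℂ))) := by
    have h2 := hasDerivAt_iff_tendsto_slope_zero.1 hd
    refine h2.congr fun z => ?_
    simp [a2]
  have hs1 : Tendsto (fun z => z⁻¹ * (τ (H z)).1) (𝓝[≠] (0 : ℂ)) (𝓝 1) := (continuous_fst.tendsto _).comp hs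
  have hs2 : Tendsto (fun z => z⁻¹ * (τ (H z)).2) (𝓝[≠] (0 : ℂ)) (𝓝 0) := (continuous_snd.tendsto _).comp hs
  have hq : Tendsto (fun z => (τ (H z)).2 / (τ (H z)).1) (𝓝[≠] (0 : ℂ)) (𝓝 0) := by
    have h3 := hs2.div hs1 one_ne_zero
    rw [zero_div] at h3
    refine h3.congr' ?_
    filter_upwards [self_mem_nhdsWithin] with z hz
    exact mul_div_mul_left _ _ (inv_ne_zero hz)
  have hτ : Tendsto (fun z => τ (H z)) (𝓝[≠] (0 : ℂ)) (𝓝 0) := by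
    have h3 := a1.continuousAt.tendsto
    rw [a2] at h3
    exact h3.mono_left nhdsWithin_le_nhds
  have hp : Tendsto (fun z => ((τ (H z)).1, (τ (H z)).2 / (τ (H z)).1)) (𝓝[≠] (0 : ℂ)) (𝓝 (0 : ℂ × ℂ)) := by
    exact ((continuous_fst.tendsto _).comp hτ).prodMk_nhds hq
  filter_upwards [hp.eventually hT, a3.filter_mono nhdsWithin_le_nhds, hs1.eventually_ne one_ne_zero] with z h2 h3 h4 h5
  have h6 : (τ (H z)).1 ≠ 0 := fun h => h4 (by rw [h, mul_zero])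
  obtain ⟨c, hc, hc2⟩ := h3
  refine h2 h6 ?_
  have h7 : ((τ (H z)).1, (τ (H z)).1 * ((τ (H z)).2 / (τ (H z)).1)) = τ (H z) := by
    ext
    · rfl
    · exact mul_div_cancel₀ _ h6
  show σ ((τ (H z)).1, (τ (H z)).1 * ((τ (H z)).2 / (τ (H z)).1)) ∈ T
  rw [h7]
  have h8 : σ (τ (H z)) = c⁻¹ • H z := by
    have h9 := congrArg (fun x => c⁻¹ • x) hc2
    simp only [smul_smul, inv_mul_cancel₀ hc, one_smul] at h9
    exact h9.symm
  rw [h8]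
  exact hTs _ h5 _ (inv_ne_zero hc)

/-- the curves of the sequence are not contained in `T`, if the limit is not -/
theorem ent_of_lim {X T : Set (EN N)} {T₀ : Set (EN N)} {κ : Type} {Q : κ → EN N → ℂ} {D : ℕ} (hE : Pool.Agent.H17BP.Eqs X T Q D) {l : Filter ℕ}
    {F : ℕ → ℂ → EN N} {v : ℕ → ℂ → ℂ} {K : ℂ → EN N} {r : ℝ} (hF : ∀ᶠ k in l, Ent X T₀ (F k))
    (hlim : TendstoLocallyUniformlyOn (fun k z => Complex.exp (v k z) • F k z) K l (ball 0 r)) {w : ℂ} (hw : w ∈ ball (0 : ℂ) r) (hK : K w ∈ X)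
    (hKT : K w ∉ T) : ∀ᶠ k in l, Ent X T (F k) := by
  have h1 : Tendsto (fun k => Complex.exp (v k w) • F k w) l (𝓝 (K w)) := hlim.tendsto_at hw
  have h2 : ∃ i, Q i (K w) ≠ 0 := by
    by_contra hcon
    push Not at hcon
    exact hKT ((hE.mem_iff _).2 ⟨hK, hcon⟩)
  obtain ⟨i, hi⟩ := h2
  have h3 : ∀ᶠ x in 𝓝 (K w), Q i x ≠ 0 := (hE.an i (K w)).continuousAt.eventually_ne hi
  filter_upwards [hF, h1.eventually h3] with k h4 h5
  refine ⟨h4.diff, h4.mem, w, fun h6 => h5 ?_⟩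
  rw [hE.smul, ((hE.mem_iff _).1 h6).2 i, mul_zero]

end Pool.Agent.SG
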