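import Pool.Agent.SG.DuvD
import Pool.Agent.SY.C

/-!
# SG DuvA: a pseudo-length near a smooth rational curve with self-intersection `-2`
-/

set_option autoImplicit false

open Topology Filter Metric

noncomputable section

namespace Pool.Agent.SG

open Pool.Agent.H36.BP (EN fs)
open Pool.Agent.H14.PP (IsCone Tan CurveAt)
open Pool.Agent.H17BP (IsChart Pr)
open Pool.Agent.H22.W (PseudoLength tan_curve)
open Pool.Agent.H62.EF (Charts)
open Pool.Agent.SY (norm_mul_fs_le)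

variable {N : ℕ} {X : Set (EN N)}

/-- the circle mean is at most the maximum -/
theorem le_of_circleAverage {f : ℂ → ℝ} {c : ℂ} {r B a : ℝ} (hr : 0 < r) (h : a ≤ Real.circleAverage f c r)
    (hf : ∀ z, ‖z - c‖ = r → f z ≤ B) (hB : 0 ≤ B) : a ≤ B := by
  by_cases hi : CircleIntegrable f c r
  · refine h.trans (Real.circleAverage_mono_on_of_le_circle hi fun z hz => hf z ?_)
    rwa [abs_of_pos hr, mem_sphere_iff_norm] at hz
  · have h1 : Real.circleAverage f c r = 0 := by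
      rw [Real.circleAverage_def, intervalIntegral.integral_undef hi, smul_zero]
    linarith

/-- the bound of a pseudo-length by a norm of the tangent vector modulo the point -/
theorem exists_norm_bound (hX : IsCone X) (hch : Charts X) (n : PseudoLength X) :
    ∃ C : ℝ, 0 < C ∧ ∀ x v, Tan X x v → ∀ α : ℂ, ‖x‖ * n.toFun x v ≤ C * ‖v - α • x‖ := by
  obtain ⟨C, hC, h⟩ := n.bound hX hch
  refine ⟨C, hC, fun x v hv α => ?_⟩
  have hx : x ≠ 0 := hX.ne_zero (Pool.Agent.H22.W.tan_mem hv)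
  calc ‖x‖ * n.toFun x v ≤ ‖x‖ * (C * fs x v) := by
        have := h x v hv
        gcongr
    _ = C * (‖x‖ * fs x v) := by ring
    _ ≤ C * ‖v - α • x‖ := by
        have := norm_mul_fs_le (v := v) hx α
        gcongr

/-- the estimate on the circles -/
theorem duv_circle (hX : IsCone X) (hch : Charts X) (n : PseudoLength X) {σ : ℂ × ℂ → EN N} {τ : EN N → ℂ × ℂ} {Φ G : ℂ × ℂ → EN N}
    {d : ℕ} (h : MinusTwo X σ τ Φ G d) :
    ∃ C ρ : ℝ, 0 < C ∧ 0 < ρ ∧ ρ ≤ 1 / 4 ∧ ∀ (R : ℝ) (q w : ℂ × ℂ) (z : ℂ), 0 < R → R ≤ ρ → ‖q‖ ≤ R / 2 → ‖w‖ = 1 → ‖z‖ = R →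
      n.toFun (Φ (q + z • w)) (deriv (fun y : ℂ => Φ (q + y • w)) z) ≤ C * (R + ‖q‖ / R ^ 2) := by
  obtain ⟨Cn, hCn, hn⟩ := exists_norm_bound hX hch n
  obtain ⟨Cr, hr⟩ := h.rem
  -- the lower bound of `G`
  obtain ⟨g₀, hg₀, hG0⟩ : ∃ g₀ : ℝ, 0 < g₀ ∧ ∀ p : ℂ × ℂ, g₀ * ‖p‖ ^ d ≤ ‖G p‖ := by
    have hc : ContinuousOn (fun p => ‖G p‖) (sphere (0 : ℂ × ℂ) 1) := fun p _ => (h.G_an p).continuousAt.norm.continuousWithinAt
    obtain ⟨p₀, hp₀, hmin⟩ := (isCompact_sphere (0 : ℂ × ℂ) 1).exists_isMinOn (NormedSpace.sphere_nonempty.2 zero_le_one) hc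
    have hp1 : ‖p₀‖ = 1 := by simpa using hp₀
    have hp0 : p₀ ≠ 0 := by
      rw [← norm_pos_iff, hp1]
      exact one_pos
    refine ⟨‖G p₀‖, norm_pos_iff.2 (h.G_ne p₀ hp0), fun p => ?_⟩
    by_cases hp : p = 0
    · rcases Nat.eq_zero_or_pos d with hd | hd
      · subst hd
        have e1 : G p = G p₀ := by
          have e2 := h.G_smul 0 p₀
          rw [zero_smul, pow_zero, one_smul] at e2
          rw [hp, e2]
        rw [e1, pow_zero, mul_one]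
      · rw [hp, norm_zero, zero_pow hd.ne', mul_zero]
        exact norm_nonneg _
    · have hpn : (0 : ℝ) < ‖p‖ := norm_pos_iff.2 hp
      have hpc : ((‖p‖ : ℝ) : ℂ) ≠ 0 := by exact_mod_cast hpn.ne'
      have e1 : p = ((‖p‖ : ℝ) : ℂ) • (((‖p‖ : ℝ) : ℂ)⁻¹ • p) := by
        rw [smul_smul, mul_inv_cancel₀ hpc, one_smul]
      have e2 : ‖(((‖p‖ : ℝ) : ℂ)⁻¹ • p)‖ = 1 := by
        rw [norm_smul, norm_inv, Complex.norm_real, norm_norm, inv_mul_cancel₀ hpn.ne']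
      have e3 : ‖G p‖ = ‖p‖ ^ d * ‖G (((‖p‖ : ℝ) : ℂ)⁻¹ • p)‖ := by
        conv_lhs => rw [e1]
        rw [h.G_smul, norm_smul, norm_pow, Complex.norm_real, norm_norm]
      rw [e3, mul_comm]
      have e4 : ‖G p₀‖ ≤ ‖G (((‖p‖ : ℝ) : ℂ)⁻¹ • p)‖ := hmin (by simpa using e2)
      gcongr
  -- the bound of the derivative of `G`
  obtain ⟨Bg, hBg0, hBg⟩ : ∃ Bg : ℝ, 0 < Bg ∧ ∀ p ∈ closedBall (0 : ℂ × ℂ) 2, ‖fderiv ℂ G p‖ ≤ Bg := by
    have hc : ContinuousOn (fderiv ℂ G) (closedBall (0 : ℂ × ℂ) 2) := fun p _ => (h.G_an p).fderiv.continuousAt.continuousWithinAt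
    obtain ⟨B, hB⟩ := (isCompact_closedBall (0 : ℂ × ℂ) 2).exists_bound_of_continuousOn hc
    exact ⟨|B| + 1, by positivity, fun p hp => (hB p hp).trans ((le_abs_self _).trans (by linarith))⟩
  set Cr' : ℝ := |Cr| + 1 with hCr'
  have hCr0 : 0 < Cr' := by positivity
  have hr' : ∀ p ∈ ball (0 : ℂ × ℂ) 1, ‖Φ p - G p‖ ≤ Cr' * ‖p‖ ^ (d + 2) := by
    intro p hp
    refine (hr p hp).trans ?_
    have : Cr ≤ Cr' := (le_abs_self _).trans (by linarith)
    gcongr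
  -- the choice of `ρ`
  obtain ⟨ρ, hρ0, hρ4, hρ⟩ : ∃ ρ : ℝ, 0 < ρ ∧ ρ ≤ 1 / 4 ∧ ∀ R : ℝ, 0 < R → R ≤ ρ → Cr' * (2 * R) ^ (d + 2) ≤ g₀ * (R / 2) ^ d / 2 := by
    have h1 : Tendsto (fun R : ℝ => Cr' * 2 ^ (d + 2) * R ^ 2 * 2 ^ (d + 1)) (𝓝 0) (𝓝 (Cr' * 2 ^ (d + 2) * 0 ^ 2 * 2 ^ (d + 1))) :=
      ((tendsto_id.pow 2).const_mul _).mul_const _
    have h2 : ∀ᶠ R : ℝ in 𝓝 0, Cr' * 2 ^ (d + 2) * R ^ 2 * 2 ^ (d + 1) < g₀ := by
      refine h1.eventually_lt_const ?_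
      simpa using hg₀
    obtain ⟨ρ, hρ, h3⟩ := Metric.eventually_nhds_iff.1 h2
    refine ⟨min (ρ / 2) (1 / 4), by positivity, min_le_right _ _, fun R hR hR2 => ?_⟩
    have h4 : R < ρ := by
      have := hR2.trans (min_le_left _ _)
      linarith
    have h5 := h3 (y := R) (by rw [dist_zero_right, Real.norm_eq_abs, abs_of_pos hR]; exact h4)
    have h6 : Cr' * (2 * R) ^ (d + 2) = (Cr' * 2 ^ (d + 2) * R ^ 2 * 2 ^ (d + 1)) * ((R / 2) ^ d / 2) := by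
      rw [mul_pow, div_pow, pow_add R d 2, pow_succ (2 : ℝ) d]
      field_simp
    rw [h6]
    have h7 : 0 < (R / 2) ^ d / 2 := by positivity
    nlinarith
  set C₁ : ℝ := Bg + Cr' * 2 ^ (d + 2) * (2 + d) with hC₁
  have hC₁0 : 0 < C₁ := by positivity
  refine ⟨Cn * C₁ * (2 ^ (d + 1) / g₀), ρ, by positivity, hρ0, hρ4, ?_⟩
  intro R q w z hR hRρ hq hw hz
  have hR4 : R ≤ 1 / 4 := hRρ.trans hρ4
  have hz0 : z ≠ 0 := by
    rw [← norm_pos_iff, hz]
    exact hR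
  -- the norms of the points
  have hup : ∀ y : ℂ, ‖y‖ ≤ 3 * R / 2 → ‖q + y • w‖ ≤ 2 * R := by
    intro y hy
    refine (norm_add_le _ _).trans ?_
    rw [norm_smul, hw, mul_one]
    linarith
  have hball : ∀ y : ℂ, ‖y‖ ≤ 3 * R / 2 → q + y • w ∈ ball (0 : ℂ × ℂ) 1 := by
    intro y hy
    rw [mem_ball_zero_iff]
    exact (hup y hy).trans_lt (by linarith)
  have hlow : R / 2 ≤ ‖q + z • w‖ := by
    have h1 := norm_sub_norm_le (z • w) (-q)
    rw [norm_neg, norm_smul, hw, mul_one, hz, sub_neg_eq_add, add_comm (z • w) q] at h1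
    linarith
  have hp0 : q + z • w ≠ 0 := by
    rw [← norm_pos_iff]
    linarith
  -- the two parts
  have hline : ∀ y : ℂ, AnalyticAt ℂ (fun y : ℂ => q + y • w) y := fun y => by fun_prop
  have hFan : ∀ y : ℂ, ‖y‖ ≤ 3 * R / 2 → AnalyticAt ℂ (fun y : ℂ => Φ (q + y • w)) y := fun y hy =>
    AnalyticAt.fun_comp (g := Φ) (f := fun y : ℂ => q + y • w) (h.an _ (hball y hy)) (hline y)
  have hGan : ∀ y : ℂ, AnalyticAt ℂ (fun y : ℂ => G (q + y • w)) y := fun y =>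
    AnalyticAt.fun_comp (g := G) (f := fun y : ℂ => q + y • w) (h.G_an _) (hline y)
  set H : ℂ → EN N := fun y => Φ (q + y • w) - G (q + y • w) with hH
  have hHan : ∀ y : ℂ, ‖y‖ ≤ 3 * R / 2 → AnalyticAt ℂ H y := fun y hy => (hFan y hy).sub (hGan y)
  have hHle : ∀ y : ℂ, ‖y‖ ≤ 3 * R / 2 → ‖H y‖ ≤ Cr' * (2 * R) ^ (d + 2) := by
    intro y hy
    refine (hr' _ (hball y hy)).trans ?_
    have := hup y hy
    gcongr
  have hzn : ‖z‖ ≤ 3 * R / 2 := by linarith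
  have hHd : ‖deriv H z‖ ≤ Cr' * (2 * R) ^ (d + 2) / (R / 2) := by
    refine Complex.norm_deriv_le_of_forall_mem_sphere_norm_le (by positivity) ?_ ?_
    · refine DifferentiableOn.diffContOnCl ?_
      intro y hy
      rw [closure_ball _ (by positivity)] at hy
      refine (hHan y ?_).differentiableAt.differentiableWithinAt
      have h1 : ‖y - z‖ ≤ R / 2 := by rwa [mem_closedBall_iff_norm] at hy
      have h2 := norm_le_norm_add_norm_sub' y z
      linarith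
    · intro y hy
      refine hHle y ?_
      have h1 : ‖y - z‖ = R / 2 := by rwa [mem_sphere_iff_norm] at hy
      have h2 := norm_le_norm_add_norm_sub' y z
      linarith
  -- the derivative of the homogeneous part
  have hGd : deriv (fun y : ℂ => G (q + y • w)) z - ((d : ℂ) / z) • G (q + z • w) =
      -((z ^ d * (z ^ 2)⁻¹) • fderiv ℂ G (w + z⁻¹ • q) q) := by
    have e1 : (fun y : ℂ => G (q + y • w)) =ᶠ[𝓝 z] fun y => y ^ d • G (w + y⁻¹ • q) := by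
      filter_upwards [isOpen_ne.mem_nhds hz0] with y hy
      rw [← h.G_smul]
      congr 1
      rw [smul_add, smul_smul, mul_inv_cancel₀ hy, one_smul, add_comm]
    have e2 : HasDerivAt (fun y : ℂ => w + y⁻¹ • q) ((-(z ^ 2)⁻¹) • q) z := ((hasDerivAt_inv hz0).smul_const q).const_add w
    have e3 : HasDerivAt (fun y : ℂ => G (w + y⁻¹ • q)) (fderiv ℂ G (w + z⁻¹ • q) ((-(z ^ 2)⁻¹) • q)) z :=
      (h.G_an (w + z⁻¹ • q)).differentiableAt.hasFDerivAt.comp_hasDerivAt z e2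
    have e4 : HasDerivAt (fun y : ℂ => y ^ d • G (w + y⁻¹ • q))
        (z ^ d • (fderiv ℂ G (w + z⁻¹ • q)) (-(z ^ 2)⁻¹ • q) + ((d : ℂ) * z ^ (d - 1)) • G (w + z⁻¹ • q)) z := (hasDerivAt_pow d z).smul e3
    have e5 : G (q + z • w) = z ^ d • G (w + z⁻¹ • q) := e1.self_of_nhds
    rw [e1.deriv_eq, e4.deriv, e5, map_smul]
    have e6 : ((d : ℂ) / z) • z ^ d • G (w + z⁻¹ • q) = ((d : ℂ) * z ^ (d - 1)) • G (w + z⁻¹ • q) := by
      rw [smul_smul]
      congr 1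
      rcases Nat.eq_zero_or_pos d with hd | hd
      · subst hd
        simp
      · obtain ⟨d', rfl⟩ : ∃ d', d = d' + 1 := ⟨d - 1, by omega⟩
        rw [Nat.add_sub_cancel, pow_succ]
        field_simp
    rw [e6, add_sub_cancel_right, neg_smul, smul_neg, smul_smul]
  have hGle : ‖deriv (fun y : ℂ => G (q + y • w)) z - ((d : ℂ) / z) • G (q + z • w)‖ ≤ R ^ d * (‖q‖ / R ^ 2) * Bg := by
    rw [hGd, norm_neg, norm_smul, norm_mul, norm_inv, norm_pow, norm_pow, hz]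
    have e1 : w + z⁻¹ • q ∈ closedBall (0 : ℂ × ℂ) 2 := by
      rw [mem_closedBall_zero_iff]
      refine (norm_add_le _ _).trans ?_
      rw [norm_smul, norm_inv, hz, hw]
      have : R⁻¹ * ‖q‖ ≤ R⁻¹ * (R / 2) := by gcongr
      have e2 : R⁻¹ * (R / 2) = 1 / 2 := by field_simp
      linarith
    have e3 : ‖fderiv ℂ G (w + z⁻¹ • q) q‖ ≤ Bg * ‖q‖ := (ContinuousLinearMap.le_opNorm _ _).trans (by
      have := hBg _ e1
      gcongr)
    calc R ^ d * (R ^ 2)⁻¹ * ‖fderiv ℂ G (w + z⁻¹ • q) q‖ ≤ R ^ d * (R ^ 2)⁻¹ * (Bg * ‖q‖) := by gcongr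
      _ = R ^ d * (‖q‖ / R ^ 2) * Bg := by ring
  -- the whole derivative
  have hsum : deriv (fun y : ℂ => Φ (q + y • w)) z = deriv (fun y : ℂ => G (q + y • w)) z + deriv H z := by
    have e1 : (fun y : ℂ => Φ (q + y • w)) = fun y => G (q + y • w) + H y := by
      funext y
      simp [hH]
    rw [e1]
    exact ((hGan z).differentiableAt.hasDerivAt.add (hHan z hzn).differentiableAt.hasDerivAt).deriv
  have hkey : ‖deriv (fun y : ℂ => Φ (q + y • w)) z - ((d : ℂ) / z) • Φ (q + z • w)‖ ≤ R ^ d * C₁ * (R + ‖q‖ / R ^ 2) := by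
    have e1 : deriv (fun y : ℂ => Φ (q + y • w)) z - ((d : ℂ) / z) • Φ (q + z • w) =
        (deriv (fun y : ℂ => G (q + y • w)) z - ((d : ℂ) / z) • G (q + z • w)) + (deriv H z - ((d : ℂ) / z) • H z) := by
      rw [hsum]
      simp only [hH, smul_sub]
      abel
    rw [e1]
    refine (norm_add_le _ _).trans ?_
    have e2 : ‖deriv H z - ((d : ℂ) / z) • H z‖ ≤ Cr' * (2 * R) ^ (d + 2) / (R / 2) + (d / R) * (Cr' * (2 * R) ^ (d + 2)) := by
      refine (norm_sub_le _ _).trans (add_le_add hHd ?_)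
      rw [norm_smul, norm_div, hz, Complex.norm_natCast]
      have := hHle z hzn
      gcongr
    have e3 : Cr' * (2 * R) ^ (d + 2) / (R / 2) + (d / R) * (Cr' * (2 * R) ^ (d + 2)) = R ^ d * (Cr' * 2 ^ (d + 2) * (2 + d)) * R := by
      rw [mul_pow, pow_add R d 2]
      field_simp
    rw [e3] at e2
    have e4 : 0 ≤ ‖q‖ / R ^ 2 := by positivity
    have e5 : 0 ≤ R ^ d * (‖q‖ / R ^ 2) * (Cr' * 2 ^ (d + 2) * (2 + d)) := by positivity
    have e6 : 0 ≤ R ^ d * Bg * R := by positivity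
    calc _ ≤ R ^ d * (‖q‖ / R ^ 2) * Bg + R ^ d * (Cr' * 2 ^ (d + 2) * (2 + d)) * R := add_le_add hGle e2
      _ ≤ R ^ d * C₁ * (R + ‖q‖ / R ^ 2) := by rw [hC₁]; nlinarith
  -- the lower bound of the point
  have hΦ : g₀ * (R / 2) ^ d / 2 ≤ ‖Φ (q + z • w)‖ := by
    have e1 : g₀ * (R / 2) ^ d ≤ ‖G (q + z • w)‖ := le_trans (by gcongr) (hG0 _)
    have e2 : ‖H z‖ ≤ g₀ * (R / 2) ^ d / 2 := (hHle z hzn).trans (hρ R hR hRρ)
    have e3 : ‖G (q + z • w)‖ ≤ ‖Φ (q + z • w)‖ + ‖H z‖ := by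
      have e4 : G (q + z • w) = Φ (q + z • w) - H z := by simp [hH]
      rw [e4]
      exact norm_sub_le _ _
    linarith
  -- the tangent vector
  have htan : Tan X (Φ (q + z • w)) (deriv (fun y : ℂ => Φ (q + y • w)) z) := by
    have e1 : ∀ᶠ y in 𝓝 z, q + y • w ∈ ball (0 : ℂ × ℂ) 1 ∧ q + y • w ≠ 0 := by
      have e2 : ContinuousAt (fun y : ℂ => q + y • w) z := (hline z).continuousAt
      exact (e2.eventually (isOpen_ball.mem_nhds (hball z hzn))).and (e2.eventually_ne hp0)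
    exact tan_curve ⟨hFan z hzn, e1.mono fun y hy => h.mem _ hy.1 hy.2⟩
  have h1 := hn _ _ htan ((d : ℂ) / z)
  have h2 : 0 ≤ n.toFun (Φ (q + z • w)) (deriv (fun y : ℂ => Φ (q + y • w)) z) := n.nonneg _ _ htan
  have h3 : g₀ * (R / 2) ^ d / 2 * n.toFun (Φ (q + z • w)) (deriv (fun y : ℂ => Φ (q + y • w)) z) ≤
      Cn * (R ^ d * C₁ * (R + ‖q‖ / R ^ 2)) :=
    calc _ ≤ ‖Φ (q + z • w)‖ * n.toFun (Φ (q + z • w)) (deriv (fun y : ℂ => Φ (q + y • w)) z) := by gcongr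
      _ ≤ _ := h1.trans (by gcongr)
  have h4 : 0 < g₀ * (R / 2) ^ d / 2 := by positivity
  refine le_of_mul_le_mul_left (h3.trans (le_of_eq ?_)) h4
  rw [div_pow, pow_succ (2 : ℝ) d]
  field_simp

/-- the tangent vectors in the image of `Φ` -/
theorem MinusTwo.tan {σ : ℂ × ℂ → EN N} {τ : EN N → ℂ × ℂ} {Φ G : ℂ × ℂ → EN N} {d : ℕ} (h : MinusTwo X σ τ Φ G d) {q : ℂ × ℂ} (hq : q ≠ 0)
    (hq1 : ‖q‖ < 1) (w : ℂ × ℂ) : Tan X (Φ q) (fderiv ℂ Φ q w) := by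
  have hq1' : q ∈ ball (0 : ℂ × ℂ) 1 := by rwa [mem_ball_zero_iff]
  have h4 : AnalyticAt ℂ (fun y : ℂ => q + y • w) 0 := by fun_prop
  have h0 : q + (0 : ℂ) • w = q := by rw [zero_smul, add_zero]
  have h5 : AnalyticAt ℂ Φ (q + (0 : ℂ) • w) := by rw [h0]; exact h.an _ hq1'
  refine ⟨fun y => Φ (q + y • w), ⟨AnalyticAt.fun_comp (g := Φ) (f := fun y : ℂ => q + y • w) h5 h4, ?_⟩, by simp, ?_⟩
  · have h6 : Tendsto (fun y : ℂ => q + y • w) (𝓝 0) (𝓝 q) := by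
      have := h4.continuousAt.tendsto
      rwa [h0] at this
    filter_upwards [h6.eventually (isOpen_ball.mem_nhds hq1'), h6.eventually (isOpen_ne.mem_nhds hq)] with y h7 h8
    exact h.mem _ h7 h8
  · have h3 : HasDerivAt (fun y : ℂ => q + y • w) w 0 := by
      have := ((hasDerivAt_id (0 : ℂ)).smul_const w).const_add q
      simpa using this
    have h7 : HasFDerivAt Φ (fderiv ℂ Φ q) (q + (0 : ℂ) • w) := by
      rw [h0]
      exact (h.an _ hq1').differentiableAt.hasFDerivAt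
    exact (h7.comp_hasDerivAt (0 : ℂ) h3).deriv

/-- **Lemma A.** -/
theorem duv_small (hX : IsCone X) (hch : Charts X) (n : PseudoLength X) {σ : ℂ × ℂ → EN N} {τ : EN N → ℂ × ℂ} {Φ G : ℂ × ℂ → EN N}
    {d : ℕ} (h : MinusTwo X σ τ Φ G d) {ε : ℝ} (hε : 0 < ε) :
    ∃ ρ : ℝ, 0 < ρ ∧ ρ ≤ 1 ∧ ∀ q w : ℂ × ℂ, q ≠ 0 → ‖q‖ < ρ → n.toFun (Φ q) (fderiv ℂ Φ q w) ≤ ε * ‖w‖ := by
  obtain ⟨C, ρ₀, hC, hρ₀, hρ₀4, hcirc⟩ := duv_circle hX hch n h
  set R : ℝ := min ρ₀ (ε / (2 * C)) with hRdef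
  have hR : 0 < R := lt_min hρ₀ (by positivity)
  have hRρ : R ≤ ρ₀ := min_le_left _ _
  have hRε : C * R ≤ ε / 2 := by
    have h1 : R ≤ ε / (2 * C) := min_le_right _ _
    rw [le_div_iff₀ (by positivity)] at h1
    linarith
  set ρ : ℝ := min (R / 2) (ε * R ^ 2 / (2 * C)) with hρdef
  have hρ : 0 < ρ := lt_min (by positivity) (by positivity)
  have hρR : ρ ≤ R / 2 := min_le_left _ _
  refine ⟨ρ, hρ, by linarith, ?_⟩
  intro q w hq hqρ
  have hq1 : ‖q‖ < 1 := by linarith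
  have hqC : C * (‖q‖ / R ^ 2) ≤ ε / 2 := by
    have h1 : ‖q‖ ≤ ε * R ^ 2 / (2 * C) := (hqρ.trans_le (min_le_right _ _)).le
    rw [le_div_iff₀ (by positivity)] at h1
    rw [← mul_div_assoc, div_le_iff₀ (by positivity)]
    linarith
  have hbd : C * (R + ‖q‖ / R ^ 2) ≤ ε := by rw [mul_add]; linarith
  -- unit vectors
  have key : ∀ w₁ : ℂ × ℂ, ‖w₁‖ = 1 → n.toFun (Φ q) (fderiv ℂ Φ q w₁) ≤ ε := by
    intro w₁ hw₁
    have hder : ∀ (q' : ℂ × ℂ) (z : ℂ), q' + z • w₁ ∈ ball (0 : ℂ × ℂ) 1 →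
        deriv (fun y : ℂ => Φ (q' + y • w₁)) z = fderiv ℂ Φ (q' + z • w₁) w₁ := by
      intro q' z hz
      have h3 : HasDerivAt (fun y : ℂ => q' + y • w₁) w₁ z := by
        have := ((hasDerivAt_id z).smul_const w₁).const_add q'
        simpa using this
      exact ((h.an _ hz).differentiableAt.hasFDerivAt.comp_hasDerivAt z h3).deriv
    by_cases hpar : ∃ z₀ : ℂ, q = z₀ • w₁
    · obtain ⟨z₀, hz₀⟩ := hpar
      have hz₀n : ‖z₀‖ = ‖q‖ := by rw [hz₀, norm_smul, hw₁, mul_one]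
      have hqn : 0 < ‖q‖ := norm_pos_iff.2 hq
      have h1 := hcirc ‖q‖ 0 w₁ z₀ hqn (by linarith) (by rw [norm_zero]; positivity) hw₁ hz₀n
      have h2 : (0 : ℂ × ℂ) + z₀ • w₁ = q := by rw [zero_add, hz₀]
      rw [hder 0 z₀ (by rw [h2, mem_ball_zero_iff]; exact hq1), h2, norm_zero, zero_div, add_zero] at h1
      refine h1.trans ?_
      nlinarith
    · push Not at hpar
      have hne : ∀ z : ℂ, q + z • w₁ ≠ 0 := by
        intro z hz
        refine hpar (-z) ?_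
        rw [neg_smul]
        exact eq_neg_of_add_eq_zero_left hz
      have hmem : ∀ z : ℂ, ‖z‖ < 1 / 2 → q + z • w₁ ∈ ball (0 : ℂ × ℂ) 1 := by
        intro z hz
        rw [mem_ball_zero_iff]
        refine (norm_add_le _ _).trans_lt ?_
        rw [norm_smul, hw₁, mul_one]
        linarith
      have hline : ∀ y : ℂ, AnalyticAt ℂ (fun y : ℂ => q + y • w₁) y := fun y => by fun_prop
      have h1 := n.curved (ball 0 (1 / 2)) (fun z : ℂ => Φ (q + z • w₁)) isOpen_ball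
        (fun z hz => (AnalyticAt.fun_comp (g := Φ) (f := fun y : ℂ => q + y • w₁) (h.an _ (hmem z (by simpa using hz)))
          (hline z)).differentiableAt.differentiableWithinAt)
        (fun z hz => h.mem _ (hmem z (by simpa using hz)) (hne z)) 0 R hR (closedBall_subset_ball (by linarith))
      have h2 := le_of_circleAverage (B := ε ^ 2) hR h1 (fun z hz => by
        rw [sub_zero] at hz
        have h3 := hcirc R q w₁ z hR hRρ (by linarith) hw₁ hz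
        have h4 : 0 ≤ n.toFun (Φ (q + z • w₁)) (deriv (fun y : ℂ => Φ (q + y • w₁)) z) := by
          rw [hder q z (hmem z (by rw [hz]; linarith))]
          refine n.nonneg _ _ (h.tan (hne z) ?_ w₁)
          have := hmem z (by rw [hz]; linarith)
          rwa [mem_ball_zero_iff] at this
        exact pow_le_pow_left₀ h4 (h3.trans hbd) 2) (by positivity)
      have h5 : q + (0 : ℂ) • w₁ = q := by rw [zero_smul, add_zero]
      have h6 := hder q 0 (by rw [h5, mem_ball_zero_iff]; exact hq1)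
      simp only [h6, h5] at h2
      exact (pow_le_pow_iff_left₀ (n.nonneg _ _ (h.tan hq hq1 w₁)) hε.le two_ne_zero).1 h2
  by_cases hw : w = 0
  · have h1 := n.smul _ _ (h.tan hq hq1 0) 0
    rw [zero_smul, norm_zero, zero_mul] at h1
    rw [hw, map_zero, h1, norm_zero, mul_zero]
  · have hwn : 0 < ‖w‖ := norm_pos_iff.2 hw
    have hwc : ((‖w‖ : ℝ) : ℂ) ≠ 0 := by exact_mod_cast hwn.ne'
    have e1 : w = ((‖w‖ : ℝ) : ℂ) • (((‖w‖ : ℝ) : ℂ)⁻¹ • w) := by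
      rw [smul_smul, mul_inv_cancel₀ hwc, one_smul]
    have e2 : ‖(((‖w‖ : ℝ) : ℂ)⁻¹ • w)‖ = 1 := by
      rw [norm_smul, norm_inv, Complex.norm_real, norm_norm, inv_mul_cancel₀ hwn.ne']
    have e3 := key _ e2
    have e4 : n.toFun (Φ q) (fderiv ℂ Φ q w) = ‖w‖ * n.toFun (Φ q) (fderiv ℂ Φ q (((‖w‖ : ℝ) : ℂ)⁻¹ • w)) := by
      conv_lhs => rw [e1]
      rw [map_smul, n.smul _ _ (h.tan hq hq1 _), Complex.norm_real, norm_norm]
    rw [e4, mul_comm]
    gcongr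

end Pool.Agent.SG
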