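import Pool.Agent.SG.DuvA

/-!
# SG DuvB: a pseudo-length at a point of a smooth rational curve with self-intersection `-2`
-/

set_option autoImplicit false

open Topology Filter Metric

noncomputable section

namespace Pool.Agent.SG

open Pool.Agent.H36.BP (EN fs)
open Pool.Agent.H14.PP (IsCone Tan CurveAt)
open Pool.Agent.H17BP (IsChart Pr)
open Pool.Agent.H22.W (PseudoLength tan_curve)
open Pool.Agent.H62.EF (Charts)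

variable {N : ℕ} {X : Set (EN N)}

/-- The length of the derivative depends only on the curve in the projective space. -/
theorem length_pr (hX : IsCone X) (n : PseudoLength X) {F F₁ : ℂ → EN N} {z : ℂ} (hF : CurveAt X F z) (hF₁ : AnalyticAt ℂ F₁ z)
    (hp : ∀ᶠ y in 𝓝 z, Pr (F₁ y) (F y)) : n.toFun (F₁ z) (deriv F₁ z) = n.toFun (F z) (deriv F z) := by
  have hFX : F z ∈ X := hF.2.self_of_nhds
  have hF0 : F z ≠ 0 := hX.ne_zero hFX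
  obtain ⟨L, hL⟩ : ∃ L : EN N →L[ℂ] ℂ, L (F z) ≠ 0 := SeparatingDual.exists_ne_zero (R := ℂ) hF0
  have hLF : AnalyticAt ℂ (fun y => L (F y)) z := (L.analyticAt _).fun_comp hF.1
  have hLF₁ : AnalyticAt ℂ (fun y => L (F₁ y)) z := (L.analyticAt _).fun_comp hF₁
  have hLne : ∀ᶠ y in 𝓝 z, L (F y) ≠ 0 := hLF.continuousAt.eventually_ne hL
  set c : ℂ → ℂ := fun y => L (F₁ y) / L (F y) with hc
  have hcan : AnalyticAt ℂ c z := hLF₁.div hLF hL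
  have he : ∀ᶠ y in 𝓝 z, F₁ y = c y • F y ∧ c y ≠ 0 := by
    filter_upwards [hp, hLne] with y hy hy2
    obtain ⟨a, ha, hay⟩ := hy
    have h1 : c y = a := by
      rw [hc]
      simp only
      rw [hay, map_smul, smul_eq_mul, mul_div_assoc, div_self hy2, mul_one]
    rw [h1]
    exact ⟨hay, ha⟩
  have h1 : deriv F₁ z = c z • deriv F z + deriv c z • F z := by
    have h2 : F₁ =ᶠ[𝓝 z] fun y => c y • F y := he.mono fun y hy => hy.1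
    rw [h2.deriv_eq]
    exact (hcan.differentiableAt.hasDerivAt.smul hF.1.differentiableAt.hasDerivAt).deriv
  have h3 := he.self_of_nhds
  rw [h1, h3.1]
  exact n.inv hX (tan_curve hF) h3.2 _

/-- a branch of the square root -/
theorem exists_sqrt {ξ z₁ : ℂ} (hz : ξ * z₁ ≠ 0) :
    ∃ a : ℂ → ℂ, AnalyticAt ℂ a z₁ ∧ (∀ z, a z ^ 2 = ξ * z) ∧ a z₁ ≠ 0 ∧ deriv a z₁ = ξ / (2 * a z₁) := by
  obtain ⟨a₁, ha₁⟩ := IsAlgClosed.exists_pow_nat_eq (ξ * z₁) (n := 2) (by norm_num)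
  have hz₁ : z₁ ≠ 0 := right_ne_zero_of_mul hz
  have ha₁0 : a₁ ≠ 0 := by
    rintro rfl
    rw [zero_pow two_ne_zero] at ha₁
    exact hz ha₁.symm
  have hsq : ∀ z : ℂ, (a₁ * (z / z₁) ^ ((2 : ℕ) : ℂ)⁻¹) ^ 2 = ξ * z := by
    intro z
    rw [mul_pow, Complex.cpow_nat_inv_pow _ two_ne_zero, ha₁]
    field_simp
  have han : AnalyticAt ℂ (fun z : ℂ => a₁ * (z / z₁) ^ ((2 : ℕ) : ℂ)⁻¹) z₁ := by
    refine analyticAt_const.mul ?_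
    refine AnalyticAt.cpow (by fun_prop) analyticAt_const ?_
    rw [div_self hz₁]
    exact Complex.one_mem_slitPlane
  have hval : a₁ * (z₁ / z₁) ^ ((2 : ℕ) : ℂ)⁻¹ = a₁ := by
    rw [div_self hz₁, Complex.one_cpow, mul_one]
  refine ⟨_, han, hsq, by simpa only [hval] using ha₁0, ?_⟩
  have h1 : HasDerivAt (fun z : ℂ => (a₁ * (z / z₁) ^ ((2 : ℕ) : ℂ)⁻¹) ^ 2) ξ z₁ := by
    have h2 : (fun z : ℂ => (a₁ * (z / z₁) ^ ((2 : ℕ) : ℂ)⁻¹) ^ 2) = fun z => ξ * z := funext hsq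
    rw [h2]
    simpa using (hasDerivAt_id z₁).const_mul ξ
  have h3 := han.differentiableAt.hasDerivAt.pow 2
  have h4 := h1.unique h3
  simp only [hval] at h4 ⊢
  rw [eq_div_iff (by simpa using ha₁0), h4]
  norm_num
  ring

/-- **Lemma B.** -/
theorem duv_axis (hX : IsCone X) (hch : Charts X) (n : PseudoLength X) {σ : ℂ × ℂ → EN N} {τ : EN N → ℂ × ℂ} {Φ G : ℂ × ℂ → EN N}
    {d : ℕ} (h : MinusTwo X σ τ Φ G d) {ε : ℝ} (hε : 0 < ε) :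
    ∃ κ : ℝ, 0 < κ ∧ ∀ ξ η : ℂ, ξ ≠ 0 → η ≠ 0 → ‖ξ‖ ≤ κ * ‖η‖ → n.toFun (σ 0) (fderiv ℂ σ 0 (ξ, η)) ^ 2 ≤ ε * (‖ξ‖ * ‖η‖) := by
  obtain ⟨δ₁, hδ₁, hloc⟩ := Metric.eventually_nhds_iff_ball.1
    (h.rel.and (h.chart.σ_an.eventually_analyticAt.and h.chart.σ_mem.eventually_nhds))
  set δ : ℝ := min δ₁ 1 / 2 with hδdef
  have hδ : 0 < δ := by positivity
  have hδδ₁ : δ < δ₁ := by
    have : min δ₁ 1 ≤ δ₁ := min_le_left _ _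
    linarith
  have hδ1 : δ ≤ 1 := by
    have : min δ₁ 1 ≤ 1 := min_le_right _ _
    linarith
  set c₀ : ℝ := 1 / (2 * δ) + 2 * δ with hc₀
  have hc₀0 : 0 < c₀ := by positivity
  set ε₁ : ℝ := Real.sqrt (ε / c₀) with hε₁
  have hε₁0 : 0 < ε₁ := Real.sqrt_pos.2 (by positivity)
  have hε₁sq : ε₁ ^ 2 * c₀ = ε := by
    rw [hε₁, Real.sq_sqrt (by positivity)]
    field_simp
  obtain ⟨ρ, hρ, hρ1, hsmall⟩ := duv_small hX hch n h hε₁0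
  set m : ℝ := min δ₁ ρ with hm
  have hm0 : 0 < m := lt_min hδ₁ hρ
  refine ⟨min 1 (m ^ 2 / (2 * δ)), lt_min one_pos (by positivity), ?_⟩
  intro ξ η hξ hη hκ
  have hξn : 0 < ‖ξ‖ := norm_pos_iff.2 hξ
  have hηn : 0 < ‖η‖ := norm_pos_iff.2 hη
  have hκ1 : ‖ξ‖ ≤ ‖η‖ := by
    refine hκ.trans ?_
    have : min 1 (m ^ 2 / (2 * δ)) ≤ 1 := min_le_left _ _
    nlinarith
  have hκ2 : ‖ξ‖ * (2 * δ) ≤ m ^ 2 * ‖η‖ := by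
    have h1 : min 1 (m ^ 2 / (2 * δ)) ≤ m ^ 2 / (2 * δ) := min_le_right _ _
    have h2 : ‖ξ‖ ≤ m ^ 2 / (2 * δ) * ‖η‖ := hκ.trans (by gcongr)
    calc ‖ξ‖ * (2 * δ) ≤ m ^ 2 / (2 * δ) * ‖η‖ * (2 * δ) := by gcongr
      _ = m ^ 2 * ‖η‖ := by field_simp
  set r : ℝ := δ / ‖η‖ with hr
  have hr0 : 0 < r := by positivity
  have hrη : r * ‖η‖ = δ := by rw [hr]; field_simp
  have hnorm : ‖((ξ, η) : ℂ × ℂ)‖ = ‖η‖ := by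
    rw [Prod.norm_mk]
    exact max_eq_right hκ1
  -- the disc
  have hUo : IsOpen {z : ℂ | z • ((ξ, η) : ℂ × ℂ) ∈ ball (0 : ℂ × ℂ) δ₁} := isOpen_ball.preimage (by fun_prop)
  have hline : ∀ y : ℂ, AnalyticAt ℂ (fun y : ℂ => y • ((ξ, η) : ℂ × ℂ)) y := fun y => by fun_prop
  have hlined : ∀ y : ℂ, HasDerivAt (fun y : ℂ => y • ((ξ, η) : ℂ × ℂ)) (ξ, η) y := fun y => by
    simpa using (hasDerivAt_id y).smul_const ((ξ, η) : ℂ × ℂ)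
  have hFan : ∀ z : ℂ, z • ((ξ, η) : ℂ × ℂ) ∈ ball (0 : ℂ × ℂ) δ₁ → AnalyticAt ℂ (fun z : ℂ => σ (z • ((ξ, η) : ℂ × ℂ))) z := fun z hz =>
    AnalyticAt.fun_comp (g := σ) (f := fun y : ℂ => y • ((ξ, η) : ℂ × ℂ)) (hloc _ hz).2.1 (hline z)
  have hcurve : ∀ z : ℂ, z • ((ξ, η) : ℂ × ℂ) ∈ ball (0 : ℂ × ℂ) δ₁ → CurveAt X (fun z : ℂ => σ (z • ((ξ, η) : ℂ × ℂ))) z := fun z hz =>
    ⟨hFan z hz, (hline z).continuousAt.eventually (hloc _ hz).2.2⟩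
  have hin : ∀ z : ℂ, ‖z‖ ≤ r → z • ((ξ, η) : ℂ × ℂ) ∈ ball (0 : ℂ × ℂ) δ₁ := by
    intro z hz
    rw [mem_ball_zero_iff, norm_smul, hnorm]
    calc ‖z‖ * ‖η‖ ≤ r * ‖η‖ := by gcongr
      _ < δ₁ := by rw [hrη]; exact hδδ₁
  have h1 := n.curved {z : ℂ | z • ((ξ, η) : ℂ × ℂ) ∈ ball (0 : ℂ × ℂ) δ₁} (fun z : ℂ => σ (z • ((ξ, η) : ℂ × ℂ))) hUo
    (fun z hz => (hFan z hz).differentiableAt.differentiableWithinAt)
    (fun z hz => (hcurve z hz).2.self_of_nhds) 0 r hr0 (fun z hz => hin z (by simpa using hz))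
  have h2 : deriv (fun z : ℂ => σ (z • ((ξ, η) : ℂ × ℂ))) 0 = fderiv ℂ σ 0 (ξ, η) := by
    have h3 : HasFDerivAt σ (fderiv ℂ σ 0) ((0 : ℂ) • ((ξ, η) : ℂ × ℂ)) := by
      rw [zero_smul]
      exact h.chart.σ_an.differentiableAt.hasFDerivAt
    exact (h3.comp_hasDerivAt (0 : ℂ) (hlined 0)).deriv
  rw [h2] at h1
  simp only [zero_smul] at h1
  refine le_of_circleAverage hr0 h1 ?_ (by positivity)
  -- the circle
  intro z₁ hz₁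
  rw [sub_zero] at hz₁
  have hz₁0 : z₁ ≠ 0 := by
    rw [← norm_pos_iff, hz₁]
    exact hr0
  obtain ⟨a, ha, hasq, ha0, had⟩ := exists_sqrt (mul_ne_zero hξ hz₁0)
  set a₁ : ℂ := a z₁ with ha₁
  have ha₁n : 0 < ‖a₁‖ := norm_pos_iff.2 ha0
  have ha₁sq : ‖a₁‖ ^ 2 * ‖η‖ = ‖ξ‖ * δ := by
    rw [← norm_pow, hasq z₁, norm_mul, hz₁, mul_assoc, hrη]
  have ha₁m : ‖a₁‖ < m := by
    have h3 : ‖a₁‖ ^ 2 * ‖η‖ * 2 ≤ m ^ 2 * ‖η‖ := by rw [ha₁sq]; linarith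
    have h4 : ‖a₁‖ ^ 2 * 2 ≤ m ^ 2 := by
      refine le_of_mul_le_mul_right ?_ hηn
      linarith
    have h5 : ‖a₁‖ ^ 2 < m ^ 2 := by nlinarith
    exact lt_of_pow_lt_pow_left₀ 2 hm0.le h5
  have hv : ‖η * z₁‖ = δ := by rw [norm_mul, hz₁, mul_comm, hrη]
  -- the lifted curve
  set b : ℂ → ℂ × ℂ := fun z => (a z, a z * (η * z)) with hb
  have hban : AnalyticAt ℂ b z₁ := ha.prod (ha.mul (by fun_prop))
  have hb1 : b z₁ ≠ 0 := by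
    intro h3
    exact ha0 (congrArg Prod.fst h3)
  have hbn : ‖b z₁‖ < m := by
    have h3 : ‖a₁ * (η * z₁)‖ ≤ ‖a₁‖ := by
      rw [norm_mul, hv]
      nlinarith
    have h4 : ‖b z₁‖ = max ‖a₁‖ ‖a₁ * (η * z₁)‖ := Prod.norm_mk _ _
    rw [h4]
    exact max_lt ha₁m (h3.trans_lt ha₁m)
  have hbρ : ‖b z₁‖ < ρ := hbn.trans_le (min_le_right _ _)
  have hb1' : b z₁ ∈ ball (0 : ℂ × ℂ) 1 := by
    rw [mem_ball_zero_iff]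
    linarith
  have hΦan : AnalyticAt ℂ (fun z => Φ (b z)) z₁ := (h.an _ hb1').fun_comp hban
  have hpr : ∀ᶠ z in 𝓝 z₁, Pr (Φ (b z)) (σ (z • ((ξ, η) : ℂ × ℂ))) := by
    have h3 : ContinuousAt (fun z : ℂ => ((a z, η * z) : ℂ × ℂ)) z₁ := (ha.prod (by fun_prop : AnalyticAt ℂ (fun z : ℂ => η * z) z₁)).continuousAt
    have h4 : ((a z₁, η * z₁) : ℂ × ℂ) ∈ ball (0 : ℂ × ℂ) δ₁ := by
      rw [mem_ball_zero_iff, Prod.norm_mk]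
      refine max_lt (ha₁m.trans_le (min_le_left _ _)) ?_
      rw [hv]
      exact hδδ₁
    filter_upwards [h3.eventually (isOpen_ball.mem_nhds h4), ha.continuousAt.eventually_ne ha0] with z h5 h6
    have h7 := (hloc _ h5).1 h6
    have h8 : ((a z) ^ 2, η * z) = z • ((ξ, η) : ℂ × ℂ) := by
      rw [hasq z, Prod.smul_mk, smul_eq_mul, smul_eq_mul, mul_comm ξ z, mul_comm η z]
    simp only [h8] at h7
    exact h7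
  have h3 := length_pr hX n (hcurve z₁ (hin z₁ hz₁.le)) hΦan hpr
  have hbd : HasDerivAt b (ξ / (2 * a₁), ξ / (2 * a₁) * (η * z₁) + a₁ * η) z₁ := by
    have h4 : HasDerivAt a (ξ / (2 * a₁)) z₁ := by
      rw [← had]
      exact ha.differentiableAt.hasDerivAt
    have h5 : HasDerivAt (fun z : ℂ => η * z) η z₁ := by simpa using (hasDerivAt_id z₁).const_mul η
    exact h4.prodMk (h4.mul h5)
  have h4 : deriv (fun z => Φ (b z)) z₁ = fderiv ℂ Φ (b z₁) (ξ / (2 * a₁), ξ / (2 * a₁) * (η * z₁) + a₁ * η) :=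
    ((h.an _ hb1').differentiableAt.hasFDerivAt.comp_hasDerivAt z₁ hbd).deriv
  rw [h4] at h3
  obtain ⟨w, hwdef⟩ : ∃ w : ℂ × ℂ, w = (ξ / (2 * a₁), ξ / (2 * a₁) * (η * z₁) + a₁ * η) := ⟨_, rfl⟩
  rw [← hwdef] at h3
  have h5 := hsmall (b z₁) w hb1 hbρ
  show n.toFun (σ (z₁ • ((ξ, η) : ℂ × ℂ))) (deriv (fun z : ℂ => σ (z • ((ξ, η) : ℂ × ℂ))) z₁) ^ 2 ≤ ε * (‖ξ‖ * ‖η‖)
  rw [← h3]
  have hn0 : 0 ≤ n.toFun (Φ (b z₁)) (fderiv ℂ Φ (b z₁) w) :=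
    n.nonneg _ _ (h.tan hb1 (by rwa [mem_ball_zero_iff] at hb1') _)
  have hw : ‖w‖ ≤ ‖ξ‖ / (2 * ‖a₁‖) + ‖a₁‖ * ‖η‖ := by
    have e1 : ‖ξ / (2 * a₁)‖ = ‖ξ‖ / (2 * ‖a₁‖) := by rw [norm_div, norm_mul]; norm_num
    rw [hwdef, Prod.norm_mk]
    refine max_le ?_ ?_
    · rw [e1]
      have : 0 ≤ ‖a₁‖ * ‖η‖ := by positivity
      linarith
    · refine (norm_add_le _ _).trans ?_
      rw [norm_mul, norm_mul a₁ η, hv, e1]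
      have : 0 ≤ ‖ξ‖ / (2 * ‖a₁‖) := by positivity
      nlinarith
  have hw2 : ‖w‖ ^ 2 ≤ c₀ * (‖ξ‖ * ‖η‖) := by
    have e1 : (‖ξ‖ / (2 * ‖a₁‖) + ‖a₁‖ * ‖η‖) ^ 2 ≤ 2 * (‖ξ‖ / (2 * ‖a₁‖)) ^ 2 + 2 * (‖a₁‖ * ‖η‖) ^ 2 := by
      nlinarith [sq_nonneg (‖ξ‖ / (2 * ‖a₁‖) - ‖a₁‖ * ‖η‖)]
    have e2 : ‖a₁‖ ^ 2 = ‖ξ‖ * δ / ‖η‖ := by
      rw [eq_div_iff hηn.ne', ha₁sq]
    have e3 : 2 * (‖ξ‖ / (2 * ‖a₁‖)) ^ 2 + 2 * (‖a₁‖ * ‖η‖) ^ 2 = c₀ * (‖ξ‖ * ‖η‖) := by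
      rw [div_pow, mul_pow, mul_pow, e2, hc₀]
      field_simp
    rw [← e3]
    exact (pow_le_pow_left₀ (norm_nonneg _) hw 2).trans e1
  have h6 : n.toFun (Φ (b z₁)) (fderiv ℂ Φ (b z₁) w) ^ 2 ≤ (ε₁ * ‖w‖) ^ 2 := pow_le_pow_left₀ hn0 h5 2
  refine h6.trans ?_
  rw [mul_pow]
  calc ε₁ ^ 2 * ‖w‖ ^ 2 ≤ ε₁ ^ 2 * (c₀ * (‖ξ‖ * ‖η‖)) := by gcongr
    _ = ε * (‖ξ‖ * ‖η‖) := by rw [← mul_assoc, hε₁sq]

end Pool.Agent.SG
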