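import Pool.Agent.SG.Sec

/-!
# SG DuvS: the sub-mean property of a pseudo-length on one tangent plane

`n` a pseudo-length, `σ` a chart at `σ 0`, `W : ℂ → ℂ²` entire: the function `z ↦ n (σ 0) (Dσ(0) (W' z)) ^ 2` has the sub-mean property on all circles.
-/

set_option autoImplicit false

open Topology Filter Metric MeasureTheory

noncomputable section

namespace Pool.Agent.SG

open Pool.Agent.H17BP (Surface IsChart Pr)
open Pool.Agent.H36.BP (EN)
open Pool.Agent.H14.PP (CurveAt IsCone)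
open Pool.Agent.H22.W (PseudoLength tan_curve)

variable {N : ℕ} {X : Set (EN N)}

/-- MODULE DuvS. -/
theorem duv_sub (n : PseudoLength X) {σ : ℂ × ℂ → EN N} {τ : EN N → ℂ × ℂ} (hσ : IsChart X σ τ) {W : ℂ → ℂ × ℂ} (hW : Differentiable ℂ W)
    (z₀ : ℂ) {r : ℝ} (hr : 0 < r) :
    n.toFun (σ 0) (fderiv ℂ σ 0 (deriv W z₀)) ^ 2 ≤ Real.circleAverage (fun z => n.toFun (σ 0) (fderiv ℂ σ 0 (deriv W z)) ^ 2) z₀ r := by
  -- the good points of the chart
  have hgood : ∀ᶠ p in 𝓝 (0 : ℂ × ℂ), AnalyticAt ℂ σ p ∧ σ p ∈ X ∧ ∀ w : ℂ × ℂ, Pool.Agent.H14.PP.Tan X (σ p) (fderiv ℂ σ p w) :=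
    hσ.σ_an.eventually_analyticAt.and (hσ.σ_mem.and (tan_of_chart hσ))
  obtain ⟨δ, hδ, hball⟩ := Metric.nhds_basis_closedBall.eventually_iff.1 hgood
  -- the bounds on the disc
  have hWc : Continuous W := hW.continuous
  have hWd : Continuous (deriv W) := by
    have h1 : ContDiff ℂ 1 W := hW.contDiff
    exact h1.continuous_deriv le_rfl
  obtain ⟨M, hM⟩ := (isCompact_closedBall z₀ (r + 1)).exists_bound_of_continuousOn hWc.continuousOn
  obtain ⟨M', hM'⟩ := (isCompact_closedBall z₀ (r + 1)).exists_bound_of_continuousOn hWd.continuousOn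
  have hM0 : 0 ≤ M := (norm_nonneg _).trans (hM z₀ (mem_closedBall_self (by linarith)))
  obtain ⟨f, hf⟩ : ∃ f : (ℂ × ℂ) × (ℂ × ℂ) → ℝ, f = fun q => n.toFun (σ q.1) (fderiv ℂ σ q.1 q.2) ^ 2 := ⟨_, rfl⟩
  obtain ⟨S, hS⟩ : ∃ S : Set ((ℂ × ℂ) × (ℂ × ℂ)), S = closedBall (0 : ℂ × ℂ) δ ×ˢ closedBall (0 : ℂ × ℂ) M' := ⟨_, rfl⟩
  have hSc : IsCompact S := by
    rw [hS]
    exact (isCompact_closedBall _ _).prod (isCompact_closedBall _ _)
  have hfc : ContinuousOn f S := by
    rw [hf]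
    refine ContinuousOn.pow ?_ 2
    have h1 : ContinuousOn (fun q : (ℂ × ℂ) × (ℂ × ℂ) => (σ q.1, fderiv ℂ σ q.1 q.2)) S := by
      intro q hq
      rw [hS] at hq
      have hq1 := (hball hq.1).1
      have g1 : ContinuousAt (fun q : (ℂ × ℂ) × (ℂ × ℂ) => σ q.1) q := hq1.continuousAt.comp continuousAt_fst
      have g2 : ContinuousAt (fun q : (ℂ × ℂ) × (ℂ × ℂ) => fderiv ℂ σ q.1) q := hq1.fderiv.continuousAt.comp continuousAt_fst
      exact (g1.prodMk (g2.clm_apply continuousAt_snd)).continuousWithinAt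
    refine n.continuous.comp h1 ?_
    intro q hq
    rw [hS] at hq
    exact (hball hq.1).2.2 q.2
  obtain ⟨B, hB⟩ := hSc.exists_bound_of_continuousOn hfc
  -- the scales
  obtain ⟨ε, hε⟩ : ∃ ε : ℕ → ℝ, ε = fun k : ℕ => δ / (M + 1) * (1 / ((k : ℝ) + 1)) := ⟨_, rfl⟩
  have hε0 : ∀ k, 0 < ε k := by
    intro k
    rw [hε]
    positivity
  have hεM : ∀ k, ε k * M ≤ δ := by
    intro k
    have h1 : ε k ≤ δ / (M + 1) := by
      rw [hε]
      have h2 : 1 / ((k : ℝ) + 1) ≤ 1 := by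
        rw [div_le_one (by positivity)]
        have : (0 : ℝ) ≤ k := Nat.cast_nonneg k
        linarith
      have h3 : 0 ≤ δ / (M + 1) := by positivity
      nlinarith
    calc ε k * M ≤ δ / (M + 1) * M := mul_le_mul_of_nonneg_right h1 hM0
      _ ≤ δ / (M + 1) * (M + 1) := mul_le_mul_of_nonneg_left (by linarith) (by positivity)
      _ = δ := by field_simp
  have hεt : Tendsto ε atTop (𝓝 0) := by
    rw [hε]
    have h1 := (tendsto_one_div_add_atTop_nhds_zero_nat (𝕜 := ℝ)).const_mul (δ / (M + 1))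
    rwa [mul_zero] at h1
  have hsmall : ∀ k, ∀ z ∈ closedBall z₀ (r + 1), ((ε k : ℂ) • W z, deriv W z) ∈ S := by
    intro k z hz
    rw [hS]
    refine ⟨?_, ?_⟩
    · rw [mem_closedBall_zero_iff, norm_smul, Complex.norm_real, Real.norm_of_nonneg (hε0 k).le]
      exact (mul_le_mul_of_nonneg_left (hM z hz) (hε0 k).le).trans (hεM k)
    · rw [mem_closedBall_zero_iff]
      exact hM' z hz
  have hsph : ∀ θ : ℝ, circleMap z₀ r θ ∈ closedBall z₀ (r + 1) := fun θ =>
    closedBall_subset_closedBall (by linarith) (sphere_subset_closedBall (circleMap_mem_sphere z₀ hr.le θ))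
  -- the inequality for the small discs
  have hineq : ∀ k, f ((ε k : ℂ) • W z₀, deriv W z₀) ≤ Real.circleAverage (fun z => f ((ε k : ℂ) • W z, deriv W z)) z₀ r := by
    intro k
    have hU : ∀ z ∈ ball z₀ (r + 1), (ε k : ℂ) • W z ∈ closedBall (0 : ℂ × ℂ) δ := by
      intro z hz
      have := hsmall k z (ball_subset_closedBall hz)
      rw [hS] at this
      exact this.1
    have hFd : ∀ z ∈ ball z₀ (r + 1), HasDerivAt (fun z => σ ((ε k : ℂ) • W z)) (fderiv ℂ σ ((ε k : ℂ) • W z) ((ε k : ℂ) • deriv W z)) z := by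
      intro z hz
      have g1 : HasFDerivAt σ (fderiv ℂ σ ((ε k : ℂ) • W z)) ((ε k : ℂ) • W z) := (hball (hU z hz)).1.differentiableAt.hasFDerivAt
      have g2 : HasDerivAt (fun z => (ε k : ℂ) • W z) ((ε k : ℂ) • deriv W z) z := (hW z).hasDerivAt.const_smul (ε k : ℂ)
      exact g1.comp_hasDerivAt z g2
    have hval : ∀ z ∈ ball z₀ (r + 1), n.toFun (σ ((ε k : ℂ) • W z)) (deriv (fun z => σ ((ε k : ℂ) • W z)) z) ^ 2 =
        ε k ^ 2 * f ((ε k : ℂ) • W z, deriv W z) := by
      intro z hz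
      rw [(hFd z hz).deriv, map_smul, n.smul _ _ ((hball (hU z hz)).2.2 _), hf, Complex.norm_real, Real.norm_of_nonneg (hε0 k).le, mul_pow]
    have h1 := n.curved (ball z₀ (r + 1)) (fun z => σ ((ε k : ℂ) • W z)) isOpen_ball
      (fun z hz => (hFd z hz).differentiableAt.differentiableWithinAt) (fun z hz => (hball (hU z hz)).2.1) z₀ r hr
      (closedBall_subset_ball (by linarith))
    rw [hval z₀ (mem_ball_self (by linarith))] at h1
    have h2 : Real.circleAverage (fun z => n.toFun (σ ((ε k : ℂ) • W z)) (deriv (fun z => σ ((ε k : ℂ) • W z)) z) ^ 2) z₀ r =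
        ε k ^ 2 * Real.circleAverage (fun z => f ((ε k : ℂ) • W z, deriv W z)) z₀ r := by
      rw [← smul_eq_mul, ← Real.circleAverage_fun_smul]
      refine Real.circleAverage_congr_sphere ?_
      intro z hz
      rw [abs_of_pos hr] at hz
      exact hval z (sphere_subset_closedBall hz |> closedBall_subset_ball (by linarith))
    rw [h2] at h1
    exact le_of_mul_le_mul_left h1 (pow_pos (hε0 k) 2)
  -- the limit
  have hlim : ∀ z ∈ closedBall z₀ (r + 1), Tendsto (fun k => f ((ε k : ℂ) • W z, deriv W z)) atTop (𝓝 (f (0, deriv W z))) := by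
    intro z hz
    have g0 : ((0 : ℂ × ℂ), deriv W z) ∈ S := by
      rw [hS]
      refine ⟨mem_closedBall_self hδ.le, ?_⟩
      rw [mem_closedBall_zero_iff]
      exact hM' z hz
    have g1 : Tendsto (fun k => ((ε k : ℂ) • W z, deriv W z)) atTop (𝓝 ((0 : ℂ × ℂ), deriv W z)) := by
      have g2 : Tendsto (fun k => (ε k : ℂ)) atTop (𝓝 (0 : ℂ)) := by
        have h5 := (Complex.continuous_ofReal.tendsto 0).comp hεt
        rw [Complex.ofReal_zero] at h5
        exact h5
      have g3 := g2.smul_const (W z)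
      rw [zero_smul] at g3
      exact g3.prodMk_nhds tendsto_const_nhds
    have g4 : Tendsto (fun k => ((ε k : ℂ) • W z, deriv W z)) atTop (𝓝[S] ((0 : ℂ × ℂ), deriv W z)) :=
      tendsto_nhdsWithin_iff.2 ⟨g1, Eventually.of_forall fun k => hsmall k z hz⟩
    exact (hfc _ g0).tendsto.comp g4
  have hf0 : ∀ z, f (0, deriv W z) = n.toFun (σ 0) (fderiv ℂ σ 0 (deriv W z)) ^ 2 := by
    intro z
    rw [hf]
  have hcirc : Continuous fun θ : ℝ => circleMap z₀ r θ := continuous_circleMap z₀ r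
  have hint : Tendsto (fun k => ∫ θ in (0 : ℝ)..2 * Real.pi, f ((ε k : ℂ) • W (circleMap z₀ r θ), deriv W (circleMap z₀ r θ))) atTop
      (𝓝 (∫ θ in (0 : ℝ)..2 * Real.pi, f (0, deriv W (circleMap z₀ r θ)))) := by
    refine intervalIntegral.tendsto_integral_filter_of_dominated_convergence (fun _ => B) ?_ ?_ ?_ ?_
    · refine Eventually.of_forall fun k => ?_
      have h1 : Continuous fun θ : ℝ => ((ε k : ℂ) • W (circleMap z₀ r θ), deriv W (circleMap z₀ r θ)) :=
        ((hWc.comp hcirc).const_smul (ε k : ℂ)).prodMk (hWd.comp hcirc)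
      exact (hfc.comp_continuous h1 fun θ => hsmall k _ (hsph θ)).aestronglyMeasurable
    · exact Eventually.of_forall fun k => Eventually.of_forall fun θ _ => hB _ (hsmall k _ (hsph θ))
    · exact intervalIntegrable_const
    · exact Eventually.of_forall fun θ _ => hlim _ (hsph θ)
  have hL := hlim z₀ (mem_closedBall_self (by linarith))
  have hR : Tendsto (fun k => Real.circleAverage (fun z => f ((ε k : ℂ) • W z, deriv W z)) z₀ r) atTop
      (𝓝 (Real.circleAverage (fun z => f (0, deriv W z)) z₀ r)) := hint.const_mul (2 * Real.pi)⁻¹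
  have h := le_of_tendsto_of_tendsto hL hR (Eventually.of_forall hineq)
  simp only [hf0] at h
  exact h

end Pool.Agent.SG
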