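import Pool.Agent.SG.Can
import Pool.Agent.SG.Bub
import Pool.Agent.SY.Joint

/-!
# SG End: no bubbles on a surface with a pluricanonical form without zeros
-/

set_option autoImplicit false

open Topology Filter Metric MvPolynomial

noncomputable section

namespace Pool.Agent.SG

open Pool.Agent.H36.BP (EN)
open Pool.Agent.H17BP (Surface IsChart IsForm NoZeros)
open Pool.Agent.H22.W (PseudoLength)
open Pool.Agent.H17EF (coneE)
open Pool.Agent.H17LG.Variety (FunField)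
open Pool.Agent.H13.SM (conTan)
open Pool.Agent.H62.FC (Homog)
open Pool.Agent.SY (NullIn NoBubbles NoBubblesAll zer)

variable {N : ℕ}

/-- **No bubbles.** -/
theorem noBubblesAll {P : Ideal (MvPolynomial (Fin (N + 1)) ℂ)} [P.IsPrime] {z : Fin 2 → FunField P} (hP : Homog P) (hz : IsTranscendenceBasis ℂ z)
    (hsm : ∀ y : Fin (N + 1) → ℂ, y ≠ 0 → (∀ Q ∈ P, eval y Q = 0) → Module.finrank ℂ (conTan P y) ≤ 3) {m j : ℕ} (hm : 1 ≤ m) (hj : 1 ≤ j)
    {Ω : EN N → EN N → EN N → ℂ} (hΩ : IsForm (coneE P) m j Ω) (hnz : NoZeros (coneE P) ∅ Ω) : NoBubblesAll P := by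
  have hX := Pool.Agent.H90.SG.surface_coneE hP hz hsm
  have hc := isCone_of_surface hX
  intro n R d hR hRP hN
  refine ⟨1, 0, isHomogeneous_one _ _, fun h => Ideal.IsPrime.ne_top ‹P.IsPrime› ((Ideal.eq_top_iff_one P).2 h), ?_⟩
  intro 𝒰 F v H u r M hb
  by_contra hM
  have hM : 1 ≤ M := Nat.one_le_iff_ne_zero.2 hM
  have hH : Pool.Agent.H14.PP.CurveAt (coneE P) H 0 := ⟨hb.cls_H.1.diff.analyticAt 0, Eventually.of_forall hb.cls_H.1.mem⟩
  have hnH : n.toFun (H 0) (deriv H 0) ≠ 0 := by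
    rw [hb.cls_H.2 0]
    exact one_ne_zero
  obtain ⟨σ, τ, hσ, h0, hd, hnσ⟩ := exists_chart_dir hX hc n hH hnH
  obtain ⟨Q, D, hD, hQ, hQP, -, hMS, hq, hT, hrat⟩ := exists_curve hP hz hsm n hR hRP hN hm hj hΩ hnz hσ (hnσ ▸ hnH)
  exact bub hMS hc hb hM hσ h0 hd hq hT (fun d K K' h1 _ h2 => hrat d K K' h1 h2) (μ := 0) (by positivity)
    (hord_zero hΩ hnz hσ (Set.notMem_empty _))

end Pool.Agent.SG
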