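import Pool.Agent.SG.End
import Pool.Agent.SY.Fin
import Pool.Agent.H90.SG.Poly

/-!
# SG Fin: the main theorem for surfaces with a pluricanonical form without zeros
-/

set_option autoImplicit false

open Topology Filter Metric MvPolynomial

noncomputable section

namespace Pool.Agent.SG

open Pool.Agent.H17 (PN VanishesAt HolomorphicInto)
open Pool.Agent.H62.FC (Homog)
open Pool.Agent.H17LG.Variety (FunField)
open Pool.Agent.H13.OT (OrderTwo)
open Pool.Agent.H17EF (projVar coneE)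
open Pool.Agent.H17BP (IsForm NoZeros)
open Pool.Agent.H36.BP (EN)
open Pool.Agent.AD (NullClass)
open Pool.Agent.AD.NC (IsSmooth IsOfLogGeneralType)
open Pool.Agent.SY (IsHyperbolicSurface)

variable {N : ℕ} {P : Ideal (MvPolynomial (Fin (N + 1)) ℂ)}

/-- **SE.**  A form without zeros in `m K_X - j H`. -/
theorem main_form [P.IsPrime] (hP : Homog P) (hdim : ∃ z : Fin 2 → FunField P, IsTranscendenceBasis ℂ z) (hsmooth : IsSmooth P 2)
    (hgt : IsOfLogGeneralType P (Fin.elim0 : Fin 0 → MvPolynomial (Fin (N + 1)) ℂ) 2)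
    {m j : ℕ} (hm : 1 ≤ m) (hj : 1 ≤ j) {Ω : EN N → EN N → EN N → ℂ} (hΩ : IsForm (coneE P) m j Ω) (hnz : NoZeros (coneE P) ∅ Ω)
    (A : Set (ℂ → PN N)) (hA : NullClass P A) (R : MvPolynomial (Fin (N + 1)) ℂ) (d : ℕ) (hR : R.IsHomogeneous d) (hRP : R ∉ P)
    (hnull : ∀ f : ℂ → PN N, HolomorphicInto f Set.univ → OrderTwo f → (∀ z, f z ∈ projVar P) → (∃ z w, f z ≠ f w) → f ∈ A →
      ∀ z, VanishesAt R (f z)) : IsHyperbolicSurface P := by
  obtain ⟨z, hz⟩ := id hdim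
  have hsm : ∀ y : Fin (N + 1) → ℂ, y ≠ 0 → (∀ Q ∈ P, eval y Q = 0) → Module.finrank ℂ (Pool.Agent.H13.SM.conTan P y) ≤ 3 :=
    fun y h0 h1 => hsmooth y h0 h1
  have hc := isCone_of_surface (Pool.Agent.H90.SG.surface_coneE hP hz hsm)
  exact Pool.Agent.SY.hyperbolic_of hP hdim hsmooth hgt
    (Pool.Agent.SY.stepBAll_of_noBubblesAll hc (noBubblesAll hP hz hsm hm hj hΩ hnz)) A hA R d hR hRP hnull

end Pool.Agent.SG
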