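import Mathlib

/-!
# SG LimA: the chart on the neck
-/

set_option autoImplicit false

open Topology Filter Metric

noncomputable section

namespace Pool.Agent.SG

/-- the normalised point and its coordinates -/
theorem nk_tau {E F : Type*} [NormedAddCommGroup E] [NormedSpace ℂ E] [NormedAddCommGroup F] [NormedSpace ℂ F] {q : E → F} {x₀ v : E}
    {D : E →L[ℂ] F} (hq : HasFDerivAt q D x₀) (hq0 : q x₀ = 0) (ℓ : E →L[ℂ] ℂ) {ε₁ : ℝ} (hε₁ : 0 < ε₁) :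
    ∃ η : ℝ, 0 < η ∧ η ≤ 1 / 2 ∧ ∀ (y : E) (h : ℂ) (m : ℕ), h ≠ 0 → ‖h‖ ≤ η → ‖ℓ y - h ^ m‖ ≤ η * ‖h‖ ^ m →
      ‖(y - ℓ y • x₀) - h ^ (m + 1) • v‖ ≤ η * ‖h‖ ^ (m + 1) →
      ℓ y ≠ 0 ∧ ‖h‖ ^ m / 2 ≤ ‖ℓ y‖ ∧ ‖ℓ y‖ ≤ 2 * ‖h‖ ^ m ∧ ‖(ℓ y)⁻¹ • y - x₀‖ ≤ ε₁ ∧ ‖q ((ℓ y)⁻¹ • y) - h • D v‖ ≤ ε₁ * ‖h‖ := by
  have hv : 0 ≤ ‖v‖ := norm_nonneg v
  have hD : 0 ≤ ‖D‖ := norm_nonneg D
  set A : ℝ := 1 + 2 * ‖v‖ with hA
  have hA0 : 0 < A := by positivity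
  have h1 : ∀ᶠ z in 𝓝 (0 : E), ‖q (x₀ + z) - D z‖ ≤ ε₁ / (2 * A) * ‖z‖ := by
    have h2 := hasFDerivAt_iff_isLittleO_nhds_zero.1 hq
    have h3 := h2.def (show (0 : ℝ) < ε₁ / (2 * A) by positivity)
    filter_upwards [h3] with z hz
    rwa [hq0, sub_zero] at hz
  obtain ⟨δ, hδ, hδ2⟩ := Metric.eventually_nhds_iff_ball.1 h1
  set η : ℝ := min (1 / 2) (min (ε₁ / (4 * (‖D‖ + 1) * (1 + ‖v‖))) (min (δ / (2 * A)) (ε₁ / A))) with hη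
  have hη0 : 0 < η := by
    rw [hη]
    positivity
  refine ⟨η, hη0, min_le_left _ _, fun y h m hh hh1 hy1 hy2 => ?_⟩
  have hη1 : η ≤ 1 / 2 := min_le_left _ _
  have hη2 : η ≤ ε₁ / (4 * (‖D‖ + 1) * (1 + ‖v‖)) := (min_le_right _ _).trans (min_le_left _ _)
  have hη3 : η ≤ δ / (2 * A) := (min_le_right _ _).trans ((min_le_right _ _).trans (min_le_left _ _))
  have hη4 : η ≤ ε₁ / A := (min_le_right _ _).trans ((min_le_right _ _).trans (min_le_right _ _))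
  have hn : 0 < ‖h‖ := norm_pos_iff.2 hh
  have hnm : 0 < ‖h‖ ^ m := pow_pos hn m
  have hl1 : ‖h‖ ^ m / 2 ≤ ‖ℓ y‖ := by
    have h2 : ‖h ^ m‖ - ‖ℓ y‖ ≤ ‖ℓ y - h ^ m‖ := by
      have := norm_sub_norm_le (h ^ m) (ℓ y)
      rwa [norm_sub_rev] at this
    rw [norm_pow] at h2
    nlinarith
  have hl2 : ‖ℓ y‖ ≤ 2 * ‖h‖ ^ m := by
    have h2 : ‖ℓ y‖ - ‖h ^ m‖ ≤ ‖ℓ y - h ^ m‖ := norm_sub_norm_le _ _
    rw [norm_pow] at h2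
    nlinarith
  have hl0 : ℓ y ≠ 0 := by
    intro h0
    rw [h0, norm_zero] at hl1
    linarith
  refine ⟨hl0, hl1, hl2, ?_⟩
  set z : E := (ℓ y)⁻¹ • y - x₀ with hz
  clear_value z
  have hz1 : z = (ℓ y)⁻¹ • (y - ℓ y • x₀) := by
    rw [hz, smul_sub, inv_smul_smul₀ hl0]
  have hz2 : z - h • v = (ℓ y)⁻¹ • (((y - ℓ y • x₀) - h ^ (m + 1) • v) - ((ℓ y - h ^ m) * h) • v) := by
    rw [hz1]
    have h3 : h • v = (ℓ y)⁻¹ • ((ℓ y * h) • v) := by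
      rw [smul_smul, inv_mul_cancel_left₀ hl0]
    rw [h3, ← smul_sub]
    congr 1
    rw [sub_mul, sub_smul, pow_succ]
    abel
  have hz3 : ‖z - h • v‖ ≤ 2 * η * (1 + ‖v‖) * ‖h‖ := by
    rw [hz2, norm_smul, norm_inv]
    have h3 : ‖((y - ℓ y • x₀) - h ^ (m + 1) • v) - ((ℓ y - h ^ m) * h) • v‖ ≤ η * ‖h‖ ^ (m + 1) + η * ‖h‖ ^ m * ‖h‖ * ‖v‖ := by
      refine (norm_sub_le _ _).trans (add_le_add hy2 ?_)
      rw [norm_smul, norm_mul]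
      gcongr
    have h4 : (‖ℓ y‖)⁻¹ ≤ 2 * (‖h‖ ^ m)⁻¹ := by
      rw [show 2 * (‖h‖ ^ m)⁻¹ = (‖h‖ ^ m / 2)⁻¹ by rw [inv_div, div_eq_mul_inv]]
      exact inv_anti₀ (by positivity) hl1
    calc (‖ℓ y‖)⁻¹ * ‖((y - ℓ y • x₀) - h ^ (m + 1) • v) - ((ℓ y - h ^ m) * h) • v‖
        ≤ 2 * (‖h‖ ^ m)⁻¹ * (η * ‖h‖ ^ (m + 1) + η * ‖h‖ ^ m * ‖h‖ * ‖v‖) := by gcongr
      _ = 2 * η * (1 + ‖v‖) * ‖h‖ := by
        field_simp
        ring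
  have hz4 : ‖z‖ ≤ A * ‖h‖ := by
    have h3 : ‖z‖ ≤ ‖z - h • v‖ + ‖h • v‖ := by
      have := norm_add_le (z - h • v) (h • v)
      rwa [sub_add_cancel] at this
    rw [norm_smul] at h3
    have h4 : 2 * η * (1 + ‖v‖) * ‖h‖ ≤ (1 + ‖v‖) * ‖h‖ := by
      have : 2 * η ≤ 1 := by linarith
      have h5 : 0 ≤ (1 + ‖v‖) * ‖h‖ := by positivity
      nlinarith
    rw [hA]
    nlinarith
  have hz5 : ‖z‖ ≤ A * η := hz4.trans (by gcongr)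
  refine ⟨hz5.trans ?_, ?_⟩
  · rw [le_div_iff₀ hA0] at hη4
    linarith
  · have hz6 : z ∈ ball (0 : E) δ := by
      rw [mem_ball_zero_iff]
      refine hz5.trans_lt ?_
      rw [le_div_iff₀ (by positivity)] at hη3
      nlinarith
    have h3 := hδ2 z hz6
    have h4 : x₀ + z = (ℓ y)⁻¹ • y := by
      rw [hz]
      abel
    rw [h4] at h3
    have h5 : q ((ℓ y)⁻¹ • y) - h • D v = (q ((ℓ y)⁻¹ • y) - D z) + D (z - h • v) := by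
      rw [map_sub, map_smul]
      abel
    rw [h5]
    have h6 : ‖D (z - h • v)‖ ≤ ‖D‖ * (2 * η * (1 + ‖v‖) * ‖h‖) := (D.le_opNorm _).trans (by gcongr)
    have h7 : ‖D‖ * (2 * η * (1 + ‖v‖) * ‖h‖) ≤ ε₁ / 2 * ‖h‖ := by
      rw [le_div_iff₀ (by positivity)] at hη2
      have h8 : ‖D‖ * (2 * η * (1 + ‖v‖)) ≤ ε₁ / 2 := by nlinarith [mul_nonneg hη0.le (by positivity : (0 : ℝ) ≤ 1 + ‖v‖)]
      calc ‖D‖ * (2 * η * (1 + ‖v‖) * ‖h‖) = ‖D‖ * (2 * η * (1 + ‖v‖)) * ‖h‖ := by ring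
        _ ≤ ε₁ / 2 * ‖h‖ := by gcongr
    have h9 : ε₁ / (2 * A) * ‖z‖ ≤ ε₁ / 2 * ‖h‖ := by
      calc ε₁ / (2 * A) * ‖z‖ ≤ ε₁ / (2 * A) * (A * ‖h‖) := by gcongr
        _ = ε₁ / 2 * ‖h‖ := by field_simp
    calc ‖(q ((ℓ y)⁻¹ • y) - D z) + D (z - h • v)‖ ≤ ‖q ((ℓ y)⁻¹ • y) - D z‖ + ‖D (z - h • v)‖ := norm_add_le _ _
      _ ≤ ε₁ / 2 * ‖h‖ + ε₁ / 2 * ‖h‖ := add_le_add (h3.trans h9) (h6.trans h7)
      _ = ε₁ * ‖h‖ := by ring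

/-- Cauchy's estimate in the disc of radius `‖h‖ / 2` about `h` -/
theorem nk_deriv {E : Type*} [NormedAddCommGroup E] [NormedSpace ℂ E] {f : ℂ → E} {h : ℂ} (hh : h ≠ 0) {A : ℝ}
    (hf : ∀ z ∈ closedBall h (‖h‖ / 2), DifferentiableAt ℂ f z) (hA : ∀ z ∈ closedBall h (‖h‖ / 2), ‖f z‖ ≤ A) :
    ‖deriv f h‖ ≤ 2 * A / ‖h‖ := by
  have hn : 0 < ‖h‖ := norm_pos_iff.2 hh
  have h1 := Complex.norm_deriv_le_of_forall_mem_sphere_norm_le (c := h) (R := ‖h‖ / 2) (C := A) (f := f) (by positivity) ?_ ?_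
  · calc ‖deriv f h‖ ≤ A / (‖h‖ / 2) := h1
      _ = 2 * A / ‖h‖ := by field_simp
  · have hd : DifferentiableOn ℂ f (closure (ball h (‖h‖ / 2))) := fun z hz =>
      (hf z (closure_ball_subset_closedBall hz)).differentiableWithinAt
    exact hd.diffContOnCl
  · intro z hz
    exact hA z (sphere_subset_closedBall hz)

/-- the size of the weighted metric on the neck -/
theorem nk_upper {a b k H x y t L : ℝ} {m : ℕ} (ha : 0 ≤ a) (hb : 0 ≤ b) (hk : k ≤ 1) (hH : 0 < H) (hx0 : H / 2 ≤ x) (hx : x ≤ 2 * H)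
    (hy : y ≤ 2) (hy0 : 0 ≤ y) (ht : 0 ≤ t) (hL : H ^ m / 2 ≤ L) :
    x ^ a * max y (x ^ (1 - k) * t) * L ^ (-b) ≤ 2 ^ a * (2 * 2 ^ (1 - k)) * 2 ^ b * (H ^ (a - b * m) * max 1 (H ^ (1 - k) * t)) := by
  have hx1 : 0 < x := by linarith
  have hHm : 0 < H ^ m := pow_pos hH m
  have h1 : x ^ a ≤ 2 ^ a * H ^ a := by
    rw [← Real.mul_rpow (by norm_num) hH.le]
    exact Real.rpow_le_rpow hx1.le hx ha
  have h2 : x ^ (1 - k) ≤ 2 ^ (1 - k) * H ^ (1 - k) := by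
    rw [← Real.mul_rpow (by norm_num) hH.le]
    exact Real.rpow_le_rpow hx1.le hx (by linarith)
  have h3 : L ^ (-b) ≤ 2 ^ b * (H ^ (-(b * m)) : ℝ) := by
    have h4 : L ^ (-b) ≤ (H ^ m / 2) ^ (-b) := Real.rpow_le_rpow_of_nonpos (by positivity) hL (by linarith)
    refine h4.trans (le_of_eq ?_)
    rw [Real.div_rpow hHm.le (by norm_num), Real.rpow_neg (by norm_num : (0 : ℝ) ≤ 2), div_inv_eq_mul, mul_comm, ← Real.rpow_natCast,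
      ← Real.rpow_mul hH.le]
    congr 2
    ring
  have h5 : (1 : ℝ) ≤ 2 ^ (1 - k) := Real.one_le_rpow (by norm_num) (by linarith)
  have h6 : max y (x ^ (1 - k) * t) ≤ 2 * 2 ^ (1 - k) * max 1 (H ^ (1 - k) * t) := by
    refine max_le ?_ ?_
    · have : (1 : ℝ) ≤ max 1 (H ^ (1 - k) * t) := le_max_left _ _
      nlinarith [mul_nonneg (by linarith : (0 : ℝ) ≤ 2 ^ (1 - k) - 1) (by linarith : (0 : ℝ) ≤ max 1 (H ^ (1 - k) * t))]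
    · have h7 : x ^ (1 - k) * t ≤ 2 ^ (1 - k) * (H ^ (1 - k) * t) := by
        calc x ^ (1 - k) * t ≤ 2 ^ (1 - k) * H ^ (1 - k) * t := by gcongr
          _ = _ := by ring
      have h8 : H ^ (1 - k) * t ≤ max 1 (H ^ (1 - k) * t) := le_max_right _ _
      have h9 : 0 ≤ H ^ (1 - k) * t := mul_nonneg (Real.rpow_nonneg hH.le _) ht
      nlinarith [mul_le_mul_of_nonneg_left h8 (by linarith : (0 : ℝ) ≤ 2 ^ (1 - k)), mul_nonneg (by linarith : (0 : ℝ) ≤ 2 ^ (1 - k)) h9]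
  have h7 : 0 ≤ max y (x ^ (1 - k) * t) := hy0.trans (le_max_left _ _)
  calc x ^ a * max y (x ^ (1 - k) * t) * L ^ (-b)
      ≤ (2 ^ a * H ^ a) * (2 * 2 ^ (1 - k) * max 1 (H ^ (1 - k) * t)) * (2 ^ b * (H ^ (-(b * m)) : ℝ)) := by
        have : 0 ≤ L ^ (-b) := Real.rpow_nonneg (by linarith [hL, hHm]) _
        gcongr
    _ = 2 ^ a * (2 * 2 ^ (1 - k)) * 2 ^ b * (H ^ (a - b * m) * max 1 (H ^ (1 - k) * t)) := by
        rw [show a - b * m = a + -(b * m) by ring, Real.rpow_add hH]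
        ring

theorem nk_lower {a b k H x y t L : ℝ} {m : ℕ} (ha : 0 ≤ a) (hb : 0 ≤ b) (hk : k ≤ 1) (hH : 0 < H) (hx0 : H / 2 ≤ x)
    (ht : 0 ≤ t) (hL0 : 0 < L) (hL : L ≤ 2 * H ^ m) :
    2⁻¹ ^ a * 2⁻¹ ^ (1 - k) * 2⁻¹ ^ b * (H ^ (a - b * m) * (H ^ (1 - k) * t)) ≤ x ^ a * max y (x ^ (1 - k) * t) * L ^ (-b) := by
  have hx1 : 0 < x := by linarith
  have hHm : 0 < H ^ m := pow_pos hH m
  have h1 : 2⁻¹ ^ a * H ^ a ≤ x ^ a := by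
    rw [← Real.mul_rpow (by norm_num) hH.le]
    exact Real.rpow_le_rpow (by positivity) (by linarith) ha
  have h2 : 2⁻¹ ^ (1 - k) * H ^ (1 - k) ≤ x ^ (1 - k) := by
    rw [← Real.mul_rpow (by norm_num) hH.le]
    exact Real.rpow_le_rpow (by positivity) (by linarith) (by linarith)
  have h3 : 2⁻¹ ^ b * (H ^ (-(b * m)) : ℝ) ≤ L ^ (-b) := by
    have h4 : (2 * H ^ m) ^ (-b) ≤ L ^ (-b) := Real.rpow_le_rpow_of_nonpos hL0 hL (by linarith)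
    refine le_trans (le_of_eq ?_) h4
    rw [Real.mul_rpow (by norm_num) hHm.le, Real.rpow_neg (by norm_num : (0 : ℝ) ≤ 2), Real.inv_rpow (by norm_num), ← Real.rpow_natCast,
      ← Real.rpow_mul hH.le]
    congr 2
    ring
  have hp1 : (0 : ℝ) ≤ 2⁻¹ ^ a * H ^ a := by positivity
  have hp2 : (0 : ℝ) ≤ 2⁻¹ ^ b * (H ^ (-(b * m)) : ℝ) := by positivity
  have hp3 : (0 : ℝ) ≤ 2⁻¹ ^ (1 - k) * H ^ (1 - k) := by positivity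
  calc 2⁻¹ ^ a * 2⁻¹ ^ (1 - k) * 2⁻¹ ^ b * (H ^ (a - b * m) * (H ^ (1 - k) * t))
      = (2⁻¹ ^ a * H ^ a) * (2⁻¹ ^ (1 - k) * H ^ (1 - k) * t) * (2⁻¹ ^ b * (H ^ (-(b * m)) : ℝ)) := by
        rw [show a - b * m = a + -(b * m) by ring, Real.rpow_add hH]
        ring
    _ ≤ x ^ a * (x ^ (1 - k) * t) * L ^ (-b) := by gcongr
    _ ≤ x ^ a * max y (x ^ (1 - k) * t) * L ^ (-b) := by
        have : 0 ≤ L ^ (-b) := Real.rpow_nonneg hL0.le _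
        have h8 : x ^ (1 - k) * t ≤ max y (x ^ (1 - k) * t) := le_max_right _ _
        gcongr

end Pool.Agent.SG
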