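import Mathlib

/-!
# SG Neck: the estimate on the neck

`t` is holomorphic in the annulus `ρ < ‖h‖ < δ₁`, `U` is comparable to `‖h‖ ^ e * max 1 (‖h‖ ^ (1 - k) * ‖t' h‖)` (from below only to
`‖h‖ ^ e * (‖h‖ ^ (1 - k) * ‖t' h‖)`) and has the maximum principle up to a constant.  If `e < 1 + k` then `‖h‖ ^ (1 - k) * ‖t' h‖` is bounded.
-/

set_option autoImplicit false

open Topology Filter Metric MeasureTheory

namespace Pool.Agent.SG

/-- the Cauchy formula in an annulus -/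
theorem cauchy_annulus {f : ℂ → ℂ} {r R : ℝ} (hr : 0 < r) (hd : ∀ z : ℂ, r ≤ ‖z‖ → ‖z‖ ≤ R → DifferentiableAt ℂ f z)
    {w : ℂ} (hw : r < ‖w‖) (hw' : ‖w‖ < R) :
    (∮ z in C(0, R), (z - w)⁻¹ • f z) - (∮ z in C(0, r), (z - w)⁻¹ • f z) = (2 * Real.pi * Complex.I : ℂ) * f w := by
  have hrR : r ≤ R := (hw.trans hw').le
  have hR : 0 < R := hr.trans (hw.trans hw')
  set g : ℂ → ℂ := dslope f w with hg
  have hgc : ContinuousOn g (closedBall (0 : ℂ) R \ ball 0 r) := by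
    intro z hz
    have h1 : DifferentiableAt ℂ f z := hd z (by simpa using hz.2) (by simpa using hz.1)
    by_cases hzw : z = w
    · subst hzw
      exact (continuousAt_dslope_same.2 h1).continuousWithinAt
    · exact ((continuousAt_dslope_of_ne hzw).2 h1.continuousAt).continuousWithinAt
  have h1 : (∮ z in C(0, R), g z) = ∮ z in C(0, r), g z := by
    refine Complex.circleIntegral_eq_of_differentiable_on_annulus_off_countable hr hrR (s := {w}) (Set.countable_singleton _) hgc ?_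
    rintro z ⟨⟨hz1, hz2⟩, hz3⟩
    have hz3' : z ≠ w := by simpa using hz3
    have hz1' : ‖z‖ < R := by simpa using hz1
    have hz2' : r < ‖z‖ := by simpa using hz2
    exact (differentiableAt_dslope_of_ne hz3').2 (hd z hz2'.le hz1'.le)
  have key : ∀ ρ : ℝ, 0 < ρ → r ≤ ρ → ρ ≤ R → ρ ≠ ‖w‖ →
      (∮ z in C(0, ρ), g z) = (∮ z in C(0, ρ), (z - w)⁻¹ • f z) - (∮ z in C(0, ρ), (z - w)⁻¹) • f w := by
    intro ρ hρ h2 h3 h4
    have hne : ∀ z ∈ sphere (0 : ℂ) ρ, z ≠ w := by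
      rintro z hz rfl
      exact h4 (by simpa using hz.symm)
    have hc1 : ContinuousOn (fun z : ℂ => (z - w)⁻¹) (sphere (0 : ℂ) ρ) :=
      ContinuousOn.inv₀ (by fun_prop) fun z hz => sub_ne_zero.2 (hne z hz)
    have hcf : ContinuousOn f (sphere (0 : ℂ) ρ) := fun z hz =>
      (hd z (by simpa [mem_sphere_iff_norm.1 hz] using (by simpa using hz : ‖z‖ = ρ) ▸ h2) (by simpa using (by simpa using hz : ‖z‖ = ρ) ▸ h3)).continuousAt.continuousWithinAt
    have h5 : (∮ z in C(0, ρ), g z) = ∮ z in C(0, ρ), ((z - w)⁻¹ • f z - (z - w)⁻¹ • f w) := by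
      refine circleIntegral.integral_congr hρ.le fun z hz => ?_
      simp only [hg]
      rw [dslope_of_ne _ (hne z hz), slope_def_module, smul_sub]
    rw [h5, circleIntegral.integral_sub, circleIntegral.integral_smul_const]
    · exact (hc1.smul hcf).circleIntegrable hρ.le
    · exact (hc1.smul continuousOn_const).circleIntegrable hρ.le
  have h2 := key R hR hrR le_rfl hw'.ne'
  have h3 := key r hr le_rfl hrR hw.ne
  have h4 : (∮ z in C(0, R), (z - w)⁻¹) = 2 * Real.pi * Complex.I :=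
    circleIntegral.integral_sub_inv_of_mem_ball (by simpa using hw')
  have h5 : (∮ z in C(0, r), (z - w)⁻¹) = 0 := by
    refine Complex.circleIntegral_eq_zero_of_differentiable_on_off_countable hr.le Set.countable_empty ?_ ?_
    · refine ContinuousOn.inv₀ (by fun_prop) fun z hz => ?_
      rw [sub_ne_zero]
      rintro rfl
      have : ‖z‖ ≤ r := by simpa using hz
      linarith
    · rintro z ⟨hz, -⟩
      have hz' : ‖z‖ < r := by simpa using hz
      have : z - w ≠ 0 := by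
        rw [sub_ne_zero]
        rintro rfl
        linarith
      exact (differentiableAt_id.sub_const w).inv this
  rw [h2, h3, h4, h5] at h1
  simp only [smul_eq_mul] at h1 ⊢
  linear_combination h1

/-- the derivative on an inner circle, from the bounds on the boundary of the annulus -/
theorem deriv_annulus_le {t : ℂ → ℂ} {r δ K T C₀ : ℝ} (hr : 0 < r) (hK : 1 < K) (hKr : K * r ≤ δ / 2)
    (hd : ∀ z : ℂ, r ≤ ‖z‖ → ‖z‖ ≤ δ → AnalyticAt ℂ t z) (h0 : ∀ z : ℂ, ‖z‖ = δ → ‖deriv t z‖ ≤ C₀)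
    (hT : ∀ z : ℂ, ‖z‖ = r → ‖deriv t z‖ ≤ T) {w : ℂ} (hw : ‖w‖ = K * r) : ‖deriv t w‖ ≤ 2 * C₀ + T / (K * (K - 1)) := by
  have hKr0 : 0 < K * r := by positivity
  have hδ : 0 < δ := by linarith
  have hrw : r < ‖w‖ := by rw [hw]; nlinarith
  have hwδ : ‖w‖ < δ := by rw [hw]; linarith
  have hrδ : r ≤ δ := (hrw.trans hwδ).le
  have hw0 : w ≠ 0 := by
    rw [← norm_pos_iff]
    exact hr.trans hrw
  have hT0 : 0 ≤ T := (norm_nonneg _).trans (hT (r : ℂ) (by simp [abs_of_pos hr]))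
  have hC0 : 0 ≤ C₀ := (norm_nonneg _).trans (h0 (δ : ℂ) (by simp [abs_of_pos hδ]))
  have hdf : ∀ z : ℂ, r ≤ ‖z‖ → ‖z‖ ≤ δ → DifferentiableAt ℂ (deriv t) z := fun z h1 h2 => (hd z h1 h2).deriv.differentiableAt
  have h1 := cauchy_annulus (f := deriv t) hr hdf hrw hwδ
  have hπ : (0 : ℝ) < Real.pi := Real.pi_pos
  -- the outer circle
  have h2 : ‖∮ z in C(0, δ), (z - w)⁻¹ • deriv t z‖ ≤ 2 * Real.pi * δ * (2 / δ * C₀) := by
    refine circleIntegral.norm_integral_le_of_norm_le_const hδ.le fun z hz => ?_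
    have hz' : ‖z‖ = δ := by simpa using hz
    rw [norm_smul, norm_inv]
    have h3 : δ / 2 ≤ ‖z - w‖ := by
      have := norm_sub_norm_le z w
      rw [hz', hw] at this
      linarith
    refine mul_le_mul ?_ (h0 z hz') (norm_nonneg _) (by positivity)
    rw [inv_le_comm₀ (by linarith [half_pos hδ]) (by positivity)]
    rw [inv_div]
    exact h3
  -- the inner circle
  have hint : (∮ z in C(0, r), deriv t z) = 0 := by
    refine circleIntegral.integral_eq_zero_of_hasDerivWithinAt' (f := t) fun z hz => ?_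
    have hz' : ‖z‖ = r := by simpa [abs_of_pos hr] using hz
    exact (hd z hz'.ge (by rw [hz']; exact hrδ)).differentiableAt.hasDerivAt.hasDerivWithinAt
  have hcf : ContinuousOn (deriv t) (sphere (0 : ℂ) r) := fun z hz => by
    have hz' : ‖z‖ = r := by simpa using hz
    exact (hdf z hz'.ge (by rw [hz']; exact hrδ)).continuousAt.continuousWithinAt
  have hne : ∀ z ∈ sphere (0 : ℂ) r, z ≠ w := by
    rintro z hz rfl
    have hz' : ‖z‖ = r := by simpa using hz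
    linarith
  have hc1 : ContinuousOn (fun z : ℂ => (z - w)⁻¹) (sphere (0 : ℂ) r) :=
    ContinuousOn.inv₀ (by fun_prop) fun z hz => sub_ne_zero.2 (hne z hz)
  have h3 : (∮ z in C(0, r), (z - w)⁻¹ • deriv t z) = ∮ z in C(0, r), (w⁻¹ * z * (z - w)⁻¹) • deriv t z := by
    have h4 : (∮ z in C(0, r), (w⁻¹ * z * (z - w)⁻¹) • deriv t z) = ∮ z in C(0, r), ((z - w)⁻¹ • deriv t z + w⁻¹ • deriv t z) := by
      refine circleIntegral.integral_congr hr.le fun z hz => ?_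
      have hzw : z - w ≠ 0 := sub_ne_zero.2 (hne z hz)
      simp only [smul_eq_mul]
      field_simp
      ring
    rw [h4, circleIntegral.integral_add, circleIntegral.integral_smul, hint, smul_zero, add_zero]
    · exact (hc1.smul hcf).circleIntegrable hr.le
    · have h5 : ContinuousOn (fun z => w⁻¹ • deriv t z) (sphere (0 : ℂ) r) := by
        simp only [smul_eq_mul]
        exact continuousOn_const.mul hcf
      exact h5.circleIntegrable hr.le
  have h4 : ‖∮ z in C(0, r), (z - w)⁻¹ • deriv t z‖ ≤ 2 * Real.pi * r * (1 / (K * ((K - 1) * r)) * T) := by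
    rw [h3]
    refine circleIntegral.norm_integral_le_of_norm_le_const hr.le fun z hz => ?_
    have hz' : ‖z‖ = r := by simpa using hz
    rw [norm_smul, norm_mul, norm_mul, norm_inv, norm_inv, hz', hw]
    have h5 : (K - 1) * r ≤ ‖z - w‖ := by
      have := norm_sub_norm_le w z
      rw [hz', hw, norm_sub_rev] at this
      linarith
    have h6 : 0 < (K - 1) * r := mul_pos (by linarith) hr
    refine mul_le_mul ?_ (hT z hz') (norm_nonneg _) (by positivity)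
    calc (K * r)⁻¹ * r * ‖z - w‖⁻¹ ≤ (K * r)⁻¹ * r * ((K - 1) * r)⁻¹ := by
          gcongr
      _ = 1 / (K * ((K - 1) * r)) := by
          have : K - 1 ≠ 0 := by linarith
          field_simp
  have h5 : ‖(2 * Real.pi * Complex.I : ℂ) * deriv t w‖ = 2 * Real.pi * ‖deriv t w‖ := by
    rw [norm_mul, norm_mul, norm_mul, Complex.norm_I, mul_one, Complex.norm_real, Real.norm_eq_abs, abs_of_pos hπ]
    norm_num
  have h6 : 2 * Real.pi * ‖deriv t w‖ ≤ 2 * Real.pi * δ * (2 / δ * C₀) + 2 * Real.pi * r * (1 / (K * ((K - 1) * r)) * T) := by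
    rw [← h5, ← h1]
    exact (norm_sub_le _ _).trans (add_le_add h2 h4)
  have h7 : 2 * Real.pi * δ * (2 / δ * C₀) + 2 * Real.pi * r * (1 / (K * ((K - 1) * r)) * T) =
      2 * Real.pi * (2 * C₀ + T / (K * (K - 1))) := by
    have : K - 1 ≠ 0 := by linarith
    field_simp
  rw [h7] at h6
  exact le_of_mul_le_mul_left h6 (by positivity)

/-- **Neck.**  The estimate on the neck, with uniform constants. -/
theorem neck {c C C₀ δ k e : ℝ} (hc : 0 < c) (hC : 0 < C) (hC₀ : 0 ≤ C₀) (hδ : 0 < δ) (hk1 : k ≤ 1) (he : e < 1 + k) :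
    ∃ K C₁ : ℝ, 1 < K ∧ 0 < C₁ ∧ ∀ (ρ : ℝ) (t : ℂ → ℂ) (U : ℂ → ℝ), 0 ≤ ρ →
      (∀ h : ℂ, ρ < ‖h‖ → ‖h‖ ≤ δ → AnalyticAt ℂ t h) →
      (∀ h : ℂ, ‖h‖ = δ → ‖deriv t h‖ ≤ C₀) →
      (∀ h : ℂ, ρ < ‖h‖ → ‖h‖ ≤ δ → c * (‖h‖ ^ e * (‖h‖ ^ (1 - k) * ‖deriv t h‖)) ≤ U h) →
      (∀ h : ℂ, ρ < ‖h‖ → ‖h‖ ≤ δ → U h ≤ C * (‖h‖ ^ e * max 1 (‖h‖ ^ (1 - k) * ‖deriv t h‖))) →
      (∀ (h : ℂ) (r : ℝ), 0 < r → ‖h‖ ≤ r → r ≤ δ → ∃ y : ℂ, ‖y‖ = r ∧ U h ≤ C * U y) →
      ∀ h : ℂ, ρ < ‖h‖ → K * ‖h‖ ≤ δ / 2 → ‖h‖ ^ (1 - k) * ‖deriv t h‖ ≤ C₁ ∧ U h ≤ C₁ * ‖h‖ ^ e := by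
  -- the choice of `K`
  obtain ⟨K, hK2, hKe⟩ : ∃ K : ℝ, 2 ≤ K ∧ C ^ 2 * (K ^ e * (K ^ (1 - k) / (K * (K - 1)))) ≤ c / 2 := by
    have h1 : Tendsto (fun K : ℝ => 2 * C ^ 2 * K ^ (-(1 + k - e))) atTop (𝓝 (2 * C ^ 2 * 0)) :=
      (tendsto_rpow_neg_atTop (by linarith)).const_mul _
    rw [mul_zero] at h1
    obtain ⟨K, hK, hK2⟩ := ((h1.eventually_lt_const (show 0 < c / 2 by positivity)).and (eventually_ge_atTop 2)).exists
    refine ⟨K, hK2, le_trans ?_ hK.le⟩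
    have hK0 : 0 < K := by linarith
    have h2 : K ^ e * (K ^ (1 - k) / (K * (K - 1))) ≤ 2 * K ^ (-(1 + k - e)) := by
      have h3 : 1 / (K * (K - 1)) ≤ 2 * K ^ (-2 : ℝ) := by
        rw [Real.rpow_neg hK0.le, Real.rpow_two, div_le_iff₀ (by nlinarith)]
        have : (2 : ℝ) * (K ^ 2)⁻¹ * (K * (K - 1)) = 2 * (K - 1) / K := by field_simp
        rw [this, le_div_iff₀ hK0]
        linarith
      calc K ^ e * (K ^ (1 - k) / (K * (K - 1))) = K ^ e * K ^ (1 - k) * (1 / (K * (K - 1))) := by ring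
        _ ≤ K ^ e * K ^ (1 - k) * (2 * K ^ (-2 : ℝ)) := by gcongr
        _ = 2 * (K ^ e * K ^ (1 - k) * K ^ (-2 : ℝ)) := by ring
        _ = 2 * K ^ (-(1 + k - e)) := by
          rw [← Real.rpow_add hK0, ← Real.rpow_add hK0]
          congr 2
          ring
    nlinarith [sq_nonneg C, mul_le_mul_of_nonneg_left h2 (sq_nonneg C)]
  have hK0 : 0 < K := by linarith
  set D : ℝ := C ^ 2 * (K ^ e * (1 + δ ^ (1 - k) * (2 * C₀))) with hD
  have hD0 : 0 < D := by positivity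
  refine ⟨K, 2 * D / c + C * (1 + 2 * D / c), by linarith, by positivity, ?_⟩
  intro ρ t U hρ hta hδb hlow hup hmax
  -- the bound on a circle
  have main : ∀ h : ℂ, ρ < ‖h‖ → K * ‖h‖ ≤ δ / 2 → ‖h‖ ^ (1 - k) * ‖deriv t h‖ ≤ 2 * D / c := by
    intro h hh hKh
    set r : ℝ := ‖h‖ with hr
    have hr0 : 0 < r := lt_of_le_of_lt hρ hh
    have hrδ : r ≤ δ := by nlinarith
    have hcont : ContinuousOn (fun z => ‖deriv t z‖) (sphere (0 : ℂ) r) := by
      intro z hz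
      have hz' : ‖z‖ = r := by simpa using hz
      exact ((hta z (by rw [hz']; exact hh) (by rw [hz']; exact hrδ)).deriv.continuousAt.norm).continuousWithinAt
    obtain ⟨z₀, hz₀, hzmax⟩ := (isCompact_sphere (0 : ℂ) r).exists_isMaxOn (NormedSpace.sphere_nonempty.2 hr0.le) hcont
    have hz₀' : ‖z₀‖ = r := by simpa using hz₀
    set T : ℝ := ‖deriv t z₀‖ with hTdef
    have hT0 : 0 ≤ T := norm_nonneg _
    have hT : ∀ z : ℂ, ‖z‖ = r → ‖deriv t z‖ ≤ T := fun z hz => hzmax (by simpa using hz)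
    have h1 : c * (r ^ e * (r ^ (1 - k) * T)) ≤ U z₀ := by
      have := hlow z₀ (by rw [hz₀']; exact hh) (by rw [hz₀']; exact hrδ)
      rwa [hz₀'] at this
    have hKr0 : 0 < K * r := by positivity
    obtain ⟨y, hy, hUy⟩ := hmax z₀ (K * r) hKr0 (by rw [hz₀']; nlinarith) (by linarith)
    have hρy : ρ < ‖y‖ := by rw [hy]; nlinarith
    have h2 := hup y hρy (by rw [hy]; linarith)
    have h3 : ‖deriv t y‖ ≤ 2 * C₀ + T / (K * (K - 1)) :=
      deriv_annulus_le hr0 (by linarith) hKh (fun z h4 h5 => hta z (by linarith) h5) hδb hT hy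
    rw [hy] at h2
    have h4 : (K * r) ^ (1 - k) * ‖deriv t y‖ ≤ δ ^ (1 - k) * (2 * C₀) + K ^ (1 - k) / (K * (K - 1)) * (r ^ (1 - k) * T) := by
      have h5 : (K * r) ^ (1 - k) ≤ δ ^ (1 - k) := Real.rpow_le_rpow hKr0.le (by linarith) (by linarith)
      calc (K * r) ^ (1 - k) * ‖deriv t y‖ ≤ (K * r) ^ (1 - k) * (2 * C₀ + T / (K * (K - 1))) := by gcongr
        _ = (K * r) ^ (1 - k) * (2 * C₀) + (K * r) ^ (1 - k) * (T / (K * (K - 1))) := by ring
        _ ≤ δ ^ (1 - k) * (2 * C₀) + (K * r) ^ (1 - k) * (T / (K * (K - 1))) := by gcongr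
        _ = δ ^ (1 - k) * (2 * C₀) + K ^ (1 - k) / (K * (K - 1)) * (r ^ (1 - k) * T) := by
          rw [Real.mul_rpow hK0.le hr0.le]
          ring
    have hx0 : 0 ≤ r ^ (1 - k) * T := by positivity
    have hq0 : 0 ≤ K ^ (1 - k) / (K * (K - 1)) := div_nonneg (by positivity) (mul_nonneg hK0.le (by linarith))
    have h5 : max 1 ((K * r) ^ (1 - k) * ‖deriv t y‖) ≤
        1 + δ ^ (1 - k) * (2 * C₀) + K ^ (1 - k) / (K * (K - 1)) * (r ^ (1 - k) * T) := by
      refine max_le ?_ ?_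
      · have : 0 ≤ δ ^ (1 - k) * (2 * C₀) := by positivity
        nlinarith [mul_nonneg hq0 hx0]
      · linarith
    have h6 : c * (r ^ e * (r ^ (1 - k) * T)) ≤
        r ^ e * (D + C ^ 2 * (K ^ e * (K ^ (1 - k) / (K * (K - 1)))) * (r ^ (1 - k) * T)) := by
      calc c * (r ^ e * (r ^ (1 - k) * T)) ≤ C * U y := h1.trans hUy
        _ ≤ C * (C * ((K * r) ^ e * max 1 ((K * r) ^ (1 - k) * ‖deriv t y‖))) := by gcongr
        _ ≤ C * (C * ((K * r) ^ e * (1 + δ ^ (1 - k) * (2 * C₀) + K ^ (1 - k) / (K * (K - 1)) * (r ^ (1 - k) * T)))) := by gcongr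
        _ = r ^ e * (D + C ^ 2 * (K ^ e * (K ^ (1 - k) / (K * (K - 1)))) * (r ^ (1 - k) * T)) := by
          rw [Real.mul_rpow hK0.le hr0.le, hD]
          ring
    have hre : 0 < r ^ e := Real.rpow_pos_of_pos hr0 _
    have h7 : c * (r ^ (1 - k) * T) ≤ D + C ^ 2 * (K ^ e * (K ^ (1 - k) / (K * (K - 1)))) * (r ^ (1 - k) * T) := by
      refine le_of_mul_le_mul_left ?_ hre
      calc r ^ e * (c * (r ^ (1 - k) * T)) = c * (r ^ e * (r ^ (1 - k) * T)) := by ring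
        _ ≤ _ := h6
    have h8 : c * (r ^ (1 - k) * T) ≤ D + c / 2 * (r ^ (1 - k) * T) := by
      refine h7.trans ?_
      gcongr
    have h9 : r ^ (1 - k) * T ≤ 2 * D / c := by
      rw [le_div_iff₀ hc]
      linarith
    refine le_trans ?_ h9
    have := hT h rfl
    gcongr
  intro h hh hKh
  have h1 := main h hh hKh
  have h0 : 0 < ‖h‖ := lt_of_le_of_lt hρ hh
  have h2 : 0 ≤ C * (1 + 2 * D / c) := by positivity
  refine ⟨by linarith, ?_⟩
  have h3 : ‖h‖ ≤ δ := by nlinarith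
  have h4 : max 1 (‖h‖ ^ (1 - k) * ‖deriv t h‖) ≤ 1 + 2 * D / c := by
    refine max_le ?_ (by linarith)
    have : 0 ≤ 2 * D / c := by positivity
    linarith
  calc U h ≤ C * (‖h‖ ^ e * max 1 (‖h‖ ^ (1 - k) * ‖deriv t h‖)) := hup h hh h3
    _ ≤ C * (‖h‖ ^ e * (1 + 2 * D / c)) := by gcongr
    _ = C * (1 + 2 * D / c) * ‖h‖ ^ e := by ring
    _ ≤ (2 * D / c + C * (1 + 2 * D / c)) * ‖h‖ ^ e := by
      have : 0 ≤ 2 * D / c := by positivity
      gcongr
      linarith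

end Pool.Agent.SG
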