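import Pool.Agent.SG.LimA
import Pool.Agent.SG.Neck
import Pool.Agent.H17BP.Surf
import Pool.Agent.H36.TB.Defs

/-!
# SG LimB: the estimates on the neck, for one function
-/

set_option autoImplicit false

open Topology Filter Metric

noncomputable section

namespace Pool.Agent.SG

open Pool.Agent.H36.TB (sm)
open Pool.Agent.H17BP (IsChart)

variable {E : Type} [NormedAddCommGroup E] [NormedSpace ℂ E]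

/-- the coordinates of the normalised curve -/
def cS (τ : E → ℂ × ℂ) (ℓ : E →L[ℂ] ℂ) (F : ℂ → E) (z : ℂ) : ℂ × ℂ := τ ((ℓ (F z))⁻¹ • F z)

/-- the quotient of the coordinates -/
def cT (τ : E → ℂ × ℂ) (ℓ : E →L[ℂ] ℂ) (F : ℂ → E) (z : ℂ) : ℂ := (cS τ ℓ F z).2 / (cS τ ℓ F z).1

/-- the two-sided bound, at one point -/
def TBz (τ : E → ℂ × ℂ) (ℓ : E →L[ℂ] ℂ) (F : ℂ → E) (U : ℂ → ℝ) (a b k B : ℝ) (z : ℂ) : Prop :=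
  ‖(cS τ ℓ F z).1‖ ^ a * max ‖deriv (fun w => (cS τ ℓ F w).1) z‖ (‖(cS τ ℓ F z).1‖ ^ (1 - k) * ‖deriv (cT τ ℓ F) z‖) * ‖ℓ (F z)‖ ^ (-b) ≤
      B * U z ∧
    U z ≤ B * (‖(cS τ ℓ F z).1‖ ^ a * max ‖deriv (fun w => (cS τ ℓ F w).1) z‖ (‖(cS τ ℓ F z).1‖ ^ (1 - k) * ‖deriv (cT τ ℓ F) z‖) *
      ‖ℓ (F z)‖ ^ (-b))

/-- the two-sided bound with a constant factor gives the bound with the normalised curve -/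
theorem TBz_of {X : Set E} {σ : ℂ × ℂ → E} {τ : E → ℂ × ℂ} (hσ : IsChart X σ τ) (ℓ : E →L[ℂ] ℂ) (a b k B : ℝ) :
    ∃ ε' : ℝ, 0 < ε' ∧ ∀ (F : ℂ → E) (U : ℂ → ℝ) (z : ℂ), ContinuousAt F z → ℓ (F z) ≠ 0 → ‖(ℓ (F z))⁻¹ • F z - σ 0‖ < ε' →
      (‖(τ ((ℓ (F z))⁻¹ • F z)).1‖ ^ a * sm k ((τ ((ℓ (F z))⁻¹ • F z)).1, (τ ((ℓ (F z))⁻¹ • F z)).2 / (τ ((ℓ (F z))⁻¹ • F z)).1)
        (deriv (fun w => (τ ((ℓ (F z))⁻¹ • F w)).1) z, deriv (fun w => (τ ((ℓ (F z))⁻¹ • F w)).2 / (τ ((ℓ (F z))⁻¹ • F w)).1) z) *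
          ‖ℓ (F z)‖ ^ (-b) ≤ B * U z ∧
      U z ≤ B * (‖(τ ((ℓ (F z))⁻¹ • F z)).1‖ ^ a * sm k ((τ ((ℓ (F z))⁻¹ • F z)).1, (τ ((ℓ (F z))⁻¹ • F z)).2 / (τ ((ℓ (F z))⁻¹ • F z)).1)
        (deriv (fun w => (τ ((ℓ (F z))⁻¹ • F w)).1) z, deriv (fun w => (τ ((ℓ (F z))⁻¹ • F w)).2 / (τ ((ℓ (F z))⁻¹ • F w)).1) z) *
          ‖ℓ (F z)‖ ^ (-b))) → TBz τ ℓ F U a b k B z := by
  obtain ⟨ε', hε', hinv⟩ := Metric.eventually_nhds_iff_ball.1 hσ.inv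
  refine ⟨ε', hε', fun F U z hF h0 hz hb => ?_⟩
  have hev : ∀ᶠ w in 𝓝 z, τ ((ℓ (F z))⁻¹ • F w) = cS τ ℓ F w := by
    have c1 : ContinuousAt (fun w => ℓ (F w)) z := ℓ.continuous.continuousAt.comp hF
    have c2 : ContinuousAt (fun w => ((ℓ (F w))⁻¹ • F w, ℓ (F w) / ℓ (F z))) z :=
      ((c1.inv₀ h0).smul hF).prodMk (c1.div_const _)
    have c3 : ((ℓ (F z))⁻¹ • F z, ℓ (F z) / ℓ (F z)) ∈ ball (σ 0, (1 : ℂ)) ε' := by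
      rw [mem_ball, Prod.dist_eq, max_lt_iff]
      refine ⟨by simpa [dist_eq_norm] using hz, ?_⟩
      simp only [div_self h0, dist_self, hε']
    filter_upwards [c2.eventually (isOpen_ball.mem_nhds c3), c1.eventually_ne h0] with w h1 h2
    have h3 := hinv _ h1
    simp only at h3
    rw [smul_smul, div_mul_eq_mul_div, mul_inv_cancel₀ h2, one_div] at h3
    exact h3
  have e1 : deriv (fun w => (τ ((ℓ (F z))⁻¹ • F w)).1) z = deriv (fun w => (cS τ ℓ F w).1) z := by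
    refine Filter.EventuallyEq.deriv_eq ?_
    filter_upwards [hev] with w hw
    rw [hw]
  have e2 : deriv (fun w => (τ ((ℓ (F z))⁻¹ • F w)).2 / (τ ((ℓ (F z))⁻¹ • F w)).1) z = deriv (cT τ ℓ F) z := by
    refine Filter.EventuallyEq.deriv_eq ?_
    filter_upwards [hev] with w hw
    rw [hw, cT]
  rw [e1, e2] at hb
  exact hb

/-- **The neck, for one function.** -/
theorem neck_one {X : Set E} {σ : ℂ × ℂ → E} {τ : E → ℂ × ℂ} (hσ : IsChart X σ τ) {ℓ : E →L[ℂ] ℂ}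
    {v : E} (hv : fderiv ℂ τ (σ 0) v = (1, 0)) {a b k B C₁ ε : ℝ} (ha : 0 ≤ a) (hb : 0 ≤ b) (hk1 : k < 1) (hB : 0 < B) (hC₁ : 0 < C₁)
    (hε : 0 < ε) {M : ℕ} (hcond : a - 1 - k < b * M) :
    ∃ η : ℝ, 0 < η ∧ ∀ δ : ℝ, 0 < δ → δ ≤ η → ∃ K C₂ : ℝ, 1 < K ∧ 0 < C₂ ∧ ∀ (F : ℂ → E) (U : ℂ → ℝ) (c₀ : ℂ) (ρ : ℝ), 0 ≤ ρ → (∀ z, 0 ≤ U z) →
      (∀ h : ℂ, ρ ≤ ‖h‖ → 0 < ‖h‖ → ‖h‖ ≤ δ → AnalyticAt ℂ F (c₀ + h) ∧ ‖ℓ (F (c₀ + h)) - h ^ M‖ ≤ η * ‖h‖ ^ M ∧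
        ‖(F (c₀ + h) - ℓ (F (c₀ + h)) • σ 0) - h ^ (M + 1) • v‖ ≤ η * ‖h‖ ^ (M + 1)) →
      (∀ h : ℂ, ‖h‖ ≤ δ → ℓ (F (c₀ + h)) ≠ 0 → ‖(ℓ (F (c₀ + h)))⁻¹ • F (c₀ + h) - σ 0‖ < ε → (cS τ ℓ F (c₀ + h)).1 ≠ 0 →
        ‖(cS τ ℓ F (c₀ + h)).2‖ < ε * ‖(cS τ ℓ F (c₀ + h)).1‖ → TBz τ ℓ F U a b k B (c₀ + h)) →
      (∀ (h : ℂ) (r : ℝ), 0 < r → ‖h‖ ≤ r → r ≤ δ → ∃ y : ℂ, ‖y‖ = r ∧ U (c₀ + h) ≤ C₁ * U (c₀ + y)) →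
      ∀ h : ℂ, 2 * ρ < ‖h‖ → K * ‖h‖ ≤ δ / 4 →
        ‖h‖ ^ (1 - k) * ‖deriv (cT τ ℓ F) (c₀ + h)‖ ≤ C₂ ∧ U (c₀ + h) ≤ C₂ * ‖h‖ ^ (a - b * M) := by
  obtain ⟨ε₂, hε₂, hτa⟩ := Metric.eventually_nhds_iff_ball.1 hσ.τ_an.eventually_analyticAt
  have hτ0 : τ (σ 0) = 0 := hσ.left.self_of_nhds
  set ε₁ : ℝ := min (1 / 6) (min (ε / 4) (ε₂ / 2)) with hε₁
  have hε₁0 : 0 < ε₁ := by rw [hε₁]; positivity
  have i1 : ε₁ ≤ 1 / 6 := min_le_left _ _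
  have i2 : ε₁ ≤ ε / 4 := (min_le_right _ _).trans (min_le_left _ _)
  have i3 : ε₁ ≤ ε₂ / 2 := (min_le_right _ _).trans (min_le_right _ _)
  obtain ⟨η, hη, hη1, htn⟩ := nk_tau (v := v) hσ.τ_an.differentiableAt.hasFDerivAt hτ0 ℓ hε₁0
  refine ⟨η, hη, fun δ hδ hδη => ?_⟩
  set cl : ℝ := B⁻¹ * (2⁻¹ ^ a * 2⁻¹ ^ (1 - k) * 2⁻¹ ^ b) with hcl
  have hcl0 : 0 < cl := by rw [hcl]; positivity
  set cu : ℝ := max C₁ (B * (2 ^ a * (2 * 2 ^ (1 - k)) * 2 ^ b)) with hcu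
  have hcu0 : 0 < cu := lt_max_of_lt_left hC₁
  obtain ⟨K, C₂, hK, hC₂, hneck⟩ := neck (c := cl) (C := cu) (C₀ := 2 * 1 / (δ / 2)) (δ := δ / 2) (k := k) (e := a - b * M) hcl0 hcu0
    (by positivity) (by positivity) hk1.le (by linarith)
  refine ⟨K, C₂, hK, hC₂, fun F U c₀ ρ hρ hU hF hTB hmax => ?_⟩
  -- the coordinates on the neck
  have hc : ∀ h : ℂ, ρ ≤ ‖h‖ → 0 < ‖h‖ → ‖h‖ ≤ δ → ℓ (F (c₀ + h)) ≠ 0 ∧ ‖h‖ ^ M / 2 ≤ ‖ℓ (F (c₀ + h))‖ ∧ ‖ℓ (F (c₀ + h))‖ ≤ 2 * ‖h‖ ^ M ∧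
      ‖(ℓ (F (c₀ + h)))⁻¹ • F (c₀ + h) - σ 0‖ ≤ ε₁ ∧ ‖(cS τ ℓ F (c₀ + h)).1 - h‖ ≤ ε₁ * ‖h‖ ∧ ‖(cS τ ℓ F (c₀ + h)).2‖ ≤ ε₁ * ‖h‖ := by
    intro h h1 h2 h3
    obtain ⟨-, h4, h5⟩ := hF h h1 h2 h3
    obtain ⟨j1, j2, j3, j4, j5⟩ := htn (F (c₀ + h)) h M (norm_pos_iff.1 h2) (h3.trans hδη) h4 h5
    rw [hv] at j5
    refine ⟨j1, j2, j3, j4, ?_, ?_⟩
    · have h6 := (norm_fst_le (τ ((ℓ (F (c₀ + h)))⁻¹ • F (c₀ + h)) - h • ((1 : ℂ), (0 : ℂ)))).trans j5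
      simpa [cS] using h6
    · have h6 := (norm_snd_le (τ ((ℓ (F (c₀ + h)))⁻¹ • F (c₀ + h)) - h • ((1 : ℂ), (0 : ℂ)))).trans j5
      simpa [cS] using h6
  have hS : ∀ h : ℂ, ρ ≤ ‖h‖ → 0 < ‖h‖ → ‖h‖ ≤ δ → ‖h‖ / 2 ≤ ‖(cS τ ℓ F (c₀ + h)).1‖ ∧ ‖(cS τ ℓ F (c₀ + h)).1‖ ≤ 2 * ‖h‖ ∧
      (cS τ ℓ F (c₀ + h)).1 ≠ 0 ∧ ‖(cS τ ℓ F (c₀ + h)).2‖ < ε * ‖(cS τ ℓ F (c₀ + h)).1‖ ∧ ‖cT τ ℓ F (c₀ + h)‖ ≤ 1 := by
    intro h h1 h2 h3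
    obtain ⟨-, -, -, -, j5, j6⟩ := hc h h1 h2 h3
    have l1 : ‖h‖ - ‖(cS τ ℓ F (c₀ + h)).1‖ ≤ ‖(cS τ ℓ F (c₀ + h)).1 - h‖ := by
      rw [norm_sub_rev]
      exact norm_sub_norm_le _ _
    have l2 : ‖(cS τ ℓ F (c₀ + h)).1‖ - ‖h‖ ≤ ‖(cS τ ℓ F (c₀ + h)).1 - h‖ := norm_sub_norm_le _ _
    have l3 : ε₁ * ‖h‖ ≤ 1 / 6 * ‖h‖ := by gcongr
    have l4 : ‖h‖ / 2 ≤ ‖(cS τ ℓ F (c₀ + h)).1‖ := by linarith
    have l5 : 0 < ‖(cS τ ℓ F (c₀ + h)).1‖ := by linarith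
    refine ⟨l4, by linarith, norm_pos_iff.1 l5, ?_, ?_⟩
    · have l6 : ε₁ * ‖h‖ ≤ ε / 4 * ‖h‖ := by gcongr
      nlinarith
    · rw [cT, norm_div, div_le_one l5]
      linarith
  have hopen : ∀ h : ℂ, ρ < ‖h‖ → 0 < ‖h‖ → ‖h‖ ≤ δ → AnalyticAt ℂ (fun z => cS τ ℓ F z) (c₀ + h) := by
    intro h h1 h2 h3
    obtain ⟨h4, -, -⟩ := hF h h1.le h2 h3
    obtain ⟨j1, -, -, j4, -, -⟩ := hc h h1.le h2 h3
    have h5 : AnalyticAt ℂ (fun z => (ℓ (F z))⁻¹ • F z) (c₀ + h) := (((ℓ.analyticAt _).comp h4).inv j1).smul h4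
    have h6 : AnalyticAt ℂ τ ((ℓ (F (c₀ + h)))⁻¹ • F (c₀ + h)) := hτa _ (by
      rw [mem_ball, dist_eq_norm]
      linarith)
    exact AnalyticAt.comp (g := τ) (f := fun z => (ℓ (F z))⁻¹ • F z) h6 h5
  have hcomp : ∀ {G : Type} [NormedAddCommGroup G] [NormedSpace ℂ G] (f : ℂ → G) (h : ℂ), AnalyticAt ℂ f (c₀ + h) →
      AnalyticAt ℂ (fun h => f (c₀ + h)) h := fun f h hf =>
    AnalyticAt.comp (g := f) (f := fun h => c₀ + h) hf (analyticAt_const.add analyticAt_id)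
  have hS1 : ∀ h : ℂ, ρ < ‖h‖ → 0 < ‖h‖ → ‖h‖ ≤ δ → AnalyticAt ℂ (fun z => (cS τ ℓ F z).1) (c₀ + h) := fun h h1 h2 h3 =>
    analyticAt_fst.comp (hopen h h1 h2 h3)
  have hT1 : ∀ h : ℂ, ρ < ‖h‖ → 0 < ‖h‖ → ‖h‖ ≤ δ → AnalyticAt ℂ (cT τ ℓ F) (c₀ + h) := fun h h1 h2 h3 =>
    (analyticAt_snd.comp (hopen h h1 h2 h3)).div (hS1 h h1 h2 h3) (hS h h1.le h2 h3).2.2.1
  have hballs : ∀ h : ℂ, 2 * ρ < ‖h‖ → ‖h‖ ≤ δ / 2 → ∀ z ∈ closedBall h (‖h‖ / 2), ρ < ‖z‖ ∧ 0 < ‖z‖ ∧ ‖z‖ ≤ δ ∧ ‖z‖ ≤ 2 * ‖h‖ := by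
    intro h h1 h2 z hz
    rw [mem_closedBall, dist_eq_norm] at hz
    have h3 : ‖h‖ - ‖z‖ ≤ ‖z - h‖ := by
      rw [norm_sub_rev]
      exact norm_sub_norm_le _ _
    have h4 : ‖z‖ - ‖h‖ ≤ ‖z - h‖ := norm_sub_norm_le _ _
    have h5 : 0 < ‖h‖ := lt_of_le_of_lt (by positivity) h1
    refine ⟨by linarith, by linarith, by linarith, by linarith⟩
  have hdS : ∀ h : ℂ, 2 * ρ < ‖h‖ → ‖h‖ ≤ δ / 2 → ‖deriv (fun w => (cS τ ℓ F w).1) (c₀ + h)‖ ≤ 2 := by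
    intro h h1 h2
    have hn : 0 < ‖h‖ := lt_of_le_of_lt (by positivity) h1
    have h0 : h ≠ 0 := norm_pos_iff.1 hn
    have h3 : deriv (fun w => (cS τ ℓ F w).1) (c₀ + h) = deriv (fun h => (cS τ ℓ F (c₀ + h)).1) h :=
      (deriv_comp_const_add (f := fun w => (cS τ ℓ F w).1) c₀ h).symm
    have hd1 : DifferentiableAt ℂ (fun h => (cS τ ℓ F (c₀ + h)).1) h :=
      (hcomp _ h (hS1 h (by linarith) hn (by linarith))).differentiableAt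
    have h4 : ‖deriv (fun h => (cS τ ℓ F (c₀ + h)).1 - h) h‖ ≤ 2 * (ε₁ * (3 / 2 * ‖h‖)) / ‖h‖ := by
      refine nk_deriv h0 (fun z hz => ?_) fun z hz => ?_
      · obtain ⟨b1, b2, b3, -⟩ := hballs h h1 h2 z hz
        exact (hcomp _ z (hS1 z b1 b2 b3)).differentiableAt.sub differentiableAt_id
      · obtain ⟨b1, b2, b3, -⟩ := hballs h h1 h2 z hz
        obtain ⟨-, -, -, -, j5, -⟩ := hc z b1.le b2 b3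
        have l4 : ‖z‖ ≤ 3 / 2 * ‖h‖ := by
          rw [mem_closedBall, dist_eq_norm] at hz
          have h5 : ‖z‖ - ‖h‖ ≤ ‖z - h‖ := norm_sub_norm_le _ _
          linarith
        exact j5.trans (by gcongr)
    have h5 : deriv (fun h => (cS τ ℓ F (c₀ + h)).1 - h) h = deriv (fun h => (cS τ ℓ F (c₀ + h)).1) h - 1 := by
      have := deriv_sub hd1 (differentiableAt_id (𝕜 := ℂ) (x := h))
      rw [deriv_id] at this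
      exact this
    have h6 : 2 * (ε₁ * (3 / 2 * ‖h‖)) / ‖h‖ = 3 * ε₁ := by
      field_simp
    rw [h5, h6] at h4
    rw [h3]
    have h7 : ‖deriv (fun h => (cS τ ℓ F (c₀ + h)).1) h‖ ≤ ‖deriv (fun h => (cS τ ℓ F (c₀ + h)).1) h - 1‖ + ‖(1 : ℂ)‖ := by
      have := norm_add_le (deriv (fun h => (cS τ ℓ F (c₀ + h)).1) h - 1) (1 : ℂ)
      rwa [sub_add_cancel] at this
    rw [norm_one] at h7
    linarith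
  have hTc : ∀ h : ℂ, deriv (cT τ ℓ F) (c₀ + h) = deriv (fun h => cT τ ℓ F (c₀ + h)) h := fun h =>
    (deriv_comp_const_add (f := cT τ ℓ F) c₀ h).symm
  have hdT : ∀ h : ℂ, 2 * ρ < ‖h‖ → ‖h‖ ≤ δ / 2 → ‖deriv (cT τ ℓ F) (c₀ + h)‖ ≤ 2 * 1 / ‖h‖ := by
    intro h h1 h2
    have hn : 0 < ‖h‖ := lt_of_le_of_lt (by positivity) h1
    rw [hTc h]
    refine nk_deriv (norm_pos_iff.1 hn) (fun z hz => ?_) fun z hz => ?_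
    · obtain ⟨b1, b2, b3, -⟩ := hballs h h1 h2 z hz
      exact (hcomp _ z (hT1 z b1 b2 b3)).differentiableAt
    · obtain ⟨b1, b2, b3, -⟩ := hballs h h1 h2 z hz
      exact (hS z b1.le b2 b3).2.2.2.2
  have hW : ∀ h : ℂ, 2 * ρ < ‖h‖ → ‖h‖ ≤ δ / 2 →
      cl * (‖h‖ ^ (a - b * M) * (‖h‖ ^ (1 - k) * ‖deriv (cT τ ℓ F) (c₀ + h)‖)) ≤ U (c₀ + h) ∧
      U (c₀ + h) ≤ cu * (‖h‖ ^ (a - b * M) * max 1 (‖h‖ ^ (1 - k) * ‖deriv (cT τ ℓ F) (c₀ + h)‖)) := by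
    intro h h1 h2
    have hn : 0 < ‖h‖ := lt_of_le_of_lt (by positivity) h1
    have h3 : ρ ≤ ‖h‖ := by linarith
    have h4 : ‖h‖ ≤ δ := by linarith
    obtain ⟨j1, j2, j3, j4, j5, j6⟩ := hc h h3 hn h4
    obtain ⟨s1, s2, s3, s4, s5⟩ := hS h h3 hn h4
    obtain ⟨u1, u2⟩ := hTB h h4 j1 (by linarith) s3 s4
    have w1 := nk_upper (k := k) (t := ‖deriv (cT τ ℓ F) (c₀ + h)‖) ha hb hk1.le hn s1 s2 (hdS h h1 h2) (norm_nonneg _) (norm_nonneg _) j2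
    have w2 := nk_lower (k := k) (y := ‖deriv (fun w => (cS τ ℓ F w).1) (c₀ + h)‖) (t := ‖deriv (cT τ ℓ F) (c₀ + h)‖) ha hb hk1.le hn s1
      (norm_nonneg _) (norm_pos_iff.2 j1) j3
    constructor
    · rw [hcl, mul_assoc, inv_mul_le_iff₀ hB]
      exact w2.trans u1
    · calc U (c₀ + h) ≤ B * (2 ^ a * (2 * 2 ^ (1 - k)) * 2 ^ b * (‖h‖ ^ (a - b * M) * max 1 (‖h‖ ^ (1 - k) * ‖deriv (cT τ ℓ F) (c₀ + h)‖))) :=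
            u2.trans (by gcongr)
        _ = B * (2 ^ a * (2 * 2 ^ (1 - k)) * 2 ^ b) * (‖h‖ ^ (a - b * M) * max 1 (‖h‖ ^ (1 - k) * ‖deriv (cT τ ℓ F) (c₀ + h)‖)) := by ring
        _ ≤ _ := by
          have h5 : 0 ≤ ‖h‖ ^ (a - b * M) * max 1 (‖h‖ ^ (1 - k) * ‖deriv (cT τ ℓ F) (c₀ + h)‖) := by positivity
          exact mul_le_mul_of_nonneg_right (le_max_right _ _) h5
  intro h₁ h1 h2
  have hfin := hneck (2 * ρ) (fun h => cT τ ℓ F (c₀ + h)) (fun h => U (c₀ + h)) (by positivity)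
    (fun h h1 h2 => hcomp _ h (hT1 h (by linarith [norm_nonneg h]) (lt_of_le_of_lt (by positivity) h1) (by linarith)))
    (fun h h1 => by
      by_cases h3 : 2 * ρ < ‖h‖
      · have h4 := hdT h h3 h1.le
        rw [hTc h, h1] at h4
        exact h4
      · exfalso
        have h5 : ‖h₁‖ ≤ δ / 4 := by
          have : ‖h₁‖ ≤ K * ‖h₁‖ := le_mul_of_one_le_left (norm_nonneg _) hK.le
          linarith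
        linarith)
    (fun h h1 h2 => by
      rw [← hTc h]
      exact (hW h h1 h2).1)
    (fun h h1 h2 => by
      rw [← hTc h]
      exact (hW h h1 h2).2)
    (fun h r h1 h2 h3 => by
      obtain ⟨y, hy1, hy2⟩ := hmax h r h1 h2 (by linarith)
      exact ⟨y, hy1, hy2.trans (mul_le_mul_of_nonneg_right (le_max_left _ _) (hU _))⟩)
    h₁ h1 (by linarith)
  rw [hTc h₁]
  exact hfin

end Pool.Agent.SG
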