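import Pool.Agent.H17BP.Surf
import Pool.Agent.H36.TB.Defs
import Pool.Agent.H74.NB.Dec

/-!
# SG LimStub: the statement of the core theorem (proof: SG/Lim.lean)
-/

set_option autoImplicit false

open Topology Filter Metric

noncomputable section

namespace Pool.Agent.SG.Stub

open Pool.Agent.H36.BP (EN)
open Pool.Agent.H17BP (Surface IsChart)
open Pool.Agent.H74.NB (Obj)
open Pool.Agent.H36.TB (sm)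

/-- **No bubble** (helper79): one rescaling. -/
theorem core {N : ℕ} {X : Set (EN N)} (hX : Surface X) {σ : ℂ × ℂ → EN N} {τ : EN N → ℂ × ℂ} (hσ : IsChart X σ τ) {𝒰 : Ultrafilter ℕ}
    {Φ : ℕ → ℂ → EN N} {H : ℂ → EN N} {M : ℕ} {r : ℝ} (hM : 1 ≤ M) (h : Obj 𝒰 Φ 0 M H r) (hΦX : ∀ᶠ n in (𝒰 : Filter ℕ), ∀ z ∈ ball (0 : ℂ) r, Φ n z ∈ X)
    (hH : H 0 = σ 0) (hd : deriv (fun z => τ (H z)) 0 = (1, 0)) {a b k ε B C₁ r₁ : ℝ} (ha : 0 < a) (hb : 0 < b) (hk : 0 < k) (hk1 : k < 1)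
    (hcond : a - 1 - k < b * M) (hε : 0 < ε) (hr₁ : 0 < r₁) {U : ℕ → ℂ → ℝ} (hU : ∀ n z, 0 ≤ U n z)
    (hmax : ∀ᶠ n in (𝒰 : Filter ℕ), ∀ (w : ℂ) (ρ : ℝ), 0 < ρ → closedBall w ρ ⊆ ball 0 r₁ → ∀ z ∈ closedBall w ρ, ∃ y ∈ sphere w ρ,
      U n z ≤ C₁ * U n y)
    (htb : ∀ᶠ n in (𝒰 : Filter ℕ), ∀ z ∈ ball (0 : ℂ) r₁, ∀ c : ℂ, c ≠ 0 → ‖c⁻¹ • Φ n z - σ 0‖ < ε → (τ (c⁻¹ • Φ n z)).1 ≠ 0 →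
      ‖(τ (c⁻¹ • Φ n z)).2‖ < ε * ‖(τ (c⁻¹ • Φ n z)).1‖ →
      ‖(τ (c⁻¹ • Φ n z)).1‖ ^ a * sm k ((τ (c⁻¹ • Φ n z)).1, (τ (c⁻¹ • Φ n z)).2 / (τ (c⁻¹ • Φ n z)).1)
        (deriv (fun w => (τ (c⁻¹ • Φ n w)).1) z, deriv (fun w => (τ (c⁻¹ • Φ n w)).2 / (τ (c⁻¹ • Φ n w)).1) z) * ‖c‖ ^ (-b) ≤ B * U n z ∧
      U n z ≤ B * (‖(τ (c⁻¹ • Φ n z)).1‖ ^ a * sm k ((τ (c⁻¹ • Φ n z)).1, (τ (c⁻¹ • Φ n z)).2 / (τ (c⁻¹ • Φ n z)).1)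
        (deriv (fun w => (τ (c⁻¹ • Φ n w)).1) z, deriv (fun w => (τ (c⁻¹ • Φ n w)).2 / (τ (c⁻¹ • Φ n w)).1) z) * ‖c‖ ^ (-b))) : False := by
  sorry

end Pool.Agent.SG.Stub
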