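import Pool.Agent.SG.LimB
import Pool.Agent.SG.LimC
import Pool.Agent.SG51.GC
import Pool.Agent.SG.ChN

/-!
# SG LimW: the limit of the quotient of the coordinates is constant (its Wronskian vanishes)
-/

set_option autoImplicit false

open Topology Filter Metric

noncomputable section

namespace Pool.Agent.SG

open Pool.Agent.H17BP (IsChart Surface)
open Pool.Agent.SG51 (Res Yn)

variable {E : Type} [NormedAddCommGroup E] [NormedSpace ℂ E] {𝒰 : Ultrafilter ℕ} {Φ : ℕ → ℂ → E} {ℓ : E →L[ℂ] ℂ} {w : ℂ} {r : ℝ} {m : ℕ}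
  {c : ℕ → ℂ} {lam : ℕ → ℝ} {P : ℂ → ℂ} {N : ℂ → E} {X : Set E} {σ : ℂ × ℂ → E} {τ : E → ℂ × ℂ}

/-- the normalised curve is differentiable at the rescaled points, composed with an analytic map -/
private theorem limW_diff (h : Res 𝒰 Φ ℓ (σ 0) w r m c lam P N) {q : E → ℂ} (hq : AnalyticAt ℂ q (σ 0)) {u : ℂ} (hu : P u ≠ 0) :
    ∀ᶠ n in (𝒰 : Filter ℕ), DifferentiableAt ℂ (fun z => q (Yn ℓ Φ n z)) (c n + lam n * u) := by
  have e1 := h.ne_zero hu (u := fun _ => u) tendsto_const_nhds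
  have e2 := (h.ccY u hu (fun _ => u) tendsto_const_nhds).eventually hq.eventually_analyticAt
  have e3 := (h.tendsto_point (u := fun _ => u) tendsto_const_nhds).eventually (ball_mem_nhds w h.r_pos)
  filter_upwards [e1, e2, e3, h.hol] with n h1 h2 h3 h4
  have d1 : DifferentiableAt ℂ (Φ n) (c n + lam n * u) := h4.differentiableAt (isOpen_ball.mem_nhds h3)
  have d2 : DifferentiableAt ℂ (fun z => ℓ (Φ n z)) (c n + lam n * u) := ℓ.differentiableAt.comp _ d1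
  have d3 : DifferentiableAt ℂ (fun z => Yn ℓ Φ n z) (c n + lam n * u) := (d2.inv h1).smul d1
  exact h2.differentiableAt.comp (c n + lam n * u) d3

/-- **The Wronskian of the limits of the coordinates vanishes.** -/
theorem lim_wr (hσ : IsChart X σ τ) (h : Res 𝒰 Φ ℓ (σ 0) w r m c lam P N) {k C : ℝ} (hk : 0 < k) {u : ℂ} (hu : P u ≠ 0) (hu0 : u ≠ 0)
    (hy : (fderiv ℂ τ (σ 0) ((P u)⁻¹ • N u)).1 ≠ 0)
    (hb : ∀ᶠ n in (𝒰 : Filter ℕ), ‖(lam n : ℂ) * u‖ ^ (1 - k) * ‖deriv (cT τ ℓ (Φ n)) (c n + lam n * u)‖ ≤ C) :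
    deriv (fun z => (fderiv ℂ τ (σ 0) ((P z)⁻¹ • N z)).2) u * (fderiv ℂ τ (σ 0) ((P u)⁻¹ • N u)).1 =
      (fderiv ℂ τ (σ 0) ((P u)⁻¹ • N u)).2 * deriv (fun z => (fderiv ℂ τ (σ 0) ((P z)⁻¹ • N z)).1) u := by
  have hτ0 : τ (σ 0) = 0 := tau_zero hσ
  have hτd : HasFDerivAt τ (fderiv ℂ τ (σ 0)) (σ 0) := hσ.τ_an.differentiableAt.hasFDerivAt
  have a1 : AnalyticAt ℂ (fun e => (τ e).1) (σ 0) := ((ContinuousLinearMap.fst ℂ ℂ ℂ).analyticAt _).comp hσ.τ_an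
  have a2 : AnalyticAt ℂ (fun e => (τ e).2) (σ 0) := ((ContinuousLinearMap.snd ℂ ℂ ℂ).analyticAt _).comp hσ.τ_an
  have f1 : ∀ v, fderiv ℂ (fun e => (τ e).1) (σ 0) v = (fderiv ℂ τ (σ 0) v).1 := by
    intro v
    rw [hτd.fst.fderiv]
    rfl
  have f2 : ∀ v, fderiv ℂ (fun e => (τ e).2) (σ 0) v = (fderiv ℂ τ (σ 0) v).2 := by
    intro v
    rw [hτd.snd.fderiv]
    rfl
  have t1 := h.ccQ a1 (by rw [hτ0]; rfl) u hu (fun _ => u) tendsto_const_nhds
  have t2 := h.ccQ a2 (by rw [hτ0]; rfl) u hu (fun _ => u) tendsto_const_nhds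
  have t3 := h.ccQ' a1 (by rw [hτ0]; rfl) u hu (fun _ => u) tendsto_const_nhds
  have t4 := h.ccQ' a2 (by rw [hτ0]; rfl) u hu (fun _ => u) tendsto_const_nhds
  simp only [f1] at t1 t3
  simp only [f2] at t2 t4
  set y : ℂ := (fderiv ℂ τ (σ 0) ((P u)⁻¹ • N u)).1 with hyd
  set x : ℂ := (fderiv ℂ τ (σ 0) ((P u)⁻¹ • N u)).2 with hxd
  set y' : ℂ := deriv (fun z => (fderiv ℂ τ (σ 0) ((P z)⁻¹ • N z)).1) u with hy'd
  set x' : ℂ := deriv (fun z => (fderiv ℂ τ (σ 0) ((P z)⁻¹ • N z)).2) u with hx'd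
  -- the limit of the derivative of the quotient
  have key : Tendsto (fun n => (lam n : ℂ) * deriv (cT τ ℓ (Φ n)) (c n + lam n * u)) 𝒰 (𝓝 ((x' * y - x * y') / y ^ 2)) := by
    have g := ((t4.mul t1).sub (t2.mul t3)).div (t1.pow 2) (pow_ne_zero 2 hy)
    refine g.congr' ?_
    filter_upwards [h.pos, limW_diff h a1 hu, limW_diff h a2 hu, t1.eventually_ne hy] with n hn d1 d2 hne
    have hl : (lam n : ℂ) ≠ 0 := by
      rw [Ne, Complex.ofReal_eq_zero]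
      exact hn.ne'
    have hS : (τ (Yn ℓ Φ n (c n + lam n * u))).1 ≠ 0 := fun h0 => hne (by rw [h0, smul_zero])
    have e2 : deriv (cT τ ℓ (Φ n)) (c n + lam n * u) =
        (deriv (fun z => (τ (Yn ℓ Φ n z)).2) (c n + lam n * u) * (τ (Yn ℓ Φ n (c n + lam n * u))).1 -
          (τ (Yn ℓ Φ n (c n + lam n * u))).2 * deriv (fun z => (τ (Yn ℓ Φ n z)).1) (c n + lam n * u)) /
            (τ (Yn ℓ Φ n (c n + lam n * u))).1 ^ 2 := (d2.hasDerivAt.div d1.hasDerivAt hS).deriv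
    rw [e2]
    simp only [Pi.div_apply, smul_eq_mul]
    field_simp
  -- the bound
  have hz : Tendsto (fun n => (lam n : ℂ) * deriv (cT τ ℓ (Φ n)) (c n + lam n * u)) 𝒰 (𝓝 0) := by
    have hup : Tendsto (fun n => C * ‖u‖ ^ (k - 1) * lam n ^ k) 𝒰 (𝓝 0) := by
      have h1 : Tendsto (fun n => lam n ^ k) 𝒰 (𝓝 0) := by
        have := h.lim.rpow_const (p := k) (Or.inr hk.le)
        rwa [Real.zero_rpow hk.ne'] at this
      simpa using h1.const_mul (C * ‖u‖ ^ (k - 1))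
    refine squeeze_zero_norm' ?_ hup
    filter_upwards [hb, h.pos] with n h1 hn
    have hun : 0 < ‖u‖ := norm_pos_iff.2 hu0
    have h2 : ‖(lam n : ℂ) * u‖ = lam n * ‖u‖ := by
      rw [norm_mul, Complex.norm_real, Real.norm_of_nonneg hn.le]
    rw [h2] at h1
    have h3 : 0 < (lam n * ‖u‖) ^ (1 - k) := Real.rpow_pos_of_pos (mul_pos hn hun) _
    have h4 : ‖deriv (cT τ ℓ (Φ n)) (c n + lam n * u)‖ ≤ C * (lam n * ‖u‖) ^ (k - 1) := by
      have h5 : (lam n * ‖u‖) ^ (k - 1) = ((lam n * ‖u‖) ^ (1 - k))⁻¹ := by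
        rw [← Real.rpow_neg (mul_pos hn hun).le]
        congr 1
        ring
      rw [h5, ← div_eq_mul_inv, le_div_iff₀ h3, mul_comm]
      exact h1
    rw [norm_mul, Complex.norm_real, Real.norm_of_nonneg hn.le]
    calc lam n * ‖deriv (cT τ ℓ (Φ n)) (c n + lam n * u)‖ ≤ lam n * (C * (lam n * ‖u‖) ^ (k - 1)) := by gcongr
      _ = C * ‖u‖ ^ (k - 1) * lam n ^ k := by
        rw [Real.mul_rpow hn.le hun.le, Real.rpow_sub_one hn.ne' k]
        field_simp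
  have h0 := tendsto_nhds_unique key hz
  rw [div_eq_zero_iff, or_iff_left (pow_ne_zero 2 hy), sub_eq_zero] at h0
  exact h0

end Pool.Agent.SG
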