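import Pool.Agent.H82.XB.Coord

/-!
# SG NChart: a chart with values in the hyperplane `L = 1` and with the first coordinate `Q / L ^ e`
-/

set_option autoImplicit false
set_option linter.unusedSectionVars false

open Topology Filter Metric

noncomputable section

namespace Pool.Agent.SG

open Pool.Agent.H17BP (Surface IsForm IsChart Bihol bihol_iff Coord coord_iff dx dy)
open Pool.Agent.H82.XB (chart_of_coord)

variable {V : Type} [NormedAddCommGroup V] [NormedSpace ℂ V] {X : Set V}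

/-- a chart multiplied by a function without zeros so that a linear form is `1` -/
theorem chart_unit {σ : ℂ × ℂ → V} {τ : V → ℂ × ℂ} (h : IsChart X σ τ) (hXs : ∀ x ∈ X, ∀ c : ℂ, c ≠ 0 → c • x ∈ X) {L : V →L[ℂ] ℂ}
    (hL : L (σ 0) = 1) : IsChart X (fun p => (L (σ p))⁻¹ • σ p) τ ∧ (∀ᶠ p in 𝓝 (0 : ℂ × ℂ), L ((L (σ p))⁻¹ • σ p) = 1) := by
  have h1 : AnalyticAt ℂ (fun p => L (σ p)) 0 := (L.analyticAt _).comp h.σ_an
  have h2 : ∀ᶠ p in 𝓝 (0 : ℂ × ℂ), L (σ p) ≠ 0 := h1.continuousAt.eventually_ne (by rw [hL]; exact one_ne_zero)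
  have h3 : AnalyticAt ℂ (fun p => (L (σ p))⁻¹) 0 := h1.inv (by rw [hL]; exact one_ne_zero)
  have e0 : (L (σ 0))⁻¹ • σ 0 = σ 0 := by rw [hL, inv_one, one_smul]
  have h4 : Tendsto (fun p => (σ p, (L (σ p))⁻¹)) (𝓝 0) (𝓝 (σ 0, (1 : ℂ))) := by
    refine h.σ_an.continuousAt.tendsto.prodMk_nhds ?_
    have := h3.continuousAt.tendsto
    rwa [hL, inv_one] at this
  refine ⟨⟨h3.smul h.σ_an, ?_, ?_, ?_, ?_, ?_, ?_⟩, ?_⟩
  · filter_upwards [h.σ_mem, h2] with p hp hp2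
    exact hXs _ hp _ (inv_ne_zero hp2)
  · simp only [e0]
    exact h.ne
  · simp only [e0]
    exact h.τ_an
  · filter_upwards [h4.eventually h.inv, h.left] with p hp hp2
    rw [hp, hp2]
  · simp only [e0]
    have hτ : Tendsto τ (𝓝 (σ 0)) (𝓝 0) := by
      have := h.τ_an.continuousAt.tendsto
      rwa [h.left.self_of_nhds] at this
    filter_upwards [h.right, hτ.eventually h2] with y hy hy2 hyX
    obtain ⟨c, hc, hy3⟩ := hy hyX
    refine ⟨c * L (σ (τ y)), mul_ne_zero hc hy2, ?_⟩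
    rw [smul_smul, mul_assoc, mul_inv_cancel₀ hy2, mul_one]
    exact hy3
  · simp only [e0]
    exact h.inv
  · filter_upwards [h2] with p hp
    rw [map_smul, smul_eq_mul, inv_mul_cancel₀ hp]

/-- **A chart with values in the hyperplane `L = 1` and with the first coordinate `Q / L ^ e`.** -/
theorem exists_chart_norm (hXs : ∀ x ∈ X, ∀ c : ℂ, c ≠ 0 → c • x ∈ X) {σ₀ : ℂ × ℂ → V} {τ₀ : V → ℂ × ℂ} (h : IsChart X σ₀ τ₀) {L : V →L[ℂ] ℂ}
    (hL : L (σ₀ 0) = 1) {Q : V → ℂ} {e : ℕ} (hQ : AnalyticAt ℂ Q (σ₀ 0)) (hQh : ∀ (c : ℂ) y, Q (c • y) = c ^ e * Q y)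
    (hQ0 : Q (σ₀ 0) = 0) (hd : fderiv ℂ (fun p => Q (σ₀ p)) 0 ≠ 0) :
    ∃ (σ : ℂ × ℂ → V) (τ : V → ℂ × ℂ), IsChart X σ τ ∧ σ 0 = σ₀ 0 ∧ (∀ᶠ p in 𝓝 (0 : ℂ × ℂ), L (σ p) = 1) ∧
      (∀ y, (τ y).1 = Q y / L y ^ e) ∧ ∀ (c : ℂ) y, c ≠ 0 → τ (c • y) = τ y := by
  have hLan : AnalyticAt ℂ (fun p => L (σ₀ p)) 0 := (L.analyticAt _).comp h.σ_an
  have hQan : AnalyticAt ℂ (fun p => Q (σ₀ p)) 0 := AnalyticAt.comp (g := Q) (f := σ₀) hQ h.σ_an
  have hLinv : AnalyticAt ℂ (fun p => (L (σ₀ p))⁻¹) 0 := hLan.inv (by rw [hL]; exact one_ne_zero)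
  -- the second coordinate, homogeneous of degree `0`
  obtain ⟨t, ht⟩ : ∃ t : V → ℂ × ℂ, t = fun y => τ₀ ((L y)⁻¹ • y) := ⟨_, rfl⟩
  have ht0 : ∀ c : ℂ, c ≠ 0 → ∀ y, t (c • y) = t y := fun c hc y => by
    rw [ht]
    simp only
    congr 1
    rw [map_smul, smul_smul, smul_eq_mul, mul_inv, mul_comm c⁻¹, mul_assoc, inv_mul_cancel₀ hc, mul_one]
  have ht1 : ∀ᶠ p in 𝓝 (0 : ℂ × ℂ), t (σ₀ p) = p := by
    have h4 : Tendsto (fun p => (σ₀ p, (L (σ₀ p))⁻¹)) (𝓝 0) (𝓝 (σ₀ 0, (1 : ℂ))) := by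
      refine h.σ_an.continuousAt.tendsto.prodMk_nhds ?_
      have := hLinv.continuousAt.tendsto
      rwa [hL, inv_one] at this
    filter_upwards [h4.eventually h.inv, h.left] with p hp hp2
    rw [ht]
    simp only
    rw [hp, hp2]
  have htan : AnalyticAt ℂ t (σ₀ 0) := by
    have g1 : AnalyticAt ℂ (fun y => (L y)⁻¹ • y) (σ₀ 0) := ((L.analyticAt _).inv (by rw [hL]; exact one_ne_zero)).smul analyticAt_id
    have g2 : AnalyticAt ℂ τ₀ ((L (σ₀ 0))⁻¹ • σ₀ 0) := by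
      rw [hL, inv_one, one_smul]
      exact h.τ_an
    rw [ht]
    exact AnalyticAt.comp (g := τ₀) (f := fun y => (L y)⁻¹ • y) g2 g1
  -- the first coordinate
  have hs0 : ∀ c : ℂ, c ≠ 0 → ∀ y, Q (c • y) / L (c • y) ^ e = Q y / L y ^ e := fun c hc y => by
    rw [hQh, map_smul, smul_eq_mul, mul_pow, mul_div_mul_left _ _ (pow_ne_zero e hc)]
  have hsan : AnalyticAt ℂ (fun y => Q y / L y ^ e) (σ₀ 0) :=
    hQ.div ((L.analyticAt _).pow e) (by simp only [hL, one_pow]; exact one_ne_zero)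
  obtain ⟨S, hS⟩ : ∃ S : ℂ × ℂ → ℂ, S = fun p => Q (σ₀ p) / L (σ₀ p) ^ e := ⟨_, rfl⟩
  have hSan : AnalyticAt ℂ S 0 := by
    rw [hS]
    exact hQan.div (hLan.pow e) (by simp only [hL, one_pow]; exact one_ne_zero)
  have hS0 : S 0 = 0 := by rw [hS]; simp only [hQ0, zero_div]
  have hSd : fderiv ℂ S 0 = fderiv ℂ (fun p => Q (σ₀ p)) 0 := by
    have g1 : HasFDerivAt (fun p => Q (σ₀ p)) (fderiv ℂ (fun p => Q (σ₀ p)) 0) 0 := hQan.differentiableAt.hasFDerivAt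
    have g2 : DifferentiableAt ℂ (fun p => (L (σ₀ p) ^ e)⁻¹) 0 :=
      ((hLan.pow e).inv (by simp [hL])).differentiableAt
    have g3 := g1.mul g2.hasFDerivAt
    rw [hS]
    have g4 : (fun p => Q (σ₀ p) / L (σ₀ p) ^ e) = (fun p => Q (σ₀ p)) * fun p => (L (σ₀ p) ^ e)⁻¹ := by
      funext p
      simp only [Pi.mul_apply, div_eq_mul_inv]
    rw [g4, g3.fderiv]
    simp only [hQ0, hL, one_pow, inv_one, one_smul]
    refine (congrArg (fun x => x + fderiv ℂ (fun p => Q (σ₀ p)) 0) (zero_smul ℂ (fderiv ℂ (fun p => (L (σ₀ p) ^ e)⁻¹) 0))).trans ?_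
    exact zero_add _
  have key : ∀ (i : ℂ × ℂ →L[ℂ] ℂ), Coord S (fun p => i p) →
      ∃ (σ : ℂ × ℂ → V) (τ : V → ℂ × ℂ), IsChart X σ τ ∧ σ 0 = σ₀ 0 ∧ (∀ᶠ p in 𝓝 (0 : ℂ × ℂ), L (σ p) = 1) ∧
      (∀ y, (τ y).1 = Q y / L y ^ e) ∧ ∀ (c : ℂ) y, c ≠ 0 → τ (c • y) = τ y := by
    intro i hi
    have g0 : AnalyticAt ℂ (fun y => (Q y / L y ^ e, i (t y))) (σ₀ 0) := by
      refine hsan.prod ?_
      exact AnalyticAt.comp (g := fun p => i p) (f := t) (i.analyticAt _) htan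
    have g1 : Bihol fun p => (fun y => (Q y / L y ^ e, i (t y))) (σ₀ p) := by
      refine Bihol.congr hi ?_
      filter_upwards [ht1] with p hp
      simp only [hp, hS]
    have g2 : ∀ c : ℂ, c ≠ 0 → ∀ y, (fun y => (Q y / L y ^ e, i (t y))) (c • y) = (fun y => (Q y / L y ^ e, i (t y))) y := fun c hc y => by
      simp only [hs0 c hc y, ht0 c hc y]
    obtain ⟨θ, hθ, hc, -⟩ := chart_of_coord h g0 g2 g1
    have hσ0 : σ₀ (θ 0) = σ₀ 0 := by rw [hθ.zero]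
    have hL' : L ((fun p => σ₀ (θ p)) 0) = 1 := by
      simp only [hσ0]
      exact hL
    obtain ⟨h5, h6⟩ := chart_unit hc hXs hL'
    refine ⟨_, _, h5, ?_, h6, fun y => rfl, fun c y hc' => g2 c hc' y⟩
    simp only [hσ0, hL, inv_one, one_smul]
  have hdd : fderiv ℂ S 0 (1, 0) ≠ 0 ∨ fderiv ℂ S 0 (0, 1) ≠ 0 := by
    by_contra hcon
    obtain ⟨h1, h2⟩ := not_or.1 hcon
    rw [not_not] at h1 h2
    apply hd
    rw [← hSd]
    ext
    · simpa using h1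
    · simpa using h2
  rcases hdd with hdd | hdd
  · refine key (ContinuousLinearMap.snd ℂ ℂ ℂ) ?_
    refine (bihol_iff (hSan.prod ((ContinuousLinearMap.snd ℂ ℂ ℂ).analyticAt _)) (by simp [hS0])).2 ?_
    have h1 : fderiv ℂ (fun x => (S x, (ContinuousLinearMap.snd ℂ ℂ ℂ) x)) 0 = (fderiv ℂ S 0).prod (ContinuousLinearMap.snd ℂ ℂ ℂ) :=
      (hSan.differentiableAt.hasFDerivAt.prodMk (ContinuousLinearMap.snd ℂ ℂ ℂ).hasFDerivAt).fderiv
    rw [h1]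
    simpa using hdd
  · refine key (ContinuousLinearMap.fst ℂ ℂ ℂ) ?_
    refine (bihol_iff (hSan.prod ((ContinuousLinearMap.fst ℂ ℂ ℂ).analyticAt _)) (by simp [hS0])).2 ?_
    have h1 : fderiv ℂ (fun x => (S x, (ContinuousLinearMap.fst ℂ ℂ ℂ) x)) 0 = (fderiv ℂ S 0).prod (ContinuousLinearMap.fst ℂ ℂ ℂ) :=
      (hSan.differentiableAt.hasFDerivAt.prodMk (ContinuousLinearMap.fst ℂ ℂ ℂ).hasFDerivAt).fderiv
    rw [h1]
    simpa using hdd

/-- near the centre the points of `X` with `L = 1` are `σ (τ y)` -/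
theorem chart_norm_right {σ : ℂ × ℂ → V} {τ : V → ℂ × ℂ} (h : IsChart X σ τ) {L : V →L[ℂ] ℂ} (hL : ∀ᶠ p in 𝓝 (0 : ℂ × ℂ), L (σ p) = 1) :
    ∀ᶠ y in 𝓝 (σ 0), y ∈ X → L y = 1 → y = σ (τ y) := by
  have hτ : Tendsto τ (𝓝 (σ 0)) (𝓝 0) := by
    have := h.τ_an.continuousAt.tendsto
    rwa [h.left.self_of_nhds] at this
  filter_upwards [h.right, hτ.eventually hL] with y hy hy2 hyX hLy
  obtain ⟨c, hc, hy3⟩ := hy hyX
  have h1 : c = 1 := by
    rw [hy3, map_smul, hy2, smul_eq_mul, mul_one] at hLy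
    exact hLy
  rw [h1, one_smul] at hy3
  exact hy3

end Pool.Agent.SG
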