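import Pool.Agent.H90.SG.Smooth
import Pool.Agent.SG.NChart

/-!
# SG NChN: the two-sided bound at a smooth point of the curve, for the Taylor families `L ∘ G`, `Q ∘ G`, `G - (L ∘ G) • x`

`x = σ 0`, the chart has values in `L = 1` and the first coordinate `Q / L ^ e` (`exists_chart_norm`).  Off the zeros of `L ∘ G`, where `G / L (G)` is near `x`,
the point `G / L (G) - x` is `σ (s, t) - x` with `s = Q (G) / L (G) ^ e`, and the weighted energy is, up to a factor,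
`‖s‖ ^ a * max (‖s'‖, ‖s‖ ^ (1 - k) * ‖t'‖) * ‖L (G)‖ ^ (- θ j / m)`, `a = μ / m`, if the coefficient of the form is `s ^ μ` up to a factor.
-/

set_option autoImplicit false
set_option linter.unusedVariables false

open Topology Filter Metric

noncomputable section

namespace Pool.Agent.SG

open Pool.Agent.H17BP (Surface IsForm IsChart)
open Pool.Agent.H36.TB (oC sm EnergyB TBAt)
open Pool.Agent.H90.SG (TBNear)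
open Pool.Agent.SY (Ent)

variable {V : Type} [NormedAddCommGroup V] [NormedSpace ℂ V]

theorem box_near {X T : Set V} {m j : ℕ} {Ω : V → V → V → ℂ} {nu rho : V → ℝ} {M : ℕ} {c₀ C θ k : ℝ} {g : (ℂ → V) → ℂ → ℝ}
    {pn : V → ℝ} {D₁ : ℕ} (hX : Surface X) (hTX : T ⊆ X) (hm : 1 ≤ m) (E : EnergyB X T m j Ω nu rho M c₀ C g pn D₁ θ) {σ : ℂ × ℂ → V} {τ : V → ℂ × ℂ}
    (hσ : IsChart X σ τ) (ht : TBNear X T m j Ω θ k σ τ g pn D₁) {L : V →L[ℂ] ℂ} (hLσ : ∀ᶠ p in 𝓝 (0 : ℂ × ℂ), L (σ p) = 1) {Q : V → ℂ} {e : ℕ}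
    (hτ : ∀ y, (τ y).1 = Q y / L y ^ e) (hτh : ∀ (c : ℂ) y, c ≠ 0 → τ (c • y) = τ y) {μ : ℕ}
    (hμ : ∃ B : ℝ, 1 ≤ B ∧ ∀ᶠ p in 𝓝 (0 : ℂ × ℂ), ‖p.1‖ ^ μ ≤ B * ‖oC Ω σ p‖ ∧ ‖oC Ω σ p‖ ≤ B * ‖p.1‖ ^ μ) :
    ∃ ε B : ℝ, 0 < ε ∧ 1 ≤ B ∧ ∀ F, Ent X T F → ∀ (G : ℂ → V) (u : ℂ → ℂ) (z : ℂ), ContinuousAt G z → (∀ᶠ w in 𝓝 z, u w ≠ 0 ∧ G w = u w • F w) →
      L (G z) ≠ 0 → ‖(L (G z))⁻¹ • (G z - L (G z) • σ 0)‖ < ε →
      (L (G z))⁻¹ • (G z - L (G z) • σ 0) = σ (Q (G z) / L (G z) ^ e, (τ (σ 0 + (L (G z))⁻¹ • (G z - L (G z) • σ 0))).2) - σ 0 ∧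
      ‖Q (G z) / L (G z) ^ e‖ ^ ((μ : ℝ) / m) * max ‖deriv (fun y => Q (G y) / L (G y) ^ e) z‖ (‖Q (G z) / L (G z) ^ e‖ ^ (1 - k) *
        ‖deriv (fun y => (τ (σ 0 + (L (G y))⁻¹ • (G y - L (G y) • σ 0))).2) z‖) * ‖L (G z)‖ ^ (-(θ * j / m)) ≤
        B * (g F z * pn (G z) ^ (-(θ * j / (m * D₁)))) ∧
      g F z * pn (G z) ^ (-(θ * j / (m * D₁))) ≤
        B * (‖Q (G z) / L (G z) ^ e‖ ^ ((μ : ℝ) / m) * max ‖deriv (fun y => Q (G y) / L (G y) ^ e) z‖ (‖Q (G z) / L (G z) ^ e‖ ^ (1 - k) *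
        ‖deriv (fun y => (τ (σ 0 + (L (G y))⁻¹ • (G y - L (G y) • σ 0))).2) z‖) * ‖L (G z)‖ ^ (-(θ * j / m))) := by
  obtain ⟨ε₁, B, hε₁, hB, hbd⟩ := ht
  obtain ⟨B₂, hB₂, hμ⟩ := hμ
  have hB0 : 0 < B := lt_of_lt_of_le one_pos hB
  have hB20 : 0 < B₂ := lt_of_lt_of_le one_pos hB₂
  have hL0 : L (σ 0) = 1 := hLσ.self_of_nhds
  have hm0 : (0 : ℝ) < m := by
    have : 0 < m := by omega
    exact_mod_cast this
  have hτc : Tendsto τ (𝓝 (σ 0)) (𝓝 0) := by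
    have := hσ.τ_an.continuousAt.tendsto
    rwa [hσ.left.self_of_nhds] at this
  obtain ⟨ε₂, hε₂, hball⟩ := Metric.eventually_nhds_iff_ball.mp (hσ.right.and (hτc.eventually (hLσ.and hμ)))
  refine ⟨min ε₁ ε₂, B * B₂ ^ (1 / (m : ℝ)), lt_min hε₁ hε₂,
    one_le_mul_of_one_le_of_one_le hB (Real.one_le_rpow hB₂ (by positivity)), fun F hF G u z hGc hu hLz hz => ?_⟩
  obtain ⟨huz, hGz⟩ := hu.self_of_nhds
  have e1 : ∀ v : V, L v ≠ 0 → (L v)⁻¹ • (v - L v • σ 0) = (L v)⁻¹ • v - σ 0 := fun v hv => by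
    rw [smul_sub, smul_smul, inv_mul_cancel₀ hv, one_smul]
  have e2 : ∀ v : V, L v ≠ 0 → τ (σ 0 + (L v)⁻¹ • (v - L v • σ 0)) = τ v := fun v hv => by
    rw [e1 v hv, add_sub_cancel, hτh _ _ (inv_ne_zero hv)]
  have hLGc : ContinuousAt (fun w => L (G w)) z := L.continuous.continuousAt.comp hGc
  have hLn : ∀ᶠ w in 𝓝 z, L (G w) ≠ 0 := hLGc.eventually_ne hLz
  have e3 : deriv (fun y => (τ (σ 0 + (L (G y))⁻¹ • (G y - L (G y) • σ 0))).2) z = deriv (fun y => (τ (G y)).2) z := by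
    refine Filter.EventuallyEq.deriv_eq ?_
    filter_upwards [hLn] with w hw
    rw [e2 _ hw]
  have e4 : ∀ w, Q (G w) / L (G w) ^ e = (τ (G w)).1 := fun w => (hτ _).symm
  rw [e2 _ hLz, e3]
  simp only [e4]
  rw [e1 _ hLz] at hz ⊢
  obtain ⟨c, hc⟩ : ∃ c, c = L (G z) * (u z)⁻¹ := ⟨_, rfl⟩
  have hc0 : c ≠ 0 := by
    rw [hc]
    exact mul_ne_zero hLz (inv_ne_zero huz)
  have e5 : c⁻¹ • F z = (L (G z))⁻¹ • G z := by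
    rw [hc, mul_inv, inv_inv, mul_smul, ← hGz]
  have hz1 : ‖c⁻¹ • F z - σ 0‖ < ε₁ := by
    rw [e5]
    exact lt_of_lt_of_le hz (min_le_left _ _)
  obtain ⟨hdiff, h1, h2⟩ := hbd F hF z c hc0 hz1
  have e6 : τ (c⁻¹ • F z) = τ (G z) := by rw [e5, hτh _ _ (inv_ne_zero hLz)]
  have e7 : (fun w => τ (c⁻¹ • F w)) =ᶠ[𝓝 z] fun w => τ (G w) := by
    filter_upwards [hu] with w hw
    rw [hw.2, hτh _ _ hw.1, hτh _ _ (inv_ne_zero hc0)]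
  have hdiff' : DifferentiableAt ℂ (fun w => τ (G w)) z := hdiff.congr_of_eventuallyEq e7.symm
  have e8 : deriv (fun w => τ (c⁻¹ • F w)) z = (deriv (fun y => (τ (G y)).1) z, deriv (fun y => (τ (G y)).2) z) := by
    rw [e7.deriv_eq]
    have g1 : HasDerivAt (fun w => (τ (G w)).1) (deriv (fun w => τ (G w)) z).1 z :=
      (ContinuousLinearMap.fst ℂ ℂ ℂ).hasFDerivAt.comp_hasDerivAt z hdiff'.hasDerivAt
    have g2 : HasDerivAt (fun w => (τ (G w)).2) (deriv (fun w => τ (G w)) z).2 z :=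
      (ContinuousLinearMap.snd ℂ ℂ ℂ).hasFDerivAt.comp_hasDerivAt z hdiff'.hasDerivAt
    rw [g1.deriv, g2.deriv]
  rw [e6, e8] at h1 h2
  simp only [sm] at h1 h2
  -- the point
  have hyb : (L (G z))⁻¹ • G z ∈ ball (σ 0) ε₂ := by
    rw [mem_ball, dist_eq_norm]
    exact lt_of_lt_of_le hz (min_le_right _ _)
  obtain ⟨hr, hL1, hm1, hm2⟩ := hball _ hyb
  rw [hτh _ _ (inv_ne_zero hLz)] at hL1 hm1 hm2 hr
  have hGX : G z ∈ X := by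
    rw [hGz]
    exact hX.smul _ (hF.mem z) _ huz
  obtain ⟨d, hd, hyd⟩ := hr (hX.smul _ hGX _ (inv_ne_zero hLz))
  have hd1 : d = 1 := by
    have h3 : L ((L (G z))⁻¹ • G z) = 1 := by rw [map_smul, smul_eq_mul, inv_mul_cancel₀ hLz]
    rw [hyd, map_smul, hL1, smul_eq_mul, mul_one] at h3
    exact h3
  refine ⟨?_, ?_⟩
  · rw [hyd, hd1, one_smul]
  -- the weights
  have hcn : 0 < ‖c‖ := norm_pos_iff.mpr hc0
  have hun : 0 < ‖u z‖ := norm_pos_iff.mpr huz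
  have hLn0 : 0 < ‖L (G z)‖ := norm_pos_iff.mpr hLz
  have hD0 : (0 : ℝ) < D₁ := by
    have h4 := E.one_le
    have : 0 < D₁ := by omega
    exact_mod_cast this
  have hw : pn (G z) ^ (-(θ * j / (m * D₁))) = ‖u z‖ ^ (-(θ * j / m)) * pn (F z) ^ (-(θ * j / (m * D₁))) := by
    rw [hGz, E.pn_smul, Real.mul_rpow (by positivity) (E.pn_nonneg _), ← Real.rpow_natCast, ← Real.rpow_mul hun.le]
    congr 2
    field_simp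
  have hw2 : ‖L (G z)‖ ^ (-(θ * j / m)) = ‖u z‖ ^ (-(θ * j / m)) * ‖c‖ ^ (-(θ * j / m)) := by
    rw [← Real.mul_rpow hun.le hcn.le, ← norm_mul, hc]
    congr 2
    field_simp
  obtain ⟨S, hS⟩ : ∃ S, S = max ‖deriv (fun y => (τ (G y)).1) z‖ (‖(τ (G z)).1‖ ^ (1 - k) * ‖deriv (fun y => (τ (G y)).2) z‖) := ⟨_, rfl⟩
  have hS0 : 0 ≤ S := by
    rw [hS]
    exact le_max_of_le_left (norm_nonneg _)
  rw [← hS] at h1 h2 ⊢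
  obtain ⟨W, hW⟩ : ∃ W, W = g F z * pn (F z) ^ (-(θ * j / (m * D₁))) := ⟨_, rfl⟩
  rw [← hW] at h1 h2
  have hU : g F z * pn (G z) ^ (-(θ * j / (m * D₁))) = ‖u z‖ ^ (-(θ * j / m)) * W := by rw [hw, hW]; ring
  rw [hU, hw2]
  obtain ⟨O, hO⟩ : ∃ O, O = ‖oC Ω σ (τ (G z))‖ ^ (1 / (m : ℝ)) := ⟨_, rfl⟩
  rw [← hO] at h1 h2
  have hO0 : 0 ≤ O := by rw [hO]; positivity
  have hpw : ‖(τ (G z)).1‖ ^ ((μ : ℝ) / m) = (‖(τ (G z)).1‖ ^ μ) ^ (1 / (m : ℝ)) := by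
    rw [← Real.rpow_natCast, ← Real.rpow_mul (norm_nonneg _)]
    congr 1
    ring
  have hO1 : ‖(τ (G z)).1‖ ^ ((μ : ℝ) / m) ≤ B₂ ^ (1 / (m : ℝ)) * O := by
    rw [hpw, hO, ← Real.mul_rpow hB20.le (norm_nonneg _)]
    exact Real.rpow_le_rpow (by positivity) hm1 (by positivity)
  have hO2 : O ≤ B₂ ^ (1 / (m : ℝ)) * ‖(τ (G z)).1‖ ^ ((μ : ℝ) / m) := by
    rw [hpw, hO, ← Real.mul_rpow hB20.le (by positivity)]
    exact Real.rpow_le_rpow (norm_nonneg _) hm2 (by positivity)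
  have hu0 : 0 ≤ ‖u z‖ ^ (-(θ * j / m)) := Real.rpow_nonneg hun.le _
  have hc1 : 0 ≤ ‖c‖ ^ (-(θ * j / m)) := Real.rpow_nonneg hcn.le _
  have hK0 : 0 ≤ B₂ ^ (1 / (m : ℝ)) := by positivity
  constructor
  · calc ‖(τ (G z)).1‖ ^ ((μ : ℝ) / m) * S * (‖u z‖ ^ (-(θ * j / m)) * ‖c‖ ^ (-(θ * j / m)))
        ≤ (B₂ ^ (1 / (m : ℝ)) * O) * S * (‖u z‖ ^ (-(θ * j / m)) * ‖c‖ ^ (-(θ * j / m))) := by gcongr
      _ = B₂ ^ (1 / (m : ℝ)) * ‖u z‖ ^ (-(θ * j / m)) * (O * S * ‖c‖ ^ (-(θ * j / m))) := by ring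
      _ ≤ B₂ ^ (1 / (m : ℝ)) * ‖u z‖ ^ (-(θ * j / m)) * (B * W) := mul_le_mul_of_nonneg_left h1 (mul_nonneg hK0 hu0)
      _ = B * B₂ ^ (1 / (m : ℝ)) * (‖u z‖ ^ (-(θ * j / m)) * W) := by ring
  · calc ‖u z‖ ^ (-(θ * j / m)) * W ≤ ‖u z‖ ^ (-(θ * j / m)) * (B * (O * S * ‖c‖ ^ (-(θ * j / m)))) := mul_le_mul_of_nonneg_left h2 hu0
      _ ≤ ‖u z‖ ^ (-(θ * j / m)) * (B * ((B₂ ^ (1 / (m : ℝ)) * ‖(τ (G z)).1‖ ^ ((μ : ℝ) / m)) * S * ‖c‖ ^ (-(θ * j / m)))) := by gcongr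
      _ = B * B₂ ^ (1 / (m : ℝ)) * (‖(τ (G z)).1‖ ^ ((μ : ℝ) / m) * S * (‖u z‖ ^ (-(θ * j / m)) * ‖c‖ ^ (-(θ * j / m)))) := by ring

end Pool.Agent.SG
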