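import Pool.Agent.SG.NScal
import Pool.Agent.SG.Neck
import Pool.Agent.SG51.Alg

/-!
# SG NCore: the core of case (I)

`A n = L ∘ G n`, `B n = Q ∘ G n`, `v n = G n - A n • x`, `s n = B n / A n ^ e`, `t n = T (v n / A n)`.
-/

set_option autoImplicit false

open Topology Filter Metric Finset Polynomial

noncomputable section

namespace Pool.Agent.SG

variable {V : Type} [NormedAddCommGroup V] [NormedSpace ℂ V]

private theorem nc_num (e : ℕ) : ∃ η : ℝ, 0 < η ∧ η ≤ 1 / 2 ∧ ∀ x y : ℂ, ‖x‖ ≤ η → ‖y‖ ≤ η → ‖(1 + y) / (1 + x) ^ e - 1‖ ≤ 1 / 2 := by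
  have h1 : ContinuousAt (fun p : ℂ × ℂ => (1 + p.2) / (1 + p.1) ^ e) 0 := by
    refine ContinuousAt.div ?_ ?_ (by simp)
    · exact continuousAt_const.add continuousAt_snd
    · exact (continuousAt_const.add continuousAt_fst).pow e
  obtain ⟨δ, hδ, h2⟩ := Metric.continuousAt_iff.1 h1 (1 / 2) (by norm_num)
  refine ⟨min (δ / 2) (1 / 2), lt_min (by linarith) (by norm_num), min_le_right _ _, fun x y hx hy => ?_⟩
  have h3 : dist ((x, y) : ℂ × ℂ) 0 < δ := by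
    rw [dist_zero_right, Prod.norm_def]
    refine max_lt ?_ ?_
    · exact (hx.trans (min_le_left _ _)).trans_lt (by linarith)
    · exact (hy.trans (min_le_left _ _)).trans_lt (by linarith)
  have h4 := h2 h3
  rw [dist_eq_norm] at h4
  simp only [Prod.fst_zero, Prod.snd_zero, add_zero, one_pow, div_one] at h4
  exact h4.le

/-- the estimates at a point of the neck -/
private theorem nc_pt {e M : ℕ} {η : ℝ} (hη1 : η ≤ 1 / 2)
    (hη2 : ∀ x y : ℂ, ‖x‖ ≤ η → ‖y‖ ≤ η → ‖(1 + y) / (1 + x) ^ e - 1‖ ≤ 1 / 2) {h A B : ℂ} {w : V} (hh : h ≠ 0)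
    (hA : ‖A - h ^ M‖ ≤ η * ‖h‖ ^ M) (hB : ‖B - h ^ (e * M + 1)‖ ≤ η * ‖h‖ ^ (e * M + 1)) (hw : ‖w‖ ≤ η * ‖h‖ ^ M) :
    A ≠ 0 ∧ ‖h‖ ^ M / 2 ≤ ‖A‖ ∧ ‖A‖ ≤ 2 * ‖h‖ ^ M ∧ ‖B / A ^ e - h‖ ≤ ‖h‖ / 2 ∧ ‖A⁻¹ • w‖ ≤ 2 * η := by
  have hn : 0 < ‖h‖ := norm_pos_iff.mpr hh
  have hnM : 0 < ‖h‖ ^ M := pow_pos hn M
  have k0 := mul_le_mul_of_nonneg_right hη1 hnM.le
  have e1 : ‖h ^ M‖ = ‖h‖ ^ M := norm_pow _ _
  have h1 : ‖h‖ ^ M / 2 ≤ ‖A‖ := by
    have h2 := norm_sub_norm_le (h ^ M) A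
    rw [norm_sub_rev, e1] at h2
    linarith only [h2, hA, k0]
  have h3 : ‖A‖ ≤ 2 * ‖h‖ ^ M := by
    have h2 := norm_sub_norm_le A (h ^ M)
    rw [e1] at h2
    linarith only [h2, hA, k0, hnM]
  have hA0 : A ≠ 0 := by
    rintro rfl
    rw [norm_zero] at h1
    linarith
  refine ⟨hA0, h1, h3, ?_, ?_⟩
  · have hx : ‖A / h ^ M - 1‖ ≤ η := by
      have e2 : A / h ^ M - 1 = (A - h ^ M) / h ^ M := by
        field_simp
      rw [e2, norm_div, e1, div_le_iff₀ hnM]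
      exact hA
    have hy : ‖B / h ^ (e * M + 1) - 1‖ ≤ η := by
      have e2 : B / h ^ (e * M + 1) - 1 = (B - h ^ (e * M + 1)) / h ^ (e * M + 1) := by
        field_simp
      rw [e2, norm_div, norm_pow, div_le_iff₀ (pow_pos hn _)]
      exact hB
    have h4 := hη2 _ _ hx hy
    rw [add_sub_cancel, add_sub_cancel] at h4
    have e3 : B / A ^ e - h = h * (B / h ^ (e * M + 1) / (A / h ^ M) ^ e - 1) := by
      rw [div_pow, ← pow_mul, mul_comm M e, pow_succ]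
      field_simp
    rw [e3, norm_mul]
    calc ‖h‖ * ‖B / h ^ (e * M + 1) / (A / h ^ M) ^ e - 1‖ ≤ ‖h‖ * (1 / 2) := mul_le_mul_of_nonneg_left h4 hn.le
      _ = ‖h‖ / 2 := by ring
  · rw [norm_smul, norm_inv, inv_mul_le_iff₀ (lt_of_lt_of_le (by positivity) h1)]
    have hη0 : 0 ≤ η := by
      by_contra hcon
      have := norm_nonneg w
      have k1 := mul_neg_of_neg_of_pos (not_le.1 hcon) hnM
      linarith only [k1, this, hw]
    have k1 := mul_le_mul_of_nonneg_left h1 hη0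
    linarith only [k1, hw]

private theorem nc_pol {n : ℕ} {y : ℕ → V} {R : ℝ} (h : ∀ u : ℂ, R < ‖u‖ → ∑ l ∈ range n, u ^ l • y l = 0) : ∀ l < n, y l = 0 := by
  intro l hl
  refine NormedSpace.eq_zero_of_forall_dual_eq_zero ℂ fun f => ?_
  set p : ℂ[X] := ∑ l ∈ range n, C (f (y l)) * X ^ l with hp
  have hev : ∀ u : ℂ, p.eval u = f (∑ l ∈ range n, u ^ l • y l) := by
    intro u
    rw [hp, eval_finsetSum, map_sum]
    refine sum_congr rfl fun l _ => ?_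
    rw [eval_mul, eval_C, eval_pow, eval_X, map_smul, smul_eq_mul, mul_comm]
  have h1 : p = 0 := by
    refine Polynomial.eq_zero_of_infinite_isRoot p ?_
    refine Set.Infinite.mono (s := {u : ℂ | R < ‖u‖}) (fun u hu => ?_) ?_
    · show p.eval u = 0
      rw [hev, h u hu, map_zero]
    · have h2 : (Set.range fun n : ℕ => ((|R| + 1 + n : ℝ) : ℂ)) ⊆ {u : ℂ | R < ‖u‖} := by
        rintro _ ⟨n, rfl⟩
        show R < ‖((|R| + 1 + n : ℝ) : ℂ)‖
        rw [Complex.norm_real, Real.norm_of_nonneg (by positivity)]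
        have := le_abs_self R
        have : (0 : ℝ) ≤ n := Nat.cast_nonneg n
        linarith
      refine Set.Infinite.mono h2 (Set.infinite_range_of_injective fun a b hab => ?_)
      have h3 : (|R| + 1 + a : ℝ) = |R| + 1 + b := Complex.ofReal_injective hab
      have h4 : (a : ℝ) = b := by linarith
      exact_mod_cast h4
  have h2 : p.coeff l = f (y l) := by
    rw [hp, finsetSum_coeff]
    simp only [coeff_C_mul, coeff_X_pow, mul_ite, mul_one, mul_zero]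
    rw [sum_ite_eq (range n) l]
    simp [hl]
  rw [← h2, h1, coeff_zero]

private theorem nc_small {M : ℕ} (y : ℕ → V) {u : ℂ} (hu : 1 ≤ ‖u‖) :
    ‖∑ l ∈ range M, u ^ l • y l‖ * ‖u‖ ≤ (∑ l ∈ range M, ‖y l‖) * ‖u‖ ^ M := by
  have h1 : ‖∑ l ∈ range M, u ^ l • y l‖ ≤ ∑ l ∈ range M, ‖u‖ ^ l * ‖y l‖ := by
    refine (norm_sum_le _ _).trans (sum_le_sum fun l _ => ?_)
    rw [norm_smul, norm_pow]
  calc ‖∑ l ∈ range M, u ^ l • y l‖ * ‖u‖ ≤ (∑ l ∈ range M, ‖u‖ ^ l * ‖y l‖) * ‖u‖ :=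
        mul_le_mul_of_nonneg_right h1 (norm_nonneg _)
    _ = ∑ l ∈ range M, ‖y l‖ * ‖u‖ ^ (l + 1) := by
        rw [sum_mul]
        refine sum_congr rfl fun l _ => ?_
        rw [pow_succ]
        ring
    _ ≤ ∑ l ∈ range M, ‖y l‖ * ‖u‖ ^ M := by
        refine sum_le_sum fun l hl => mul_le_mul_of_nonneg_left ?_ (norm_nonneg _)
        exact pow_le_pow_right₀ hu (by have := mem_range.1 hl; omega)
    _ = (∑ l ∈ range M, ‖y l‖) * ‖u‖ ^ M := by rw [sum_mul]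

private theorem nc_der {f : ℂ → ℂ} {c h : ℂ} {ρ C : ℝ} (hρ : 0 < ρ) (hd : ∀ y : ℂ, ‖y - h‖ ≤ ρ → DifferentiableAt ℂ f (c + y))
    (hb : ∀ y : ℂ, ‖y - h‖ ≤ ρ → ‖f (c + y)‖ ≤ C) : ‖deriv f (c + h)‖ ≤ C / ρ := by
  refine Complex.norm_deriv_le_of_forall_mem_sphere_norm_le hρ ?_ fun z hz => ?_
  · refine DifferentiableOn.diffContOnCl fun z hz => ?_
    have h1 : z ∈ closedBall (c + h) ρ := closure_ball_subset_closedBall hz
    rw [mem_closedBall, dist_eq_norm] at h1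
    have h2 := hd (z - c) (by rw [show z - c - h = z - (c + h) by ring]; exact h1)
    rw [add_sub_cancel] at h2
    exact h2.differentiableWithinAt
  · rw [mem_sphere, dist_eq_norm] at hz
    have h2 := hb (z - c) (by rw [show z - c - h = z - (c + h) by ring]; exact hz.le)
    rwa [add_sub_cancel] at h2

/-- the data of one member of the sequence, on the neck `R₀ * lam ≤ ‖h‖ ≤ δ` -/
private structure Good (A B : ℂ → ℂ) (v : ℂ → V) (e M : ℕ) (T : V → ℂ) (c : ℂ) (r ε ε₁ R₀ δ lam : ℝ) : Prop where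
  lam_pos : 0 < lam
  dA : DifferentiableOn ℂ A (ball 0 r)
  dB : DifferentiableOn ℂ B (ball 0 r)
  dv : DifferentiableOn ℂ v (ball 0 r)
  pt : ∀ h : ℂ, R₀ * lam ≤ ‖h‖ → ‖h‖ ≤ δ → c + h ∈ ball (0 : ℂ) r ∧ ‖c + h‖ < ε ∧ A (c + h) ≠ 0 ∧ ‖h‖ ^ M / 2 ≤ ‖A (c + h)‖ ∧
    ‖A (c + h)‖ ≤ 2 * ‖h‖ ^ M ∧ ‖B (c + h) / A (c + h) ^ e - h‖ ≤ ‖h‖ / 2 ∧ ‖(A (c + h))⁻¹ • v (c + h)‖ < ε₁

private theorem Good.an [CompleteSpace V] {A B : ℂ → ℂ} {v : ℂ → V} {e M : ℕ} {T : V → ℂ} {c : ℂ} {r ε ε₁ R₀ δ lam : ℝ}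
    (G : Good A B v e M T c r ε ε₁ R₀ δ lam) (hT : ∀ w : V, ‖w‖ < ε₁ → AnalyticAt ℂ T w ∧ ‖T w‖ ≤ 1) {h : ℂ} (h1 : R₀ * lam ≤ ‖h‖) (h2 : ‖h‖ ≤ δ) :
    AnalyticAt ℂ (fun y => B y / A y ^ e) (c + h) ∧ AnalyticAt ℂ (fun y => T ((A y)⁻¹ • v y)) (c + h) := by
  obtain ⟨g1, g2, g3, g4, g5, g6, g7⟩ := G.pt h h1 h2
  have aA : AnalyticAt ℂ A (c + h) := G.dA.analyticAt (isOpen_ball.mem_nhds g1)
  have aB : AnalyticAt ℂ B (c + h) := G.dB.analyticAt (isOpen_ball.mem_nhds g1)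
  have av : AnalyticAt ℂ v (c + h) := G.dv.analyticAt (isOpen_ball.mem_nhds g1)
  refine ⟨aB.div (aA.pow e) (pow_ne_zero _ g3), ?_⟩
  exact AnalyticAt.comp (g := T) (f := fun y => (A y)⁻¹ • v y) (hT _ g7).1 ((aA.inv g3).smul av)

/-- the bounds of the derivatives -/
private theorem Good.der [CompleteSpace V] {A B : ℂ → ℂ} {v : ℂ → V} {e M : ℕ} {T : V → ℂ} {c : ℂ} {r ε ε₁ R₀ δ lam : ℝ}
    (G : Good A B v e M T c r ε ε₁ R₀ δ lam) (hR₀ : 0 < R₀) (hT : ∀ w : V, ‖w‖ < ε₁ → AnalyticAt ℂ T w ∧ ‖T w‖ ≤ 1) {h : ℂ}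
    (h1 : 2 * (R₀ * lam) ≤ ‖h‖) (h2 : ‖h‖ ≤ δ / 2) :
    ‖deriv (fun y => B y / A y ^ e) (c + h)‖ ≤ 5 ∧ ‖deriv (fun y => T ((A y)⁻¹ • v y)) (c + h)‖ ≤ 2 / ‖h‖ := by
  have hh : 0 < ‖h‖ := by
    have := mul_pos hR₀ G.lam_pos
    linarith
  have hδ : 0 < δ := by linarith
  have hy : ∀ y : ℂ, ‖y - h‖ ≤ ‖h‖ / 2 → R₀ * lam ≤ ‖y‖ ∧ ‖y‖ ≤ δ ∧ ‖y‖ ≤ 3 / 2 * ‖h‖ := by
    intro y hy
    have e1 : ‖h‖ ≤ ‖y‖ + ‖y - h‖ := by
      have := norm_sub_le y (y - h)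
      rwa [sub_sub_cancel] at this
    have e2 : ‖y‖ ≤ ‖h‖ + ‖y - h‖ := by
      have := norm_add_le h (y - h)
      rwa [add_sub_cancel] at this
    refine ⟨by linarith, by linarith, by linarith⟩
  constructor
  · have h3 := nc_der (f := fun y => B y / A y ^ e) (c := c) (h := h) (ρ := ‖h‖ / 2) (C := 9 / 4 * ‖h‖) (by positivity)
      (fun y hy1 => ((G.an hT (hy y hy1).1 (hy y hy1).2.1).1).differentiableAt) (fun y hy1 => by
        obtain ⟨g1, g2, g3, g4, g5, g6, g7⟩ := G.pt y (hy y hy1).1 (hy y hy1).2.1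
        have h4 := norm_le_norm_add_norm_sub' (B (c + y) / A (c + y) ^ e) y
        have h5 := (hy y hy1).2.2
        show ‖B (c + y) / A (c + y) ^ e‖ ≤ _
        linarith)
    refine h3.trans ?_
    rw [div_le_iff₀ (by positivity)]
    linarith
  · have h3 := nc_der (f := fun y => T ((A y)⁻¹ • v y)) (c := c) (h := h) (ρ := ‖h‖ / 2) (C := 1) (by positivity)
      (fun y hy1 => ((G.an hT (hy y hy1).1 (hy y hy1).2.1).2).differentiableAt) (fun y hy1 => by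
        obtain ⟨g1, g2, g3, g4, g5, g6, g7⟩ := G.pt y (hy y hy1).1 (hy y hy1).2.1
        exact (hT _ g7).2)
    refine h3.trans (le_of_eq ?_)
    field_simp

/-- the two-sided bound on the neck -/
private theorem nc_two {s s' t' A U : ℝ} {h a b k C : ℝ} {M : ℕ} (hh : 0 < h) (ha : 0 ≤ a) (hb : 0 < b) (hk : 0 ≤ k) (hk1 : k ≤ 1) (hC : 0 < C)
    (hs1 : h / 2 ≤ s) (hs2 : s ≤ 2 * h) (hs' : 0 ≤ s') (hs5 : s' ≤ 5) (ht : 0 ≤ t') (hA1 : h ^ M / 2 ≤ A) (hA2 : A ≤ 2 * h ^ M)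
    (h1 : s ^ a * max s' (s ^ (1 - k) * t') * A ^ (-b) ≤ C * U) (h2 : U ≤ C * (s ^ a * max s' (s ^ (1 - k) * t') * A ^ (-b))) :
    (2 : ℝ) ^ (-(a + (1 - k) + b)) / C * (h ^ (a - b * M) * (h ^ (1 - k) * t')) ≤ U ∧
      U ≤ C * 5 * 2 ^ (a + b) * (h ^ (a - b * M) * max 1 (h ^ (1 - k) * t')) := by
  have hhM : 0 < h ^ M := pow_pos hh M
  have hs0 : 0 < s := lt_of_lt_of_le (by positivity) hs1
  have hA0 : 0 < A := lt_of_lt_of_le (by positivity) hA1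
  have hk' : 0 ≤ 1 - k := by linarith
  have eM : (h ^ M) ^ (-b) = h ^ (-(b * M)) := by
    rw [← Real.rpow_natCast, ← Real.rpow_mul hh.le]
    congr 1
    ring
  constructor
  · have e1 : (h / 2) ^ a ≤ s ^ a := Real.rpow_le_rpow (by positivity) hs1 ha
    have e2 : (h / 2) ^ (1 - k) ≤ s ^ (1 - k) := Real.rpow_le_rpow (by positivity) hs1 hk'
    have e3 : (2 * h ^ M) ^ (-b) ≤ A ^ (-b) := Real.rpow_le_rpow_of_nonpos hA0 hA2 (by linarith)
    have e4 : (h / 2) ^ a * ((h / 2) ^ (1 - k) * t') * (2 * h ^ M) ^ (-b) ≤ C * U := by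
      refine le_trans ?_ h1
      have e5 : (h / 2) ^ (1 - k) * t' ≤ max s' (s ^ (1 - k) * t') :=
        (mul_le_mul_of_nonneg_right e2 ht).trans (le_max_right _ _)
      exact mul_le_mul (mul_le_mul e1 e5 (by positivity) (by positivity)) e3 (by positivity)
        (mul_nonneg (by positivity) (le_max_of_le_left hs'))
    have e6 : (h / 2) ^ a * ((h / 2) ^ (1 - k) * t') * (2 * h ^ M) ^ (-b) =
        (2 : ℝ) ^ (-(a + (1 - k) + b)) * (h ^ (a - b * M) * (h ^ (1 - k) * t')) := by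
      rw [Real.div_rpow hh.le (by norm_num), Real.div_rpow hh.le (by norm_num), Real.mul_rpow (by norm_num) hhM.le, eM,
        show -(a + (1 - k) + b) = -a + -(1 - k) + -b by ring, Real.rpow_add (by norm_num), Real.rpow_add (by norm_num),
        show a - b * M = a + -(b * M) by ring, Real.rpow_add hh, Real.rpow_neg (by norm_num) a, Real.rpow_neg (by norm_num) (1 - k)]
      field_simp
    rw [e6] at e4
    rw [div_mul_eq_mul_div, div_le_iff₀ hC]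
    linarith
  · have e1 : s ^ a ≤ (2 * h) ^ a := Real.rpow_le_rpow hs0.le hs2 ha
    have e2 : s ^ (1 - k) ≤ (2 * h) ^ (1 - k) := Real.rpow_le_rpow hs0.le hs2 hk'
    have e3 : A ^ (-b) ≤ (h ^ M / 2) ^ (-b) := Real.rpow_le_rpow_of_nonpos (by positivity) hA1 (by linarith)
    have e7 : (2 : ℝ) ^ (1 - k) ≤ 5 := by
      calc (2 : ℝ) ^ (1 - k) ≤ 2 ^ (1 : ℝ) := Real.rpow_le_rpow_of_exponent_le (by norm_num) (by linarith)
        _ = 2 := Real.rpow_one 2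
        _ ≤ 5 := by norm_num
    have e5 : max s' (s ^ (1 - k) * t') ≤ 5 * max 1 (h ^ (1 - k) * t') := by
      refine max_le ?_ ?_
      · calc s' ≤ 5 * 1 := by linarith
          _ ≤ 5 * max 1 (h ^ (1 - k) * t') := by
              gcongr
              exact le_max_left _ _
      · calc s ^ (1 - k) * t' ≤ (2 * h) ^ (1 - k) * t' := mul_le_mul_of_nonneg_right e2 ht
          _ = 2 ^ (1 - k) * (h ^ (1 - k) * t') := by
              rw [Real.mul_rpow (by norm_num) hh.le]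
              ring
          _ ≤ 5 * (h ^ (1 - k) * t') := by gcongr
          _ ≤ 5 * max 1 (h ^ (1 - k) * t') := by
              gcongr
              exact le_max_right _ _
    have e6 : (2 * h) ^ a * (5 * max 1 (h ^ (1 - k) * t')) * (h ^ M / 2) ^ (-b) =
        5 * 2 ^ (a + b) * (h ^ (a - b * M) * max 1 (h ^ (1 - k) * t')) := by
      rw [Real.mul_rpow (by norm_num) hh.le, Real.div_rpow hhM.le (by norm_num), eM, Real.rpow_add (by norm_num),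
        show a - b * M = a + -(b * M) by ring, Real.rpow_add hh, Real.rpow_neg (by norm_num : (0 : ℝ) ≤ 2) b]
      field_simp
    calc U ≤ C * (s ^ a * max s' (s ^ (1 - k) * t') * A ^ (-b)) := h2
      _ ≤ C * ((2 * h) ^ a * (5 * max 1 (h ^ (1 - k) * t')) * (h ^ M / 2) ^ (-b)) := by
          refine mul_le_mul_of_nonneg_left ?_ hC.le
          exact mul_le_mul (mul_le_mul e1 e5 (le_max_of_le_left hs') (by positivity)) e3 (by positivity) (by positivity)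
      _ = C * 5 * 2 ^ (a + b) * (h ^ (a - b * M) * max 1 (h ^ (1 - k) * t')) := by
          rw [e6]
          ring

private theorem nc_eval (n : ℕ) (y : ℕ → ℂ) (u : ℂ) : (∑ l ∈ range n, C (y l) * X ^ l : ℂ[X]).eval u = ∑ l ∈ range n, u ^ l * y l := by
  rw [eval_finsetSum]
  refine sum_congr rfl fun l _ => ?_
  rw [eval_mul, eval_C, eval_pow, eval_X, mul_comm]

private theorem nc_coeff (n : ℕ) (y : ℕ → ℂ) (l : ℕ) (hl : l < n) : (∑ l ∈ range n, C (y l) * X ^ l : ℂ[X]).coeff l = y l := by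
  rw [finsetSum_coeff]
  simp only [coeff_C_mul, coeff_X_pow, mul_ite, mul_one, mul_zero]
  rw [sum_ite_eq (range n) l]
  simp [hl]

private theorem nc_monic (n : ℕ) (y : ℕ → ℂ) (h : y n = 1) : (∑ l ∈ range (n + 1), C (y l) * X ^ l : ℂ[X]).Monic ∧
    (∑ l ∈ range (n + 1), C (y l) * X ^ l : ℂ[X]).natDegree = n := by
  have h1 : (∑ l ∈ range (n + 1), C (y l) * X ^ l : ℂ[X]).natDegree ≤ n := by
    refine natDegree_sum_le_of_forall_le _ _ fun l hl => ?_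
    refine (natDegree_C_mul_X_pow_le _ _).trans ?_
    have := mem_range.1 hl
    omega
  have h2 := nc_coeff (n + 1) y n (by omega)
  rw [h] at h2
  have h3 : (∑ l ∈ range (n + 1), C (y l) * X ^ l : ℂ[X]).natDegree = n :=
    le_antisymm h1 (le_natDegree_of_ne_zero (by rw [h2]; exact one_ne_zero))
  refine ⟨?_, h3⟩
  unfold Monic leadingCoeff
  rw [h3, h2]

/-- the limit of the derivatives of the rescaled functions -/
private theorem nc_lim {𝒰 : Ultrafilter ℕ} {A : ℕ → ℂ → ℂ} {c : ℕ → ℂ} {lam : ℕ → ℝ} {r : ℝ} {w : ℕ} {P : ℂ[X]}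
    (hr : 0 < r) (hA : ∀ᶠ n in (𝒰 : Filter ℕ), DifferentiableOn ℂ (A n) (ball 0 r)) (hc : Tendsto c 𝒰 (𝓝 0)) (hlam : Tendsto lam 𝒰 (𝓝 0))
    (h : ∀ R : ℝ, TendstoUniformlyOn (fun n u => ((lam n : ℂ) ^ w)⁻¹ * A n (c n + lam n * u)) (fun u => P.eval u) 𝒰 (closedBall 0 R)) (u : ℂ) :
    Tendsto (fun n => ((lam n : ℂ) ^ w)⁻¹ * A n (c n + lam n * u)) 𝒰 (𝓝 (P.eval u)) ∧
      (∀ᶠ n in (𝒰 : Filter ℕ), DifferentiableAt ℂ (fun u => ((lam n : ℂ) ^ w)⁻¹ * A n (c n + lam n * u)) u) ∧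
      Tendsto (fun n => deriv (fun u => ((lam n : ℂ) ^ w)⁻¹ * A n (c n + lam n * u)) u) 𝒰 (𝓝 (deriv (fun u => P.eval u) u)) := by
  have hu : u ∈ ball (0 : ℂ) (‖u‖ + 1) := by
    rw [mem_ball_zero_iff]
    linarith
  have h1 : TendstoLocallyUniformlyOn (fun n u => ((lam n : ℂ) ^ w)⁻¹ * A n (c n + lam n * u)) (fun u => P.eval u) 𝒰 (ball 0 (‖u‖ + 1)) :=
    ((h (‖u‖ + 1)).mono ball_subset_closedBall).tendstoLocallyUniformlyOn
  have h2 : ∀ᶠ n in (𝒰 : Filter ℕ), DifferentiableOn ℂ (fun u => ((lam n : ℂ) ^ w)⁻¹ * A n (c n + lam n * u)) (ball 0 (‖u‖ + 1)) := by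
    have h3 : ∀ᶠ n in (𝒰 : Filter ℕ), ‖c n‖ < r / 2 := hc.norm.eventually_lt_const (by rw [norm_zero]; linarith)
    have h4 : ∀ᶠ n in (𝒰 : Filter ℕ), |lam n| < r / (2 * (‖u‖ + 1)) := hlam.abs.eventually_lt_const (by rw [abs_zero]; positivity)
    filter_upwards [hA, h3, h4] with n h5 h6 h7
    refine DifferentiableOn.const_mul (h5.comp ?_ ?_) _
    · exact ((differentiable_const _).add ((differentiable_const _).mul differentiable_id)).differentiableOn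
    · intro x hx
      rw [mem_ball_zero_iff] at hx ⊢
      have h8 : ‖(lam n : ℂ) * x‖ ≤ r / (2 * (‖u‖ + 1)) * (‖u‖ + 1) := by
        rw [norm_mul, Complex.norm_real, Real.norm_eq_abs]
        exact mul_le_mul h7.le hx.le (norm_nonneg _) (by positivity)
      have h9 : r / (2 * (‖u‖ + 1)) * (‖u‖ + 1) = r / 2 := by
        have : ‖u‖ + 1 ≠ 0 := by positivity
        field_simp
      have h10 := norm_add_le (c n) ((lam n : ℂ) * x)
      linarith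
  refine ⟨h1.tendsto_at hu, h2.mono fun n hn => (hn u hu).differentiableAt (isOpen_ball.mem_nhds hu), ?_⟩
  exact (h1.deriv h2 isOpen_ball).tendsto_at hu

private theorem nc_quot {𝒰 : Ultrafilter ℕ} {A B : ℕ → ℂ → ℂ} {c : ℕ → ℂ} {lam : ℕ → ℝ} {r : ℝ} {M e : ℕ} {P Y : ℂ[X]}
    (hr : 0 < r) (hA : ∀ᶠ n in (𝒰 : Filter ℕ), DifferentiableOn ℂ (A n) (ball 0 r)) (hB : ∀ᶠ n in (𝒰 : Filter ℕ), DifferentiableOn ℂ (B n) (ball 0 r))
    (hc : Tendsto c 𝒰 (𝓝 0)) (hlam : Tendsto lam 𝒰 (𝓝 0)) (hlam0 : ∀ᶠ n in (𝒰 : Filter ℕ), 0 < lam n)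
    (hP : ∀ R : ℝ, TendstoUniformlyOn (fun n u => ((lam n : ℂ) ^ M)⁻¹ * A n (c n + lam n * u)) (fun u => P.eval u) 𝒰 (closedBall 0 R))
    (hY : ∀ R : ℝ, TendstoUniformlyOn (fun n u => ((lam n : ℂ) ^ (e * M + 1))⁻¹ * B n (c n + lam n * u)) (fun u => Y.eval u) 𝒰 (closedBall 0 R))
    {u : ℂ} (hu : P.eval u ≠ 0) :
    Tendsto (fun n => (lam n : ℂ)⁻¹ * (B n (c n + lam n * u) / A n (c n + lam n * u) ^ e)) 𝒰 (𝓝 (Y.eval u / P.eval u ^ e)) ∧
      Tendsto (fun n => deriv (fun y => B n y / A n y ^ e) (c n + lam n * u)) 𝒰 (𝓝 (deriv (fun u => Y.eval u / P.eval u ^ e) u)) := by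
  obtain ⟨a1, a2, a3⟩ := nc_lim hr hA hc hlam hP u
  obtain ⟨b1, b2, b3⟩ := nc_lim hr hB hc hlam hY u
  set α : ℕ → ℂ → ℂ := fun n w => ((lam n : ℂ) ^ M)⁻¹ * A n (c n + lam n * w) with hα
  set β : ℕ → ℂ → ℂ := fun n w => ((lam n : ℂ) ^ (e * M + 1))⁻¹ * B n (c n + lam n * w) with hβ
  have hid : ∀ᶠ n in (𝒰 : Filter ℕ), ∀ w, B n (c n + lam n * w) / A n (c n + lam n * w) ^ e = (lam n : ℂ) * (β n w / α n w ^ e) := by
    filter_upwards [hlam0] with n hn w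
    have hl : (lam n : ℂ) ≠ 0 := by exact_mod_cast hn.ne'
    show _ = (lam n : ℂ) * ((((lam n : ℂ) ^ (e * M + 1))⁻¹ * B n (c n + lam n * w)) / (((lam n : ℂ) ^ M)⁻¹ * A n (c n + lam n * w)) ^ e)
    rw [mul_pow, inv_pow, ← pow_mul, mul_comm M e, pow_succ]
    by_cases h0 : A n (c n + lam n * w) ^ e = 0
    · rw [h0]
      simp
    · field_simp
  have hdP : HasDerivAt (fun u => P.eval u) (deriv (fun u => P.eval u) u) u := P.differentiable.differentiableAt.hasDerivAt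
  have hdY : HasDerivAt (fun u => Y.eval u) (deriv (fun u => Y.eval u) u) u := Y.differentiable.differentiableAt.hasDerivAt
  have hdQ := hdY.div (hdP.pow e) (pow_ne_zero e hu)
  refine ⟨?_, ?_⟩
  · refine (b1.div (a1.pow e) (pow_ne_zero e hu)).congr' ?_
    filter_upwards [hid, hlam0] with n hn hn0
    have hl : (lam n : ℂ) ≠ 0 := by exact_mod_cast hn0.ne'
    rw [hn u, ← mul_assoc, inv_mul_cancel₀ hl, one_mul]
    rfl
  · have h1 : deriv (fun u => Y.eval u / P.eval u ^ e) u = (deriv (fun u => Y.eval u) u * P.eval u ^ e -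
        Y.eval u * (e * P.eval u ^ (e - 1) * deriv (fun u => P.eval u) u)) / (P.eval u ^ e) ^ 2 := hdQ.deriv
    rw [h1]
    have h2 : Tendsto (fun n => (deriv (β n) u * α n u ^ e - β n u * (e * α n u ^ (e - 1) * deriv (α n) u)) / (α n u ^ e) ^ 2) 𝒰
        (𝓝 ((deriv (fun u => Y.eval u) u * P.eval u ^ e - Y.eval u * (e * P.eval u ^ (e - 1) * deriv (fun u => P.eval u) u)) /
          (P.eval u ^ e) ^ 2)) := by
      refine Tendsto.div ((b3.mul (a1.pow e)).sub (b1.mul ((tendsto_const_nhds.mul (a1.pow (e - 1))).mul a3))) ((a1.pow e).pow 2) ?_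
      exact pow_ne_zero _ (pow_ne_zero _ hu)
    refine h2.congr' ?_
    filter_upwards [hid, hlam0, a2, b2, a1.eventually_ne hu] with n h3 h4 h5 h6 h7
    have hl : (lam n : ℂ) ≠ 0 := by exact_mod_cast h4.ne'
    have h8 : deriv (fun w => β n w / α n w ^ e) u =
        (deriv (β n) u * α n u ^ e - β n u * (e * α n u ^ (e - 1) * deriv (α n) u)) / (α n u ^ e) ^ 2 :=
      (h6.hasDerivAt.div (h5.hasDerivAt.pow e) (pow_ne_zero e h7)).deriv
    rw [← h8]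
    have h9 : deriv (fun w => (fun y => B n (c n + y) / A n (c n + y) ^ e) (lam n * w)) u =
        (lam n : ℂ) • deriv (fun y => B n (c n + y) / A n (c n + y) ^ e) (lam n * u) :=
      deriv_comp_mul_left (lam n : ℂ) (fun y => B n (c n + y) / A n (c n + y) ^ e) u
    have h10 : deriv (fun y => B n (c n + y) / A n (c n + y) ^ e) (lam n * u) = deriv (fun y => B n y / A n y ^ e) (c n + lam n * u) :=
      deriv_comp_const_add (fun y => B n y / A n y ^ e) (c n) (lam n * u)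
    have h11 : (fun w => (fun y => B n (c n + y) / A n (c n + y) ^ e) (lam n * w)) = fun w => (lam n : ℂ) * (β n w / α n w ^ e) :=
      funext fun w => h3 w
    rw [h11, deriv_const_mul_field, h10, smul_eq_mul] at h9
    exact mul_left_cancel₀ hl h9

/-- the neck estimate for the sequence -/
private theorem nc_neck [CompleteSpace V] {𝒰 : Ultrafilter ℕ} {A B : ℕ → ℂ → ℂ} {v : ℕ → ℂ → V} {e M : ℕ} {T : V → ℂ} {c : ℕ → ℂ}
    {r ε ε₁ R₀ δ : ℝ} {lam : ℕ → ℝ} {U : ℕ → ℂ → ℝ} {a b k C : ℝ} (ha : 0 ≤ a) (hb : 0 < b) (hk : 0 < k) (hk1 : k ≤ 1)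
    (hab : a - 1 - k < b * M) (hC : 0 < C) (hR₀ : 1 ≤ R₀) (hδ : 0 < δ) (hδε : δ ≤ ε) (hε₁ : ε₁ ≤ ε)
    (hlam : Tendsto lam 𝒰 (𝓝 0)) (hT : ∀ w : V, ‖w‖ < ε₁ → AnalyticAt ℂ T w ∧ ‖T w‖ ≤ 1)
    (hG : ∀ᶠ n in (𝒰 : Filter ℕ), Good (A n) (B n) (v n) e M T (c n) r ε ε₁ R₀ δ (lam n))
    (hmax : ∀ᶠ n in (𝒰 : Filter ℕ), ∀ (h : ℂ) (ρ : ℝ), 0 < ρ → ‖h‖ ≤ ρ → ρ ≤ ε → ∃ y : ℂ, ‖y‖ = ρ ∧ U n (c n + h) ≤ C * U n (c n + y))
    (htb : ∀ᶠ n in (𝒰 : Filter ℕ), ∀ z : ℂ, ‖z‖ < ε → A n z ≠ 0 → ‖(A n z)⁻¹ • v n z‖ < ε →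
      ‖B n z / A n z ^ e‖ ^ a * max ‖deriv (fun y => B n y / A n y ^ e) z‖ (‖B n z / A n z ^ e‖ ^ (1 - k) *
        ‖deriv (fun y => T ((A n y)⁻¹ • v n y)) z‖) * ‖A n z‖ ^ (-b) ≤ C * U n z ∧
      U n z ≤ C * (‖B n z / A n z ^ e‖ ^ a * max ‖deriv (fun y => B n y / A n y ^ e) z‖ (‖B n z / A n z ^ e‖ ^ (1 - k) *
        ‖deriv (fun y => T ((A n y)⁻¹ • v n y)) z‖) * ‖A n z‖ ^ (-b))) :
    ∃ K C₁ : ℝ, 1 < K ∧ 0 < C₁ ∧ ∀ᶠ n in (𝒰 : Filter ℕ), ∀ h : ℂ, 2 * (R₀ * lam n) < ‖h‖ → K * ‖h‖ ≤ δ / 2 / 2 →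
      ‖h‖ ^ (1 - k) * ‖deriv (fun y => T ((A n y)⁻¹ • v n y)) (c n + h)‖ ≤ C₁ ∧ U n (c n + h) ≤ C₁ * ‖h‖ ^ (a - b * M) := by
  have hR0 : 0 < R₀ := by linarith
  have h51 : 1 ≤ 5 * (2 : ℝ) ^ (a + b) := by
    have h1 : (1 : ℝ) ≤ 2 ^ (a + b) := Real.one_le_rpow (by norm_num) (by linarith)
    linarith
  obtain ⟨K, C₁, hK, hC₁, hN⟩ := neck (c := (2 : ℝ) ^ (-(a + (1 - k) + b)) / C) (C := C * 5 * 2 ^ (a + b)) (C₀ := 2 / (δ / 2)) (δ := δ / 2)
    (k := k) (e := a - b * M) (by positivity) (by positivity) (by positivity) (by positivity) hk1 (by linarith)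
  refine ⟨K, C₁, hK, hC₁, ?_⟩
  have hsm : ∀ᶠ n in (𝒰 : Filter ℕ), 2 * (R₀ * lam n) ≤ δ / 2 := by
    have h1 : Tendsto (fun n => 2 * (R₀ * lam n)) 𝒰 (𝓝 (2 * (R₀ * 0))) := (hlam.const_mul R₀).const_mul 2
    rw [mul_zero, mul_zero] at h1
    exact (h1.eventually_lt_const (by linarith)).mono fun n hn => hn.le
  filter_upwards [hG, hmax, htb, hsm] with n G hm ht hs h hh1 hh2
  have hl := G.lam_pos
  have hRl : 0 < R₀ * lam n := mul_pos hR0 hl
  have key : ∀ h : ℂ, 2 * (R₀ * lam n) < ‖h‖ → ‖h‖ ≤ δ / 2 →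
      (2 : ℝ) ^ (-(a + (1 - k) + b)) / C * (‖h‖ ^ (a - b * M) * (‖h‖ ^ (1 - k) * ‖deriv (fun y => T ((A n y)⁻¹ • v n y)) (c n + h)‖)) ≤
        U n (c n + h) ∧ U n (c n + h) ≤ C * 5 * 2 ^ (a + b) * (‖h‖ ^ (a - b * M) *
          max 1 (‖h‖ ^ (1 - k) * ‖deriv (fun y => T ((A n y)⁻¹ • v n y)) (c n + h)‖)) := by
    intro h h1 h2
    obtain ⟨g1, g2, g3, g4, g5, g6, g7⟩ := G.pt h (by linarith) (by linarith)
    obtain ⟨d1, d2⟩ := G.der hR0 hT h1.le h2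
    obtain ⟨t1, t2⟩ := ht (c n + h) g2 g3 (g7.trans_le hε₁)
    have hh0 : 0 < ‖h‖ := by linarith
    have e1 : ‖h‖ / 2 ≤ ‖B n (c n + h) / A n (c n + h) ^ e‖ := by
      have h3 := norm_sub_norm_le h (B n (c n + h) / A n (c n + h) ^ e)
      rw [norm_sub_rev] at h3
      linarith
    have e2 : ‖B n (c n + h) / A n (c n + h) ^ e‖ ≤ 2 * ‖h‖ := by
      have h3 := norm_sub_norm_le (B n (c n + h) / A n (c n + h) ^ e) h
      linarith
    exact nc_two hh0 ha hb hk.le hk1 hC e1 e2 (norm_nonneg _) d1 (norm_nonneg _) g4 g5 t1 t2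
  have hN' := hN (2 * (R₀ * lam n)) (fun h => T ((A n (c n + h))⁻¹ • v n (c n + h))) (fun h => max (U n (c n + h)) 0) (by positivity)
  have hder : ∀ h : ℂ, deriv (fun h => T ((A n (c n + h))⁻¹ • v n (c n + h))) h = deriv (fun y => T ((A n y)⁻¹ • v n y)) (c n + h) := fun h =>
    deriv_comp_const_add (fun y => T ((A n y)⁻¹ • v n y)) (c n) h
  simp only [hder] at hN'
  have h3 := hN' (fun h h1 h2 => ?_) (fun h h1 => ?_) (fun h h1 h2 => ?_) (fun h h1 h2 => ?_) (fun h ρ h1 h2 h3 => ?_) h hh1 hh2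
  · exact ⟨h3.1, (le_max_left _ _).trans h3.2⟩
  · have h4 := (G.an hT (h := h) (by linarith) (by linarith)).2
    have h5 : AnalyticAt ℂ (fun h : ℂ => c n + h) h := analyticAt_const.add analyticAt_id
    exact AnalyticAt.comp (g := fun y => T ((A n y)⁻¹ • v n y)) (f := fun h : ℂ => c n + h) h4 h5
  · have h4 := (G.der hR0 hT (h := h) (by rw [h1]; exact hs) h1.le).2
    rwa [h1] at h4
  · exact (key h h1 h2).1.trans (le_max_left _ _)
  · refine max_le (key h h1 h2).2 ?_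
    have : 0 < ‖h‖ := by linarith
    have h5 : (0 : ℝ) ≤ max 1 (‖h‖ ^ (1 - k) * ‖deriv (fun y => T ((A n y)⁻¹ • v n y)) (c n + h)‖) := le_max_of_le_left zero_le_one
    positivity
  · obtain ⟨y, hy, h4⟩ := hm h ρ h1 h2 (by linarith)
    refine ⟨y, hy, max_le ?_ ?_⟩
    · have h5 : U n (c n + y) ≤ max (U n (c n + y)) 0 := le_max_left _ _
      have h6 : (0 : ℝ) ≤ max (U n (c n + y)) 0 := le_max_right _ _
      calc U n (c n + h) ≤ C * U n (c n + y) := h4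
        _ ≤ C * max (U n (c n + y)) 0 := by gcongr
        _ ≤ C * 5 * 2 ^ (a + b) * max (U n (c n + y)) 0 := by
            refine mul_le_mul_of_nonneg_right ?_ h6
            calc C = C * 1 := by ring
              _ ≤ C * (5 * 2 ^ (a + b)) := by gcongr
              _ = C * 5 * 2 ^ (a + b) := by ring
    · have h6 : (0 : ℝ) ≤ max (U n (c n + y)) 0 := le_max_right _ _
      positivity

/-- **The core of case (I).** -/
theorem core_I [FiniteDimensional ℂ V] (𝒰 : Ultrafilter ℕ) {r : ℝ} (hr : 0 < r) {M e : ℕ} (hM : 1 ≤ M)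
    {A B : ℕ → ℂ → ℂ} {v : ℕ → ℂ → V} {KA KB : ℂ → ℂ} {KV : ℂ → V}
    (hA : ∀ᶠ n in (𝒰 : Filter ℕ), DifferentiableOn ℂ (A n) (ball 0 r)) (hB : ∀ᶠ n in (𝒰 : Filter ℕ), DifferentiableOn ℂ (B n) (ball 0 r))
    (hv : ∀ᶠ n in (𝒰 : Filter ℕ), DifferentiableOn ℂ (v n) (ball 0 r))
    (hKA : DifferentiableOn ℂ KA (ball 0 r)) (hKB : DifferentiableOn ℂ KB (ball 0 r)) (hKV : DifferentiableOn ℂ KV (ball 0 r))
    (hAl : TendstoLocallyUniformlyOn A (fun z => z ^ M * KA z) 𝒰 (ball 0 r))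
    (hBl : TendstoLocallyUniformlyOn B (fun z => z ^ (e * M + 1) * KB z) 𝒰 (ball 0 r))
    (hvl : TendstoLocallyUniformlyOn v (fun z => z ^ M • KV z) 𝒰 (ball 0 r))
    (hA0 : KA 0 = 1) (hB0 : KB 0 = 1) (hV0 : KV 0 = 0)
    {c : ℕ → ℂ} (hc : Tendsto c 𝒰 (𝓝 0)) (hcA : ∀ᶠ n in (𝒰 : Filter ℕ), A n (c n) = 0) (hcv : ∀ᶠ n in (𝒰 : Filter ℕ), v n (c n) ≠ 0)
    {S : ℂ × ℂ → V} {T : V → ℂ} (hS : ContinuousAt S 0) (hS0 : S 0 = 0) (hT : AnalyticAt ℂ T 0) (hT0 : T 0 = 0)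
    {U : ℕ → ℂ → ℝ} {a b k : ℝ} (ha : 0 ≤ a) (hb : 0 < b) (hk : 0 < k) (hk1 : k ≤ 1) (hab : a - 1 - k < b * M)
    {C ε : ℝ} (hC : 0 < C) (hε : 0 < ε)
    (hmax : ∀ᶠ n in (𝒰 : Filter ℕ), ∀ (h : ℂ) (ρ : ℝ), 0 < ρ → ‖h‖ ≤ ρ → ρ ≤ ε → ∃ y : ℂ, ‖y‖ = ρ ∧ U n (c n + h) ≤ C * U n (c n + y))
    (htb : ∀ᶠ n in (𝒰 : Filter ℕ), ∀ z : ℂ, ‖z‖ < ε → A n z ≠ 0 → ‖(A n z)⁻¹ • v n z‖ < ε →
      (A n z)⁻¹ • v n z = S (B n z / A n z ^ e, T ((A n z)⁻¹ • v n z)) ∧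
      ‖B n z / A n z ^ e‖ ^ a * max ‖deriv (fun y => B n y / A n y ^ e) z‖ (‖B n z / A n z ^ e‖ ^ (1 - k) *
        ‖deriv (fun y => T ((A n y)⁻¹ • v n y)) z‖) * ‖A n z‖ ^ (-b) ≤ C * U n z ∧
      U n z ≤ C * (‖B n z / A n z ^ e‖ ^ a * max ‖deriv (fun y => B n y / A n y ^ e) z‖ (‖B n z / A n z ^ e‖ ^ (1 - k) *
        ‖deriv (fun y => T ((A n y)⁻¹ • v n y)) z‖) * ‖A n z‖ ^ (-b))) : False := by
  have : CompleteSpace V := FiniteDimensional.complete ℂ V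
  obtain ⟨η₀, hη₀, hη₀h, hnum⟩ := nc_num e
  -- the neighbourhood of `0` in which `T` is analytic
  obtain ⟨ε₁, hε₁, hε₁ε, hTb⟩ : ∃ ε₁ : ℝ, 0 < ε₁ ∧ ε₁ ≤ ε ∧ ∀ w : V, ‖w‖ < ε₁ → AnalyticAt ℂ T w ∧ ‖T w‖ ≤ 1 := by
    have h1 : ∀ᶠ w in 𝓝 (0 : V), AnalyticAt ℂ T w ∧ ‖T w‖ ≤ 1 := by
      have h2 : ∀ᶠ w in 𝓝 (0 : V), ‖T w‖ < 1 := hT.continuousAt.norm.eventually_lt_const (by
        show ‖T 0‖ < 1
        rw [hT0, norm_zero]
        exact one_pos)
      filter_upwards [hT.eventually_analyticAt, h2] with w h3 h4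
      exact ⟨h3, h4.le⟩
    obtain ⟨ε₂, hε₂, h2⟩ := Metric.eventually_nhds_iff_ball.1 h1
    exact ⟨min ε₂ ε, lt_min hε₂ hε, min_le_right _ _, fun w hw => h2 w (mem_ball_zero_iff.2 (hw.trans_le (min_le_left _ _)))⟩
  obtain ⟨η, hη, hηη, hηε⟩ : ∃ η : ℝ, 0 < η ∧ η ≤ η₀ ∧ 2 * η < ε₁ :=
    ⟨min η₀ (ε₁ / 4), lt_min hη₀ (by linarith), min_le_left _ _, by have := min_le_right η₀ (ε₁ / 4); linarith⟩
  have hη1 : η ≤ 1 / 2 := hηη.trans hη₀h
  have hnum' : ∀ x y : ℂ, ‖x‖ ≤ η → ‖y‖ ≤ η → ‖(1 + y) / (1 + x) ^ e - 1‖ ≤ 1 / 2 := fun x y hx hy =>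
    hnum x y (hx.trans hηη) (hy.trans hηη)
  -- the scaling
  obtain ⟨lam, pa, pb, pv, hlam, hlam0, hPa, hPb, hPv, hpa, hpb, hpv, hlow, hneck⟩ :=
    scal3 𝒰 hr hM hA hB hv hKA hKB hKV hAl hBl hvl hc hcv
  rw [hA0] at hpa
  rw [hB0] at hpb
  rw [hV0] at hpv
  obtain ⟨R₀, δ₀, hR₀, hδ₀, hδ₀r, hnk⟩ := hneck η hη
  obtain ⟨δ, hδ, hδδ, hδε⟩ : ∃ δ : ℝ, 0 < δ ∧ δ ≤ δ₀ ∧ δ ≤ ε / 4 := ⟨min δ₀ (ε / 4), lt_min hδ₀ (by linarith), min_le_left _ _, min_le_right _ _⟩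
  have hR0 : 0 < R₀ := by linarith
  have hG : ∀ᶠ n in (𝒰 : Filter ℕ), Good (A n) (B n) (v n) e M T (c n) r ε ε₁ R₀ δ (lam n) := by
    have hcs : ∀ᶠ n in (𝒰 : Filter ℕ), ‖c n‖ < min (r / 2) (ε / 2) :=
      hc.norm.eventually_lt_const (by rw [norm_zero]; exact lt_min (by linarith) (by linarith))
    filter_upwards [hlam0, hA, hB, hv, hnk, hcs] with n g1 g2 g3 g4 g5 g6
    refine ⟨g1, g2, g3, g4, fun h h1 h2 => ?_⟩
    obtain ⟨k1, k2, k3⟩ := g5 h h1 (h2.trans hδδ)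
    rw [hA0, mul_one] at k1
    rw [hB0, mul_one] at k2
    rw [hV0, smul_zero, sub_zero] at k3
    have hh : h ≠ 0 := by
      rintro rfl
      rw [norm_zero] at h1
      have := mul_pos hR0 g1
      linarith
    obtain ⟨j1, j2, j3, j4, j5⟩ := nc_pt hη1 hnum' hh k1 k2 k3
    have h3 := norm_add_le (c n) h
    have h4 := g6.trans_le (min_le_left _ _)
    have h5 := g6.trans_le (min_le_right _ _)
    exact ⟨mem_ball_zero_iff.2 (by linarith), by linarith, j1, j2, j3, j4, j5.trans_lt hηε⟩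
  obtain ⟨K, C₁, hK, hC₁, hN⟩ := nc_neck (e := e) (T := T) (R₀ := R₀) (δ := δ) ha hb hk hk1 hab hC hR₀ hδ (by linarith) hε₁ε hlam hTb hG hmax
    (htb.mono fun n hn z h1 h2 h3 => (hn z h1 h2 h3).2)
  -- the limits
  set P : ℂ[X] := ∑ l ∈ range (M + 1), Polynomial.C (pa l) * X ^ l with hPd
  set Y : ℂ[X] := ∑ l ∈ range (e * M + 1 + 1), Polynomial.C (pb l) * X ^ l with hYd
  obtain ⟨hPm, hPn⟩ := nc_monic M pa hpa
  obtain ⟨hYm, hYn⟩ := nc_monic (e * M + 1) pb hpb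
  rw [← hPd] at hPm hPn
  rw [← hYd] at hYm hYn
  have hPa' : ∀ R : ℝ, TendstoUniformlyOn (fun n u => ((lam n : ℂ) ^ M)⁻¹ * A n (c n + lam n * u)) (fun u => P.eval u) 𝒰 (closedBall 0 R) := by
    intro R
    have h1 : (fun u => P.eval u) = fun u => ∑ l ∈ range (M + 1), u ^ l * pa l := funext fun u => nc_eval _ _ _
    rw [h1]
    exact hPa R
  have hPb' : ∀ R : ℝ, TendstoUniformlyOn (fun n u => ((lam n : ℂ) ^ (e * M + 1))⁻¹ * B n (c n + lam n * u)) (fun u => Y.eval u) 𝒰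
      (closedBall 0 R) := by
    intro R
    have h1 : (fun u => Y.eval u) = fun u => ∑ l ∈ range (e * M + 1 + 1), u ^ l * pb l := funext fun u => nc_eval _ _ _
    rw [h1]
    exact hPb R
  have hα : ∀ u : ℂ, Tendsto (fun n => ((lam n : ℂ) ^ M)⁻¹ * A n (c n + lam n * u)) 𝒰 (𝓝 (P.eval u)) := fun u =>
    (nc_lim hr hA hc hlam hPa' u).1
  have hω : ∀ u : ℂ, Tendsto (fun n => ((lam n : ℂ) ^ M)⁻¹ • v n (c n + lam n * u)) 𝒰 (𝓝 (∑ l ∈ range M, u ^ l • pv l)) := by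
    intro u
    have h1 := (hPv ‖u‖).tendsto_at (show u ∈ closedBall (0 : ℂ) ‖u‖ by rw [mem_closedBall_zero_iff])
    rw [sum_range_succ, hpv, smul_zero, add_zero] at h1
    exact h1
  -- the quotient `v / A`
  have hquo : ∀ u : ℂ, P.eval u ≠ 0 → Tendsto (fun n => (A n (c n + lam n * u))⁻¹ • v n (c n + lam n * u)) 𝒰
      (𝓝 ((P.eval u)⁻¹ • ∑ l ∈ range M, u ^ l • pv l)) := by
    intro u hu
    refine (((hα u).inv₀ hu).smul (hω u)).congr' ?_
    filter_upwards [hlam0] with n hn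
    have hl : ((lam n : ℂ) ^ M) ≠ 0 := pow_ne_zero _ (by exact_mod_cast hn.ne')
    rw [mul_inv, inv_inv, smul_smul, mul_comm ((lam n : ℂ) ^ M), mul_assoc, mul_inv_cancel₀ hl, mul_one]
  -- far away `P` is close to `u ^ M`
  have hfar : ∀ u : ℂ, 2 * R₀ < ‖u‖ → ‖u‖ ^ M / 2 ≤ ‖P.eval u‖ ∧ P.eval u ≠ 0 ∧ ‖(P.eval u)⁻¹ • ∑ l ∈ range M, u ^ l • pv l‖ < ε₁ := by
    intro u hu
    have hu0 : 0 < ‖u‖ := by linarith
    have hev : ∀ᶠ n in (𝒰 : Filter ℕ), ‖u‖ ^ M / 2 ≤ ‖((lam n : ℂ) ^ M)⁻¹ * A n (c n + lam n * u)‖ ∧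
        ‖(A n (c n + lam n * u))⁻¹ • v n (c n + lam n * u)‖ ≤ 2 * η := by
      have hlu : ∀ᶠ n in (𝒰 : Filter ℕ), lam n * ‖u‖ < δ := by
        have h1 := hlam.mul_const ‖u‖
        rw [zero_mul] at h1
        exact h1.eventually_lt_const hδ
      filter_upwards [hlam0, hnk, hlu] with n g1 g5 g6
      have hnn : ‖(lam n : ℂ) * u‖ = lam n * ‖u‖ := by rw [norm_mul, Complex.norm_real, Real.norm_of_nonneg g1.le]
      obtain ⟨k1, k2, k3⟩ := g5 (lam n * u) (by rw [hnn, mul_comm R₀]; gcongr; linarith) (by rw [hnn]; linarith)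
      rw [hA0, mul_one] at k1
      rw [hB0, mul_one] at k2
      rw [hV0, smul_zero, sub_zero] at k3
      have hh : (lam n : ℂ) * u ≠ 0 := norm_pos_iff.1 (by rw [hnn]; positivity)
      obtain ⟨j1, j2, j3, j4, j5⟩ := nc_pt hη1 hnum' hh k1 k2 k3
      refine ⟨?_, j5⟩
      rw [hnn, mul_pow] at j2
      rw [norm_mul, norm_inv, norm_pow, Complex.norm_real, Real.norm_of_nonneg g1.le, inv_mul_eq_div, le_div_iff₀ (by positivity)]
      linarith
    have h1 : ‖u‖ ^ M / 2 ≤ ‖P.eval u‖ := ge_of_tendsto (hα u).norm (hev.mono fun n hn => hn.1)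
    have h2 : P.eval u ≠ 0 := by
      intro h0
      rw [h0, norm_zero] at h1
      have : 0 < ‖u‖ ^ M := pow_pos hu0 M
      linarith
    refine ⟨h1, h2, lt_of_le_of_lt (le_of_tendsto (hquo u h2).norm (hev.mono fun n hn => hn.2)) hηε⟩
  -- the limit of `t` is `0`
  have htn : ∀ u : ℂ, 2 * R₀ < ‖u‖ → Tendsto (fun n => T ((A n (c n + lam n * u))⁻¹ • v n (c n + lam n * u))) 𝒰
      (𝓝 (T ((P.eval u)⁻¹ • ∑ l ∈ range M, u ^ l • pv l))) := fun u hu =>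
    ((hTb _ (hfar u hu).2.2).1.continuousAt.tendsto).comp (hquo u (hfar u hu).2.1)
  have htlim1 : ∀ u : ℂ, 2 * R₀ < ‖u‖ → ∀ x : ℝ, 1 ≤ x →
      T ((P.eval (x * u))⁻¹ • ∑ l ∈ range M, (x * u : ℂ) ^ l • pv l) = T ((P.eval u)⁻¹ • ∑ l ∈ range M, u ^ l • pv l) := by
    intro u hu x hx
    have hu0 : 0 < ‖u‖ := by linarith
    have hx0 : 0 < x := by linarith
    have hxu : 2 * R₀ < ‖(x : ℂ) * u‖ := by
      rw [norm_mul, Complex.norm_real, Real.norm_of_nonneg hx0.le]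
      exact hu.trans_le (le_mul_of_one_le_left hu0.le hx)
    have h1 := (htn _ hxu).sub (htn u hu)
    have h2 : Tendsto (fun n => C₁ * (x - 1) * (lam n * ‖u‖) ^ k) 𝒰 (𝓝 0) := by
      have h3 : Tendsto (fun n => lam n * ‖u‖) 𝒰 (𝓝 0) := by
        have := hlam.mul_const ‖u‖
        rwa [zero_mul] at this
      have h4 := (h3.rpow_const (p := k) (Or.inr hk.le)).const_mul (C₁ * (x - 1))
      rwa [Real.zero_rpow hk.ne', mul_zero] at h4
    have h5 : Tendsto (fun n => T ((A n (c n + lam n * (x * u)))⁻¹ • v n (c n + lam n * (x * u))) -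
        T ((A n (c n + lam n * u))⁻¹ • v n (c n + lam n * u))) 𝒰 (𝓝 0) := by
      refine squeeze_zero_norm' ?_ h2
      have hs : ∀ᶠ n in (𝒰 : Filter ℕ), lam n * (x * ‖u‖) < min (δ / 2 / 2 / K) δ := by
        have h1 := hlam.mul_const (x * ‖u‖)
        rw [zero_mul] at h1
        exact h1.eventually_lt_const (lt_min (by positivity) hδ)
      filter_upwards [hG, hN, hs] with n G hN' hs'
      have hl := G.lam_pos
      have hsK : lam n * (x * ‖u‖) * K ≤ δ / 2 / 2 := by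
        have := (hs'.trans_le (min_le_left _ _)).le
        rwa [le_div_iff₀ (by linarith)] at this
      have hsδ : lam n * (x * ‖u‖) ≤ δ := (hs'.trans_le (min_le_right _ _)).le
      have hseg : ∀ h ∈ segment ℝ ((lam n : ℂ) * u) ((lam n : ℂ) * (x * u)), lam n * ‖u‖ ≤ ‖h‖ ∧ ‖h‖ ≤ lam n * (x * ‖u‖) := by
        rintro h ⟨p, q, hp, hq, hpq, rfl⟩
        have e1 : p • ((lam n : ℂ) * u) + q • ((lam n : ℂ) * (x * u)) = ((lam n * (p + q * x) : ℝ) : ℂ) * u := by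
          rw [Complex.real_smul, Complex.real_smul]
          push_cast
          ring
        rw [e1, norm_mul, Complex.norm_real, Real.norm_of_nonneg (by positivity)]
        have h6 : 1 ≤ p + q * x := by
          have k1 := mul_le_mul_of_nonneg_left hx hq
          linarith only [k1, hpq]
        have h7 : p + q * x ≤ x := by
          have k1 := mul_le_mul_of_nonneg_left hx hp
          have k2 : (p + q) * x = x := by rw [hpq, one_mul]
          linarith only [k1, k2]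
        constructor
        · calc lam n * ‖u‖ = lam n * 1 * ‖u‖ := by ring
            _ ≤ lam n * (p + q * x) * ‖u‖ := by gcongr
        · calc lam n * (p + q * x) * ‖u‖ ≤ lam n * x * ‖u‖ := by gcongr
            _ = lam n * (x * ‖u‖) := by ring
      have hder : ∀ h : ℂ, deriv (fun h => T ((A n (c n + h))⁻¹ • v n (c n + h))) h = deriv (fun y => T ((A n y)⁻¹ • v n y)) (c n + h) :=
        fun h => deriv_comp_const_add (fun y => T ((A n y)⁻¹ • v n y)) (c n) h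
      have hRu : 2 * (R₀ * lam n) < lam n * ‖u‖ := by
        have k1 := mul_lt_mul_of_pos_left hu hl
        linarith only [k1]
      have hRl : 0 < R₀ * lam n := mul_pos hR0 hl
      have h8 := (convex_segment ((lam n : ℂ) * u) ((lam n : ℂ) * (x * u))).norm_image_sub_le_of_norm_deriv_le
        (f := fun h => T ((A n (c n + h))⁻¹ • v n (c n + h))) (C := C₁ * (lam n * ‖u‖) ^ (-(1 - k))) (fun h hh => ?_) (fun h hh => ?_)
        (left_mem_segment ℝ _ _) (right_mem_segment ℝ _ _)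
      · refine h8.trans (le_of_eq ?_)
        have e2 : (lam n : ℂ) * (x * u) - (lam n : ℂ) * u = ((lam n * (x - 1) : ℝ) : ℂ) * u := by
          push_cast
          ring
        rw [e2, norm_mul, Complex.norm_real, Real.norm_of_nonneg (mul_nonneg hl.le (by linarith))]
        have e3 : (lam n * ‖u‖) ^ k = (lam n * ‖u‖) ^ (-(1 - k)) * (lam n * ‖u‖) := by
          have e4 : k = -(1 - k) + 1 := by ring
          conv_lhs => rw [e4]
          rw [Real.rpow_add (by positivity), Real.rpow_one]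
        rw [e3]
        ring
      · obtain ⟨s1, s2⟩ := hseg h hh
        have h4 := (G.an hTb (h := h) (by linarith only [hRu, s1, hRl]) (by linarith)).2
        have h5 : AnalyticAt ℂ (fun h : ℂ => c n + h) h := analyticAt_const.add analyticAt_id
        exact (AnalyticAt.comp (g := fun y => T ((A n y)⁻¹ • v n y)) (f := fun h : ℂ => c n + h) h4 h5).differentiableAt
      · obtain ⟨s1, s2⟩ := hseg h hh
        have hh0 : 0 < ‖h‖ := lt_of_lt_of_le (by positivity) s1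
        rw [hder]
        have h9 := (hN' h (by linarith only [hRu, s1]) ((mul_comm K ‖h‖).le.trans ((mul_le_mul_of_nonneg_right s2 (by linarith only [hK])).trans hsK))).1
        have h10 : ‖h‖ ^ (-(1 - k)) ≤ (lam n * ‖u‖) ^ (-(1 - k)) := Real.rpow_le_rpow_of_nonpos (by positivity) s1 (by linarith)
        have h11 : ‖h‖ ^ (1 - k) * ‖h‖ ^ (-(1 - k)) = 1 := by
          rw [← Real.rpow_add hh0, add_neg_cancel, Real.rpow_zero]
        calc ‖deriv (fun y => T ((A n y)⁻¹ • v n y)) (c n + h)‖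
            = ‖h‖ ^ (1 - k) * ‖deriv (fun y => T ((A n y)⁻¹ • v n y)) (c n + h)‖ * ‖h‖ ^ (-(1 - k)) := by
              rw [mul_right_comm, h11, one_mul]
          _ ≤ C₁ * ‖h‖ ^ (-(1 - k)) := by gcongr
          _ ≤ C₁ * (lam n * ‖u‖) ^ (-(1 - k)) := by gcongr
    exact sub_eq_zero.1 (tendsto_nhds_unique h1 h5)
  have htlim : ∀ u : ℂ, 2 * R₀ < ‖u‖ → T ((P.eval u)⁻¹ • ∑ l ∈ range M, u ^ l • pv l) = 0 := by
    intro u hu
    have hu0 : 0 < ‖u‖ := by linarith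
    set D : ℝ := ∑ l ∈ range M, ‖pv l‖ with hD
    have hD0 : 0 ≤ D := sum_nonneg fun l _ => norm_nonneg _
    have h1 : Tendsto (fun j : ℕ => (P.eval (((j + 1 : ℕ) : ℝ) * u))⁻¹ • ∑ l ∈ range M, (((j + 1 : ℕ) : ℝ) * u : ℂ) ^ l • pv l) atTop (𝓝 0) := by
      have h2 : Tendsto (fun j : ℕ => 2 * D / ‖u‖ * (1 / ((j : ℝ) + 1))) atTop (𝓝 0) := by
        have := (tendsto_one_div_add_atTop_nhds_zero_nat (𝕜 := ℝ)).const_mul (2 * D / ‖u‖)
        rwa [mul_zero] at this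
      refine squeeze_zero_norm (fun j => ?_) h2
      set w : ℂ := (((j + 1 : ℕ) : ℝ) : ℂ) * u with hw
      have hwn : ‖w‖ = ((j : ℝ) + 1) * ‖u‖ := by
        rw [hw, norm_mul, Complex.norm_real, Real.norm_of_nonneg (by positivity)]
        push_cast
        ring
      have hj : (0 : ℝ) ≤ j := Nat.cast_nonneg j
      have hwu : ‖u‖ ≤ ‖w‖ := by
        rw [hwn]
        exact le_mul_of_one_le_left hu0.le (by linarith only [hj])
      have hw0 : 0 < ‖w‖ := by linarith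
      obtain ⟨f1, f2, -⟩ := hfar w (by linarith)
      have h3 := nc_small (M := M) pv (u := w) (by linarith)
      have hwM : 0 < ‖w‖ ^ M := pow_pos hw0 M
      rw [norm_smul, norm_inv, inv_mul_le_iff₀ (norm_pos_iff.2 f2)]
      have h4 : ‖∑ l ∈ range M, w ^ l • pv l‖ ≤ D * ‖w‖ ^ M / ‖w‖ := by
        rw [le_div_iff₀ hw0]
        exact h3
      refine h4.trans ?_
      have h5 : D * ‖w‖ ^ M / ‖w‖ = ‖w‖ ^ M / 2 * (2 * D / ‖u‖ * (1 / ((j : ℝ) + 1))) := by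
        rw [hwn]
        field_simp
      rw [h5]
      exact mul_le_mul_of_nonneg_right f1 (by positivity)
    have h2 : Tendsto (fun j : ℕ => T ((P.eval (((j + 1 : ℕ) : ℝ) * u))⁻¹ • ∑ l ∈ range M, (((j + 1 : ℕ) : ℝ) * u : ℂ) ^ l • pv l)) atTop
        (𝓝 (T 0)) := (hT.continuousAt.tendsto).comp h1
    rw [hT0] at h2
    have h3 : ∀ j : ℕ, T ((P.eval (((j + 1 : ℕ) : ℝ) * u))⁻¹ • ∑ l ∈ range M, (((j + 1 : ℕ) : ℝ) * u : ℂ) ^ l • pv l) =
        T ((P.eval u)⁻¹ • ∑ l ∈ range M, u ^ l • pv l) := fun j =>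
      htlim1 u hu ((j + 1 : ℕ) : ℝ) (by push_cast; have : (0 : ℝ) ≤ j := Nat.cast_nonneg j; linarith)
    simp only [h3] at h2
    exact tendsto_nhds_unique tendsto_const_nhds h2
  -- the limit curve is constant
  have hpv0 : ∀ l < M, pv l = 0 := by
    refine nc_pol (R := 2 * R₀) fun u hu => ?_
    have hu0 : 0 < ‖u‖ := by linarith
    obtain ⟨f1, f2, f3⟩ := hfar u hu
    have hls : ∀ᶠ n in (𝒰 : Filter ℕ), lam n * ‖u‖ < δ := by
      have h1 := hlam.mul_const ‖u‖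
      rw [zero_mul] at h1
      exact h1.eventually_lt_const hδ
    have hnn : ∀ᶠ n in (𝒰 : Filter ℕ), ‖(lam n : ℂ) * u‖ = lam n * ‖u‖ := by
      filter_upwards [hlam0] with n hn
      rw [norm_mul, Complex.norm_real, Real.norm_of_nonneg hn.le]
    have hs0 : Tendsto (fun n => B n (c n + lam n * u) / A n (c n + lam n * u) ^ e) 𝒰 (𝓝 0) := by
      have h1 : Tendsto (fun n => 2 * (lam n * ‖u‖)) 𝒰 (𝓝 0) := by
        have := (hlam.mul_const ‖u‖).const_mul 2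
        rwa [zero_mul, mul_zero] at this
      refine squeeze_zero_norm' ?_ h1
      filter_upwards [hG, hls, hnn] with n G h2 h3
      have hl := G.lam_pos
      obtain ⟨g1, g2, g3, g4, g5, g6, g7⟩ := G.pt (lam n * u) (by rw [h3, mul_comm]; exact mul_le_mul_of_nonneg_left (by linarith only [hu, hR0]) hl.le) (by rw [h3]; exact h2.le)
      have h4 := norm_sub_norm_le (B n (c n + lam n * u) / A n (c n + lam n * u) ^ e) (lam n * u)
      rw [h3] at g6 h4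
      have : 0 ≤ lam n * ‖u‖ := by positivity
      linarith
    have ht0 := htn u hu
    rw [htlim u hu] at ht0
    have hST : Tendsto (fun n => S (B n (c n + lam n * u) / A n (c n + lam n * u) ^ e,
        T ((A n (c n + lam n * u))⁻¹ • v n (c n + lam n * u)))) 𝒰 (𝓝 0) := by
      have h1 : Tendsto S (𝓝 (0, 0)) (𝓝 0) := by
        have := hS.tendsto
        rwa [hS0] at this
      exact h1.comp (hs0.prodMk_nhds ht0)
    have hv0 : Tendsto (fun n => (A n (c n + lam n * u))⁻¹ • v n (c n + lam n * u)) 𝒰 (𝓝 0) := by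
      refine hST.congr' ?_
      filter_upwards [hG, hls, hnn, htb] with n G h2 h3 h4
      have hl := G.lam_pos
      obtain ⟨g1, g2, g3, g4, g5, g6, g7⟩ := G.pt (lam n * u) (by rw [h3, mul_comm]; exact mul_le_mul_of_nonneg_left (by linarith only [hu, hR0]) hl.le) (by rw [h3]; exact h2.le)
      exact ((h4 _ g2 g3 (g7.trans_le hε₁ε)).1).symm
    have h1 := tendsto_nhds_unique (hquo u f2) hv0
    rcases smul_eq_zero.1 h1 with h2 | h2
    · exact absurd h2 (inv_ne_zero f2)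
    · exact h2
  have hpv00 : ∀ u : ℂ, ∑ l ∈ range M, u ^ l • pv l = 0 := fun u =>
    sum_eq_zero fun l hl => by rw [hpv0 l (mem_range.1 hl), smul_zero]
  -- the inequality for the limits
  have hineq : ∀ R : ℝ, ∃ K₂ : ℝ, ∀ u : ℂ, ‖u‖ ≤ R → P.eval u ≠ 0 →
      ‖Y.eval u / P.eval u ^ e‖ ^ a * ‖deriv (fun u => Y.eval u / P.eval u ^ e) u‖ ≤ K₂ * ‖P.eval u‖ ^ b := by
    intro R
    obtain ⟨R', hR', hRR'⟩ : ∃ R' : ℝ, 2 * R₀ < R' ∧ R ≤ R' := ⟨max R (2 * R₀ + 1), (by linarith : 2 * R₀ < 2 * R₀ + 1).trans_le (le_max_right _ _), le_max_left _ _⟩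
    have hR'0 : 0 < R' := by linarith
    refine ⟨C * (C * (C₁ * R' ^ (a - b * M))), fun u hu hPu => ?_⟩
    obtain ⟨q1, q2⟩ := nc_quot hr hA hB hc hlam hlam0 hPa' hPb' hPu
    have hq := hquo u hPu
    rw [hpv00, smul_zero] at hq
    have hz : Tendsto (fun n => c n + (lam n : ℂ) * u) 𝒰 (𝓝 0) := by
      have h1 : Tendsto (fun n => (lam n : ℂ)) 𝒰 (𝓝 ((0 : ℝ) : ℂ)) := (Complex.continuous_ofReal.tendsto 0).comp hlam
      have h2 := hc.add (h1.mul_const u)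
      rwa [Complex.ofReal_zero, zero_mul, add_zero] at h2
    have hlR : ∀ᶠ n in (𝒰 : Filter ℕ), lam n * R' < min (δ / 2 / 2 / K) ε := by
      have h1 := hlam.mul_const R'
      rw [zero_mul] at h1
      exact h1.eventually_lt_const (lt_min (by positivity) hε)
    have key : ∀ᶠ n in (𝒰 : Filter ℕ), ‖(lam n : ℂ)⁻¹ * (B n (c n + lam n * u) / A n (c n + lam n * u) ^ e)‖ ^ a *
        ‖deriv (fun y => B n y / A n y ^ e) (c n + lam n * u)‖ * ‖((lam n : ℂ) ^ M)⁻¹ * A n (c n + lam n * u)‖ ^ (-b) ≤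
          C * (C * (C₁ * R' ^ (a - b * M))) := by
      filter_upwards [hlam0, htb, hmax, hN, hlR, (hα u).eventually_ne hPu, hz.norm.eventually_lt_const (by rw [norm_zero]; exact hε),
        hq.norm.eventually_lt_const (by rw [norm_zero]; exact hε)] with n hl ht hm hN' hlR' hne hz' hq'
      have hA1 : A n (c n + lam n * u) ≠ 0 := fun h0 => hne (by rw [h0, mul_zero])
      obtain ⟨-, t1, -⟩ := ht _ hz' hA1 hq'
      have hhn : ‖(lam n : ℂ) * u‖ ≤ lam n * R' := by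
        rw [norm_mul, Complex.norm_real, Real.norm_of_nonneg hl.le]
        gcongr
        linarith
      obtain ⟨y, hy, hU⟩ := hm (lam n * u) (lam n * R') (by positivity) hhn (hlR'.trans_le (min_le_right _ _)).le
      have hK0 : 0 < K := by linarith
      have h1 := (hN' y (by rw [hy]; have k1 := mul_lt_mul_of_pos_left hR' hl; linarith only [k1]) (by
        rw [hy]
        have := (hlR'.trans_le (min_le_left _ _)).le
        rw [le_div_iff₀ hK0] at this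
        linarith)).2
      rw [hy] at h1
      have h2 : ‖B n (c n + lam n * u) / A n (c n + lam n * u) ^ e‖ ^ a * ‖deriv (fun y => B n y / A n y ^ e) (c n + lam n * u)‖ *
          ‖A n (c n + lam n * u)‖ ^ (-b) ≤ C * (C * (C₁ * (lam n * R') ^ (a - b * M))) := by
        refine le_trans ?_ (t1.trans ?_)
        · gcongr
          exact le_max_left _ _
        · gcongr
          exact hU.trans (by gcongr)
      rw [norm_mul, norm_inv, Complex.norm_real, Real.norm_of_nonneg hl.le, norm_mul, norm_inv, norm_pow, Complex.norm_real,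
        Real.norm_of_nonneg hl.le, Real.mul_rpow (by positivity) (norm_nonneg _), Real.mul_rpow (by positivity) (norm_nonneg _)]
      have e1 : (lam n)⁻¹ ^ a * ((lam n ^ M)⁻¹) ^ (-b) = lam n ^ (-(a - b * M)) := by
        rw [Real.inv_rpow hl.le, ← Real.rpow_neg hl.le, Real.inv_rpow (by positivity), ← Real.rpow_neg (by positivity), neg_neg,
          ← Real.rpow_natCast, ← Real.rpow_mul hl.le, ← Real.rpow_add hl]
        congr 1
        ring
      have e2 : (lam n)⁻¹ ^ a * ‖B n (c n + lam n * u) / A n (c n + lam n * u) ^ e‖ ^ a *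
          ‖deriv (fun y => B n y / A n y ^ e) (c n + lam n * u)‖ * (((lam n ^ M)⁻¹) ^ (-b) * ‖A n (c n + lam n * u)‖ ^ (-b)) =
          lam n ^ (-(a - b * M)) * (‖B n (c n + lam n * u) / A n (c n + lam n * u) ^ e‖ ^ a *
            ‖deriv (fun y => B n y / A n y ^ e) (c n + lam n * u)‖ * ‖A n (c n + lam n * u)‖ ^ (-b)) := by
        rw [← e1]
        ring
      rw [e2]
      calc lam n ^ (-(a - b * M)) * (‖B n (c n + lam n * u) / A n (c n + lam n * u) ^ e‖ ^ a *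
            ‖deriv (fun y => B n y / A n y ^ e) (c n + lam n * u)‖ * ‖A n (c n + lam n * u)‖ ^ (-b))
          ≤ lam n ^ (-(a - b * M)) * (C * (C * (C₁ * (lam n * R') ^ (a - b * M)))) := by gcongr
        _ = C * (C * (C₁ * R' ^ (a - b * M))) * (lam n ^ (-(a - b * M)) * lam n ^ (a - b * M)) := by
            rw [Real.mul_rpow hl.le hR'0.le]
            ring
        _ = C * (C * (C₁ * R' ^ (a - b * M))) := by
            rw [← Real.rpow_add hl, neg_add_cancel, Real.rpow_zero, mul_one]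
    have hlimit := le_of_tendsto (((q1.norm.rpow_const (p := a) (Or.inr ha)).mul q2.norm).mul
      ((hα u).norm.rpow_const (p := -b) (Or.inl (norm_ne_zero_iff.2 hPu)))) key
    have hPn0 : 0 < ‖P.eval u‖ := norm_pos_iff.2 hPu
    have h3 : ‖P.eval u‖ ^ (-b) * ‖P.eval u‖ ^ b = 1 := by
      rw [← Real.rpow_add hPn0, neg_add_cancel, Real.rpow_zero]
    calc ‖Y.eval u / P.eval u ^ e‖ ^ a * ‖deriv (fun u => Y.eval u / P.eval u ^ e) u‖
        = ‖Y.eval u / P.eval u ^ e‖ ^ a * ‖deriv (fun u => Y.eval u / P.eval u ^ e) u‖ * (‖P.eval u‖ ^ (-b) * ‖P.eval u‖ ^ b) := by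
          rw [h3, mul_one]
      _ = ‖Y.eval u / P.eval u ^ e‖ ^ a * ‖deriv (fun u => Y.eval u / P.eval u ^ e) u‖ * ‖P.eval u‖ ^ (-b) * ‖P.eval u‖ ^ b := by ring
      _ ≤ C * (C * (C₁ * R' ^ (a - b * M))) * ‖P.eval u‖ ^ b := by gcongr
  -- the algebra
  have hP0 : P.eval 0 = 0 := by
    have h1 : Tendsto (fun n => ((lam n : ℂ) ^ M)⁻¹ * A n (c n + lam n * 0)) 𝒰 (𝓝 0) := by
      refine tendsto_const_nhds.congr' ?_
      filter_upwards [hcA] with n hn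
      rw [mul_zero, add_zero, hn, mul_zero]
    exact tendsto_nhds_unique (hα 0) h1
  have hPne := hPm.ne_zero
  obtain ⟨hPX, hYX⟩ := Pool.Agent.SG51.alg (M := M) (d := e) hPm hPn hP0 hYm hYn ha hb fun ρ hρ => by
    obtain ⟨K₂, hK₂⟩ := hineq (‖ρ‖ + 1)
    refine ⟨K₂, ?_⟩
    have h1 : ∀ᶠ u in 𝓝 ρ, ‖u‖ ≤ ‖ρ‖ + 1 :=
      (continuous_norm.continuousAt.eventually_lt_const (lt_add_one ‖ρ‖)).mono fun u hu => hu.le
    have h2 : ∀ᶠ u in 𝓝[≠] ρ, P.eval u ≠ 0 := by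
      have h3 : ((P.roots.toFinset.erase ρ : Finset ℂ) : Set ℂ)ᶜ ∈ 𝓝 ρ :=
        (Finset.finite_toSet _).isClosed.isOpen_compl.mem_nhds (by simp)
      filter_upwards [mem_nhdsWithin_of_mem_nhds h3, self_mem_nhdsWithin] with u hu hu' h0
      refine hu ?_
      rw [Finset.mem_coe, Finset.mem_erase, Multiset.mem_toFinset, mem_roots hPne]
      exact ⟨hu', h0⟩
    filter_upwards [mem_nhdsWithin_of_mem_nhds h1, h2] with u hu hu'
    exact hK₂ u hu hu'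
  refine hlow ⟨fun l hl => ?_, fun l hl => ?_, hpv0⟩
  · have h1 := nc_coeff (M + 1) pa l (by omega)
    rw [← hPd, hPX, coeff_X_pow] at h1
    rw [← h1]
    exact if_neg (by omega)
  · have h1 := nc_coeff (e * M + 1 + 1) pb l (by omega)
    rw [← hYd, hYX, coeff_X_pow] at h1
    rw [← h1]
    exact if_neg (by omega)

end Pool.Agent.SG
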