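import Pool.Agent.H13.G0.ScalG

/-!
# SG NScal: the scaling of three functions `A n`, `B n`, `v n` with the weights `M`, `e * M + 1`, `M`
-/

set_option autoImplicit false

open Topology Filter Metric Finset

noncomputable section

namespace Pool.Agent.SG

open Pool.Agent.H13.G0 (scaling_family)

/-- the index set -/
inductive I3 : Type
  | a
  | b
  | v
  deriving DecidableEq, Fintype

/-- the spaces -/
def E3 (V : Type) : I3 → Type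
  | .a => ℂ
  | .b => ℂ
  | .v => V

variable {V : Type} [NormedAddCommGroup V] [NormedSpace ℂ V]

instance instE3a : ∀ i : I3, NormedAddCommGroup (E3 V i)
  | .a => inferInstanceAs (NormedAddCommGroup ℂ)
  | .b => inferInstanceAs (NormedAddCommGroup ℂ)
  | .v => inferInstanceAs (NormedAddCommGroup V)

instance instE3b : ∀ i : I3, NormedSpace ℂ (E3 V i)
  | .a => inferInstanceAs (NormedSpace ℂ ℂ)
  | .b => inferInstanceAs (NormedSpace ℂ ℂ)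
  | .v => inferInstanceAs (NormedSpace ℂ V)

instance instE3c [FiniteDimensional ℂ V] : ∀ i : I3, FiniteDimensional ℂ (E3 V i)
  | .a => inferInstanceAs (FiniteDimensional ℂ ℂ)
  | .b => inferInstanceAs (FiniteDimensional ℂ ℂ)
  | .v => inferInstanceAs (FiniteDimensional ℂ V)

/-- the three families -/
def fam (A B : ℕ → ℂ → ℂ) (v : ℕ → ℂ → V) : ∀ i : I3, ℕ → ℂ → E3 V i
  | .a => A
  | .b => B
  | .v => v

/-- the three limits -/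
def famK (A B : ℂ → ℂ) (v : ℂ → V) : ∀ i : I3, ℂ → E3 V i
  | .a => A
  | .b => B
  | .v => v

/-- the weights -/
def famw (M e : ℕ) : I3 → ℕ
  | .a => M
  | .b => e * M + 1
  | .v => M

theorem scal3 [FiniteDimensional ℂ V] (𝒰 : Ultrafilter ℕ) {r : ℝ} (hr : 0 < r) {M e : ℕ} (hM : 1 ≤ M)
    {A B : ℕ → ℂ → ℂ} {v : ℕ → ℂ → V} {KA KB : ℂ → ℂ} {KV : ℂ → V}
    (hA : ∀ᶠ n in (𝒰 : Filter ℕ), DifferentiableOn ℂ (A n) (ball 0 r)) (hB : ∀ᶠ n in (𝒰 : Filter ℕ), DifferentiableOn ℂ (B n) (ball 0 r))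
    (hv : ∀ᶠ n in (𝒰 : Filter ℕ), DifferentiableOn ℂ (v n) (ball 0 r))
    (hKA : DifferentiableOn ℂ KA (ball 0 r)) (hKB : DifferentiableOn ℂ KB (ball 0 r)) (hKV : DifferentiableOn ℂ KV (ball 0 r))
    (hAl : TendstoLocallyUniformlyOn A (fun z => z ^ M * KA z) 𝒰 (ball 0 r))
    (hBl : TendstoLocallyUniformlyOn B (fun z => z ^ (e * M + 1) * KB z) 𝒰 (ball 0 r))
    (hvl : TendstoLocallyUniformlyOn v (fun z => z ^ M • KV z) 𝒰 (ball 0 r))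
    {c : ℕ → ℂ} (hc : Tendsto c 𝒰 (𝓝 0)) (hcv : ∀ᶠ n in (𝒰 : Filter ℕ), v n (c n) ≠ 0) :
    ∃ (lam : ℕ → ℝ) (pa pb : ℕ → ℂ) (pv : ℕ → V), Tendsto lam 𝒰 (𝓝 0) ∧ (∀ᶠ n in (𝒰 : Filter ℕ), 0 < lam n) ∧
      (∀ R : ℝ, TendstoUniformlyOn (fun n u => ((lam n : ℂ) ^ M)⁻¹ * A n (c n + lam n * u))
        (fun u => ∑ l ∈ range (M + 1), u ^ l * pa l) 𝒰 (closedBall 0 R)) ∧
      (∀ R : ℝ, TendstoUniformlyOn (fun n u => ((lam n : ℂ) ^ (e * M + 1))⁻¹ * B n (c n + lam n * u))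
        (fun u => ∑ l ∈ range (e * M + 1 + 1), u ^ l * pb l) 𝒰 (closedBall 0 R)) ∧
      (∀ R : ℝ, TendstoUniformlyOn (fun n u => ((lam n : ℂ) ^ M)⁻¹ • v n (c n + lam n * u))
        (fun u => ∑ l ∈ range (M + 1), u ^ l • pv l) 𝒰 (closedBall 0 R)) ∧
      pa M = KA 0 ∧ pb (e * M + 1) = KB 0 ∧ pv M = KV 0 ∧
      ¬ ((∀ l < M, pa l = 0) ∧ (∀ l < e * M + 1, pb l = 0) ∧ ∀ l < M, pv l = 0) ∧
      ∀ ε : ℝ, 0 < ε → ∃ R₀ δ : ℝ, 1 ≤ R₀ ∧ 0 < δ ∧ δ < r / 2 ∧ ∀ᶠ n in (𝒰 : Filter ℕ), ∀ z : ℂ, R₀ * lam n ≤ ‖z‖ → ‖z‖ ≤ δ →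
        ‖A n (c n + z) - z ^ M * KA 0‖ ≤ ε * ‖z‖ ^ M ∧ ‖B n (c n + z) - z ^ (e * M + 1) * KB 0‖ ≤ ε * ‖z‖ ^ (e * M + 1) ∧
          ‖v n (c n + z) - z ^ M • KV 0‖ ≤ ε * ‖z‖ ^ M := by
  obtain ⟨lam, q, h1, h2, h3, h4, h5, -, h6⟩ := scaling_family (E := E3 V) (f := fam A B v) (K := famK KA KB KV) (w := famw M e) 𝒰 hr
    (fun i => match i with
      | .a => hA
      | .b => hB
      | .v => hv)
    (fun i => match i with
      | .a => hKA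
      | .b => hKB
      | .v => hKV)
    (fun i => match i with
      | .a => hAl
      | .b => hBl
      | .v => hvl) hc (hcv.mono fun n hn => ⟨.v, hM, hn⟩)
  refine ⟨lam, q .a, q .b, q .v, h1, h2, h3 .a, h3 .b, h3 .v, h4 .a, h4 .b, h4 .v, fun h => h5 fun i => ?_, fun ε hε => ?_⟩
  · match i with
    | .a => exact h.1
    | .b => exact h.2.1
    | .v => exact h.2.2
  · obtain ⟨R₀, δ, hR, hδ, hδr, h7⟩ := h6 ε hε
    exact ⟨R₀, δ, hR, hδ, hδr, h7.mono fun n hn z hz1 hz2 => ⟨hn .a z hz1 hz2, hn .b z hz1 hz2, hn .v z hz1 hz2⟩⟩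

end Pool.Agent.SG
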