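import Pool.Agent.SY.Plug
import Pool.Agent.UC.Defs
import Pool.Agent.SG.RDef

/-!
# SG RStub: rational curves and the choice of the curve `T` (statements of the modules; never import this file in a hand-in)

`exists_form`: the rational curves of the surface lie in one curve `{G = 0}`, which does not touch a non-null direction at the given point `x`.
-/

set_option autoImplicit false

open Topology Filter Metric MvPolynomial

noncomputable section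

namespace Pool.Agent.SG.RStub

open Pool.Agent.H36.BP (EN fs OrdTwo)
open Pool.Agent.H14.PP (IsCone)
open Pool.Agent.H17BP (Surface IsChart Pr)
open Pool.Agent.H22.W (PseudoLength)
open Pool.Agent.H17EF (coneE GT)
open Pool.Agent.H17LG.Variety (FunField)
open Pool.Agent.H13.SM (conTan)
open Pool.Agent.H62.FC (Homog)
open Pool.Agent.UC (RatC)
open Pool.Agent.SY (NullIn)
open Pool.Agent.SG (lf)

variable {N : ℕ} {X : Set (EN N)}

/-- MODULE RatN (helper66): rational curves are null.  `n (K z) (K' z) ^ 2` is subharmonic and `O(|z|⁻⁴)`. -/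
theorem rat_null (hX : IsCone X) (n : PseudoLength X) {d : ℕ} {K K' : ℂ → EN N} (h : RatC X d K K') (z : ℂ) :
    n.toFun (K z) (deriv K z) = 0 := by
  sorry

/-- MODULE RatF (helper66): finitely many rational curves, up to the forms which vanish on them -/
theorem rat_finite {P : Ideal (MvPolynomial (Fin (N + 1)) ℂ)} [P.IsPrime] {z : Fin 2 → FunField P} (hP : Homog P) (hz : IsTranscendenceBasis ℂ z)
    (hX : IsCone (coneE P)) (n : PseudoLength (coneE P)) {R : MvPolynomial (Fin (N + 1)) ℂ} {e : ℕ} (hR : R.IsHomogeneous e) (hRP : R ∉ P)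
    (hn : NullIn P n R) :
    ∃ (r : ℕ) (d : Fin r → ℕ) (K K' : Fin r → ℂ → EN N), (∀ i, 1 ≤ d i ∧ RatC (coneE P) (d i) (K i) (K' i)) ∧
      ∀ (d₁ : ℕ) (K₁ K₁' : ℂ → EN N), 1 ≤ d₁ → RatC (coneE P) d₁ K₁ K₁' → ∃ i, ∀ (G : MvPolynomial (Fin (N + 1)) ℂ) (a : ℕ), G.IsHomogeneous a →
        (∀ z, eval (K i z).ofLp G = 0) → ∀ z, eval (K₁ z).ofLp G = 0 := by
  sorry

/-- MODULE RPol: a rational curve is given by polynomials of degree at most `d`. -/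
theorem ratC_poly (h0 : ∀ x ∈ X, x ≠ 0) {d : ℕ} {K K' : ℂ → EN N} (h : RatC X d K K') :
    ∃ p : Fin (N + 1) → Polynomial ℂ, (∀ i, (p i).natDegree ≤ d) ∧ (∀ z i, K z i = (p i).eval z) ∧ ∀ i, K' 0 i = (p i).coeff d := by
  sorry

/-- MODULE RSyl: the resultant.  The determinant of the linear map `(p, q) ↦ p (y₀ a₁ - y₁ a₀) + q (y₀ a₂ - y₂ a₀)` from the pairs of polynomials of
degree `< d` to the polynomials of degree `< 2 d`. -/
theorem exists_det {d : ℕ} (hd : 1 ≤ d) (a : Fin 3 → Polynomial ℂ) (ha : ∀ i, (a i).natDegree ≤ d) :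
    ∃ G : MvPolynomial (Fin 3) ℂ, G.IsHomogeneous (2 * d) ∧ ∀ y : Fin 3 → ℂ, eval y G = 0 ↔
      (∃ u : ℂ, y 0 * (a 1).eval u = y 1 * (a 0).eval u ∧ y 0 * (a 2).eval u = y 2 * (a 0).eval u) ∨
      (y 0 * (a 1).coeff d = y 1 * (a 0).coeff d ∧ y 0 * (a 2).coeff d = y 2 * (a 0).coeff d) := by
  sorry

/-- MODULE RPrj: the choice of the projection to the plane.  Finitely many proper subspaces of the space of the linear forms which vanish at `x` are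
avoided. -/
theorem exists_proj (hX : Surface X) {d : ℕ} {K K' : ℂ → EN N} (h : RatC X d K K') {σ : ℂ × ℂ → EN N} {τ : EN N → ℂ × ℂ} (hσ : IsChart X σ τ) :
    ∃ l : Fin 3 → Fin (N + 1) → ℂ, lf (l 0) (σ 0) = 1 ∧ lf (l 1) (σ 0) = 0 ∧ lf (l 2) (σ 0) = 0 ∧
      lf (l 1) (fderiv ℂ σ 0 (1, 0)) * lf (l 2) (fderiv ℂ σ 0 (0, 1)) - lf (l 1) (fderiv ℂ σ 0 (0, 1)) * lf (l 2) (fderiv ℂ σ 0 (1, 0)) ≠ 0 ∧
      (∀ u, lf (l 1) (K u) = 0 → lf (l 2) (K u) = 0 → Pr (K u) (σ 0)) ∧ (lf (l 1) (K' 0) = 0 → lf (l 2) (K' 0) = 0 → Pr (K' 0) (σ 0)) := by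
  sorry

/-- MODULE RLoc: the points of the cone over the projected curve near `σ 0` lie on the curve `K`.  (Compactness of the projective line; the projection
is injective near `σ 0`.) -/
theorem loc_curve (hX : Surface X) {d : ℕ} (hd : 1 ≤ d) {K K' : ℂ → EN N} (h : RatC X d K K') {σ : ℂ × ℂ → EN N} {τ : EN N → ℂ × ℂ} (hσ : IsChart X σ τ)
    {l : Fin 3 → Fin (N + 1) → ℂ} (h0 : lf (l 0) (σ 0) = 1) (h1 : lf (l 1) (σ 0) = 0) (h2 : lf (l 2) (σ 0) = 0)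
    (hdet : lf (l 1) (fderiv ℂ σ 0 (1, 0)) * lf (l 2) (fderiv ℂ σ 0 (0, 1)) - lf (l 1) (fderiv ℂ σ 0 (0, 1)) * lf (l 2) (fderiv ℂ σ 0 (1, 0)) ≠ 0)
    (hK : ∀ u, lf (l 1) (K u) = 0 → lf (l 2) (K u) = 0 → Pr (K u) (σ 0)) (hK' : lf (l 1) (K' 0) = 0 → lf (l 2) (K' 0) = 0 → Pr (K' 0) (σ 0))
    (𝒰 : Ultrafilter ℕ) {p : ℕ → ℂ × ℂ} (hp : Tendsto p 𝒰 (𝓝 0))
    (hG : ∀ᶠ k in (𝒰 : Filter ℕ), (∃ u : ℂ, lf (l 0) (σ (p k)) * lf (l 1) (K u) = lf (l 1) (σ (p k)) * lf (l 0) (K u) ∧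
        lf (l 0) (σ (p k)) * lf (l 2) (K u) = lf (l 2) (σ (p k)) * lf (l 0) (K u)) ∨
      (lf (l 0) (σ (p k)) * lf (l 1) (K' 0) = lf (l 1) (σ (p k)) * lf (l 0) (K' 0) ∧
        lf (l 0) (σ (p k)) * lf (l 2) (K' 0) = lf (l 2) (σ (p k)) * lf (l 0) (K' 0))) :
    ∃ (γ : ℂ → EN N) (v : ℕ → ℂ), ((∃ u₀ : ℂ, γ = fun z => K (u₀ + z)) ∨ γ = K') ∧ Pr (γ 0) (σ 0) ∧ Tendsto v 𝒰 (𝓝 0) ∧
      ∀ᶠ k in (𝒰 : Filter ℕ), Pr (γ (v k)) (σ (p k)) := by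
  sorry

/-- MODULE RSec (helper74, the second half of `SG/Sec.secant`): the tangent direction of a null curve -/
theorem sec_curve (hX : Surface X) (n : PseudoLength X) {γ : ℂ → EN N} (hγ : AnalyticAt ℂ γ 0) (hγX : ∀ᶠ z in 𝓝 (0 : ℂ), γ z ∈ X)
    (hn : ∀ᶠ z in 𝓝 (0 : ℂ), n.toFun (γ z) (deriv γ z) = 0) {σ : ℂ × ℂ → EN N} {τ : EN N → ℂ × ℂ} (hσ : IsChart X σ τ) (h0 : Pr (γ 0) (σ 0))
    (𝒰 : Ultrafilter ℕ) {s t : ℕ → ℂ} {v : ℕ → ℂ} (hs : Tendsto s 𝒰 (𝓝 0)) (ht : Tendsto t 𝒰 (𝓝 0)) (hv : Tendsto v 𝒰 (𝓝 0))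
    (hs0 : ∀ᶠ k in (𝒰 : Filter ℕ), s k ≠ 0) (hp : ∀ᶠ k in (𝒰 : Filter ℕ), Pr (γ (v k)) (σ (s k, s k * t k))) :
    n.toFun (σ 0) (fderiv ℂ σ 0 (1, 0)) = 0 := by
  sorry

/-- MODULE RX (helper14): one rational curve -/
theorem exists_form_one {P : Ideal (MvPolynomial (Fin (N + 1)) ℂ)} (hX : Surface (coneE P)) (hc : IsCone (coneE P)) (n : PseudoLength (coneE P))
    {d : ℕ} (hd : 1 ≤ d) {K K' : ℂ → EN N} (h : RatC (coneE P) d K K') {σ : ℂ × ℂ → EN N} {τ : EN N → ℂ × ℂ} (hσ : IsChart (coneE P) σ τ)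
    (hn : n.toFun (σ 0) (fderiv ℂ σ 0 (1, 0)) ≠ 0) :
    ∃ (G : MvPolynomial (Fin (N + 1)) ℂ) (e : ℕ), G.IsHomogeneous e ∧ (∀ z, eval (K z).ofLp G = 0) ∧
      ∀ᶠ p in 𝓝 (0 : ℂ × ℂ), eval (σ (p.1, p.1 * p.2)).ofLp G = 0 → p.1 = 0 := by
  sorry

/-- MODULE RX (helper14): the rational curves lie in one curve `{G = 0}`, which has no secants near the direction of the first axis. -/
theorem exists_form {P : Ideal (MvPolynomial (Fin (N + 1)) ℂ)} [P.IsPrime] {z : Fin 2 → FunField P} (hP : Homog P) (hz : IsTranscendenceBasis ℂ z)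
    (hX : Surface (coneE P)) (hc : IsCone (coneE P)) (n : PseudoLength (coneE P)) {R : MvPolynomial (Fin (N + 1)) ℂ} {e : ℕ}
    (hR : R.IsHomogeneous e) (hRP : R ∉ P) (hN : NullIn P n R) {σ : ℂ × ℂ → EN N} {τ : EN N → ℂ × ℂ} (hσ : IsChart (coneE P) σ τ)
    (hn : n.toFun (σ 0) (fderiv ℂ σ 0 (1, 0)) ≠ 0) :
    ∃ (G : MvPolynomial (Fin (N + 1)) ℂ) (a : ℕ), G.IsHomogeneous a ∧
      (∀ (d : ℕ) (K K' : ℂ → EN N), 1 ≤ d → RatC (coneE P) d K K' → ∀ z, eval (K z).ofLp G = 0) ∧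
      ∀ᶠ p in 𝓝 (0 : ℂ × ℂ), eval (σ (p.1, p.1 * p.2)).ofLp G = 0 → p.1 = 0 := by
  sorry

end Pool.Agent.SG.RStub
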