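import Pool.Agent.SG.RatN
import Pool.Agent.H13.CV.StrA
import Pool.Agent.H62.FC.Components

/-!
# SG RatF: there are finitely many rational curves

`finite_rat`: if the null curves of order two lie in `{R = 0}`, there are finitely many rational curves `K i` in `X` such that for every rational
curve `L` in `X` there is an `i` with: every form which vanishes on `K i` vanishes on `L`.
-/

set_option autoImplicit false

open Topology Filter Metric MvPolynomial

noncomputable section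

namespace Pool.Agent.SG

open Pool.Agent.H36.BP (EN)
open Pool.Agent.H14.PP (IsCone)
open Pool.Agent.H22.W (PseudoLength)
open Pool.Agent.H62.EF (Charts)
open Pool.Agent.H17 (PN VanishesAt HolomorphicInto)
open Pool.Agent.H17LG.Variety (FunField)
open Pool.Agent.H62.FC (Homog homog_of_minimal)
open Pool.Agent.H17EF (projVar coneE LE)
open Pool.Agent.H14.V (IsNull IsLift)
open Pool.Agent.H22.WL (vanishesAt_lift)
open Pool.Agent.H17BP (mapIdeal mapIdeal_isPrime mapIdeal_homog mem_mapIdeal_form le_mapIdeal trdeg_lt)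
open Pool.Agent.UC (RatC)
open Pool.Agent.SY (NullIn)

variable {N : ℕ} {P : Ideal (MvPolynomial (Fin (N + 1)) ℂ)}

/-- the ideal of a rational curve -/
def ratIdeal {X : Set (EN N)} {d : ℕ} {K K' : ℂ → EN N} (h0 : (0 : EN N) ∉ X) (h : RatC X d K K') :
    Ideal (MvPolynomial (Fin (N + 1)) ℂ) := mapIdeal (pj h0 h) Set.univ

theorem mem_ratIdeal {X : Set (EN N)} {d : ℕ} {K K' : ℂ → EN N} (h0 : (0 : EN N) ∉ X) (h : RatC X d K K') {Q : MvPolynomial (Fin (N + 1)) ℂ}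
    {m : ℕ} (hQ : Q.IsHomogeneous m) : Q ∈ ratIdeal h0 h ↔ ∀ z, eval (K z).ofLp Q = 0 := by
  unfold ratIdeal
  rw [mem_mapIdeal_form hQ]
  have hl := pj_lift h0 h
  constructor
  · intro h1 z
    exact (vanishesAt_lift hl hQ z).1 (h1 z (Set.mem_univ z))
  · intro h1 z _
    exact (vanishesAt_lift hl hQ z).2 (h1 z)

/-- the forms in `P`, and `R` -/
def gens (P : Ideal (MvPolynomial (Fin (N + 1)) ℂ)) (R : MvPolynomial (Fin (N + 1)) ℂ) :
    Option {q : MvPolynomial (Fin (N + 1)) ℂ × ℕ // q.1 ∈ P ∧ q.1.IsHomogeneous q.2} → MvPolynomial (Fin (N + 1)) ℂ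
  | none => R
  | some q => q.1.1

theorem le_gens (hP : Homog P) (R : MvPolynomial (Fin (N + 1)) ℂ) : P ≤ Ideal.span (Set.range (gens P R)) := by
  intro Q hQ
  rw [← MvPolynomial.sum_homogeneousComponent Q]
  refine Ideal.sum_mem _ fun i _ => Ideal.subset_span ⟨some ⟨(homogeneousComponent i Q, i), hP Q hQ i, homogeneousComponent_isHomogeneous i Q⟩, rfl⟩

/-- **The ideal of a rational curve is a minimal prime over `P` and `R`.** -/
theorem ratIdeal_minimal [P.IsPrime] {z : Fin 2 → FunField P} (hP : Homog P) (hz : IsTranscendenceBasis ℂ z) (hX : IsCone (coneE P))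
    (n : PseudoLength (coneE P)) {R : MvPolynomial (Fin (N + 1)) ℂ} {e : ℕ} (hR : R.IsHomogeneous e) (hRP : R ∉ P)
    (hnull : NullIn P n R) {d : ℕ} {K K' : ℂ → EN N} (h : RatC (coneE P) d K K') (hd : 1 ≤ d) :
    ratIdeal hX.zero_notMem h ∈ (Ideal.span (Set.range (gens P R))).minimalPrimes := by
  have hl := pj_lift hX.zero_notMem h
  have hJp : (ratIdeal hX.zero_notMem h).IsPrime := mapIdeal_isPrime isOpen_univ isPreconnected_univ Set.univ_nonempty hl.holomorphicInto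
  have hJX : ∃ i, (X i : MvPolynomial (Fin (N + 1)) ℂ) ∉ ratIdeal hX.zero_notMem h :=
    Pool.Agent.H17BP.exists_X_notMem (f := pj hX.zero_notMem h) Set.univ_nonempty
  have hJh : Homog (ratIdeal hX.zero_notMem h) := mapIdeal_homog
  have hgen : Ideal.span (Set.range (gens P R)) ≤ ratIdeal hX.zero_notMem h := by
    rw [Ideal.span_le]
    rintro _ ⟨l, rfl⟩
    rcases l with _ | ⟨⟨q, m⟩, hq, hqm⟩
    · exact (mem_ratIdeal hX.zero_notMem h hR).2 fun z => rat_in hP hX n hR hnull h hd z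
    · exact (mem_ratIdeal hX.zero_notMem h hqm).2 fun z => (h.mem z).2 q hq
  obtain ⟨p, hp, hpJ⟩ := Ideal.exists_minimalPrimes_le hgen
  have hpp : p.IsPrime := hp.1.1
  have hph : Homog p := by
    refine homog_of_minimal (A := gens P R) (e := fun l => match l with
      | none => e
      | some q => q.1.2) ?_ hp
    rintro (_ | q)
    · exact hR
    · exact q.2.2
  have hPp : P ≤ p := (le_gens hP R).trans hp.1.2
  have hRp : R ∈ p := hp.1.2 (Ideal.subset_span ⟨none, rfl⟩)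
  have hpX : ∃ i, (X i : MvPolynomial (Fin (N + 1)) ℂ) ∉ p := by
    obtain ⟨i, hi⟩ := hJX
    exact ⟨i, fun h1 => hi (hpJ h1)⟩
  have heq : p = ratIdeal hX.zero_notMem h := by
    refine le_antisymm hpJ ?_
    by_contra hne
    obtain ⟨v, hv⟩ := Pool.Agent.H62.FC.exists_fin_basis (P := p) hpX
    obtain ⟨w, hw⟩ := Pool.Agent.H62.FC.exists_fin_basis (P := ratIdeal hX.zero_notMem h) hJX
    have h1 : v < 2 := trdeg_lt hP hph hPp (fun h1 => hRP (h1 hRp)) hpX ⟨z, hz⟩ hv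
    have h2 : w < v := trdeg_lt hph hJh hpJ hne hJX hv hw
    have hw0 : w = 0 := by omega
    subst hw0
    obtain ⟨a, b, hab⟩ := pj_nonconst hX.zero_notMem h hd
    exact hab (Pool.Agent.H17BP.eq_of_trdeg_zero hJh hJX hw _ (Pool.Agent.H17BP.mem_variety_mapIdeal (Set.mem_univ a)) _
      (Pool.Agent.H17BP.mem_variety_mapIdeal (Set.mem_univ b)))
  rw [← heq]
  exact hp

/-- **Finitely many rational curves.** -/
theorem finite_rat [P.IsPrime] {z : Fin 2 → FunField P} (hP : Homog P) (hz : IsTranscendenceBasis ℂ z) (hX : IsCone (coneE P))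
    (n : PseudoLength (coneE P)) {R : MvPolynomial (Fin (N + 1)) ℂ} {e : ℕ} (hR : R.IsHomogeneous e) (hRP : R ∉ P)
    (hnull : NullIn P n R) : ∃ (r : ℕ) (d : Fin r → ℕ) (K K' : Fin r → ℂ → EN N), (∀ i, 1 ≤ d i ∧ RatC (coneE P) (d i) (K i) (K' i)) ∧
      ∀ (d₀ : ℕ) (L L' : ℂ → EN N), 1 ≤ d₀ → RatC (coneE P) d₀ L L' → ∃ i, ∀ (Q : MvPolynomial (Fin (N + 1)) ℂ) (m : ℕ), Q.IsHomogeneous m →
        ((∀ z, eval (K i z).ofLp Q = 0) ↔ ∀ z, eval (L z).ofLp Q = 0) := by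
  classical
  set S : Set (Ideal (MvPolynomial (Fin (N + 1)) ℂ)) :=
    {J | ∃ (d : ℕ) (K K' : ℂ → EN N) (h : RatC (coneE P) d K K'), 1 ≤ d ∧ J = ratIdeal hX.zero_notMem h} with hS
  have hfin : S.Finite := by
    refine (Ideal.finite_minimalPrimes_of_isNoetherianRing _ (Ideal.span (Set.range (gens P R)))).subset ?_
    rintro J ⟨d, K, K', h, hd, rfl⟩
    exact ratIdeal_minimal hP hz hX n hR hRP hnull h hd
  have hfs : ∀ i : Fin hfin.toFinset.card, ((hfin.toFinset.equivFin.symm i : hfin.toFinset) : Ideal _) ∈ S := fun i =>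
    hfin.mem_toFinset.1 (hfin.toFinset.equivFin.symm i).2
  choose d K K' h hd hJ using hfs
  refine ⟨hfin.toFinset.card, d, K, K', fun i => ⟨hd i, h i⟩, fun d₀ L L' hd₀ hL => ?_⟩
  have hmem : ratIdeal hX.zero_notMem hL ∈ hfin.toFinset := hfin.mem_toFinset.2 ⟨d₀, L, L', hL, hd₀, rfl⟩
  refine ⟨hfin.toFinset.equivFin ⟨_, hmem⟩, fun Q m hQ => ?_⟩
  rw [← mem_ratIdeal hX.zero_notMem (h _) hQ, ← mem_ratIdeal hX.zero_notMem hL hQ, ← hJ, Equiv.symm_apply_apply]

/-- the form of `RStub` -/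
theorem rat_finite [P.IsPrime] {z : Fin 2 → FunField P} (hP : Homog P) (hz : IsTranscendenceBasis ℂ z)
    (hX : IsCone (coneE P)) (n : PseudoLength (coneE P)) {R : MvPolynomial (Fin (N + 1)) ℂ} {e : ℕ} (hR : R.IsHomogeneous e) (hRP : R ∉ P)
    (hn : NullIn P n R) :
    ∃ (r : ℕ) (d : Fin r → ℕ) (K K' : Fin r → ℂ → EN N), (∀ i, 1 ≤ d i ∧ RatC (coneE P) (d i) (K i) (K' i)) ∧
      ∀ (d₁ : ℕ) (K₁ K₁' : ℂ → EN N), 1 ≤ d₁ → RatC (coneE P) d₁ K₁ K₁' → ∃ i, ∀ (G : MvPolynomial (Fin (N + 1)) ℂ) (a : ℕ), G.IsHomogeneous a →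
        (∀ z, eval (K i z).ofLp G = 0) → ∀ z, eval (K₁ z).ofLp G = 0 := by
  obtain ⟨r, d, K, K', h1, h2⟩ := finite_rat hP hz hX n hR hRP hn
  refine ⟨r, d, K, K', h1, fun d₁ K₁ K₁' hd h => ?_⟩
  obtain ⟨i, hi⟩ := h2 d₁ K₁ K₁' hd h
  exact ⟨i, fun G a hG hGK => (hi G a hG).1 hGK⟩

end Pool.Agent.SG
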