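import Pool.Agent.SY.Plug
import Pool.Agent.UC.NonC
import Pool.Agent.H22.W.Scale
import Pool.Agent.H22.WL.Proj

/-!
# SG RatN: the rational curves are null

A polynomial curve in `X` has length zero for every pseudo-length, and it is of order two.  So it lies in `{R = 0}` if the null curves of order two do.
-/

set_option autoImplicit false

open Topology Filter Metric MvPolynomial

noncomputable section

namespace Pool.Agent.SG

open Pool.Agent.H36.BP (EN fs wd OrdTwo)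
open Pool.Agent.H14.PP (IsCone Tan)
open Pool.Agent.H22.W (PseudoLength tan_entire const_length)
open Pool.Agent.H62.EF (Charts)
open Pool.Agent.H17 (PN VanishesAt HolomorphicInto)
open Pool.Agent.H17BP (Surface Pr)
open Pool.Agent.H62.FC (Homog)
open Pool.Agent.H13.OT (OrderTwo)
open Pool.Agent.H17EF (projVar coneE LE)
open Pool.Agent.H14.V (IsNull IsLift isLift_mk)
open Pool.Agent.H22.WL (evF evF_diff evF_smul vanishesAt_lift)
open Pool.Agent.UC (RatC)
open Pool.Agent.SY (NullIn)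

variable {N : ℕ} {X : Set (EN N)} {d : ℕ} {K K' : ℂ → EN N}

/-- polynomial growth -/
theorem rat_growth (h : RatC X d K K') : ∃ A : ℝ, 0 < A ∧ ∀ z, ‖K z‖ ≤ A * (1 + ‖z‖) ^ d := by
  obtain ⟨A, hA⟩ := (isCompact_closedBall (0 : ℂ) 1).exists_bound_of_continuousOn h.diff.continuous.continuousOn
  obtain ⟨B, hB⟩ := (isCompact_closedBall (0 : ℂ) 1).exists_bound_of_continuousOn h.diff'.continuous.continuousOn
  have hA0 : 0 ≤ A := (norm_nonneg _).trans (hA 0 (mem_closedBall_self zero_le_one))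
  have hB0 : 0 ≤ B := (norm_nonneg _).trans (hB 0 (mem_closedBall_self zero_le_one))
  refine ⟨A + B + 1, by linarith, fun z => ?_⟩
  have h1 : 0 ≤ ‖z‖ := norm_nonneg z
  rcases le_or_gt ‖z‖ 1 with hz | hz
  · have h2 := hA z (by rwa [mem_closedBall_zero_iff])
    have h3 : 1 ≤ (1 + ‖z‖) ^ d := one_le_pow₀ (by linarith)
    calc ‖K z‖ ≤ A := h2
      _ ≤ (A + B + 1) * 1 := by linarith
      _ ≤ (A + B + 1) * (1 + ‖z‖) ^ d := by gcongr
  · have hz0 : z ≠ 0 := by
      rintro rfl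
      rw [norm_zero] at hz
      linarith
    have h2 := hB z⁻¹ (by
      rw [mem_closedBall_zero_iff, norm_inv]
      exact inv_le_one_of_one_le₀ hz.le)
    rw [h.rel z hz0, norm_smul, norm_pow]
    calc ‖z‖ ^ d * ‖K' z⁻¹‖ ≤ (1 + ‖z‖) ^ d * (A + B + 1) := by
          gcongr
          · linarith
          · linarith
      _ = (A + B + 1) * (1 + ‖z‖) ^ d := mul_comm _ _

theorem log_growth (d : ℕ) {A r : ℝ} (hA : 0 < A) (hr : 0 ≤ r) : Real.log (A * (1 + r) ^ d) ≤ (|Real.log A| + d) * (1 + r ^ 2) := by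
  have h1 : 0 < 1 + r := by linarith
  rw [Real.log_mul hA.ne' (pow_ne_zero _ h1.ne'), Real.log_pow]
  have h2 : Real.log (1 + r) ≤ 1 + r ^ 2 := by
    have h3 := Real.log_le_sub_one_of_pos h1
    nlinarith [sq_nonneg (r - 1)]
  have h3 : Real.log A ≤ |Real.log A| * (1 + r ^ 2) := by
    have h4 := le_abs_self (Real.log A)
    nlinarith [abs_nonneg (Real.log A), mul_nonneg (abs_nonneg (Real.log A)) (sq_nonneg r)]
  have h4 : (d : ℝ) * Real.log (1 + r) ≤ d * (1 + r ^ 2) := by gcongr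
  linarith

/-- a polynomial curve is of order two -/
theorem rat_ordTwo (h : RatC X d K K') (h0 : (0 : EN N) ∉ X) : OrdTwo K := by
  obtain ⟨A, hA, hb⟩ := rat_growth h
  have hK0 : 0 < ‖K 0‖ := norm_pos_iff.2 fun h1 => h0 (h1 ▸ h.mem 0)
  refine ⟨|Real.log A| + d + |Real.log ‖K 0‖|, fun r hr => ?_⟩
  have hc : 0 < A * (1 + r) ^ d := by positivity
  have hc' : ((A * (1 + r) ^ d : ℝ) : ℂ)⁻¹ ≠ 0 := inv_ne_zero (by exact_mod_cast hc.ne')
  refine ⟨fun z => ((A * (1 + r) ^ d : ℝ) : ℂ)⁻¹ • K z, (h.diff.fun_const_smul _).differentiableOn, fun z hz => ?_, ?_, fun z _ => Or.inr ?_⟩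
  · rw [norm_smul, norm_inv, Complex.norm_real, Real.norm_of_nonneg hc.le, inv_mul_le_iff₀ hc, mul_one]
    rw [mem_ball_zero_iff] at hz
    refine (hb z).trans ?_
    gcongr
  · rw [norm_smul, norm_inv, Complex.norm_real, Real.norm_of_nonneg hc.le, ← Real.exp_log hc, ← Real.exp_neg, ← Real.exp_log hK0, ← Real.exp_add,
      Real.exp_le_exp]
    have h1 := log_growth d hA hr.le
    rw [Real.exp_log hK0]
    have h2 := neg_abs_le (Real.log ‖K 0‖)
    have h3 : |Real.log ‖K 0‖| ≤ |Real.log ‖K 0‖| * (1 + r ^ 2) := by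
      nlinarith [abs_nonneg (Real.log ‖K 0‖), mul_nonneg (abs_nonneg (Real.log ‖K 0‖)) (sq_nonneg r)]
    nlinarith
  · refine ⟨((A * (1 + r) ^ d : ℝ) : ℂ), by exact_mod_cast hc.ne', ?_⟩
    rw [smul_smul, mul_inv_cancel₀ (by exact_mod_cast hc.ne'), one_smul]

theorem tan_fiber {x v : EN N} (h : Tan X x v) (a : ℂ) : Tan X x (a • v) := by
  obtain ⟨F, ⟨hF, hFX⟩, h0, h1⟩ := h
  have hl : HasDerivAt (fun t : ℂ => a * t) a 0 := by
    simpa using (hasDerivAt_id (0 : ℂ)).const_mul a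
  have hla : AnalyticAt ℂ (fun t : ℂ => a * t) 0 := analyticAt_const.mul analyticAt_id
  have hF' : HasDerivAt F v (a * 0) := by
    rw [mul_zero, ← h1]
    exact hF.differentiableAt.hasDerivAt
  have hc : HasDerivAt (fun t : ℂ => F (a * t)) (a • v) 0 := hF'.scomp 0 hl
  refine ⟨fun t => F (a * t), ⟨AnalyticAt.comp_of_eq hF hla (mul_zero a), ?_⟩, (congrArg F (mul_zero a)).trans h0, hc.deriv⟩
  have h2 : Tendsto (fun t : ℂ => a * t) (𝓝 0) (𝓝 0) := by
    have := hla.continuousAt.tendsto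
    rwa [mul_zero] at this
  exact h2.eventually hFX

/-- the length at infinity -/
theorem rat_inf (hX : IsCone X) (n : PseudoLength X) (h : RatC X d K K') {u : ℂ} (hu : u ≠ 0) :
    n.toFun (K u⁻¹) (deriv K u⁻¹) = ‖u‖ ^ 2 * n.toFun (K' u) (deriv K' u) := by
  have hz : u⁻¹ ≠ 0 := inv_ne_zero hu
  have hl : (u⁻¹) ^ d ≠ 0 := pow_ne_zero d hz
  have hder : deriv K u⁻¹ = (u⁻¹) ^ d • ((-(u ^ 2)) • deriv K' u) + ((d : ℂ) * u) • ((u⁻¹) ^ d • K' u) := by
    have h1 : K =ᶠ[𝓝 u⁻¹] fun w => w ^ d • K' w⁻¹ := by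
      filter_upwards [isOpen_ne.mem_nhds hz] with w hw
      exact h.rel w hw
    have h2 : HasDerivAt (fun w : ℂ => w⁻¹) (-((u⁻¹) ^ 2)⁻¹) u⁻¹ := hasDerivAt_inv hz
    have h3' : HasDerivAt K' (deriv K' u) (u⁻¹)⁻¹ := by
      rw [inv_inv]
      exact (h.diff' u).hasDerivAt
    have h3 : HasDerivAt (fun w : ℂ => K' w⁻¹) ((-((u⁻¹) ^ 2)⁻¹) • deriv K' u) u⁻¹ := HasDerivAt.scomp _ h3' h2
    have h4 : HasDerivAt (fun w : ℂ => w ^ d) ((d : ℂ) * (u⁻¹) ^ (d - 1)) u⁻¹ := hasDerivAt_pow d u⁻¹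
    have h5 : HasDerivAt (fun w : ℂ => w ^ d • K' w⁻¹) ((u⁻¹) ^ d • ((-((u⁻¹) ^ 2)⁻¹) • deriv K' u) +
        ((d : ℂ) * (u⁻¹) ^ (d - 1)) • K' (u⁻¹)⁻¹) u⁻¹ := h4.smul h3
    rw [h1.deriv_eq, h5.deriv, inv_inv, inv_pow u 2, inv_inv, smul_smul ((d : ℂ) * u)]
    congr 2
    rcases Nat.eq_zero_or_pos d with rfl | hd
    · simp
    · obtain ⟨d', rfl⟩ : ∃ d', d = d' + 1 := ⟨d - 1, by omega⟩
      rw [Nat.add_sub_cancel, pow_succ]
      field_simp
  have hKu : K u⁻¹ = (u⁻¹) ^ d • K' u := by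
    rw [h.rel _ hz, inv_inv]
  have ht : Tan X (K' u) (deriv K' u) := tan_entire h.diff' h.mem' u
  have ht2 : Tan X (K' u) ((-(u ^ 2)) • deriv K' u) := tan_fiber ht _
  rw [hder, hKu, n.add_smul _ _ (Pool.Agent.H22.W.tan_smul hX ht2 hl), n.scale _ _ ht2 _ hl, n.smul _ _ ht, norm_neg, norm_pow]

/-- **Polynomial curves are null.** -/
theorem rat_null (hX : IsCone X) (n : PseudoLength X) {d : ℕ} {K K' : ℂ → EN N} (h : RatC X d K K') (z : ℂ) :
    n.toFun (K z) (deriv K z) = 0 := by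
  -- a bound at infinity
  obtain ⟨B, hB⟩ := (isCompact_closedBall (0 : ℂ) 1).exists_bound_of_continuousOn (n.continuous_curve h.diff' h.mem').continuousOn
  have hB0 : 0 ≤ B := (norm_nonneg _).trans (hB 0 (mem_closedBall_self zero_le_one))
  have hfar : ∀ w : ℂ, 1 ≤ ‖w‖ → n.toFun (K w) (deriv K w) ≤ B / ‖w‖ ^ 2 := by
    intro w hw
    have hw0 : w ≠ 0 := by
      rintro rfl
      rw [norm_zero] at hw
      linarith
    have h1 := rat_inf hX n h (inv_ne_zero hw0)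
    rw [inv_inv] at h1
    rw [h1, norm_inv, inv_pow, div_eq_inv_mul]
    refine mul_le_mul_of_nonneg_left ((le_abs_self _).trans (hB _ ?_)) (by positivity)
    rw [mem_closedBall_zero_iff, norm_inv]
    exact inv_le_one_of_one_le₀ hw
  have hn0 : ∀ w, 0 ≤ n.toFun (K w) (deriv K w) := fun w => n.nonneg _ _ (tan_entire h.diff h.mem w)
  have hcont : Continuous fun w => n.toFun (K w) (deriv K w) ^ 2 := (n.continuous_curve h.diff h.mem).pow 2
  -- the means over large circles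
  have hmean : ∀ r : ℝ, ‖z‖ + 1 < r → n.toFun (K z) (deriv K z) ^ 2 ≤ (B / (r - ‖z‖) ^ 2) ^ 2 := by
    intro r hr
    have hz0 := norm_nonneg z
    have hr0 : 0 < r := by linarith
    refine (n.curved Set.univ K isOpen_univ h.diff.differentiableOn (fun z _ => h.mem z) z r hr0 (Set.subset_univ _)).trans ?_
    refine Real.circleAverage_mono_on_of_le_circle (hcont.continuousOn.circleIntegrable hr0.le) fun w hw => ?_
    rw [mem_sphere_iff_norm, abs_of_pos hr0] at hw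
    have h1 : r - ‖z‖ ≤ ‖w‖ := by
      have h2 := norm_sub_le w z
      linarith
    have h2 : 1 ≤ r - ‖z‖ := by linarith
    refine pow_le_pow_left₀ (hn0 w) ((hfar w (h2.trans h1)).trans ?_) 2
    gcongr
  have hlim : Tendsto (fun r : ℝ => (B / (r - ‖z‖) ^ 2) ^ 2) atTop (𝓝 0) := by
    have h1 : Tendsto (fun r : ℝ => (r - ‖z‖) ^ 2) atTop atTop :=
      (tendsto_pow_atTop two_ne_zero).comp (tendsto_atTop_add_const_right _ (-‖z‖) tendsto_id)
    have h2 := (h1.const_div_atTop B).pow 2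
    rw [zero_pow two_ne_zero] at h2
    exact h2
  have h1 : n.toFun (K z) (deriv K z) ^ 2 ≤ 0 := ge_of_tendsto hlim (by
    filter_upwards [eventually_gt_atTop (‖z‖ + 1)] with r hr
    exact hmean r hr)
  have h2 : n.toFun (K z) (deriv K z) ^ 2 = 0 := le_antisymm h1 (sq_nonneg _)
  exact pow_eq_zero_iff two_ne_zero |>.1 h2

/-- there is no rational curve of positive degree in a line -/
theorem rat_line (h0 : (0 : EN N) ∉ X) (h : RatC X d K K') (hd : 1 ≤ d) {x : EN N} (hx : x ≠ 0) {f : ℂ → ℂ} (hf : ∀ z, K z = f z • x) : False := by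
  obtain ⟨ℓ, hℓ⟩ : ∃ ℓ : EN N →L[ℂ] ℂ, ℓ x = 1 := by
    obtain ⟨g, -, hg⟩ := exists_dual_vector ℂ x (norm_ne_zero_iff.2 hx)
    refine ⟨((‖x‖ : ℂ)⁻¹) • g, ?_⟩
    rw [smul_apply, hg]
    have : (‖x‖ : ℂ) ≠ 0 := by exact_mod_cast norm_ne_zero_iff.2 hx
    simp [this]
  have hfℓ : ∀ z, ℓ (K z) = f z := fun z => by rw [hf, map_smul, hℓ, smul_eq_mul, mul_one]
  have hfd : Differentiable ℂ f := by
    have h1 : Differentiable ℂ fun z => ℓ (K z) := ℓ.differentiable.comp h.diff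
    exact (funext hfℓ : (fun z => ℓ (K z)) = f) ▸ h1
  have hf0 : ∀ z, f z ≠ 0 := by
    intro z hz
    have h1 := h.mem z
    rw [hf, hz, zero_smul] at h1
    exact h0 h1
  have hrel : ∀ u : ℂ, u ≠ 0 → K' u = (u ^ d * f u⁻¹) • x := by
    intro u hu
    have h1 := h.rel u⁻¹ (inv_ne_zero hu)
    rw [inv_inv, hf] at h1
    rw [mul_smul, h1, smul_smul, ← mul_pow, mul_inv_cancel₀ hu, one_pow, one_smul]
  have hK' : ∀ u, K' u = ℓ (K' u) • x := by
    have h1 : Set.EqOn K' (fun u => ℓ (K' u) • x) {u | u ≠ 0} := by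
      intro u hu
      change K' u = ℓ (K' u) • x
      rw [hrel u hu, map_smul, hℓ, smul_eq_mul, mul_one]
    have h2 : Dense {u : ℂ | u ≠ 0} := dense_compl_singleton 0
    have h3 := Continuous.ext_on h2 h.diff'.continuous
      ((ℓ.continuous.comp h.diff'.continuous).smul continuous_const) h1
    exact fun u => congrFun h3 u
  have hμ0 : ℓ (K' 0) ≠ 0 := by
    intro h1
    have h2 := h.mem' 0
    rw [hK' 0, h1, zero_smul] at h2
    exact h0 h2
  have h1 : Tendsto (fun z => (f z)⁻¹) (cocompact ℂ) (𝓝 0) := by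
    have h2 : Tendsto (fun z : ℂ => z⁻¹) (cocompact ℂ) (𝓝 0) := by
      rw [← Metric.cobounded_eq_cocompact]
      exact tendsto_inv₀_cobounded
    have h3 : Tendsto (fun z : ℂ => ((ℓ (K' z⁻¹))⁻¹) * (z⁻¹) ^ d) (cocompact ℂ) (𝓝 ((ℓ (K' 0))⁻¹ * 0 ^ d)) := by
      refine Tendsto.mul ?_ (h2.pow d)
      refine Tendsto.inv₀ ?_ hμ0
      exact ((ℓ.continuous.comp h.diff'.continuous).tendsto 0).comp h2
    rw [zero_pow (by omega), mul_zero] at h3
    refine h3.congr' ?_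
    have h4 : ∀ᶠ z : ℂ in cocompact ℂ, z ≠ 0 := by
      rw [← Metric.cobounded_eq_cocompact]
      exact Bornology.eventually_ne_cobounded 0
    filter_upwards [h4] with z hz
    have h5 := h.rel z hz
    have h6 : f z = z ^ d * ℓ (K' z⁻¹) := by rw [← hfℓ, h5, map_smul, smul_eq_mul]
    rw [h6, mul_inv, inv_pow]
    ring
  have h2 := (hfd.inv hf0).apply_eq_of_tendsto_cocompact 0 h1
  exact inv_ne_zero (hf0 0) h2

/-- a rational curve of positive degree is not constant -/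
theorem rat_nonconst (h0 : (0 : EN N) ∉ X) (h : RatC X d K K') (hd : 1 ≤ d) : ∃ z w, ∀ c : ℂ, K z ≠ c • K w := by
  by_contra hcon
  push Not at hcon
  choose f hf using fun z => hcon z 0
  exact rat_line h0 h hd (fun h1 => h0 (h1 ▸ h.mem 0)) hf

variable {P : Ideal (MvPolynomial (Fin (N + 1)) ℂ)}

/-- the curve in the projective space -/
def pj (h0 : (0 : EN N) ∉ X) (h : RatC X d K K') (z : ℂ) : PN N :=
  Projectivization.mk ℂ (K z).ofLp fun h1 => h0 (by
    have h2 : K z = 0 := WithLp.ofLp_injective 2 h1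
    exact h2 ▸ h.mem z)

theorem pj_lift (h0 : (0 : EN N) ∉ X) (h : RatC X d K K') : IsLift K (pj h0 h) :=
  isLift_mk h.diff fun z h1 => h0 (by
    have h2 : K z = 0 := WithLp.ofLp_injective 2 h1
    exact h2 ▸ h.mem z)

theorem pj_nonconst (h0 : (0 : EN N) ∉ X) (h : RatC X d K K') (hd : 1 ≤ d) : ∃ z w, pj h0 h z ≠ pj h0 h w := by
  obtain ⟨z, w, hzw⟩ := rat_nonconst h0 h hd
  refine ⟨z, w, fun h1 => ?_⟩
  unfold pj at h1
  rw [Projectivization.mk_eq_mk_iff'] at h1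
  obtain ⟨a, ha⟩ := h1
  exact hzw a (WithLp.ofLp_injective 2 ha.symm)

theorem pj_orderTwo (h0 : (0 : EN N) ∉ X) (h : RatC X d K K') : OrderTwo (pj h0 h) := by
  obtain ⟨A, hA, hb⟩ := rat_growth h
  have hne : ∀ z, (K z).ofLp ≠ 0 := fun z h1 => h0 (by
    have h2 : K z = 0 := WithLp.ofLp_injective 2 h1
    exact h2 ▸ h.mem z)
  have hd : Differentiable ℂ fun z => (K z).ofLp := (LE N).symm.differentiable.comp h.diff
  refine ⟨fun z => (K z).ofLp, |Real.log A| + d, hd, fun z => ⟨hne z, rfl⟩, fun r hr => ?_⟩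
  have hcont : Continuous fun z => Real.log ‖(K z).ofLp‖ :=
    Continuous.log hd.continuous.norm fun z => norm_ne_zero_iff.2 (hne z)
  refine Real.circleAverage_mono_on_of_le_circle (hcont.continuousOn.circleIntegrable hr.le) fun z hz => ?_
  rw [mem_sphere_zero_iff_norm, abs_of_pos hr] at hz
  have h1 : ‖(K z).ofLp‖ ≤ ‖K z‖ := by
    rw [pi_norm_le_iff_of_nonneg (norm_nonneg _)]
    exact fun i => PiLp.norm_apply_le (K z) i
  refine (Real.log_le_log (norm_pos_iff.2 (hne z)) (h1.trans (hb z))).trans ?_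
  rw [hz]
  exact log_growth d hA hr.le

/-- **The rational curves lie in `{R = 0}`.** -/
theorem rat_in (hP : Homog P) (hX : IsCone (coneE P)) (n : PseudoLength (coneE P))
    {R : MvPolynomial (Fin (N + 1)) ℂ} {e : ℕ} (hR : R.IsHomogeneous e) (hnull : NullIn P n R) (h : RatC (coneE P) d K K') (hd : 1 ≤ d) (z : ℂ) :
    eval (K z).ofLp R = 0 := by
  have hl := pj_lift hX.zero_notMem h
  rw [← vanishesAt_lift hl hR]
  exact hnull _ hl.holomorphicInto (pj_orderTwo hX.zero_notMem h) (fun z => (hl.mem_iff hP z).2 (h.mem z)) (pj_nonconst hX.zero_notMem h hd)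
    ⟨K, hl, fun z => rat_null hX n h z⟩ z

end Pool.Agent.SG
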