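import Pool.Agent.H17BP.ChartC
import Pool.Agent.H74.NB.CC

/-!
# SG Sel: curve selection

`exists_germ`: points `p k → 0`, `p k ≠ 0`, on the zero set of a germ `f` with a resolution (`ResN n f`) lie on a curve germ in the zero set.
-/

set_option autoImplicit false

open Topology Filter Metric

noncomputable section

namespace Pool.Agent.SG

open Pool.Agent.H17BP (Bihol Mono Coord ResN BChart bl blInf bchart_bl bchart_blInf)
open Pool.Agent.H74.NB (exists_lim)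

variable {𝒰 : Ultrafilter ℕ}

/-- the curve `c` passes through the points `p k` for parameters which tend to `0` -/
def Thr (𝒰 : Ultrafilter ℕ) (f : ℂ × ℂ → ℂ) (p : ℕ → ℂ × ℂ) : Prop :=
  ∃ (c : ℂ → ℂ × ℂ) (v : ℕ → ℂ), AnalyticAt ℂ c 0 ∧ c 0 = 0 ∧ (∀ᶠ z in 𝓝 0, f (c z) = 0) ∧ Tendsto v 𝒰 (𝓝 0) ∧
    ∀ᶠ k in (𝒰 : Filter ℕ), c (v k) = p k

private theorem thr_of_zero {f S T u : ℂ × ℂ → ℂ} {a b : ℕ} (hST : Bihol fun x => (S x, T x)) (hev : ∀ᶠ x in 𝓝 0, f x = S x ^ a * T x ^ b * u x)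
    (ha : a ≠ 0) {p : ℕ → ℂ × ℂ} (hp : Tendsto p 𝒰 (𝓝 0)) (hS : ∀ᶠ k in (𝒰 : Filter ℕ), S (p k) = 0) : Thr 𝒰 f p := by
  obtain ⟨θ', h1, h2, h3, h4⟩ := hST.inv
  have hc : AnalyticAt ℂ (fun z : ℂ => θ' (0, z)) 0 := by
    have h5 : AnalyticAt ℂ (fun z : ℂ => ((0 : ℂ), z)) 0 := analyticAt_const.prod analyticAt_id
    exact AnalyticAt.fun_comp (g := θ') (f := fun z : ℂ => ((0 : ℂ), z)) h1 h5
  have hc0 : θ' (0, 0) = 0 := h2
  have ht : Tendsto (fun z : ℂ => ((0 : ℂ), z)) (𝓝 0) (𝓝 (0 : ℂ × ℂ)) := by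
    have : Continuous (fun z : ℂ => ((0 : ℂ), z)) := by fun_prop
    exact this.tendsto 0
  have hct : Tendsto (fun z : ℂ => θ' (0, z)) (𝓝 0) (𝓝 0) := by
    have := hc.continuousAt.tendsto
    rwa [hc0] at this
  refine ⟨fun z => θ' (0, z), fun k => T (p k), hc, hc0, ?_, ?_, ?_⟩
  · filter_upwards [hct.eventually hev, ht.eventually h4] with z hz1 hz2
    have hz3 : S (θ' (0, z)) = 0 := congrArg Prod.fst hz2
    rw [hz1, hz3, zero_pow ha, zero_mul, zero_mul]
  · have h5 : Tendsto (fun k => (S (p k), T (p k))) 𝒰 (𝓝 0) := hST.tendsto.comp hp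
    exact (continuous_snd.tendsto _).comp h5
  · filter_upwards [hS, hp.eventually h3] with k hk1 hk2
    rw [← hk1]
    exact hk2

private theorem aux {x : ℂ} {a : ℕ} (h : x ^ a = 0) : a ≠ 0 ∧ x = 0 := by
  have h1 : a ≠ 0 := by
    rintro rfl
    rw [pow_zero] at h
    exact one_ne_zero h
  exact ⟨h1, (pow_eq_zero_iff h1).1 h⟩

/-- **Curve selection.** -/
theorem exists_germ : ∀ (n : ℕ) (f : ℂ × ℂ → ℂ), ResN n f → ∀ (𝒰 : Ultrafilter ℕ) (p : ℕ → ℂ × ℂ), Tendsto p 𝒰 (𝓝 0) →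
    (∀ᶠ k in (𝒰 : Filter ℕ), p k ≠ 0) → (∀ᶠ k in (𝒰 : Filter ℕ), f (p k) = 0) → Thr 𝒰 f p := by
  have hmono : ∀ (f : ℂ × ℂ → ℂ), Mono f → ∀ (𝒰 : Ultrafilter ℕ) (p : ℕ → ℂ × ℂ), Tendsto p 𝒰 (𝓝 0) →
      (∀ᶠ k in (𝒰 : Filter ℕ), f (p k) = 0) → Thr 𝒰 f p := by
    rintro f ⟨S, T, a, b, u, hST, hu, hu0, hev⟩ 𝒰 p hp hf
    have h1 : ∀ᶠ k in (𝒰 : Filter ℕ), (a ≠ 0 ∧ S (p k) = 0) ∨ (b ≠ 0 ∧ T (p k) = 0) := by
      filter_upwards [hf, hp.eventually hev, hp.eventually (hu.continuousAt.eventually_ne hu0)] with k h1 h2 h3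
      rw [h1] at h2
      rcases mul_eq_zero.1 h2.symm with h4 | h4
      · rcases mul_eq_zero.1 h4 with h5 | h5
        · exact Or.inl (aux h5)
        · exact Or.inr (aux h5)
      · exact absurd h4 h3
    rcases Ultrafilter.eventually_or.1 h1 with h2 | h2
    · obtain ⟨k, hk⟩ := h2.exists
      exact thr_of_zero hST hev hk.1 hp (h2.mono fun k hk => hk.2)
    · obtain ⟨k, hk⟩ := h2.exists
      have hTS : Bihol fun x => (T x, S x) := hST.symm
      refine thr_of_zero (a := b) (b := a) (u := u) hTS ?_ hk.1 hp (h2.mono fun k hk => hk.2)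
      filter_upwards [hev] with x hx
      rw [hx]
      ring
  intro n
  induction n with
  | zero => exact fun f hf 𝒰 p hp _ hz => hmono f hf 𝒰 p hp hz
  | succ n ih =>
    intro f hf 𝒰 p hp hp0 hz
    rcases hf with hf | hf
    · exact hmono f hf 𝒰 p hp hz
    have hstep : ∀ (β : ℂ × ℂ → ℂ × ℂ) (p' : ℕ → ℂ × ℂ), BChart β → Tendsto p' 𝒰 (𝓝 0) → (∀ᶠ k in (𝒰 : Filter ℕ), p' k ≠ 0) →
        (∀ᶠ k in (𝒰 : Filter ℕ), β (p' k) = p k) → Thr 𝒰 f p := by
      intro β p' hβ h1 h2 h3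
      obtain ⟨c, v, g1, g2, g3, g4, g5⟩ := ih (f ∘ β) (hf β hβ) 𝒰 p' h1 h2 (by
        filter_upwards [hz, h3] with k hk1 hk2
        show f (β (p' k)) = 0
        rw [hk2, hk1])
      refine ⟨fun z => β (c z), v, ?_, ?_, g3, g4, ?_⟩
      · have h4 : AnalyticAt ℂ β (c 0) := by rw [g2]; exact hβ.an
        exact h4.fun_comp g1
      · show β (c 0) = 0
        rw [g2, hβ.zero]
      · filter_upwards [g5, h3] with k hk1 hk2
        rw [hk1, hk2]
    have h1 : ∀ᶠ k in (𝒰 : Filter ℕ), ((p k).1 ≠ 0 ∧ ‖(p k).2 / (p k).1‖ ≤ 1) ∨ ((p k).2 ≠ 0 ∧ ‖(p k).1 / (p k).2‖ ≤ 1) := by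
      filter_upwards [hp0] with k hk
      rcases le_total ‖(p k).2‖ ‖(p k).1‖ with h1 | h1
      · left
        have h2 : (p k).1 ≠ 0 := by
          intro h2
          rw [h2, norm_zero, norm_le_zero_iff] at h1
          exact hk (Prod.ext h2 h1)
        refine ⟨h2, ?_⟩
        rw [norm_div]
        exact div_le_one_of_le₀ h1 (norm_nonneg _)
      · right
        have h2 : (p k).2 ≠ 0 := by
          intro h2
          rw [h2, norm_zero, norm_le_zero_iff] at h1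
          exact hk (Prod.ext h1 h2)
        refine ⟨h2, ?_⟩
        rw [norm_div]
        exact div_le_one_of_le₀ h1 (norm_nonneg _)
    have hp1 : Tendsto (fun k => (p k).1) 𝒰 (𝓝 0) := (continuous_fst.tendsto (0 : ℂ × ℂ)).comp hp
    have hp2 : Tendsto (fun k => (p k).2) 𝒰 (𝓝 0) := (continuous_snd.tendsto (0 : ℂ × ℂ)).comp hp
    rcases Ultrafilter.eventually_or.1 h1 with h2 | h2
    · obtain ⟨c, -, hc⟩ := exists_lim (𝒰 := 𝒰) (isCompact_closedBall (0 : ℂ) 1) (x := fun k => (p k).2 / (p k).1) (by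
        filter_upwards [h2] with k hk
        rw [mem_closedBall_zero_iff]
        exact hk.2)
      refine hstep (bl c) (fun k => ((p k).1, (p k).2 / (p k).1 - c)) (bchart_bl c) ?_ ?_ ?_
      · have h3 := hc.sub_const c
        rw [sub_self] at h3
        exact hp1.prodMk_nhds h3
      · filter_upwards [h2] with k hk h3
        exact hk.1 (congrArg Prod.fst h3)
      · filter_upwards [h2] with k hk
        unfold bl
        refine Prod.ext rfl ?_
        show (p k).1 * (c + ((p k).2 / (p k).1 - c)) = (p k).2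
        rw [add_sub_cancel, mul_div_cancel₀ _ hk.1]
    · obtain ⟨c, -, hc⟩ := exists_lim (𝒰 := 𝒰) (isCompact_closedBall (0 : ℂ) 1) (x := fun k => (p k).1 / (p k).2) (by
        filter_upwards [h2] with k hk
        rw [mem_closedBall_zero_iff]
        exact hk.2)
      have hsw : Bihol (fun x : ℂ × ℂ => (x.2, x.1)) :=
        ⟨analyticAt_snd.prod analyticAt_fst, rfl, fun x => (x.2, x.1), analyticAt_snd.prod analyticAt_fst, rfl,
          Eventually.of_forall fun _ => rfl, Eventually.of_forall fun _ => rfl⟩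
      refine hstep ((fun x : ℂ × ℂ => (x.2, x.1)) ∘ bl c) (fun k => ((p k).2, (p k).1 / (p k).2 - c)) ((bchart_bl c).comp_left hsw) ?_ ?_ ?_
      · have h3 := hc.sub_const c
        rw [sub_self] at h3
        exact hp2.prodMk_nhds h3
      · filter_upwards [h2] with k hk h3
        exact hk.1 (congrArg Prod.fst h3)
      · filter_upwards [h2] with k hk
        unfold bl
        refine Prod.ext ?_ rfl
        show (p k).2 * (c + ((p k).1 / (p k).2 - c)) = (p k).1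
        rw [add_sub_cancel, mul_div_cancel₀ _ hk.1]

end Pool.Agent.SG
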